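import Pool.Agent.Helper16.FKGroup
set_option autoImplicit false
set_option linter.unusedSectionVars false
open scoped Matrix

namespace Pool.Agent.Helper16.FK

section RootBound

variable {H : Type*} [Group H] [Fintype H] [DecidableEq H]

lemma rho_mulVec (g : H) (v : H → ℂ) (h : H) : (rho g *ᵥ v) h = v (h * g) := by
  simp only [Matrix.mulVec, dotProduct, rho_apply]
  rw [Finset.sum_eq_single (h * g)]
  · simp
  · intro b _ hb
    simp [Ne.symm hb]
  · simp

lemma Smat_mulVec (a t : H) (v : H → ℂ) (h : H) :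
    (Smat a t *ᵥ v) h = v (h * a) + v (h * t * a) := by
  rw [Smat, add_mul, one_mul, Matrix.add_mulVec, Pi.add_apply, rho_mulVec, ← map_mul,
    rho_mulVec, mul_assoc]

lemma Smat_root_le (a t : H) (μ : ℂ) (hμ : μ ∈ (Smat a t).charpoly.roots) : ‖μ‖ ≤ 2 := by
  obtain ⟨v, hv, h⟩ := exists_eigenvector _ μ hμ
  obtain ⟨h₀, hmax⟩ := Finite.exists_max (fun h => ‖v h‖)
  have hpos : 0 < ‖v h₀‖ := by
    by_contra hle
    apply hv
    ext h
    have h1 : ‖v h‖ ≤ 0 := (hmax h).trans (not_lt.mp hle)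
    simpa using le_antisymm h1 (norm_nonneg _)
  have h1 : ‖μ‖ * ‖v h₀‖ ≤ 2 * ‖v h₀‖ := by
    have h2 := congrFun h h₀
    rw [Smat_mulVec, Pi.smul_apply, smul_eq_mul] at h2
    rw [← norm_mul, ← h2]
    calc ‖v (h₀ * a) + v (h₀ * t * a)‖ ≤ ‖v (h₀ * a)‖ + ‖v (h₀ * t * a)‖ := norm_add_le _ _
      _ ≤ ‖v h₀‖ + ‖v h₀‖ := add_le_add (hmax _) (hmax _)
      _ = 2 * ‖v h₀‖ := by ring
  exact le_of_mul_le_mul_right h1 hpos

/-- integrality -/
lemma one_le_norm_det (a t : H) : 1 ≤ ‖(1 - (28 : ℂ) • Smat a t).det‖ := by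
  let M : Matrix H H ℤ := Matrix.of fun h k => (if h * a = k then 1 else 0) +
    (if h * (t * a) = k then 1 else 0)
  have hta : rho t * rho a = rho (t * a) := (map_mul rho t a).symm
  have h1 : (1 - (28 : ℂ) • Smat a t) = (1 - (28 : ℤ) • M).map (Int.castRingHom ℂ) := by
    ext h k
    rw [Smat, add_mul, one_mul, hta]
    have hr1 : rho a h k = if h * a = k then (1 : ℂ) else 0 := rfl
    have hr2 : rho (t * a) h k = if h * (t * a) = k then (1 : ℂ) else 0 := rfl
    have hM : M h k = (if h * a = k then 1 else 0) + (if h * (t * a) = k then 1 else 0) := rfl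
    rw [Matrix.map_apply, Matrix.sub_apply, Matrix.sub_apply, Matrix.smul_apply,
      Matrix.smul_apply, Matrix.add_apply, hr1, hr2, hM, Matrix.one_apply, Matrix.one_apply]
    split_ifs <;> norm_num
  rw [h1, ← RingHom.mapMatrix_apply, ← RingHom.map_det]
  have h2 : (1 - (28 : ℤ) • M).det ≠ 0 := by
    intro h0
    have h3 := congrArg (Int.castRingHom (ZMod 2)) h0
    rw [RingHom.map_det, RingHom.mapMatrix_apply, map_zero] at h3
    have h4 : (1 - (28 : ℤ) • M).map (Int.castRingHom (ZMod 2)) = 1 := by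
      ext h k
      simp only [Matrix.sub_apply, Matrix.smul_apply, Matrix.map_apply, smul_eq_mul,
        map_sub, map_mul]
      have : (Int.castRingHom (ZMod 2)) 28 = 0 := by decide
      rw [this, zero_mul, sub_zero]
      by_cases hk : h = k <;> simp [Matrix.one_apply, hk]
    rw [h4, Matrix.det_one] at h3
    exact one_ne_zero h3
  have h3 : (1 : ℤ) ≤ |(1 - (28 : ℤ) • M).det| := Int.one_le_abs h2
  have h4 : ‖((Int.castRingHom ℂ) (1 - (28 : ℤ) • M).det)‖ = |((1 - (28 : ℤ) • M).det : ℝ)| := by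
    rw [eq_intCast, Complex.norm_intCast]
  rw [h4]
  exact_mod_cast h3

end RootBound

section Abstract

variable {H : Type*} [Group H] [Fintype H] [DecidableEq H] {a t c : H}

lemma Smat_mul_Jmat {Q : Type*} [Group Q] [Fintype Q] [DecidableEq Q] (π : H →* Q) :
    Smat a t * Jmat π = Jmat π * Smat (π a) (π t) := by
  unfold Smat
  rw [Matrix.mul_assoc, rho_mul_Jmat, ← Matrix.mul_assoc, Matrix.add_mul, Matrix.one_mul,
    rho_mul_Jmat, ← Matrix.mul_assoc, Matrix.mul_add, Matrix.mul_one]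

lemma Smat_comm_rho (u : H) (hu : ∀ h, Commute u h) : Commute (Smat a t) (rho u) := by
  have h1 : ∀ g, Commute (rho g) (rho u) := by
    intro g
    change _ * _ = _ * _
    rw [← map_mul, ← map_mul, (hu g).eq]
  unfold Smat
  exact ((Commute.one_left _).add_left (h1 t)).mul_left (h1 a)

variable (hcc : ∀ h, Commute c h) (hat : a * t = t * a * c)

/-- even case: upper bound. -/
theorem even_bound (hcc : ∀ h, Commute c h) (hat : a * t = t * a * c) (k : ℕ)
    (ha : a ^ (2 ^ (k+1)) = 1) (ht : t ^ (2 ^ (k+1)) = 1) (hu : orderOf (c ^ (2 ^ k)) = 2) :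
    ‖(1 - (28 : ℂ) • Smat a t).det‖ ^ 2 ≤ 57 ^ Fintype.card H := by
  classical
  set u := c ^ (2 ^ k) with hudef
  have hucc : ∀ h, Commute u h := fun h => (hcc h).pow_left _
  have hn : (Subgroup.zpowers u).Normal := by
    refine ⟨fun x hx g => ?_⟩
    obtain ⟨i, rfl⟩ := Subgroup.mem_zpowers_iff.mp hx
    have : g * u ^ i * g⁻¹ = u ^ i := by
      rw [← ((hucc g).zpow_left i).eq, mul_assoc, mul_inv_cancel, mul_one]
    rw [this]
    exact hx
  let Q := H ⧸ Subgroup.zpowers u
  let π : H →* Q := QuotientGroup.mk' (Subgroup.zpowers u)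
  letI : Fintype Q := Fintype.ofFinite Q
  have hfib := card_fib u
  rw [hu] at hfib
  have hcard : Fintype.card H = Fintype.card Q * 2 := by
    have := Subgroup.card_eq_card_quotient_mul_card_subgroup (Subgroup.zpowers u)
    rw [Nat.card_zpowers, hu, Nat.card_eq_fintype_card, Nat.card_eq_fintype_card] at this
    exact this
  have htc : Commute t c := (hcc t).symm
  have hac : Commute a c := (hcc a).symm
  set E := Emat π 2 with hE
  have hJJ : Jmat π * (Jmat π)ᵀ = 1 + rho u := by
    have := Jmat_quot u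
    rw [hu, Finset.sum_range_succ, Finset.sum_range_one, pow_zero, pow_one] at this
    exact this
  have hcomm : Smat a t * E = E * Smat a t := by
    have : Commute (Smat a t) E := by
      rw [hE, Emat, hJJ]
      exact ((Commute.one_right _).add_right (Smat_comm_rho u hucc)).smul_right _
    exact this.eq
  have hEsq : E * E = E := Emat_sq π 2 two_ne_zero hfib
  -- the power of `S`
  obtain ⟨q, hq⟩ := prod_two' k (-XX) YY
  have hprod : ∏ j ∈ Finset.range (2 ^ (k+1)), (1 + XX * YY ^ j)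
      = 1 - (-XX) ^ (2 ^ (k+1)) + (1 + YY ^ (2 ^ k)) * q := by
    rw [← hq]
    refine Finset.prod_congr rfl fun j _ => ?_
    ring
  have hS : Smat a t ^ (2 ^ (k+1)) = theta t c htc q * (1 + rho u) := by
    rw [Smat_pow htc hac hat, ← map_pow, ha, map_one, mul_one, hprod]
    have h1 : (-XX) ^ (2 ^ (k+1)) = XX ^ (2 ^ (k+1)) := by
      rw [pow_succ, pow_mul', neg_sq, ← pow_mul']
    rw [h1, mul_comm _ q]
    simp only [map_add, map_sub, map_mul, map_pow, map_one, theta_XX, theta_YY]
    rw [← map_pow, ht, map_one, sub_self, zero_add, ← map_pow]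
  have hnil : (Smat a t * (1 - E)) ^ (2 ^ (k+1)) = 0 := by
    have hc2 : Commute (Smat a t) (1 - E) := (Commute.one_right _).sub_right hcomm
    have hF : ∀ j : ℕ, (1 - E) ^ (j + 1) = 1 - E := by
      intro j
      induction j with
      | zero => simp
      | succ j ih =>
        rw [pow_succ, ih, mul_sub, mul_one, sub_mul, one_mul, hEsq, sub_self, sub_zero]
    have h2 : (1 - E) ^ (2 ^ (k+1)) = 1 - E := by
      obtain ⟨j, hj⟩ : ∃ j, 2 ^ (k+1) = j + 1 := ⟨2 ^ (k+1) - 1, by
        have : 0 < 2 ^ (k+1) := by positivity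
        omega⟩
      rw [hj, hF]
    rw [hc2.mul_pow, hS, h2]
    have h3 : (1 + rho u : Matrix H H ℂ) = (2 : ℂ) • E := by
      rw [hE, Emat, hJJ, smul_smul]
      norm_num
    rw [h3, mul_assoc, smul_mul_assoc, mul_sub, mul_one, hEsq, sub_self, smul_zero, mul_zero]
  have hsplit := det_split π 2 two_ne_zero hfib (Smat a t) (Smat (π a) (π t))
    (Smat_mul_Jmat π) hcomm 28
  have hone : (1 - (28 : ℂ) • (Smat a t * (1 - E))).det = 1 := by
    have := det_one_sub_nilpotent (Smat a t * (1 - E)) 28 (by norm_num) _ hnil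
    simpa using this
  rw [hsplit, hone, mul_one]
  have hb := norm_det_one_sub_le (Smat (π a) (π t)) 28 2 (by norm_num) (Smat_root_le _ _)
  have hb' : ‖(1 - (28 : ℂ) • Smat (π a) (π t)).det‖ ≤ 57 ^ Fintype.card Q := by
    have : (1 + (28:ℝ) * 2) = 57 := by norm_num
    rw [this] at hb
    simpa using hb
  calc ‖(1 - (28 : ℂ) • Smat (π a) (π t)).det‖ ^ 2 ≤ (57 ^ Fintype.card Q) ^ 2 := by
        gcongr
    _ = 57 ^ Fintype.card H := by rw [← pow_mul, ← hcard]

/-- odd case: lower bound. -/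
theorem odd_bound (hcc : ∀ h, Commute c h) (hat : a * t = t * a * c) (k : ℕ)
    (ha : a ^ (3 ^ (k+1)) = 1) (ht : t ^ (3 ^ (k+1)) = 1) (hu : orderOf (c ^ (3 ^ k)) = 3) :
    9 ^ Fintype.card H ≤ ‖(1 - (28 : ℂ) • Smat a t).det‖ := by
  classical
  set u := c ^ (3 ^ k) with hudef
  have hucc : ∀ h, Commute u h := fun h => (hcc h).pow_left _
  have hn : (Subgroup.zpowers u).Normal := by
    refine ⟨fun x hx g => ?_⟩
    obtain ⟨i, rfl⟩ := Subgroup.mem_zpowers_iff.mp hx
    have : g * u ^ i * g⁻¹ = u ^ i := by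
      rw [← ((hucc g).zpow_left i).eq, mul_assoc, mul_inv_cancel, mul_one]
    rw [this]
    exact hx
  let Q := H ⧸ Subgroup.zpowers u
  let π : H →* Q := QuotientGroup.mk' (Subgroup.zpowers u)
  letI : Fintype Q := Fintype.ofFinite Q
  have hfib := card_fib u
  rw [hu] at hfib
  have hcard : Fintype.card H = Fintype.card Q * 3 := by
    have := Subgroup.card_eq_card_quotient_mul_card_subgroup (Subgroup.zpowers u)
    rw [Nat.card_zpowers, hu, Nat.card_eq_fintype_card, Nat.card_eq_fintype_card] at this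
    exact this
  have htc : Commute t c := (hcc t).symm
  have hac : Commute a c := (hcc a).symm
  set E := Emat π 3 with hE
  have hJJ : Jmat π * (Jmat π)ᵀ = 1 + rho u + rho u ^ 2 := by
    have := Jmat_quot u
    rw [hu, Finset.sum_range_succ, Finset.sum_range_succ, Finset.sum_range_one, pow_zero,
      pow_one] at this
    exact this
  have hcomm : Smat a t * E = E * Smat a t := by
    have : Commute (Smat a t) E := by
      rw [hE, Emat, hJJ]
      exact (((Commute.one_right _).add_right (Smat_comm_rho u hucc)).add_right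
        ((Smat_comm_rho u hucc).pow_right 2)).smul_right _
    exact this.eq
  have hEsq : E * E = E := Emat_sq π 3 three_ne_zero hfib
  obtain ⟨q, hq⟩ := prod_three' k (-XX) YY
  have hprod : ∏ j ∈ Finset.range (3 ^ (k+1)), (1 + XX * YY ^ j)
      = 1 - (-XX) ^ (3 ^ (k+1)) + (1 + YY ^ (3 ^ k) + (YY ^ (3 ^ k)) ^ 2) * q := by
    rw [← hq]
    refine Finset.prod_congr rfl fun j _ => ?_
    ring
  have hS : Smat a t ^ (3 ^ (k+1)) = (2 : ℂ) • 1 + theta t c htc q * (1 + rho u + rho u ^ 2) := by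
    rw [Smat_pow htc hac hat, ← map_pow, ha, map_one, mul_one, hprod]
    have hodd : Odd (3 ^ (k+1)) := Odd.pow (by decide)
    rw [hodd.neg_pow, sub_neg_eq_add, mul_comm _ q]
    simp only [map_add, map_mul, map_pow, map_one, theta_XX, theta_YY]
    rw [← map_pow, ht, map_one, ← map_pow (rho) c (3 ^ k)]
    congr 1
    rw [two_smul]
  have hF : ∀ j : ℕ, (1 - E) ^ (j + 1) = 1 - E := by
    intro j
    induction j with
    | zero => simp
    | succ j ih =>
      rw [pow_succ, ih, mul_sub, mul_one, sub_mul, one_mul, hEsq, sub_self, sub_zero]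
  have hpow : (Smat a t * (1 - E)) ^ (3 ^ (k+1)) = (2 : ℂ) • (1 - E) := by
    have hc2 : Commute (Smat a t) (1 - E) := (Commute.one_right _).sub_right hcomm
    have h2 : (1 - E) ^ (3 ^ (k+1)) = 1 - E := by
      obtain ⟨j, hj⟩ : ∃ j, 3 ^ (k+1) = j + 1 := ⟨3 ^ (k+1) - 1, by
        have : 0 < 3 ^ (k+1) := by positivity
        omega⟩
      rw [hj, hF]
    rw [hc2.mul_pow, hS, h2]
    have h3 : (1 + rho u + rho u ^ 2 : Matrix H H ℂ) = (3 : ℂ) • E := by
      rw [hE, Emat, hJJ, smul_smul]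
      norm_num
    rw [h3, add_mul, mul_assoc, smul_mul_assoc, smul_mul_assoc, one_mul, mul_sub, mul_one, hEsq,
      sub_self, smul_zero, mul_zero, add_zero]
  have hsplit := det_split π 3 three_ne_zero hfib (Smat a t) (Smat (π a) (π t))
    (Smat_mul_Jmat π) hcomm 28
  have hFsq : (1 - E) * (1 - E) = 1 - E := by
    have := hF 1
    rwa [pow_succ, pow_one] at this
  have hlow := norm_det_one_sub_ge (Smat a t * (1 - E)) (1 - E) 28 (by norm_num) _ hFsq hpow
    (Fintype.card Q) (finrank_ker_le π 3 three_ne_zero hfib)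
  have hint := one_le_norm_det (π a) (π t)
  rw [hsplit, norm_mul]
  have hlow' : (27 : ℝ) ^ (Fintype.card H - Fintype.card Q)
      ≤ ‖(1 - (28 : ℂ) • (Smat a t * (1 - E))).det‖ := by
    have : ((28:ℝ) - 1) = 27 := by norm_num
    rw [this] at hlow
    simpa using hlow
  calc (9 : ℝ) ^ Fintype.card H = 27 ^ (Fintype.card H - Fintype.card Q) := by
        rw [hcard, show Fintype.card Q * 3 - Fintype.card Q = 2 * Fintype.card Q by omega]
        rw [mul_comm (Fintype.card Q) 3, pow_mul, pow_mul]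
        norm_num
    _ = 1 * 27 ^ (Fintype.card H - Fintype.card Q) := (one_mul _).symm
    _ ≤ _ := mul_le_mul hint hlow' (by positivity) (norm_nonneg _)

end Abstract

end Pool.Agent.Helper16.FK
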