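import Mathlib
set_option autoImplicit false
open scoped ENNReal InnerProductSpace
open MeasureTheory

namespace Pool.Agent.Helper16.FK

section Hilbert

variable {H : Type*} [NormedAddCommGroup H] [InnerProductSpace ℂ H] [CompleteSpace H]
  {ι : Type*} [Fintype ι]

/-- For a bounded operator `T` on a Hilbert space `H` and a finite family `v` of vectors: the
positive linear functional `φ ↦ ∑ i, ⟨φ(T) v_i, v_i⟩` on the compactly supported continuous real
functions (`φ(T)` is the continuous functional calculus; `T` is self-adjoint in our uses). -/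
noncomputable def traceFunctional (T : H →L[ℂ] H) (v : ι → H) :
    CompactlySupportedContinuousMap ℝ ℝ →ₚ[ℝ] ℝ where
  toFun φ := ∑ i, (⟪cfc (fun x => φ x) T (v i), v i⟫_ℂ).re
  map_add' φ ψ := by
    have : cfc (fun x => (φ + ψ) x) T
        = cfc (fun x => φ x) T + cfc (fun x => ψ x) T := by
      rw [← cfc_add T (fun x => φ x) (fun x => ψ x)
        φ.continuous.continuousOn ψ.continuous.continuousOn]
      rfl
    rw [this]
    simp [Finset.sum_add_distrib]
  map_smul' c φ := by
    have : cfc (fun x => (c • φ) x) T = c • cfc (fun x => φ x) T := by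
      rw [← cfc_smul c (fun x => φ x) T φ.continuous.continuousOn]
      rfl
    rw [this]
    simp only [_root_.smul_apply, RingHom.id_apply, smul_eq_mul, Finset.mul_sum]
    refine Finset.sum_congr rfl fun i _ => ?_
    rw [← Complex.coe_smul, inner_smul_left]
    simp
  monotone' φ ψ h := by
    have h1 : cfc (fun x => φ x) T ≤ cfc (fun x => ψ x) T := 
      cfc_mono (fun x _ => h x) φ.continuous.continuousOn ψ.continuous.continuousOn
    rw [ContinuousLinearMap.le_def] at h1
    refine Finset.sum_le_sum fun i _ => ?_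
    have := h1.re_inner_nonneg_left (v i)
    simpa [inner_sub_left] using this

/-- The unique regular Borel measure `μ` on the line with
`∫ φ dμ = ∑ i, ⟨φ(T) v_i, v_i⟩` for all compactly supported continuous `φ`. -/
noncomputable def spectralMeasure (T : H →L[ℂ] H) (v : ι → H) : Measure ℝ :=
  RealRMK.rieszMeasure (traceFunctional T v)

/-- The operator `f^* f`. -/
noncomputable def sqOp {K : Type*} [NormedAddCommGroup K] [InnerProductSpace ℂ K]
    [CompleteSpace K] (f : H →L[ℂ] K) : H →L[ℂ] H :=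
  (ContinuousLinearMap.adjoint f).comp f

end Hilbert

/-- The Hilbert space `L²(G)^ι` of square-summable functions `ι × G → ℂ`. -/
def L2 (G ι : Type*) : Type _ := lp (fun _ : ι × G => ℂ) 2

noncomputable instance instL2Normed (G ι : Type*) : NormedAddCommGroup (L2 G ι) :=
  lp.normedAddCommGroup (E := fun _ : ι × G => ℂ) (p := 2)

noncomputable instance instL2Inner (G ι : Type*) : InnerProductSpace ℂ (L2 G ι) :=
  lp.instInnerProductSpace (𝕜 := ℂ) (G := fun _ : ι × G => ℂ)

instance instL2Complete (G ι : Type*) : CompleteSpace (L2 G ι) :=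
  inferInstanceAs (CompleteSpace (lp (fun _ : ι × G => ℂ) 2))

/-- An element of `L²(G)^ι` as a function. -/
def L2.val {G ι : Type*} (x : L2 G ι) : ι × G → ℂ := Subtype.val x

/-- The element of `L²(G)^ι` given by a square-summable function. -/
def L2.mk {G ι : Type*} (f : ι × G → ℂ) (hf : Memℓp f 2) : L2 G ι := ⟨f, hf⟩

namespace L2

variable {G ι : Type*}

@[simp] lemma val_mk (f : ι × G → ℂ) (hf : Memℓp f 2) : (L2.mk f hf).val = f := rfl

lemma ext' {x y : L2 G ι} (h : ∀ p, x.val p = y.val p) : x = y := Subtype.ext (funext h)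

@[simp] lemma val_add (x y : L2 G ι) (p : ι × G) : (x + y).val p = x.val p + y.val p := rfl

@[simp] lemma val_smul (c : ℂ) (x : L2 G ι) (p : ι × G) : (c • x).val p = c * x.val p := rfl

@[simp] lemma val_zero (p : ι × G) : (0 : L2 G ι).val p = 0 := rfl

lemma val_sum {α : Type*} (s : Finset α) (f : α → L2 G ι) (p : ι × G) :
    (∑ a ∈ s, f a).val p = ∑ a ∈ s, (f a).val p := by
  classical
  induction s using Finset.induction_on with
  | empty => simp
  | insert a s ha ih => rw [Finset.sum_insert ha, Finset.sum_insert ha, val_add, ih]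

lemma memℓp_val (x : L2 G ι) : Memℓp x.val 2 := lp.memℓp x

lemma inner_def (x y : L2 G ι) : ⟪x, y⟫_ℂ = ∑' p, ⟪x.val p, y.val p⟫_ℂ :=
  lp.inner_eq_tsum (𝕜 := ℂ) (G := fun _ : ι × G => ℂ) x y

lemma norm_rpow (x : L2 G ι) :
    ‖x‖ ^ (2 : ℝ≥0∞).toReal = ∑' p, ‖x.val p‖ ^ (2 : ℝ≥0∞).toReal :=
  lp.norm_rpow_eq_tsum (E := fun _ : ι × G => ℂ) (by norm_num) x

lemma norm_le_of_sum_le {C : ℝ} (hC : 0 ≤ C) (x : L2 G ι)
    (h : ∀ s : Finset (ι × G), ∑ p ∈ s, ‖x.val p‖ ^ (2 : ℝ≥0∞).toReal
      ≤ C ^ (2 : ℝ≥0∞).toReal) : ‖x‖ ≤ C :=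
  lp.norm_le_of_forall_sum_le (E := fun _ : ι × G => ℂ) (by norm_num) hC h

end L2

section Ops

variable {G : Type*} [Group G] {ι κ : Type*}

lemma memℓp_shift [DecidableEq κ] (i : ι) (j : κ) (g : G) (x : L2 G ι) :
    Memℓp (fun p : κ × G => if p.1 = j then x.val (i, p.2 * g⁻¹) else 0) 2 := by
  apply memℓp_gen
  have hx : Summable fun p : ι × G => ‖x.val p‖ ^ (2 : ℝ≥0∞).toReal :=
    x.memℓp_val.summable (by norm_num)
  have hinj : Function.Injective (fun h : G => ((j, h) : κ × G)) := fun a b hab => by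
    simpa using hab
  have hinj2 : Function.Injective (fun h : G => ((i, h * g⁻¹) : ι × G)) := fun a b hab => by
    simpa using hab
  rw [← hinj.summable_iff]
  · have := hx.comp_injective hinj2
    simpa [Function.comp_def] using this
  · rintro ⟨j', h⟩ hp
    have : j' ≠ j := by
      rintro rfl
      exact hp ⟨h, rfl⟩
    simp [this]

/-- The linear map `L²(G)^ι → L²(G)^κ` sending `x` to the vector whose `j`-th coordinate is
`x_i · g`, that is `h ↦ x_i (h g⁻¹)`, and whose other coordinates are zero. -/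
noncomputable def elemLin [DecidableEq κ] (i : ι) (j : κ) (g : G) : L2 G ι →ₗ[ℂ] L2 G κ where
  toFun x := L2.mk (fun p : κ × G => if p.1 = j then x.val (i, p.2 * g⁻¹) else 0)
    (memℓp_shift i j g x)
  map_add' x y := by
    apply L2.ext'
    intro p
    simp only [L2.val_mk, L2.val_add]
    by_cases h : p.1 = j <;> simp [h]
  map_smul' c x := by
    apply L2.ext'
    intro p
    simp only [L2.val_mk, L2.val_smul, RingHom.id_apply]
    by_cases h : p.1 = j <;> simp [h]

lemma elemLin_bound [DecidableEq κ] (i : ι) (j : κ) (g : G) (x : L2 G ι) :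
    ‖elemLin i j g x‖ ≤ 1 * ‖x‖ := by
  rw [one_mul]
  refine L2.norm_le_of_sum_le (norm_nonneg x) _ ?_
  intro s
  have hx : Summable fun p : ι × G => ‖x.val p‖ ^ (2 : ℝ≥0∞).toReal :=
    x.memℓp_val.summable (by norm_num)
  rw [L2.norm_rpow x]
  classical
  calc ∑ p ∈ s, ‖(if p.1 = j then x.val (i, p.2 * g⁻¹) else 0 : ℂ)‖ ^ (2 : ℝ≥0∞).toReal
      = ∑ p ∈ s.filter (fun p => p.1 = j), ‖x.val (i, p.2 * g⁻¹)‖ ^ (2 : ℝ≥0∞).toReal := by
        rw [Finset.sum_filter]
        refine Finset.sum_congr rfl fun p _ => ?_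
        by_cases h : p.1 = j <;> simp [h]
    _ = ∑ q ∈ (s.filter (fun p => p.1 = j)).image (fun p => ((i, p.2 * g⁻¹) : ι × G)),
          ‖x.val q‖ ^ (2 : ℝ≥0∞).toReal := by
        rw [Finset.sum_image]
        rintro ⟨a, b⟩ ha ⟨c, d⟩ hc hh
        simp only [Finset.coe_filter, Set.mem_ofPred_eq] at ha hc
        simp only [Prod.mk.injEq, mul_left_inj, true_and] at hh
        simp [ha.2, hc.2, hh]
    _ ≤ ∑' p, ‖x.val p‖ ^ (2 : ℝ≥0∞).toReal :=
        hx.sum_le_tsum _ (fun p _ => by positivity)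

/-- `elemLin` as a bounded operator. -/
noncomputable def elemOp [DecidableEq κ] (i : ι) (j : κ) (g : G) : L2 G ι →L[ℂ] L2 G κ :=
  LinearMap.mkContinuous (elemLin i j g) 1 (elemLin_bound i j g)

lemma elemOp_apply [DecidableEq κ] (i : ι) (j : κ) (g : G) (x : L2 G ι) (p : κ × G) :
    (elemOp i j g x).val p = if p.1 = j then x.val (i, p.2 * g⁻¹) else 0 := rfl

/-- The function `x A` on `κ × G` for `x ∈ L²(G)^ι` and `A ∈ M_{ι,κ}(ℚG)`, whose value at
`(j, h)` is `∑_i ∑_g A_{ij}(g) x_i(h g⁻¹)`. -/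
noncomputable def mulFun [Fintype ι] (A : Matrix ι κ (MonoidAlgebra ℚ G)) (x : L2 G ι) :
    κ × G → ℂ :=
  fun p => ∑ i, ∑ g ∈ (A i p.1).coeff.support, (((A i p.1).coeff g : ℚ) : ℂ) * x.val (i, p.2 * g⁻¹)

/-- Auxiliary description of `mulFun` as a bounded operator. -/
noncomputable def rightMulAux [Fintype ι] [Fintype κ] [DecidableEq κ]
    (A : Matrix ι κ (MonoidAlgebra ℚ G)) : L2 G ι →L[ℂ] L2 G κ :=
  ∑ i, ∑ j, ∑ g ∈ (A i j).coeff.support, (((A i j).coeff g : ℚ) : ℂ) • elemOp i j g

lemma rightMulAux_val [Fintype ι] [Fintype κ] [DecidableEq κ]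
    (A : Matrix ι κ (MonoidAlgebra ℚ G)) (x : L2 G ι) :
    (rightMulAux A x).val = mulFun A x := by
  funext p
  unfold rightMulAux mulFun
  simp only [_root_.sum_apply, L2.val_sum]
  refine Finset.sum_congr rfl fun i _ => ?_
  rw [Finset.sum_eq_single p.1]
  · refine Finset.sum_congr rfl fun g _ => ?_
    change _ * (elemOp i p.1 g x).val p = _
    rw [elemOp_apply, if_pos rfl]
  · intro j _ hj
    refine Finset.sum_eq_zero fun g _ => ?_
    change _ * (elemOp i j g x).val p = _
    rw [elemOp_apply, if_neg (Ne.symm hj), mul_zero]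
  · simp

lemma memℓp_mulFun [Fintype ι] [Fintype κ] (A : Matrix ι κ (MonoidAlgebra ℚ G)) (x : L2 G ι) :
    Memℓp (mulFun A x) 2 := by
  classical
  rw [← rightMulAux_val]
  exact L2.memℓp_val _

/-- The vector `x A ∈ L²(G)^κ`. -/
noncomputable def mulVec [Fintype ι] [Fintype κ] (A : Matrix ι κ (MonoidAlgebra ℚ G))
    (x : L2 G ι) : L2 G κ :=
  L2.mk (mulFun A x) (memℓp_mulFun A x)

lemma mulVec_eq [Fintype ι] [Fintype κ] [DecidableEq κ] (A : Matrix ι κ (MonoidAlgebra ℚ G))
    (x : L2 G ι) : mulVec A x = rightMulAux A x := by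
  apply L2.ext'
  intro p
  rw [rightMulAux_val]
  rfl

lemma mulVec_add [Fintype ι] [Fintype κ] (A : Matrix ι κ (MonoidAlgebra ℚ G))
    (x y : L2 G ι) : mulVec A (x + y) = mulVec A x + mulVec A y := by
  classical
  rw [mulVec_eq, mulVec_eq, mulVec_eq, map_add]

lemma mulVec_smul [Fintype ι] [Fintype κ] (A : Matrix ι κ (MonoidAlgebra ℚ G))
    (c : ℂ) (x : L2 G ι) : mulVec A (c • x) = c • mulVec A x := by
  classical
  rw [mulVec_eq, mulVec_eq, map_smul]

lemma continuous_mulVec [Fintype ι] [Fintype κ] (A : Matrix ι κ (MonoidAlgebra ℚ G)) :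
    Continuous (mulVec A) := by
  classical
  have : mulVec A = fun x => rightMulAux A x := funext fun x => mulVec_eq A x
  rw [this]
  exact (rightMulAux A).continuous

/-- The operator `r_A^{(2)} : L²(G)^ι → L²(G)^κ`, `x ↦ x A`, for `A ∈ M_{ι,κ}(ℚG)`. -/
noncomputable def rightMul [Fintype ι] [Fintype κ]
    (A : Matrix ι κ (MonoidAlgebra ℚ G)) : L2 G ι →L[ℂ] L2 G κ where
  toFun := mulVec A
  map_add' := mulVec_add A
  map_smul' := mulVec_smul A
  cont := continuous_mulVec A

lemma rightMul_eq [Fintype ι] [Fintype κ] [DecidableEq κ]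
    (A : Matrix ι κ (MonoidAlgebra ℚ G)) : rightMul A = rightMulAux A := by
  ext1 x
  exact mulVec_eq A x

open Classical in
lemma memℓp_unit (G : Type*) [Group G] {ι : Type*} (i : ι) :
    Memℓp (fun p : ι × G => if p = (i, 1) then (1 : ℂ) else 0) 2 := by
  apply memℓp_gen
  refine summable_of_ne_finset_zero (s := {(i, (1 : G))}) fun p hp => ?_
  rw [Finset.mem_singleton] at hp
  simp [hp]

open Classical in
/-- The standard vector `e_i ∈ L²(G)^ι` : the unit of `G` in the `i`-th coordinate. -/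
noncomputable def unitVec (G : Type*) [Group G] {ι : Type*} (i : ι) : L2 G ι :=
  L2.mk (fun p : ι × G => if p = (i, 1) then (1 : ℂ) else 0) (memℓp_unit G i)

lemma unitVec_apply_self (i : ι) : (unitVec G i).val (i, 1) = 1 := by
  unfold unitVec
  simp

lemma unitVec_apply_of_ne (i : ι) (p : ι × G) (hp : p ≠ (i, 1)) : (unitVec G i).val p = 0 := by
  unfold unitVec
  simp [hp]

/-- The operator `f^* f` for `f = r_A^{(2)}`. -/
noncomputable def gramOp [Fintype ι] [Fintype κ]
    (A : Matrix ι κ (MonoidAlgebra ℚ G)) : L2 G ι →L[ℂ] L2 G ι :=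
  sqOp (rightMul A)

/-- The spectral distribution of `f^* f` for `f = r_A^{(2)}`, with respect to the von Neumann
trace `tr T = ∑ i, ⟨T e_i, e_i⟩`: the regular Borel measure `μ` with `∫ φ dμ = tr (φ (f^* f))`
for all `φ ∈ C_c(ℝ)`. So `μ ((-∞, x]) = tr E_x` for the spectral family `E` of `f^* f`. -/
noncomputable def spectralDistribution [Fintype ι] [Fintype κ]
    (A : Matrix ι κ (MonoidAlgebra ℚ G)) : Measure ℝ :=
  spectralMeasure (gramOp A) (unitVec G)

/-- The Stieltjes measure `dF` of the spectral density function `F (t) = tr E_{t²}`, `t ≥ 0`. -/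
noncomputable def densityMeasure [Fintype ι] [Fintype κ]
    (A : Matrix ι κ (MonoidAlgebra ℚ G)) : Measure ℝ :=
  (spectralDistribution A).map Real.sqrt

open Classical in
/-- The Fuglede-Kadison determinant of `r_A^{(2)}`: `exp (∫_{0+}^∞ log t dF(t))` if this integral
is `> -∞` and `0` otherwise. -/
noncomputable def fkDet [Fintype ι] [Fintype κ]
    (A : Matrix ι κ (MonoidAlgebra ℚ G)) : ℝ :=
  if IntegrableOn Real.log (Set.Ioi 0) (densityMeasure A) then
    Real.exp (∫ t in Set.Ioi 0, Real.log t ∂(densityMeasure A)) else 0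

/-- A normal chain of `G`. -/
structure IsNormalChain (N : ℕ → Subgroup G) : Prop where
  zero : N 0 = ⊤
  anti : Antitone N
  normal : ∀ k, (N k).Normal
  inf : ⨅ k, N k = ⊥

/-- The image of a matrix over `ℚG` over `ℚ[G/N]`. -/
noncomputable def proj (N : Subgroup G) [N.Normal] (A : Matrix ι κ (MonoidAlgebra ℚ G)) :
    Matrix ι κ (MonoidAlgebra ℚ (G ⧸ N)) :=
  A.map (MonoidAlgebra.mapDomainRingHom ℚ (QuotientGroup.mk' N))

end Ops

/-- The sequence of determinants `det (r_{A[k]})` over the quotients `G / N k` of a normal chain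
`N`, where `A[k]` is the image of `A` over `ℚ[G / N k]`. -/
noncomputable def detSeq {G : Type} [Group G] {r s : ℕ} (N : ℕ → Subgroup G)
    (hN : IsNormalChain N) (A : Matrix (Fin r) (Fin s) (MonoidAlgebra ℚ G)) (k : ℕ) : ℝ :=
  letI := hN.normal k
  fkDet (proj (N k) A)

/-- Property (FK-approx). -/
def FKApprox (G : Type) [Group G] : Prop :=
  ∀ (N : ℕ → Subgroup G) (hN : IsNormalChain N) (r s : ℕ), 1 ≤ r → 1 ≤ s →
    ∀ A : Matrix (Fin r) (Fin s) (MonoidAlgebra ℚ G),
      Filter.Tendsto (detSeq N hN A) Filter.atTop (nhds (fkDet A))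

end Pool.Agent.Helper16.FK
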