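import Pool.Agent.Helper16.FKMoments
set_option autoImplicit false
set_option linter.unusedSectionVars false
open scoped ENNReal InnerProductSpace Matrix
open MeasureTheory Polynomial

namespace Pool.Agent.Helper16.FK

section

variable {H : Type*} [Group H] [Fintype H] [DecidableEq H]

/-- The matrix of right multiplication by `B` on row vectors indexed by `H`. -/
noncomputable def rmat (B : MonoidAlgebra ℚ H) : Matrix H H ℂ :=
  fun h k => ((B.coeff (h⁻¹ * k) : ℚ) : ℂ)

/-- The embedding of functions on `H` in `L²(H)`. -/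
noncomputable def toL2 : (H → ℂ) →ₗ[ℂ] L2 H (Fin 1) where
  toFun x := L2.mk (fun p => x p.2) (Memℓp.all _)
  map_add' x y := L2.ext' fun p => rfl
  map_smul' c x := L2.ext' fun p => rfl

lemma toL2_apply (x : H → ℂ) (p : Fin 1 × H) : (toL2 x).val p = x p.2 := rfl

lemma toL2_surj (y : L2 H (Fin 1)) : ∃ x : H → ℂ, toL2 x = y := by
  refine ⟨fun h => y.val (0, h), ?_⟩
  apply L2.ext'
  rintro ⟨i, h⟩
  rw [toL2_apply]
  have : i = 0 := Subsingleton.elim _ _
  rw [this]

lemma rightMul_toL2 (B : MonoidAlgebra ℚ H) (x : H → ℂ) :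
    rightMul (fun _ _ => B : Matrix (Fin 1) (Fin 1) (MonoidAlgebra ℚ H)) (toL2 x)
      = toL2 (x ᵥ* rmat B) := by
  apply L2.ext'
  intro p
  rw [toL2_apply]
  rw [rightMul_eq]
  simp only [rightMulAux, Finset.univ_unique, Fin.default_eq_zero, Fin.isValue,
    Finset.sum_singleton]
  rw [_root_.sum_apply]
  have : ((∑ g ∈ B.coeff.support, (((B.coeff g : ℚ) : ℂ) • elemOp (0 : Fin 1) (0 : Fin 1) g)
      (toL2 x) : L2 H (Fin 1))).val p
      = ∑ g ∈ B.coeff.support, ((B.coeff g : ℚ) : ℂ) * x (p.2 * g⁻¹) := by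
    rw [L2.val_sum]
    refine Finset.sum_congr rfl fun g _ => ?_
    change ((B.coeff g : ℚ) : ℂ) * ((elemOp (0 : Fin 1) (0 : Fin 1) g (toL2 x)).val p) = _
    rw [elemOp_apply, if_pos (Subsingleton.elim _ _), toL2_apply]
  rw [this]
  have h2 : ∑ g ∈ B.coeff.support, ((B.coeff g : ℚ) : ℂ) * x (p.2 * g⁻¹)
      = ∑ g : H, ((B.coeff g : ℚ) : ℂ) * x (p.2 * g⁻¹) := by
    refine Finset.sum_subset (Finset.subset_univ _) fun g _ hg => ?_
    rw [Finsupp.notMem_support_iff] at hg
    simp [hg]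
  rw [h2]
  simp only [Matrix.vecMul, dotProduct, rmat]
  refine Fintype.sum_equiv ((Equiv.inv H).trans (Equiv.mulLeft p.2)) _ _ fun g => ?_
  simp [mul_comm]

lemma inner_toL2 (x y : H → ℂ) : ⟪toL2 x, toL2 y⟫_ℂ = ∑ h, star (x h) * y h := by
  rw [L2.inner_def, tsum_fintype, Fintype.sum_prod_type]
  simp [toL2_apply, mul_comm]

lemma adjoint_toL2 (B : MonoidAlgebra ℚ H) (y : H → ℂ) :
    ContinuousLinearMap.adjoint
      (rightMul (fun _ _ => B : Matrix (Fin 1) (Fin 1) (MonoidAlgebra ℚ H))) (toL2 y)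
      = toL2 (y ᵥ* (rmat B)ᴴ) := by
  refine ext_inner_right ℂ fun z => ?_
  obtain ⟨x, rfl⟩ := toL2_surj z
  have h1 : ⟪ContinuousLinearMap.adjoint
      (rightMul (fun _ _ => B : Matrix (Fin 1) (Fin 1) (MonoidAlgebra ℚ H))) (toL2 y), toL2 x⟫_ℂ
      = ⟪toL2 y, rightMul (fun _ _ => B : Matrix (Fin 1) (Fin 1) (MonoidAlgebra ℚ H))
        (toL2 x)⟫_ℂ := ContinuousLinearMap.adjoint_inner_left _ _ _
  rw [rightMul_toL2, inner_toL2] at h1
  refine Eq.trans h1 (Eq.trans ?_ (inner_toL2 (y ᵥ* (rmat B)ᴴ) x).symm)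
  simp only [Matrix.vecMul, dotProduct, Matrix.conjTranspose_apply, Finset.mul_sum, star_sum,
    star_mul', star_star, Finset.sum_mul]
  rw [Finset.sum_comm]
  refine Finset.sum_congr rfl fun h _ => Finset.sum_congr rfl fun k _ => ?_
  ring

/-- The Gram matrix. -/
noncomputable def gram (B : MonoidAlgebra ℚ H) : Matrix H H ℂ := rmat B * (rmat B)ᴴ

lemma gramOp_toL2 (B : MonoidAlgebra ℚ H) (x : H → ℂ) :
    gramOp (fun _ _ => B : Matrix (Fin 1) (Fin 1) (MonoidAlgebra ℚ H)) (toL2 x)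
      = toL2 (x ᵥ* gram B) := by
  unfold gramOp sqOp
  rw [ContinuousLinearMap.comp_apply, rightMul_toL2, adjoint_toL2, Matrix.vecMul_vecMul]
  rfl

lemma gramOp_pow_toL2 (B : MonoidAlgebra ℚ H) (x : H → ℂ) (k : ℕ) :
    (gramOp (fun _ _ => B : Matrix (Fin 1) (Fin 1) (MonoidAlgebra ℚ H)) ^ k) (toL2 x)
      = toL2 (x ᵥ* (gram B) ^ k) := by
  induction k generalizing x with
  | zero => simp
  | succ k ih =>
    rw [pow_succ, mul_apply_eq_comp, gramOp_toL2, ih, Matrix.vecMul_vecMul,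
      ← pow_succ']

lemma unitVec_eq : unitVec H (0 : Fin 1) = toL2 (Pi.single (1 : H) (1 : ℂ)) := by
  apply L2.ext'
  intro p
  rw [toL2_apply]
  obtain ⟨i, h⟩ := p
  have : i = 0 := Subsingleton.elim _ _
  subst this
  by_cases hh : h = 1
  · subst hh
    rw [unitVec_apply_self]
    simp
  · rw [unitVec_apply_of_ne]
    · simp [Pi.single_eq_of_ne hh]
    · intro hc
      exact hh (by simpa using congrArg Prod.snd hc)

lemma gram_pow_shift (B : MonoidAlgebra ℚ H) (k : ℕ) (g h h' : H) :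
    (gram B ^ k) (g * h) (g * h') = (gram B ^ k) h h' := by
  have h1 : ∀ a b : H, gram B (g * a) (g * b) = gram B a b := by
    intro a b
    simp only [gram, Matrix.mul_apply, Matrix.conjTranspose_apply, rmat]
    refine (Fintype.sum_equiv (Equiv.mulLeft g) _ _ fun c => ?_).symm
    simp [mul_assoc]
  induction k generalizing h h' with
  | zero =>
    simp only [pow_zero, Matrix.one_apply, mul_right_inj]
  | succ k ih =>
    simp only [pow_succ, Matrix.mul_apply]
    refine (Fintype.sum_equiv (Equiv.mulLeft g) _ _ fun c => ?_).symm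
    simp [ih, h1]

lemma gram_isHermitian (B : MonoidAlgebra ℚ H) : (gram B).IsHermitian :=
  Matrix.isHermitian_mul_conjTranspose_self _

lemma moment_one (B : MonoidAlgebra ℚ H) (k : ℕ) :
    (gram B ^ k) 1 1 = (Fintype.card H : ℂ)⁻¹ * (gram B ^ k).trace := by
  have : (gram B ^ k).trace = (Fintype.card H : ℂ) * (gram B ^ k) 1 1 := by
    simp only [Matrix.trace, Matrix.diag_apply]
    rw [Finset.sum_congr rfl (fun h _ => (show (gram B ^ k) h h = (gram B ^ k) 1 1 by
      have := gram_pow_shift B k h 1 1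
      simpa using this))]
    simp
  rw [this]
  have : (Fintype.card H : ℂ) ≠ 0 := by
    exact_mod_cast Fintype.card_ne_zero
  field_simp

end

end Pool.Agent.Helper16.FK
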