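import Pool.Agent.Helper16.FKFinite
set_option autoImplicit false
set_option linter.unusedSectionVars false
open scoped ENNReal InnerProductSpace Matrix ComplexOrder
open MeasureTheory Polynomial

namespace Pool.Agent.Helper16.FK

section

variable {H : Type*} [Group H] [Fintype H] [DecidableEq H]

lemma gramOp_isSelfAdjoint {G : Type*} [Group G] {ι κ : Type*} [Fintype ι] [Fintype κ]
    (A : Matrix ι κ (MonoidAlgebra ℚ G)) : IsSelfAdjoint (gramOp A) :=
  (ContinuousLinearMap.isPositive_adjoint_comp_self (rightMul A)).isSelfAdjoint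

lemma trace_pow_hermitian {n : Type*} [Fintype n] [DecidableEq n] {A : Matrix n n ℂ}
    (hA : A.IsHermitian) (k : ℕ) : (A ^ k).trace = ∑ i, ((hA.eigenvalues i : ℝ) : ℂ) ^ k := by
  conv_lhs => rw [hA.spectral_theorem, ← map_pow, Matrix.diagonal_pow,
    Unitary.conjStarAlgAut_apply, Matrix.trace_mul_comm, ← mul_assoc]
  simp [Matrix.trace_diagonal]

/-- eigenvalues of the Gram matrix -/
noncomputable def gEig (B : MonoidAlgebra ℚ H) : H → ℝ := (gram_isHermitian B).eigenvalues

lemma moment_formula (B : MonoidAlgebra ℚ H) (k : ℕ) :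
    (⟪(gramOp (fun _ _ => B : Matrix (Fin 1) (Fin 1) (MonoidAlgebra ℚ H)) ^ k)
      (unitVec H (0 : Fin 1)), unitVec H (0 : Fin 1)⟫_ℂ).re
      = (Fintype.card H : ℝ)⁻¹ * ∑ h, gEig B h ^ k := by
  rw [unitVec_eq, gramOp_pow_toL2, inner_toL2]
  have : ∑ h : H, star ((Pi.single (1 : H) (1 : ℂ) ᵥ* gram B ^ k) h) * (Pi.single (1 : H) (1 : ℂ) : H → ℂ) h
      = star ((gram B ^ k) 1 1) := by
    rw [Finset.sum_eq_single (1 : H)]
    · simp
    · intro b _ hb
      simp [Pi.single_eq_of_ne hb]
    · simp
  rw [this, moment_one, trace_pow_hermitian (gram_isHermitian B)]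
  have h2 : ((Fintype.card H : ℂ)⁻¹ * ∑ i, (((gram_isHermitian B).eigenvalues i : ℝ) : ℂ) ^ k)
      = (((Fintype.card H : ℝ)⁻¹ * ∑ h, gEig B h ^ k : ℝ) : ℂ) := by
    push_cast
    rfl
  rw [h2, Complex.star_def, Complex.conj_ofReal, Complex.ofReal_re]

/-- The empirical spectral distribution. -/
noncomputable def empMeasure (B : MonoidAlgebra ℚ H) : Measure ℝ :=
  ENNReal.ofReal ((Fintype.card H : ℝ)⁻¹) • ∑ h, Measure.dirac (gEig B h)

instance (B : MonoidAlgebra ℚ H) : IsFiniteMeasure (empMeasure B) := by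
  unfold empMeasure
  refine ⟨?_⟩
  rw [Measure.smul_apply]
  have : (∑ h, Measure.dirac (gEig B h)) (Set.univ : Set ℝ) < ⊤ := measure_lt_top _ _
  exact ENNReal.mul_lt_top ENNReal.ofReal_lt_top this

lemma integral_empMeasure (B : MonoidAlgebra ℚ H) (f : ℝ → ℝ) :
    ∫ x, f x ∂(empMeasure B) = (Fintype.card H : ℝ)⁻¹ * ∑ h, f (gEig B h) := by
  unfold empMeasure
  rw [integral_smul_measure, integral_finsetSum_measure]
  · rw [ENNReal.toReal_ofReal (by positivity)]
    simp
  · intro h _
    exact integrable_dirac (by simp)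

lemma integrable_empMeasure (B : MonoidAlgebra ℚ H) (f : ℝ → ℝ) :
    Integrable f (empMeasure B) := by
  unfold empMeasure
  refine Integrable.smul_measure ?_ ENNReal.ofReal_ne_top
  rw [integrable_finsetSum_measure]
  intro h _
  exact integrable_dirac (by simp)

lemma spectralDistribution_finite (B : MonoidAlgebra ℚ H) :
    spectralDistribution (fun _ _ => B : Matrix (Fin 1) (Fin 1) (MonoidAlgebra ℚ H))
      = empMeasure B := by
  unfold spectralDistribution
  refine spectralMeasure_eq_of_pow_moments _ (gramOp_isSelfAdjoint _) _ _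
    (∑ h, |gEig B h|) ?_ ?_
  · unfold empMeasure
    refine Measure.ae_smul_measure ?_ _
    rw [ae_finsetSum_measure_iff]
    intro h _
    refine (ae_dirac_iff (p := fun x => x ∈ Set.Icc (-∑ h, |gEig B h|) (∑ h, |gEig B h|))
      measurableSet_Icc).2 ?_
    have : |gEig B h| ≤ ∑ h, |gEig B h| :=
      Finset.single_le_sum (f := fun h => |gEig B h|) (fun _ _ => abs_nonneg _) (Finset.mem_univ h)
    exact abs_le.mp this
  · intro k
    rw [integral_empMeasure, Finset.univ_unique, Finset.sum_singleton]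
    exact moment_formula B k

/-- **Evaluation for finite groups.** -/
theorem fkDet_finite (B : MonoidAlgebra ℚ H) (hdet : (rmat B).det ≠ 0) :
    fkDet (fun _ _ => B : Matrix (Fin 1) (Fin 1) (MonoidAlgebra ℚ H))
      = Real.exp ((Fintype.card H : ℝ)⁻¹ * Real.log ‖(rmat B).det‖) := by
  have hdetG : (gram B).det = ((‖(rmat B).det‖ ^ 2 : ℝ) : ℂ) := by
    unfold gram
    rw [Matrix.det_mul, Matrix.det_conjTranspose, Complex.star_def, Complex.mul_conj,
      Complex.normSq_eq_norm_sq]
  have hprod : ∏ h, gEig B h = ‖(rmat B).det‖ ^ 2 := by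
    have := (gram_isHermitian B).det_eq_prod_eigenvalues
    rw [hdetG] at this
    have h2 : (((∏ h, gEig B h : ℝ)) : ℂ) = ((‖(rmat B).det‖ ^ 2 : ℝ) : ℂ) := by
      rw [this]
      push_cast
      rfl
    exact_mod_cast h2
  have hnonneg : ∀ h, 0 ≤ gEig B h := 
    (Matrix.posSemidef_self_mul_conjTranspose (rmat B)).eigenvalues_nonneg
  have hne : ∀ h, gEig B h ≠ 0 := by
    intro h hh
    have : ∏ h, gEig B h = 0 := Finset.prod_eq_zero (Finset.mem_univ h) hh
    rw [hprod] at this
    exact hdet (by simpa using this)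
  have hpos : ∀ h, 0 < gEig B h := fun h => lt_of_le_of_ne (hnonneg h) (hne h).symm
  have hmeas : Measurable Real.sqrt := Real.continuous_sqrt.measurable
  have hlog : Measurable Real.log := Real.measurable_log
  have hset : MeasurableSet (Set.Ioi (0:ℝ)) := measurableSet_Ioi
  have hint : IntegrableOn Real.log (Set.Ioi 0)
      (densityMeasure (fun _ _ => B : Matrix (Fin 1) (Fin 1) (MonoidAlgebra ℚ H))) := by
    unfold densityMeasure
    rw [spectralDistribution_finite]
    refine Integrable.integrableOn ?_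
    rw [integrable_map_measure hlog.aestronglyMeasurable hmeas.aemeasurable]
    exact integrable_empMeasure B _
  unfold fkDet
  rw [if_pos hint]
  congr 1
  unfold densityMeasure
  rw [spectralDistribution_finite, setIntegral_map hset hlog.aestronglyMeasurable
    hmeas.aemeasurable, ← integral_indicator (hmeas hset), integral_empMeasure]
  congr 1
  have : ∀ h, (Real.sqrt ⁻¹' Set.Ioi 0).indicator (fun x => Real.log (Real.sqrt x)) (gEig B h)
      = (1/2) * Real.log (gEig B h) := by
    intro h
    rw [Set.indicator_of_mem]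
    · rw [Real.log_sqrt (hpos h).le]; ring
    · simpa using hpos h
  rw [Finset.sum_congr rfl fun h _ => this h, ← Finset.mul_sum,
    ← Real.log_prod (fun h _ => (hne h)), hprod, Real.log_pow]
  push_cast
  ring

end

end Pool.Agent.Helper16.FK
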