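import Pool.Agent.Helper16.FKMatrix
set_option autoImplicit false
set_option linter.unusedSectionVars false
open scoped Matrix

namespace Pool.Agent.Helper16.FK

section Rho

variable {H : Type*} [Group H] [Fintype H] [DecidableEq H]

/-- The permutation matrices of right translation. -/
def rho : H →* Matrix H H ℂ where
  toFun g := Matrix.of fun h k => if h * g = k then 1 else 0
  map_one' := by
    ext h k
    simp [Matrix.one_apply]
  map_mul' g g' := by
    ext h k
    simp only [Matrix.mul_apply, Matrix.of_apply]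
    rw [Finset.sum_eq_single (h * g)]
    · simp [mul_assoc]
    · intro b _ hb
      simp [Ne.symm hb]
    · simp

lemma rho_apply (g h k : H) : rho g h k = if h * g = k then (1 : ℂ) else 0 := rfl

/-- the group homomorphism `(i,j) ↦ t^i c^j`. -/
def tcHom (t c : H) (htc : Commute t c) : Multiplicative (ℤ × ℤ) →* H where
  toFun x := t ^ (x.toAdd.1) * c ^ (x.toAdd.2)
  map_one' := by simp
  map_mul' x y := by
    simp only [toAdd_mul, Prod.fst_add, Prod.snd_add, zpow_add]
    have : Commute (c ^ (x.toAdd.2)) (t ^ (y.toAdd.1)) := (htc.symm.zpow_zpow _ _)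
    rw [mul_assoc, mul_assoc]
    congr 1
    rw [← mul_assoc, ← mul_assoc, this.eq]

/-- the algebra map from the commutative group algebra of `ℤ × ℤ`. -/
noncomputable def theta (t c : H) (htc : Commute t c) :
    MonoidAlgebra ℂ (Multiplicative (ℤ × ℤ)) →ₐ[ℂ] Matrix H H ℂ :=
  MonoidAlgebra.lift ℂ (Matrix H H ℂ) _ (rho.comp (tcHom t c htc))

noncomputable def XX : MonoidAlgebra ℂ (Multiplicative (ℤ × ℤ)) :=
  MonoidAlgebra.single (Multiplicative.ofAdd (1, 0)) 1
noncomputable def YY : MonoidAlgebra ℂ (Multiplicative (ℤ × ℤ)) :=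
  MonoidAlgebra.single (Multiplicative.ofAdd (0, 1)) 1

lemma theta_XX (t c : H) (htc : Commute t c) : theta t c htc XX = rho t := by
  simp [theta, XX, tcHom]

lemma theta_YY (t c : H) (htc : Commute t c) : theta t c htc YY = rho c := by
  simp [theta, YY, tcHom]

variable {a t c : H} 

lemma shift_one (htc : Commute t c) (hac : Commute a c) (hat : a * t = t * a * c) (i : ℕ) :
    rho a * theta t c htc (1 + XX * YY ^ i) = theta t c htc (1 + XX * YY ^ (i + 1)) * rho a := by
  simp only [map_add, map_one, map_mul, map_pow, theta_XX, theta_YY]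
  have h1 : rho a * rho t = rho t * rho a * rho c := by
    rw [← map_mul, ← map_mul, ← map_mul, hat]
  have h2 : Commute (rho a) (rho c) := by
    change rho a * rho c = rho c * rho a
    rw [← map_mul, ← map_mul, hac.eq]
  rw [mul_add, add_mul, mul_one, one_mul, ← mul_assoc, h1, mul_assoc (rho t) (rho a) (rho c),
    mul_assoc (rho t), mul_assoc (rho a), ← pow_succ', (h2.pow_right (i+1)).eq, mul_assoc (rho t)]

lemma shift_prod (htc : Commute t c) (hac : Commute a c) (hat : a * t = t * a * c) (n i : ℕ) :
    rho a * theta t c htc (∏ j ∈ Finset.range n, (1 + XX * YY ^ (j + i)))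
      = theta t c htc (∏ j ∈ Finset.range n, (1 + XX * YY ^ (j + i + 1))) * rho a := by
  induction n with
  | zero => simp
  | succ n ih =>
    rw [Finset.prod_range_succ, Finset.prod_range_succ, map_mul, map_mul, ← mul_assoc, ih,
      mul_assoc, shift_one htc hac hat, mul_assoc]

/-- the element `(1 + t) a` acting by right translations. -/
noncomputable def Smat (a t : H) : Matrix H H ℂ := (1 + rho t) * rho a

lemma Smat_pow (htc : Commute t c) (hac : Commute a c) (hat : a * t = t * a * c) (n : ℕ) :
    Smat a t ^ n = theta t c htc (∏ j ∈ Finset.range n, (1 + XX * YY ^ j)) * rho a ^ n := by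
  induction n with
  | zero => simp
  | succ n ih =>
    rw [pow_succ', ih, Finset.prod_range_succ', Smat]
    have h := shift_prod (a := a) (t := t) (c := c) htc hac hat n 0
    simp only [add_zero] at h
    rw [mul_assoc, ← mul_assoc (rho a), h, mul_assoc, ← pow_succ', ← mul_assoc]
    congr 1
    rw [map_mul, pow_zero, mul_one, map_add, map_one, theta_XX]
    have hc : Commute (1 + rho t) (theta t c htc (∏ j ∈ Finset.range n, (1 + XX * YY ^ (j + 1)))) := by
      have : (1 + rho t) = theta t c htc (1 + XX) := by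
        rw [map_add, map_one, theta_XX]
      rw [this]
      change _ * _ = _ * _
      rw [← map_mul, ← map_mul, mul_comm]
    exact hc.eq

end Rho

section Fourier

variable {H : Type*} [Group H] [Fintype H] [DecidableEq H]
  {Q : Type*} [Group Q] [Fintype Q] [DecidableEq Q] (π : H →* Q)

/-- incidence matrix of the quotient map. -/
def Jmat : Matrix H Q ℂ := fun h q => if π h = q then 1 else 0

lemma rho_mul_Jmat (g : H) : rho g * Jmat π = Jmat π * rho (π g) := by
  ext h q
  simp only [Matrix.mul_apply, rho_apply, Jmat]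
  rw [Finset.sum_eq_single (h * g), Finset.sum_eq_single (π h)]
  · simp
  · intro b _ hb
    simp [Ne.symm hb]
  · simp
  · intro b _ hb
    simp [Ne.symm hb]
  · simp

lemma Jmat_mul_transpose_apply (h k : H) :
    (Jmat π * (Jmat π)ᵀ) h k = if π h = π k then 1 else 0 := by
  simp only [Matrix.mul_apply, Jmat, Matrix.transpose_apply]
  rw [Finset.sum_eq_single (π h)]
  · by_cases h1 : π h = π k
    · simp [h1]
    · simp [h1, Ne.symm h1]
  · intro b _ hb
    simp [Ne.symm hb]
  · simp

/-- the averaging idempotent. -/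
noncomputable def Emat (p : ℕ) : Matrix H H ℂ := (p : ℂ)⁻¹ • (Jmat π * (Jmat π)ᵀ)

/-- If the fibres of `π` have `p` elements then `Jᵀ J = p`. -/
lemma transpose_mul_Jmat (p : ℕ)
    (hfib : ∀ q : Q, (Finset.univ.filter (fun h : H => π h = q)).card = p) :
    (Jmat π)ᵀ * Jmat π = (p : ℂ) • (1 : Matrix Q Q ℂ) := by
  ext q q'
  simp only [Matrix.mul_apply, Jmat, Matrix.transpose_apply, Matrix.smul_apply, smul_eq_mul]
  by_cases h : q = q'
  · subst h
    have : ∀ x : H, ((if π x = q then (1:ℂ) else 0) * if π x = q then 1 else 0)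
        = if π x = q then 1 else 0 := by
      intro x; by_cases hx : π x = q <;> simp [hx]
    rw [Finset.sum_congr rfl (fun x _ => this x), Finset.sum_boole, hfib]
    simp
  · rw [Matrix.one_apply_ne h, mul_zero]
    refine Finset.sum_eq_zero fun x _ => ?_
    by_cases hx : π x = q
    · have : π x ≠ q' := fun h' => h (hx.symm.trans h')
      simp [this]
    · simp [hx]

variable (p : ℕ) (hp : p ≠ 0)
  (hfib : ∀ q : Q, (Finset.univ.filter (fun h : H => π h = q)).card = p)

include hp hfib

lemma Emat_sq : Emat π p * Emat π p = Emat π p := by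
  unfold Emat
  have hp' : (p : ℂ) ≠ 0 := by exact_mod_cast hp
  rw [Matrix.smul_mul, Matrix.mul_smul, Matrix.mul_assoc, ← Matrix.mul_assoc (Jmat π)ᵀ,
    transpose_mul_Jmat π p hfib, Matrix.smul_mul, Matrix.one_mul, Matrix.mul_smul, smul_smul,
    smul_smul]
  congr 1
  field_simp

lemma finrank_ker_le : Module.finrank ℂ
    (LinearMap.ker (Matrix.toLin' (1 - Emat π p : Matrix H H ℂ))) ≤ Fintype.card Q := by
  have h1 : LinearMap.ker (Matrix.toLin' (1 - Emat π p : Matrix H H ℂ))
      ≤ LinearMap.range (Matrix.toLin' (Jmat π)) := by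
    intro v hv
    rw [LinearMap.mem_ker, Matrix.toLin'_apply, Matrix.sub_mulVec, Matrix.one_mulVec,
      sub_eq_zero] at hv
    refine ⟨(p : ℂ)⁻¹ • ((Jmat π)ᵀ *ᵥ v), ?_⟩
    rw [Matrix.toLin'_apply, Matrix.mulVec_smul, Matrix.mulVec_mulVec, ← Matrix.smul_mulVec]
    exact hv.symm
  calc _ ≤ Module.finrank ℂ (LinearMap.range (Matrix.toLin' (Jmat π))) := 
        Submodule.finrank_mono h1
    _ ≤ Module.finrank ℂ (Q → ℂ) := LinearMap.finrank_range_le _
    _ = Fintype.card Q := Module.finrank_fintype_fun_eq_card ℂ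

/-- The splitting of the determinant. -/
lemma det_split (S : Matrix H H ℂ) (S' : Matrix Q Q ℂ) (hS : S * Jmat π = Jmat π * S')
    (hcomm : S * Emat π p = Emat π p * S) (z : ℂ) :
    (1 - z • S).det = (1 - z • S').det * (1 - z • (S * (1 - Emat π p))).det := by
  have hp' : (p : ℂ) ≠ 0 := by exact_mod_cast hp
  have hE := Emat_sq π p hp hfib
  set E := Emat π p with hEdef
  have h1 : (1 - z • S) = (1 - z • (S * E)) * (1 - z • (S * (1 - E))) := by
    have h0 : (S * E) * (S * (1 - E)) = 0 := by
      calc (S * E) * (S * (1 - E)) = S * (E * S) * (1 - E) := by simp only [Matrix.mul_assoc]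
        _ = S * (S * E) * (1 - E) := by rw [hcomm]
        _ = S * S * (E * (1 - E)) := by simp only [Matrix.mul_assoc]
        _ = 0 := by rw [Matrix.mul_sub, Matrix.mul_one, hE, sub_self, Matrix.mul_zero]
    have hXY : S = S * E + S * (1 - E) := by
      rw [Matrix.mul_sub, Matrix.mul_one]; abel
    generalize S * (1 - E) = Y at h0 hXY
    generalize S * E = X at h0 hXY
    rw [Matrix.sub_mul, Matrix.one_mul, Matrix.smul_mul, Matrix.mul_sub X, Matrix.mul_one,
      Matrix.mul_smul, h0, smul_zero, sub_zero, hXY, smul_add]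
    abel
  have h2 : (1 - z • (S * E)).det = (1 - z • S').det := by
    have e1 : z • (S * E) = ((z * (p : ℂ)⁻¹) • (Jmat π * S')) * (Jmat π)ᵀ := by
      rw [hEdef, Emat, Matrix.mul_smul, ← Matrix.mul_assoc, hS, Matrix.smul_mul, smul_smul]
    rw [e1, Matrix.det_one_sub_mul_comm]
    congr 2
    rw [Matrix.mul_smul, ← Matrix.mul_assoc, transpose_mul_Jmat π p hfib, Matrix.smul_mul,
      Matrix.one_mul, smul_smul]
    congr 1
    field_simp
  rw [h1, Matrix.det_mul, h2]

end Fourier

section QuotientFib

variable {H : Type*} [Group H] [Fintype H] [DecidableEq H] (u : H)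
  [(Subgroup.zpowers u).Normal] [Fintype (H ⧸ Subgroup.zpowers u)]
  [DecidableEq (H ⧸ Subgroup.zpowers u)]

lemma mk_eq_iff (h k : H) : QuotientGroup.mk' (Subgroup.zpowers u) h
    = QuotientGroup.mk' (Subgroup.zpowers u) k ↔ ∃ i ∈ Finset.range (orderOf u), h * u ^ i = k := by
  rw [QuotientGroup.mk'_eq_mk']
  constructor
  · rintro ⟨z, hz, h1⟩
    rw [mem_zpowers_iff_mem_range_orderOf] at hz
    obtain ⟨i, hi, rfl⟩ := Finset.mem_image.mp hz
    exact ⟨i, hi, h1⟩
  · rintro ⟨i, hi, h1⟩
    exact ⟨u ^ i, Subgroup.npow_mem_zpowers u i, h1⟩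

lemma Jmat_quot : Jmat (QuotientGroup.mk' (Subgroup.zpowers u))
      * (Jmat (QuotientGroup.mk' (Subgroup.zpowers u)))ᵀ
    = ∑ i ∈ Finset.range (orderOf u), rho u ^ i := by
  ext h k
  rw [Jmat_mul_transpose_apply, Matrix.sum_apply]
  simp only [← map_pow, rho_apply]
  by_cases hk : QuotientGroup.mk' (Subgroup.zpowers u) h
    = QuotientGroup.mk' (Subgroup.zpowers u) k
  · rw [if_pos hk]
    obtain ⟨i, hi, h1⟩ := (mk_eq_iff u h k).mp hk
    rw [Finset.sum_eq_single i]
    · simp [h1]
    · intro j hj hji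
      rw [if_neg]
      intro h2
      apply hji
      rw [← h1, mul_left_cancel_iff] at h2
      exact pow_injOn_Iio_orderOf (by simpa using hj) (by simpa using hi) h2
    · intro h2; exact absurd hi h2
  · rw [if_neg hk]
    symm
    refine Finset.sum_eq_zero fun i hi => ?_
    rw [if_neg]
    intro h1
    exact hk ((mk_eq_iff u h k).mpr ⟨i, hi, h1⟩)

lemma card_fib (q : H ⧸ Subgroup.zpowers u) :
    (Finset.univ.filter (fun h : H => QuotientGroup.mk' (Subgroup.zpowers u) h = q)).card
      = orderOf u := by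
  obtain ⟨k, rfl⟩ := QuotientGroup.mk'_surjective _ q
  have h1 : (Finset.univ.filter (fun h : H => QuotientGroup.mk' (Subgroup.zpowers u) h
      = QuotientGroup.mk' (Subgroup.zpowers u) k))
      = (Finset.range (orderOf u)).image (fun i => k * u ^ i) := by
    ext h
    rw [Finset.mem_filter, Finset.mem_image]
    constructor
    · rintro ⟨_, h2⟩
      exact (mk_eq_iff u k h).mp h2.symm
    · intro h2
      exact ⟨Finset.mem_univ _, ((mk_eq_iff u k h).mpr h2).symm⟩
  rw [h1, Finset.card_image_of_injOn, Finset.card_range]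
  intro i hi j hj hij
  simp only [mul_right_inj] at hij
  exact pow_injOn_Iio_orderOf (by simpa using hi) (by simpa using hj) hij

end QuotientFib

end Pool.Agent.Helper16.FK
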