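import Mathlib
set_option autoImplicit false

namespace Pool.Agent.Helper16.FK

/-- The Heisenberg group over a commutative ring `R`: the triple `(x, y, z)` stands for the
unitriangular `3 × 3` matrix with entries `x`, `y` next to the diagonal and `z` in the corner. -/
@[ext]
structure Heis (R : Type) where
  x : R
  y : R
  z : R

namespace Heis

variable {R : Type} [CommRing R]

instance : Mul (Heis R) := ⟨fun g h => ⟨g.x + h.x, g.y + h.y, g.z + h.z + g.x * h.y⟩⟩
instance : One (Heis R) := ⟨⟨0, 0, 0⟩⟩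
instance : Inv (Heis R) := ⟨fun g => ⟨-g.x, -g.y, -g.z + g.x * g.y⟩⟩

@[simp] lemma mul_x (g h : Heis R) : (g * h).x = g.x + h.x := rfl
@[simp] lemma mul_y (g h : Heis R) : (g * h).y = g.y + h.y := rfl
@[simp] lemma mul_z (g h : Heis R) : (g * h).z = g.z + h.z + g.x * h.y := rfl
@[simp] lemma one_x : (1 : Heis R).x = 0 := rfl
@[simp] lemma one_y : (1 : Heis R).y = 0 := rfl
@[simp] lemma one_z : (1 : Heis R).z = 0 := rfl
@[simp] lemma inv_x (g : Heis R) : (g⁻¹).x = -g.x := rfl
@[simp] lemma inv_y (g : Heis R) : (g⁻¹).y = -g.y := rfl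
@[simp] lemma inv_z (g : Heis R) : (g⁻¹).z = -g.z + g.x * g.y := rfl

instance : Group (Heis R) :=
  Group.ofLeftAxioms
    (fun a b c => by ext <;> simp <;> ring)
    (fun a => by ext <;> simp)
    (fun a => by ext <;> simp)

end Heis

end Pool.Agent.Helper16.FK
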