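import Pool.Agent.Helper16.FKAbstract
import Pool.Agent.Helper16.FKFiniteDet
import Pool.Agent.Helper16.FKHeisDefs
set_option autoImplicit false
set_option linter.unusedSectionVars false
open scoped Matrix

namespace Pool.Agent.Helper16.FK

namespace Heis

variable {R : Type} [CommRing R]

/-- The elements `a = (1, 0, 0)`, `t = (0, 1, 0)`, `c = (0, 0, 1)`. -/
def ga : Heis R := ⟨1, 0, 0⟩
def gt : Heis R := ⟨0, 1, 0⟩
def gc : Heis R := ⟨0, 0, 1⟩

lemma ga_pow (n : ℕ) : (ga : Heis R) ^ n = ⟨n, 0, 0⟩ := by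
  induction n with
  | zero => ext <;> simp
  | succ n ih => rw [pow_succ, ih]; ext <;> simp [ga]

lemma gt_pow (n : ℕ) : (gt : Heis R) ^ n = ⟨0, n, 0⟩ := by
  induction n with
  | zero => ext <;> simp
  | succ n ih => rw [pow_succ, ih]; ext <;> simp [gt]

lemma gc_pow (n : ℕ) : (gc : Heis R) ^ n = ⟨0, 0, n⟩ := by
  induction n with
  | zero => ext <;> simp
  | succ n ih => rw [pow_succ, ih]; ext <;> simp [gc]

lemma gc_comm (h : Heis R) : Commute gc h := by
  change _ * _ = _ * _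
  ext <;> simp [gc, add_comm]

lemma ga_gt : (ga : Heis R) * gt = gt * ga * gc := by
  ext <;> simp [ga, gt, gc]

/-- Reduction of the coefficients modulo `m`. -/
def red (m : ℕ) : Heis ℤ →* Heis (ZMod m) where
  toFun g := ⟨g.x, g.y, g.z⟩
  map_one' := by ext <;> simp
  map_mul' g h := by ext <;> simp

instance (m : ℕ) [NeZero m] : Finite (Heis (ZMod m)) := by
  refine Finite.of_injective (fun g : Heis (ZMod m) => (g.x, g.y, g.z)) ?_
  intro g h hgh
  simp only [Prod.mk.injEq] at hgh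
  exact Heis.ext hgh.1 hgh.2.1 hgh.2.2

end Heis

open Heis

/-- The subgroup of the discrete Heisenberg group of elements congruent to `1` modulo `p ^ k`. -/
def chain (p k : ℕ) : Subgroup (Heis ℤ) := (red (p ^ k)).ker

lemma mem_chain {p k : ℕ} {g : Heis ℤ} :
    g ∈ chain p k ↔ ((p ^ k : ℕ) : ℤ) ∣ g.x ∧ ((p ^ k : ℕ) : ℤ) ∣ g.y ∧ ((p ^ k : ℕ) : ℤ) ∣ g.z := by
  unfold chain
  rw [MonoidHom.mem_ker, Heis.ext_iff]
  simp only [red, MonoidHom.coe_mk, OneHom.coe_mk, one_x, one_y, one_z,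
    ZMod.intCast_zmod_eq_zero_iff_dvd]

instance (p k : ℕ) : (chain p k).Normal := by
  unfold chain
  infer_instance

instance (p k : ℕ) [NeZero p] : (chain p k).FiniteIndex := by
  unfold chain
  haveI : NeZero (p ^ k) := ⟨pow_ne_zero _ (NeZero.ne p)⟩
  infer_instance

lemma eq_zero_of_pow_dvd {p : ℕ} (hp : 2 ≤ p) (x : ℤ) (h : ∀ k : ℕ, ((p ^ k : ℕ) : ℤ) ∣ x) :
    x = 0 := by
  have h1 := h x.natAbs
  apply Int.eq_zero_of_abs_lt_dvd h1
  have h2 : x.natAbs < p ^ x.natAbs := Nat.lt_pow_self (by omega)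
  rw [Int.abs_eq_natAbs]
  exact_mod_cast h2

lemma isNormalChain_chain {p : ℕ} (hp : 2 ≤ p) : IsNormalChain (chain p) where
  zero := by
    ext g
    rw [mem_chain]
    simp
  anti := by
    intro i j hij g hg
    rw [mem_chain] at hg ⊢
    have h : ((p ^ i : ℕ) : ℤ) ∣ ((p ^ j : ℕ) : ℤ) := by
      exact_mod_cast pow_dvd_pow p hij
    exact ⟨h.trans hg.1, h.trans hg.2.1, h.trans hg.2.2⟩
  normal := fun k => inferInstance
  inf := by
    rw [eq_bot_iff]
    intro g hg
    rw [Subgroup.mem_iInf] at hg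
    rw [Subgroup.mem_bot]
    ext
    · exact eq_zero_of_pow_dvd hp _ fun k => (mem_chain.mp (hg k)).1
    · exact eq_zero_of_pow_dvd hp _ fun k => (mem_chain.mp (hg k)).2.1
    · exact eq_zero_of_pow_dvd hp _ fun k => (mem_chain.mp (hg k)).2.2

/-- For elements `a`, `t` of a group: the element `1 - 28 (1 + t) a` of the group ring. -/
noncomputable def elt {G : Type*} [Group G] (a t : G) : MonoidAlgebra ℚ G :=
  1 - MonoidAlgebra.single 1 28 * ((1 + MonoidAlgebra.single t 1) * MonoidAlgebra.single a 1)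

lemma map_elt {G G' : Type*} [Group G] [Group G'] (f : G →* G') (a t : G) :
    MonoidAlgebra.mapDomainRingHom ℚ f (elt a t) = elt (f a) (f t) := by
  unfold elt
  simp only [map_sub, map_mul, map_add, map_one, MonoidAlgebra.mapDomainRingHom_apply,
    MonoidAlgebra.mapDomain_single]

lemma rmat_elt {H : Type*} [Group H] [Fintype H] [DecidableEq H] (a t : H) :
    rmat (elt a t) = 1 - (28 : ℂ) • Smat a t := by
  have hta : rho t * rho a = rho (t * a) := (map_mul rho t a).symm
  have h1 : elt a t = MonoidAlgebra.single 1 1 - (MonoidAlgebra.single a 28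
      + MonoidAlgebra.single (t * a) 28) := by
    unfold elt
    rw [add_mul, one_mul, MonoidAlgebra.single_mul_single, mul_add,
      MonoidAlgebra.single_mul_single, MonoidAlgebra.single_mul_single]
    simp [MonoidAlgebra.one_def]
  ext h k
  rw [Smat, add_mul, one_mul, hta, Matrix.sub_apply, Matrix.smul_apply, Matrix.add_apply,
    rho_apply, rho_apply, Matrix.one_apply, rmat, h1]
  have e1 : ∀ g : H, ∀ r : ℚ, (MonoidAlgebra.single g r).coeff (h⁻¹ * k)
      = if h * g = k then r else 0 := by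
    intro g r
    rw [MonoidAlgebra.coeff_single_apply]
    congr 1
    rw [eq_iff_iff, eq_inv_mul_iff_mul_eq]
  rw [MonoidAlgebra.coeff_sub, MonoidAlgebra.coeff_add, Finsupp.sub_apply, Finsupp.add_apply,
    e1, e1, e1, mul_one]
  split_ifs <;> norm_num

/-- The element `1 - 28 (1 + t) a` of `ℚ[Heis ℤ]` as a `1 × 1` matrix. -/
noncomputable def AA : Matrix (Fin 1) (Fin 1) (MonoidAlgebra ℚ (Heis ℤ)) :=
  fun _ _ => elt ga gt

lemma proj_AA (N : Subgroup (Heis ℤ)) [N.Normal] :
    proj N AA = fun _ _ => elt (QuotientGroup.mk' N ga) (QuotientGroup.mk' N gt) := by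
  ext i j
  unfold proj AA
  rw [Matrix.map_apply, map_elt]

lemma mk_pow_eq_one {p k : ℕ} {g : Heis ℤ} (hg : g ∈ chain p k) :
    QuotientGroup.mk' (chain p k) g = 1 := by
  rw [← MonoidHom.mem_ker, QuotientGroup.ker_mk']
  exact hg

section Level

variable (p k : ℕ)

lemma lev_comm (h : Heis ℤ ⧸ chain p (k+1)) :
    Commute (QuotientGroup.mk' (chain p (k+1)) gc) h := by
  obtain ⟨g, rfl⟩ := QuotientGroup.mk'_surjective _ h
  change _ * _ = _ * _
  rw [← map_mul, ← map_mul, (gc_comm g).eq]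

lemma lev_at : QuotientGroup.mk' (chain p (k+1)) ga * QuotientGroup.mk' (chain p (k+1)) gt
    = QuotientGroup.mk' (chain p (k+1)) gt * QuotientGroup.mk' (chain p (k+1)) ga
      * QuotientGroup.mk' (chain p (k+1)) gc := by
  rw [← map_mul, ga_gt, map_mul, map_mul]

lemma lev_a : QuotientGroup.mk' (chain p (k+1)) ga ^ (p ^ (k+1)) = 1 := by
  rw [← map_pow]
  apply mk_pow_eq_one
  rw [ga_pow, mem_chain]
  simp

lemma lev_t : QuotientGroup.mk' (chain p (k+1)) gt ^ (p ^ (k+1)) = 1 := by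
  rw [← map_pow]
  apply mk_pow_eq_one
  rw [gt_pow, mem_chain]
  simp

lemma lev_c [hp : Fact p.Prime] :
    orderOf (QuotientGroup.mk' (chain p (k+1)) gc ^ (p ^ k)) = p := by
  apply orderOf_eq_prime
  · rw [← pow_mul, ← pow_succ, ← map_pow]
    apply mk_pow_eq_one
    rw [gc_pow, mem_chain]
    simp
  · rw [← map_pow]
    intro h
    rw [← MonoidHom.mem_ker, QuotientGroup.ker_mk', gc_pow, mem_chain] at h
    have h0 : ((p ^ (k+1) : ℕ) : ℤ) ∣ ((p ^ k : ℕ) : ℤ) := h.2.2
    have h1 : p ^ (k+1) ∣ p ^ k := by exact_mod_cast h0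
    have h2 := (Nat.pow_dvd_pow_iff_le_right hp.out.one_lt).mp h1
    omega

end Level

/-- Along the powers of `2` the determinants stay below `8`. -/
theorem fkDet_two (k : ℕ) : fkDet (proj (chain 2 (k+1)) AA) ≤ 8 := by
  classical
  letI : Fintype (Heis ℤ ⧸ chain 2 (k+1)) := Fintype.ofFinite _
  haveI : Fact (Nat.Prime 2) := ⟨Nat.prime_two⟩
  rw [proj_AA]
  set a := QuotientGroup.mk' (chain 2 (k+1)) ga
  set t := QuotientGroup.mk' (chain 2 (k+1)) gt
  have hb := even_bound (lev_comm 2 k) (lev_at 2 k) k (lev_a 2 k) (lev_t 2 k) (lev_c 2 k)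
  have hlow := one_le_norm_det a t
  have hdet : (rmat (elt a t)).det ≠ 0 := by
    rw [rmat_elt]
    intro h0
    rw [h0, norm_zero] at hlow
    linarith
  rw [fkDet_finite _ hdet, rmat_elt]
  set D := ‖(1 - (28 : ℂ) • Smat a t).det‖
  set n := Fintype.card (Heis ℤ ⧸ chain 2 (k+1))
  have hn : (0 : ℝ) < n := by
    exact_mod_cast Fintype.card_pos
  have hD : 0 < D := by linarith
  rw [← Real.le_log_iff_exp_le (by norm_num : (0:ℝ) < 8), inv_mul_le_iff₀ hn]
  have h1 : Real.log (D ^ 2) ≤ Real.log (57 ^ n) := Real.log_le_log (by positivity) hb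
  rw [Real.log_pow, Real.log_pow] at h1
  have h2 : Real.log 57 ≤ 2 * Real.log 8 := by
    have : (2:ℝ) * Real.log 8 = Real.log (8 ^ 2) := by
      rw [Real.log_pow]
      norm_num
    rw [this]
    exact Real.log_le_log (by norm_num) (by norm_num)
  have h3 : (n:ℝ) * Real.log 57 ≤ n * (2 * Real.log 8) := by gcongr
  push_cast at h1
  linarith

/-- Along the powers of `3` the determinants stay above `9`. -/
theorem fkDet_three (k : ℕ) : 9 ≤ fkDet (proj (chain 3 (k+1)) AA) := by
  classical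
  letI : Fintype (Heis ℤ ⧸ chain 3 (k+1)) := Fintype.ofFinite _
  haveI : Fact (Nat.Prime 3) := ⟨Nat.prime_three⟩
  rw [proj_AA]
  set a := QuotientGroup.mk' (chain 3 (k+1)) ga
  set t := QuotientGroup.mk' (chain 3 (k+1)) gt
  have hb := odd_bound (lev_comm 3 k) (lev_at 3 k) k (lev_a 3 k) (lev_t 3 k) (lev_c 3 k)
  have hlow := one_le_norm_det a t
  have hdet : (rmat (elt a t)).det ≠ 0 := by
    rw [rmat_elt]
    intro h0
    rw [h0, norm_zero] at hlow
    linarith
  rw [fkDet_finite _ hdet, rmat_elt]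
  set D := ‖(1 - (28 : ℂ) • Smat a t).det‖
  set n := Fintype.card (Heis ℤ ⧸ chain 3 (k+1))
  have hn : (0 : ℝ) < n := by
    exact_mod_cast Fintype.card_pos
  have hD : 0 < D := by linarith
  rw [← Real.log_le_iff_le_exp (by norm_num : (0:ℝ) < 9), le_inv_mul_iff₀ hn]
  have h1 : Real.log (9 ^ n) ≤ Real.log D := Real.log_le_log (by positivity) hb
  rwa [Real.log_pow] at h1

/-- The two chains cannot both give the determinant of `AA`. -/
theorem not_both (h2 : Filter.Tendsto
      (detSeq (chain 2) (isNormalChain_chain le_rfl) AA) Filter.atTop (nhds (fkDet AA)))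
    (h3 : Filter.Tendsto
      (detSeq (chain 3) (isNormalChain_chain (by norm_num)) AA) Filter.atTop (nhds (fkDet AA))) :
    False := by
  have e2 : fkDet AA ≤ 8 := by
    refine le_of_tendsto h2 ?_
    filter_upwards [Filter.eventually_ge_atTop 1] with k hk
    obtain ⟨j, rfl⟩ : ∃ j, k = j + 1 := ⟨k - 1, by omega⟩
    exact fkDet_two j
  have e3 : 9 ≤ fkDet AA := by
    refine ge_of_tendsto h3 ?_
    filter_upwards [Filter.eventually_ge_atTop 1] with k hk
    obtain ⟨j, rfl⟩ : ∃ j, k = j + 1 := ⟨k - 1, by omega⟩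
    exact fkDet_three j
  linarith

theorem not_fkApprox_heis : ¬ FKApprox (Heis ℤ) := by
  intro h
  exact not_both (h (chain 2) (isNormalChain_chain le_rfl) 1 1 le_rfl le_rfl AA)
    (h (chain 3) (isNormalChain_chain (by norm_num)) 1 1 le_rfl le_rfl AA)

end Pool.Agent.Helper16.FK
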