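import Mathlib
set_option autoImplicit false
set_option linter.unusedSectionVars false
open scoped Matrix
open Polynomial

namespace Pool.Agent.Helper16.FK

section Ring

variable {R : Type*} [CommRing R]

lemma prod_two (k : ℕ) : ∀ (Z Y : R), 1 + Y ^ (2 ^ k) = 0 →
    ∏ j ∈ Finset.range (2 ^ (k + 1)), (1 - Z * Y ^ j) = 1 - Z ^ (2 ^ (k + 1)) := by
  induction k with
  | zero =>
    intro Z Y h
    have hY : Y = -1 := by
      have : 1 + Y = 0 := by simpa using h
      linear_combination this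
    subst hY
    simp [Finset.prod_range_succ]
    ring
  | succ k ih =>
    intro Z Y h
    have e : (2:ℕ) ^ (k + 1 + 1) = 2 ^ (k+1) + 2 ^ (k+1) := by ring
    rw [e, Finset.prod_range_add, ← Finset.prod_mul_distrib]
    have h1 : ∀ j ∈ Finset.range (2 ^ (k+1)),
        (1 - Z * Y ^ j) * (1 - Z * Y ^ (2 ^ (k+1) + j)) = 1 - Z ^ 2 * (Y ^ 2) ^ j := by
      intro j _
      rw [pow_add]
      have : Y ^ 2 ^ (k+1) = -1 := by linear_combination h
      rw [this]
      ring
    rw [Finset.prod_congr rfl h1, ih (Z ^ 2) (Y ^ 2)]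
    · rw [← pow_mul]
      congr 2
      ring
    · rw [← pow_mul, ← pow_succ']
      exact h

lemma prod_three (k : ℕ) : ∀ (Z Y : R), 1 + Y ^ (3 ^ k) + (Y ^ (3 ^ k)) ^ 2 = 0 →
    ∏ j ∈ Finset.range (3 ^ (k + 1)), (1 - Z * Y ^ j) = 1 - Z ^ (3 ^ (k + 1)) := by
  induction k with
  | zero =>
    intro Z Y h
    have hY : 1 + Y + Y ^ 2 = 0 := by simpa using h
    simp [Finset.prod_range_succ]
    linear_combination (-Z + Z ^ 2 * Y - Z ^ 3 * (Y - 1)) * hY
  | succ k ih =>
    intro Z Y h
    have e : (3:ℕ) ^ (k + 1 + 1) = (3 ^ (k+1) + 3 ^ (k+1)) + 3 ^ (k+1) := by ring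
    rw [e, Finset.prod_range_add, Finset.prod_range_add, ← Finset.prod_mul_distrib,
      ← Finset.prod_mul_distrib]
    have h1 : ∀ j ∈ Finset.range (3 ^ (k+1)),
        (1 - Z * Y ^ j) * (1 - Z * Y ^ (3 ^ (k+1) + j)) *
          (1 - Z * Y ^ (3 ^ (k+1) + 3 ^ (k+1) + j)) = 1 - Z ^ 3 * (Y ^ 3) ^ j := by
      intro j _
      rw [pow_add, pow_add Y (3 ^ (k+1) + 3 ^ (k+1)) j, pow_add Y (3 ^ (k+1)) (3 ^ (k+1))]
      generalize Y ^ 3 ^ (k+1) = W at h ⊢
      rw [← pow_mul, mul_comm 3 j, pow_mul]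
      generalize Y ^ j = V
      linear_combination (-Z * V + Z ^ 2 * V ^ 2 * W - Z ^ 3 * V ^ 3 * (W - 1)) * h
    rw [Finset.prod_congr rfl h1, ih (Z ^ 3) (Y ^ 3)]
    · rw [← pow_mul]
      congr 2
      ring
    · rw [← pow_mul, ← pow_succ']
      exact h

lemma prod_two' (k : ℕ) (Z Y : R) : ∃ Q : R,
    ∏ j ∈ Finset.range (2 ^ (k + 1)), (1 - Z * Y ^ j)
      = 1 - Z ^ (2 ^ (k + 1)) + (1 + Y ^ (2 ^ k)) * Q := by
  let I := Ideal.span {1 + Y ^ (2 ^ k)}
  have h := prod_two (R := R ⧸ I) k (Ideal.Quotient.mk I Z) (Ideal.Quotient.mk I Y) (by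
    rw [← map_one (Ideal.Quotient.mk I), ← map_pow, ← map_add, Ideal.Quotient.eq_zero_iff_mem]
    exact Ideal.subset_span rfl)
  rw [← map_one (Ideal.Quotient.mk I)] at h
  simp only [← map_pow, ← map_mul, ← map_sub, ← map_prod] at h
  rw [Ideal.Quotient.eq, Ideal.mem_span_singleton'] at h
  obtain ⟨Q, hQ⟩ := h
  exact ⟨Q, by linear_combination -hQ⟩

lemma prod_three' (k : ℕ) (Z Y : R) : ∃ Q : R,
    ∏ j ∈ Finset.range (3 ^ (k + 1)), (1 - Z * Y ^ j)
      = 1 - Z ^ (3 ^ (k + 1)) + (1 + Y ^ (3 ^ k) + (Y ^ (3 ^ k)) ^ 2) * Q := by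
  let I := Ideal.span {1 + Y ^ (3 ^ k) + (Y ^ (3 ^ k)) ^ 2}
  have h := prod_three (R := R ⧸ I) k (Ideal.Quotient.mk I Z) (Ideal.Quotient.mk I Y) (by
    rw [← map_one (Ideal.Quotient.mk I), ← map_pow, ← map_pow, ← map_add, ← map_add,
      Ideal.Quotient.eq_zero_iff_mem]
    exact Ideal.subset_span rfl)
  rw [← map_one (Ideal.Quotient.mk I)] at h
  simp only [← map_pow, ← map_mul, ← map_sub, ← map_prod] at h
  rw [Ideal.Quotient.eq, Ideal.mem_span_singleton'] at h
  obtain ⟨Q, hQ⟩ := h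
  exact ⟨Q, by linear_combination -hQ⟩

end Ring

section Eig

variable {n : Type*} [Fintype n] [DecidableEq n]

lemma det_one_sub_eq (M : Matrix n n ℂ) (z : ℂ) (hz : z ≠ 0) :
    (1 - z • M).det = (M.charpoly.roots.map (fun μ => 1 - z * μ)).prod := by
  have h1 : (1 - z • M) = z • (Matrix.scalar n z⁻¹ - M) := by
    rw [smul_sub]
    congr 1
    ext i j
    simp [Matrix.one_apply, Matrix.diagonal_apply, hz]
  have hcard : Multiset.card M.charpoly.roots = Fintype.card n := by
    rw [← (IsAlgClosed.splits M.charpoly).natDegree_eq_card_roots, M.charpoly_natDegree_eq_dim]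
  rw [h1, Matrix.det_smul, ← Matrix.eval_charpoly,
    (IsAlgClosed.splits M.charpoly).eval_eq_prod_roots_of_monic M.charpoly_monic, ← hcard]
  rw [← Multiset.prod_replicate, ← Multiset.map_const', ← Multiset.prod_map_mul]
  congr 1
  refine Multiset.map_congr rfl fun μ _ => ?_
  field_simp

lemma exists_eigenvector (M : Matrix n n ℂ) (μ : ℂ) (hμ : μ ∈ M.charpoly.roots) :
    ∃ v : n → ℂ, v ≠ 0 ∧ M *ᵥ v = μ • v := by
  have h1 : (Matrix.scalar n μ - M).det = 0 := by
    rw [← Matrix.eval_charpoly]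
    exact (Polynomial.mem_roots'.mp hμ).2
  obtain ⟨v, hv, h⟩ := Matrix.exists_mulVec_eq_zero_iff.mpr h1
  refine ⟨v, hv, ?_⟩
  rw [Matrix.sub_mulVec, sub_eq_zero] at h
  rw [← h]
  ext i
  simp [Matrix.mulVec_diagonal]

end Eig

section Eig2

variable {n : Type*} [Fintype n] [DecidableEq n]

lemma norm_det_one_sub_le (M : Matrix n n ℂ) (z L : ℝ) (hz : 0 < z)
    (hL : ∀ μ ∈ M.charpoly.roots, ‖μ‖ ≤ L) :
    ‖(1 - (z : ℂ) • M).det‖ ≤ (1 + z * L) ^ Fintype.card n := by
  have hz' : (z : ℂ) ≠ 0 := by exact_mod_cast hz.ne'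
  rw [det_one_sub_eq M z hz']
  have hcard : Multiset.card M.charpoly.roots = Fintype.card n := by
    rw [← (IsAlgClosed.splits M.charpoly).natDegree_eq_card_roots, M.charpoly_natDegree_eq_dim]
  rw [← hcard]
  generalize M.charpoly.roots = s at hL
  induction s using Multiset.induction_on with
  | empty => simp
  | cons a s ih =>
    have ha := hL a (Multiset.mem_cons_self a s)
    have hs : ∀ μ ∈ s, ‖μ‖ ≤ L := fun μ hμ => hL μ (Multiset.mem_cons_of_mem hμ)
    rw [Multiset.map_cons, Multiset.prod_cons, norm_mul, Multiset.card_cons, pow_succ']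
    have h1 : ‖1 - (z : ℂ) * a‖ ≤ 1 + z * L := by
      calc ‖1 - (z : ℂ) * a‖ ≤ ‖(1 : ℂ)‖ + ‖(z : ℂ) * a‖ := norm_sub_le _ _
        _ = 1 + z * ‖a‖ := by
          rw [norm_one, norm_mul, Complex.norm_real, Real.norm_of_nonneg hz.le]
        _ ≤ 1 + z * L := by gcongr
    have h0 : 0 ≤ 1 + z * L := (norm_nonneg _).trans h1
    exact mul_le_mul h1 (ih hs) (norm_nonneg _) h0

lemma det_one_sub_nilpotent (N : Matrix n n ℂ) (z : ℝ) (hz : 0 < z) (m : ℕ) (hN : N ^ m = 0) :
    (1 - (z : ℂ) • N).det = 1 := by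
  have hz' : (z : ℂ) ≠ 0 := by exact_mod_cast hz.ne'
  rw [det_one_sub_eq N z hz']
  refine Multiset.prod_eq_one ?_
  intro x hx
  obtain ⟨μ, hμ, rfl⟩ := Multiset.mem_map.mp hx
  obtain ⟨v, hv, h⟩ := exists_eigenvector N μ hμ
  have hpow : ∀ k : ℕ, (N ^ k) *ᵥ v = μ ^ k • v := by
    intro k
    induction k with
    | zero => simp
    | succ k ih =>
      rw [pow_succ, ← Matrix.mulVec_mulVec, h, Matrix.mulVec_smul, ih, smul_smul, pow_succ']
  have h1 := hpow m
  rw [hN, Matrix.zero_mulVec] at h1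
  have : μ ^ m = 0 := by
    by_contra hne
    exact hv (by simpa [hne] using h1.symm)
  have : μ = 0 := eq_zero_of_pow_eq_zero this
  simp [this]

/-- Lower bound for `det (1 - z N)` when `N ^ m = 2 F` with `F` idempotent. -/
lemma norm_det_one_sub_ge (N F : Matrix n n ℂ) (z : ℝ) (hz : 2 ≤ z) (m : ℕ)
    (hF : F * F = F) (hN : N ^ m = (2 : ℂ) • F) (q : ℕ)
    (hq : Module.finrank ℂ (LinearMap.ker (Matrix.toLin' F)) ≤ q) :
    (z - 1) ^ (Fintype.card n - q) ≤ ‖(1 - (z : ℂ) • N).det‖ := by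
  classical
  have hz0 : 0 < z := by linarith
  have hz' : (z : ℂ) ≠ 0 := by exact_mod_cast hz0.ne'
  rw [det_one_sub_eq N z hz']
  have hcard : Multiset.card N.charpoly.roots = Fintype.card n := by
    rw [← (IsAlgClosed.splits N.charpoly).natDegree_eq_card_roots, N.charpoly_natDegree_eq_dim]
  -- the nonzero roots have modulus at least one
  have hroot : ∀ μ ∈ N.charpoly.roots, μ ≠ 0 → 1 ≤ ‖μ‖ := by
    intro μ hμ hμ0
    obtain ⟨v, hv, h⟩ := exists_eigenvector N μ hμ
    have hpow : ∀ k : ℕ, (N ^ k) *ᵥ v = μ ^ k • v := by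
      intro k
      induction k with
      | zero => simp
      | succ k ih =>
        rw [pow_succ, ← Matrix.mulVec_mulVec, h, Matrix.mulVec_smul, ih, smul_smul, pow_succ']
    have h1 := hpow m
    rw [hN, Matrix.smul_mulVec] at h1
    have h2 : F *ᵥ v = (μ ^ m / 2) • v := by
      have : (2 : ℂ)⁻¹ • ((2 : ℂ) • F *ᵥ v) = (2 : ℂ)⁻¹ • (μ ^ m • v) := by rw [h1]
      rw [smul_smul, smul_smul] at this
      rw [show (2 : ℂ)⁻¹ * 2 = 1 by norm_num, one_smul] at this
      rw [this]
      congr 1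
      ring
    have h3 : (μ ^ m / 2) • ((μ ^ m / 2) • v) = (μ ^ m / 2) • v := by
      rw [← h2, ← Matrix.mulVec_smul, ← h2, Matrix.mulVec_mulVec, hF]
    have h4 : (μ ^ m / 2) * (μ ^ m / 2) = μ ^ m / 2 := by
      rw [smul_smul] at h3
      by_contra hne
      have : ((μ ^ m / 2) * (μ ^ m / 2) - μ ^ m / 2) • v = 0 := by
        rw [sub_smul, h3, sub_self]
      rcases smul_eq_zero.mp this with h5 | h5
      · exact hne (sub_eq_zero.mp h5)
      · exact hv h5
    have h5 : μ ^ m = 2 := by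
      have hne : μ ^ m / 2 ≠ 0 := by
        have : μ ^ m ≠ 0 := pow_ne_zero _ hμ0
        exact div_ne_zero this (by norm_num)
      have : μ ^ m / 2 = 1 := mul_left_cancel₀ hne (by rw [h4, mul_one])
      linear_combination 2 * this
    by_contra hlt
    push Not at hlt
    have : ‖μ ^ m‖ ≤ 1 := by
      rw [norm_pow]
      exact pow_le_one₀ (norm_nonneg _) hlt.le
    rw [h5] at this
    norm_num at this
  -- number of zero roots
  have hcount : Multiset.count 0 N.charpoly.roots ≤ q := by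
    rw [Polynomial.count_roots, ← Matrix.charpoly_toLin', ← LinearMap.finrank_maxGenEigenspace_eq]
    refine le_trans (Submodule.finrank_mono ?_) hq
    intro v hv
    rw [Module.End.mem_maxGenEigenspace] at hv
    obtain ⟨k, hk⟩ := hv
    rw [LinearMap.mem_ker, Matrix.toLin'_apply]
    have hk' : (N ^ k) *ᵥ v = 0 := by
      rw [← Matrix.toLin'_apply, Matrix.toLin'_pow]
      simpa using hk
    have hFk : ∀ j : ℕ, (F ^ (j+1)) = F := by
      intro j
      induction j with
      | zero => simp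
      | succ j ih => rw [pow_succ, ih, hF]
    rcases Nat.eq_zero_or_pos k with rfl | hkpos
    · have : v = 0 := by simpa using hk'
      simp [this]
    · have h6 : (N ^ (m * k)) *ᵥ v = 0 := by
        have : N ^ (m * k) = N ^ ((m * k) - k + k) ∨ m = 0 := by
          rcases Nat.eq_zero_or_pos m with h0 | h0
          · right; exact h0
          · left
            congr 1
            have : k ≤ m * k := Nat.le_mul_of_pos_left k h0
            omega
        rcases this with h7 | h7
        · rw [h7, pow_add, ← Matrix.mulVec_mulVec, hk', Matrix.mulVec_zero]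
        · -- m = 0 : then 1 = 2 F, impossible to be idempotent unless trivial
          subst h7
          rw [pow_zero] at hN
          have h8 : (2 : ℂ) • F = F := by
            calc (2 : ℂ) • F = (2 : ℂ) • (F * F) := by rw [hF]
              _ = ((2 : ℂ) • F) * F := by rw [Matrix.smul_mul]
              _ = F := by rw [← hN, one_mul]
          have h9 : (1 : Matrix n n ℂ) = F := by rw [hN, h8]
          have h10 : F = 0 := by
            have : (2 : ℂ) • F - F = 0 := by rw [h8, sub_self]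
            have h11 : (2 : ℂ) • F - F = F := by
              rw [two_smul]; abel
            rw [h11] at this
            exact this
          have : v = 0 := by
            calc v = (1 : Matrix n n ℂ) *ᵥ v := (Matrix.one_mulVec v).symm
              _ = 0 := by rw [h9, h10, Matrix.zero_mulVec]
          rw [this, Matrix.mulVec_zero]
      obtain ⟨j, rfl⟩ : ∃ j, k = j + 1 := ⟨k - 1, by omega⟩
      rw [pow_mul, hN, _root_.smul_pow, hFk, Matrix.smul_mulVec] at h6
      rcases smul_eq_zero.mp h6 with h7 | h7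
      · exact absurd h7 (pow_ne_zero _ two_ne_zero)
      · exact h7
  -- conclusion
  have key : ∀ s : Multiset ℂ, (∀ μ ∈ s, μ ≠ 0 → 1 ≤ ‖μ‖) →
      (z - 1) ^ (Multiset.card s - Multiset.count 0 s)
        ≤ ‖(s.map (fun μ => 1 - (z : ℂ) * μ)).prod‖ := by
    intro s
    induction s using Multiset.induction_on with
    | empty => simp
    | cons a s ih =>
      intro hs
      have ih' := ih (fun μ hμ => hs μ (Multiset.mem_cons_of_mem hμ))
      rw [Multiset.map_cons, Multiset.prod_cons, norm_mul, Multiset.card_cons]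
      by_cases ha : a = 0
      · subst ha
        rw [Multiset.count_cons_self]
        simpa using ih'
      · rw [Multiset.count_cons_of_ne (Ne.symm ha)]
        have hle : Multiset.count 0 s ≤ Multiset.card s := Multiset.count_le_card _ _
        rw [show Multiset.card s + 1 - Multiset.count 0 s
          = (Multiset.card s - Multiset.count 0 s) + 1 by omega, pow_succ']
        have h1 : z - 1 ≤ ‖1 - (z : ℂ) * a‖ := by
          have hna := hs a (Multiset.mem_cons_self a s) ha
          have : ‖(z : ℂ) * a‖ - ‖(1 : ℂ)‖ ≤ ‖(z : ℂ) * a - 1‖ := norm_sub_norm_le _ _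
          rw [norm_sub_rev] at this
          rw [norm_mul, Complex.norm_real, Real.norm_of_nonneg hz0.le, norm_one] at this
          nlinarith
        exact mul_le_mul h1 ih' (by
          apply pow_nonneg; linarith) (norm_nonneg _)
  refine le_trans ?_ (key _ hroot)
  rw [hcard]
  exact pow_le_pow_right₀ (by linarith) (by omega)

end Eig2

end Pool.Agent.Helper16.FK
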