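import Pool.Agent.Helper16.FKDefs
set_option autoImplicit false
open scoped ENNReal InnerProductSpace
open MeasureTheory Polynomial

namespace Pool.Agent.Helper16.FK

section

variable {H : Type*} [NormedAddCommGroup H] [InnerProductSpace ℂ H] [CompleteSpace H]
  {ι : Type*} [Fintype ι]

/-- The spectral measure is determined by its moments. -/
theorem spectralMeasure_eq_of_moments (T : H →L[ℂ] H) (hT : IsSelfAdjoint T) (v : ι → H)
    (ν : Measure ℝ) [IsFiniteMeasure ν] (R : ℝ) (hR : ∀ᵐ x ∂ν, x ∈ Set.Icc (-R) R)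
    (hmom : ∀ P : ℝ[X], ∑ i, (⟪aeval T P (v i), v i⟫_ℂ).re = ∫ x, P.eval x ∂ν) :
    spectralMeasure T v = ν := by
  unfold spectralMeasure
  refine Measure.ext_of_integral_eq_on_compactlySupported fun φ => ?_
  rw [RealRMK.integral_rieszMeasure]
  change ∑ i, (⟪cfc (fun x => φ x) T (v i), v i⟫_ℂ).re = ∫ x, φ x ∂ν
  -- pick a common radius
  set S : ℝ := max R ‖T‖ with hS
  have hSR : ∀ᵐ x ∂ν, x ∈ Set.Icc (-S) S := by
    filter_upwards [hR] with x hx
    exact ⟨by linarith [hx.1, le_max_left R ‖T‖], by linarith [hx.2, le_max_left R ‖T‖]⟩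
  have hspec : ∀ x ∈ spectrum ℝ T, x ∈ Set.Icc (-S) S := by
    intro x hx
    have h1 : ‖x‖ ≤ ‖T‖ * ‖(1 : H →L[ℂ] H)‖ := spectrum.norm_le_norm_mul_of_mem hx
    have h2 : ‖(1 : H →L[ℂ] H)‖ ≤ 1 := ContinuousLinearMap.norm_id_le
    have h3 : |x| ≤ S := by
      calc |x| = ‖x‖ := rfl
        _ ≤ ‖T‖ * ‖(1 : H →L[ℂ] H)‖ := h1
        _ ≤ ‖T‖ * 1 := by gcongr
        _ = ‖T‖ := mul_one _
        _ ≤ S := le_max_right _ _
    exact abs_le.mp h3
  refine eq_of_abs_sub_le_all ?_
  intro ε hε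
  set C : ℝ := ∑ i, ‖v i‖ ^ 2 + ν.real Set.univ + 1 with hC
  have hCpos : 0 < C := by
    have : 0 ≤ ∑ i, ‖v i‖ ^ 2 := Finset.sum_nonneg fun i _ => by positivity
    have : 0 ≤ ν.real Set.univ := measureReal_nonneg
    positivity
  obtain ⟨P, hP⟩ := exists_polynomial_near_of_continuousOn (-S) S (fun x => φ x)
    φ.continuous.continuousOn (ε / C) (by positivity)
  have hPc : Continuous fun x : ℝ => P.eval x := P.continuous
  have hcfcP : cfc (fun x => P.eval x) T = aeval T P := cfc_polynomial P T hT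
  have e1 : |∑ i, (⟪cfc (fun x => φ x) T (v i), v i⟫_ℂ).re
      - ∑ i, (⟪aeval T P (v i), v i⟫_ℂ).re| ≤ ε / C * ∑ i, ‖v i‖ ^ 2 := by
    rw [← Finset.sum_sub_distrib, Finset.mul_sum]
    refine (Finset.abs_sum_le_sum_abs _ _).trans (Finset.sum_le_sum fun i _ => ?_)
    have hsub : cfc (fun x => φ x) T - aeval T P = cfc (fun x => φ x - P.eval x) T := by
      rw [← hcfcP, ← cfc_sub (fun x => φ x) (fun x => P.eval x) T
        φ.continuous.continuousOn hPc.continuousOn]
    have hnorm : ‖cfc (fun x => φ x) T - aeval T P‖ ≤ ε / C := by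
      rw [hsub]
      refine norm_cfc_le (by positivity) fun x hx => ?_
      have := hP x (hspec x hx)
      rw [Real.norm_eq_abs, abs_sub_comm]
      exact this.le
    have : (⟪cfc (fun x => φ x) T (v i), v i⟫_ℂ).re - (⟪aeval T P (v i), v i⟫_ℂ).re
        = (⟪(cfc (fun x => φ x) T - aeval T P) (v i), v i⟫_ℂ).re := by
      rw [_root_.sub_apply, inner_sub_left, Complex.sub_re]
    rw [this]
    calc |(⟪(cfc (fun x => φ x) T - aeval T P) (v i), v i⟫_ℂ).re|
        ≤ ‖⟪(cfc (fun x => φ x) T - aeval T P) (v i), v i⟫_ℂ‖ := Complex.abs_re_le_norm _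
      _ ≤ ‖(cfc (fun x => φ x) T - aeval T P) (v i)‖ * ‖v i‖ := norm_inner_le_norm _ _
      _ ≤ (ε / C * ‖v i‖) * ‖v i‖ := by
          gcongr
          exact ContinuousLinearMap.le_of_opNorm_le _ hnorm _
      _ = ε / C * ‖v i‖ ^ 2 := by ring
  have e2 : |∫ x, P.eval x ∂ν - ∫ x, φ x ∂ν| ≤ ε / C * ν.real Set.univ := by
    have hφi : Integrable (fun x => φ x) ν := φ.integrable
    have hPi : Integrable (fun x : ℝ => P.eval x) ν := by
      obtain ⟨K, hK⟩ := (isCompact_Icc (a := -S) (b := S)).exists_bound_of_continuousOn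
        hPc.continuousOn
      exact Integrable.of_bound hPc.aestronglyMeasurable K (hSR.mono fun x hx => hK x hx)
    rw [← integral_sub hPi hφi]
    have := norm_integral_le_of_norm_le_const (μ := ν) (f := fun x => P.eval x - φ x)
      (C := ε / C) (hSR.mono fun x hx => (hP x hx).le)
    simpa using this
  rw [hmom P] at e1
  calc |∑ i, (⟪cfc (fun x => φ x) T (v i), v i⟫_ℂ).re - ∫ x, φ x ∂ν|
      ≤ |∑ i, (⟪cfc (fun x => φ x) T (v i), v i⟫_ℂ).re - ∫ x, P.eval x ∂ν|
        + |∫ x, P.eval x ∂ν - ∫ x, φ x ∂ν| := abs_sub_le _ _ _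
    _ ≤ ε / C * ∑ i, ‖v i‖ ^ 2 + ε / C * ν.real Set.univ := add_le_add e1 e2
    _ ≤ ε / C * C := by
        rw [hC]
        have : 0 ≤ ε / C := by positivity
        nlinarith
    _ = ε := by field_simp

/-- The same with the powers as test functions. -/
theorem spectralMeasure_eq_of_pow_moments (T : H →L[ℂ] H) (hT : IsSelfAdjoint T) (v : ι → H)
    (ν : Measure ℝ) [IsFiniteMeasure ν] (R : ℝ) (hR : ∀ᵐ x ∂ν, x ∈ Set.Icc (-R) R)
    (hmom : ∀ k : ℕ, ∑ i, (⟪(T ^ k) (v i), v i⟫_ℂ).re = ∫ x, x ^ k ∂ν) :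
    spectralMeasure T v = ν := by
  refine spectralMeasure_eq_of_moments T hT v ν R hR fun P => ?_
  have hint : ∀ P : ℝ[X], Integrable (fun x : ℝ => P.eval x) ν := by
    intro P
    obtain ⟨K, hK⟩ := (isCompact_Icc (a := -R) (b := R)).exists_bound_of_continuousOn
      P.continuous.continuousOn
    exact Integrable.of_bound P.continuous.aestronglyMeasurable K (hR.mono fun x hx => hK x hx)
  induction P using Polynomial.induction_on' with
  | add p q hp hq =>
    simp only [map_add, _root_.add_apply, inner_add_left, Complex.add_re, eval_add]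
    rw [Finset.sum_add_distrib, hp, hq, integral_add (hint p) (hint q)]
  | monomial n a =>
    simp only [aeval_monomial, ← Algebra.smul_def, _root_.smul_apply, ← Complex.coe_smul,
      inner_smul_left, Complex.conj_ofReal, Complex.re_ofReal_mul, eval_monomial]
    rw [← Finset.mul_sum, hmom n, integral_const_mul]

end

end Pool.Agent.Helper16.FK
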