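import Pool.Agent.Helper16.GMGraph
set_option autoImplicit false
set_option linter.unusedSectionVars false

namespace Pool.Agent.Helper16.GM

open Relation

variable {N : Type*} [DecidableEq N] {nb : N → Finset N} {side : N → Bool} {L : Set N}

open Classical in
/-- The component of `h` inside a finite set. -/
noncomputable def cfin (nb : N → Finset N) (D : Finset N) (h : N) : Finset N :=
  D.filter (fun m => Conn nb ↑D h m)

lemma mem_cfin {D : Finset N} {h m : N} : m ∈ cfin nb D h ↔ m ∈ D ∧ Conn nb ↑D h m := by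
  classical
  unfold cfin
  rw [Finset.mem_filter]

lemma cfin_sub (D : Finset N) (h : N) : cfin nb D h ⊆ D := fun _ hm => (mem_cfin.mp hm).1

lemma cfin_closed {D : Finset N} {h x y : N} (hx : x ∈ cfin nb D h) (hy : y ∈ D)
    (hxy : y ∈ nb x) : y ∈ cfin nb D h := by
  rw [mem_cfin] at hx ⊢
  exact ⟨hy, hx.2.trans' (Conn.single' hx.1 hy hxy)⟩

lemma cfin_conn (hs : Sym nb) {D : Finset N} {h : N} (hh : h ∈ D) :
    ∀ a ∈ cfin nb D h, ∀ b ∈ cfin nb D h, Conn nb ↑(cfin nb D h) a b := by
  intro a ha b hb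
  have key : ∀ a ∈ cfin nb D h, Conn nb ↑(cfin nb D h) h a := by
    intro a ha
    have h1 := (mem_cfin.mp ha).2
    have h2 := (Conn.stay (R := ↑(cfin nb D h)) h1 (mem_cfin.mpr ⟨hh, Conn.rfl'⟩)
      (fun x y hx _ hy hxy => cfin_closed hx hy hxy)).1
    exact h2.mono' Set.inter_subset_right
  exact ((key a ha).symm' hs).trans' (key b hb)

lemma sl_empty (c : Bool) : sl nb side L c ∅ = 0 := by
  unfold sl ecount
  simp

lemma sl_dead {c : Bool} {h : N} (hL : h ∉ L) : sl nb side L c {h} = 0 := by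
  unfold sl ecount tau
  simp [hL]

/-- Peeling off the components. -/
lemma peel (hs : Sym nb) (H : Finset N)
    (hP : ∀ h ∈ H, ∀ c, 0 ≤ sl nb side L c (cfin nb H h)) : ∀ c, 0 ≤ sl nb side L c H := by
  induction hn : H.card using Nat.strong_induction_on generalizing H with
  | _ n ih =>
    intro c
    rcases H.eq_empty_or_nonempty with rfl | ⟨h, hh⟩
    · rw [sl_empty]
    set K := cfin nb H h with hK
    have hhK : h ∈ K := mem_cfin.mpr ⟨hh, Conn.rfl'⟩
    have hKH : K ⊆ H := cfin_sub H h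
    have hcomp : ∀ h' ∈ H \ K, cfin nb (H \ K) h' = cfin nb H h' := by
      intro h' hh'
      rw [Finset.mem_sdiff] at hh'
      ext m
      rw [mem_cfin, mem_cfin]
      constructor
      · rintro ⟨h1, h2⟩
        exact ⟨(Finset.mem_sdiff.mp h1).1, h2.mono' (by
          intro x hx
          exact (Finset.mem_sdiff.mp hx).1)⟩
      · rintro ⟨h1, h2⟩
        have h3 := Conn.stay (R := (↑K : Set N)ᶜ) h2 hh'.2 (by
          intro x y hx hxH hyH hxy hyK
          apply hx
          exact cfin_closed hyK hxH (hs _ _ hxy))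
        refine ⟨Finset.mem_sdiff.mpr ⟨h1, h3.2⟩, h3.1.mono' ?_⟩
        rintro x ⟨hx1, hx2⟩
        exact Finset.mem_sdiff.mpr ⟨hx1, hx2⟩
    have hlt : (H \ K).card < n := by
      rw [← hn]
      apply Finset.card_lt_card
      rw [Finset.ssubset_iff_of_subset Finset.sdiff_subset]
      exact ⟨h, hh, by simp [hhK]⟩
    have h1 := ih _ hlt (H \ K) (by
      intro h' hh' c'
      rw [hcomp h' hh']
      exact hP h' (Finset.mem_sdiff.mp hh').1 c') rfl c
    have h2 := hP h hh c
    have h3 : sl nb side L c (K ∪ (H \ K)) = sl nb side L c K + sl nb side L c (H \ K) := by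
      apply sl_union
      · exact Finset.disjoint_sdiff
      · intro a ha b hb hab
        rw [Finset.mem_sdiff] at hb
        exact hb.2 (cfin_closed ha hb.1 hab)
      · intro a ha b hb hab
        rw [Finset.mem_sdiff] at ha
        exact ha.2 (cfin_closed hb ha.1 (hs _ _ hab))
    rw [Finset.union_sdiff_of_subset hKH] at h3
    rw [h3]
    exact add_nonneg h2 h1

/-- The crossing point from outside `D` to `D`. -/
lemma exists_entry {D : Finset N} {a v : N} (ha : a ∉ D) (hv : v ∈ D)
    (h : Conn nb Set.univ a v) : ∃ p q, Conn nb (↑D)ᶜ a p ∧ p ∉ D ∧ q ∈ D ∧ q ∈ nb p := by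
  obtain ⟨p, q, _, hp, hq, -, -, hpq⟩ := exists_crossing (P := {x | Conn nb (↑D)ᶜ a x}) h
    Conn.rfl' (by
      intro hc
      exact (Conn.mem_right hc ha) hv)
  have hpD : p ∉ D := Conn.mem_right hp ha
  refine ⟨p, q, hp, hpD, ?_, hpq⟩
  by_contra hqD
  exact hq (Conn.trans' hp (Conn.single' hpD hqD hpq))

theorem sl_nonneg_of_cc (hs : Sym nb) (hb : Bip nb side) (V : Set N)
    (hV : ∀ n, n ∉ V → nb n = ∅ ∧ n ∉ L) (hinf : ∀ v ∈ V, (cmp nb Set.univ v).Infinite)
    (hOE : OneEnded nb) (hCC : ∀ D, CC nb D → ∀ c, 0 ≤ sl nb side L c D) :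
    ∀ D c, 0 ≤ sl nb side L c D := by
  -- connected sets
  have hconn : ∀ D : Finset N, ∀ v₀ ∈ D, v₀ ∈ V → (∀ a ∈ D, ∀ b ∈ D, Conn nb ↑D a b) →
      ∀ c, 0 ≤ sl nb side L c D := by
    intro D v₀ hv₀ hvV hD c
    set Hset : Set N := {m | m ∉ D ∧ Conn nb Set.univ v₀ m ∧ (cmp nb (↑D)ᶜ m).Finite} with hHset
    have hentry : ∀ m, m ∉ D → Conn nb Set.univ v₀ m →
        ∃ p q, Conn nb (↑D)ᶜ m p ∧ p ∉ D ∧ q ∈ D ∧ q ∈ nb p := fun m hm hc =>
      exists_entry hm hv₀ (hc.symm' hs)
    have hfin : Hset.Finite := by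
      have hsub : Hset ⊆ ⋃ p ∈ {p | p ∈ D.biUnion nb ∧ (cmp nb (↑D)ᶜ p).Finite},
          cmp nb (↑D)ᶜ p := by
        rintro m ⟨hm, hc, hf⟩
        obtain ⟨p, q, hp, hpD, hq, hpq⟩ := hentry m hm hc
        rw [Set.mem_iUnion₂]
        refine ⟨p, ⟨?_, ?_⟩, hp.symm' hs⟩
        · rw [Finset.mem_biUnion]
          exact ⟨q, hq, hs _ _ hpq⟩
        · refine hf.subset ?_
          intro x hx
          exact hp.trans' hx
      refine Set.Finite.subset ?_ hsub
      refine Set.Finite.biUnion ?_ ?_
      · exact (Finset.finite_toSet (D.biUnion nb)).subset fun p hp => hp.1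
      · rintro p ⟨_, hp⟩
        exact hp
    set H := hfin.toFinset with hH
    have hmemH : ∀ m, m ∈ H ↔ m ∉ D ∧ Conn nb Set.univ v₀ m ∧ (cmp nb (↑D)ᶜ m).Finite := by
      intro m
      rw [hH, Set.Finite.mem_toFinset]
      rfl
    have hdis : Disjoint D H := by
      rw [Finset.disjoint_left]
      intro a ha ha'
      exact ((hmemH a).mp ha').1 ha
    have hno : ∀ a ∈ H, ∀ b ∈ nb a, b ∈ D ∪ H := by
      intro a ha b hab
      rw [Finset.mem_union]
      by_cases hbD : b ∈ D
      · exact Or.inl hbD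
      · right
        obtain ⟨h1, h2, h3⟩ := (hmemH a).mp ha
        refine (hmemH b).mpr ⟨hbD, h2.trans' (Conn.single' trivial trivial hab), ?_⟩
        refine h3.subset ?_
        intro x hx
        have h4 : Conn nb (↑D)ᶜ a b := Conn.single' h1 hbD hab
        exact h4.trans' hx
    rw [sl_hole hs hb hdis hno]
    have hCdH : CC nb (D ∪ H) := by
      refine ⟨⟨v₀, Finset.mem_union_left _ hv₀⟩, ?_, ?_⟩
      · have key : ∀ a ∈ D ∪ H, Conn nb ↑(D ∪ H) a v₀ := by
          intro a ha
          have hDsub : (↑D : Set N) ⊆ ↑(D ∪ H) := by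
            rw [Finset.coe_union]; exact Set.subset_union_left
          by_cases haD : a ∈ D
          · exact (hD a haD v₀ hv₀).mono' hDsub
          · have haH : a ∈ H := (Finset.mem_union.mp ha).resolve_left haD
            obtain ⟨h1, h2, h3⟩ := (hmemH a).mp haH
            obtain ⟨p, q, hp, hpD, hq, hpq⟩ := hentry a h1 h2
            have h4 := Conn.stay (R := (↑H : Set N)) hp haH (by
              intro x y hx hxD hyD hxy
              exact (Finset.mem_union.mp (hno x hx y hxy)).resolve_left hyD)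
            have h5 : Conn nb ↑(D ∪ H) a p := h4.1.mono' (by
              rintro x ⟨_, hx⟩
              exact Finset.mem_union_right _ hx)
            exact (h5.trans' (Conn.single' (Finset.mem_union_right _ h4.2)
              (Finset.mem_union_left _ hq) hpq)).trans' ((hD q hq v₀ hv₀).mono' hDsub)
        intro a ha b hb'
        exact (key a ha).trans' ((key b hb').symm' hs)
      · intro d hd a b ha hb' hda hdb
        have hdv : Conn nb Set.univ v₀ d := by
          rcases Finset.mem_union.mp hd with h | h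
          · exact (hD v₀ hv₀ d h).mono' (Set.subset_univ _)
          · exact ((hmemH d).mp h).2.1
        rw [Finset.mem_union, not_or] at ha hb'
        have hva := hdv.trans' hda
        have hvb := hdv.trans' hdb
        have hia : (cmp nb (↑D)ᶜ a).Infinite := fun hf => ha.2 ((hmemH a).mpr ⟨ha.1, hva, hf⟩)
        have hib : (cmp nb (↑D)ᶜ b).Infinite := fun hf => hb'.2 ((hmemH b).mpr ⟨hb'.1, hvb, hf⟩)
        have h1 := hOE D a b ((hva.symm' hs).trans' hvb) ha.1 hb'.1 hia hib
        have h2 := Conn.stay (R := (↑H : Set N)ᶜ) h1 ha.2 (by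
          intro x y hx hxD hyD hxy hyH
          have := hno y hyH x (hs _ _ hxy)
          rcases Finset.mem_union.mp this with h | h
          · exact hxD h
          · exact hx h)
        refine h2.1.mono' ?_
        rintro x ⟨hx1, hx2⟩ hx3
        rcases Finset.mem_union.mp hx3 with h | h
        · exact hx1 h
        · exact hx2 h
    refine add_nonneg (hCC _ hCdH c) ?_
    refine peel hs H ?_ (!c)
    intro h hh c'
    refine hCC _ ?_ c'
    set K := cfin nb H h with hK
    have hKH : K ⊆ H := cfin_sub H h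
    have hKD : ∀ x ∈ K, x ∉ D := fun x hx hxD => Finset.disjoint_left.mp hdis hxD (hKH hx)
    refine ⟨⟨h, mem_cfin.mpr ⟨hh, Conn.rfl'⟩⟩, cfin_conn hs hh, ?_⟩
    intro d hd a b ha hb' hda hdb
    have hdv : Conn nb Set.univ v₀ d := ((hmemH d).mp (hKH hd)).2.1
    have key : ∀ a, a ∉ K → Conn nb Set.univ v₀ a → Conn nb (↑K)ᶜ a v₀ := by
      intro a ha hva
      have hDsub : (↑D : Set N) ⊆ (↑K)ᶜ := fun x hx hxK => hKD x hxK hx
      by_cases haD : a ∈ D
      · exact (hD a haD v₀ hv₀).mono' hDsub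
      · obtain ⟨p, q, hp, hpD, hq, hpq⟩ := hentry a haD hva
        have h4 := Conn.stay (R := (↑K : Set N)ᶜ) hp ha (by
          intro x y hx hxD hyD hxy hyK
          have hxH : x ∈ H :=
            (Finset.mem_union.mp (hno y (hKH hyK) x (hs _ _ hxy))).resolve_left hxD
          exact hx (cfin_closed hyK hxH (hs _ _ hxy)))
        have h5 : Conn nb (↑K)ᶜ a p := h4.1.mono' Set.inter_subset_right
        exact (h5.trans' (Conn.single' h4.2 (hDsub hq) hpq)).trans'
          ((hD q hq v₀ hv₀).mono' hDsub)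
    exact (key a ha (hdv.trans' hda)).trans' ((key b hb' (hdv.trans' hdb)).symm' hs)
  -- general sets
  intro D
  refine peel hs D ?_
  intro h hh c
  by_cases hhV : h ∈ V
  · exact hconn _ h (mem_cfin.mpr ⟨hh, Conn.rfl'⟩) hhV (cfin_conn hs hh) c
  · obtain ⟨h1, h2⟩ := hV h hhV
    have : cfin nb D h = {h} := by
      ext m
      rw [mem_cfin, Finset.mem_singleton]
      constructor
      · rintro ⟨_, hm⟩
        by_contra hne
        obtain ⟨p, q, hp, hp1, hq1, -, -, hpq⟩ := exists_crossing (P := {h}) hm rfl hne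
        rw [Set.mem_singleton_iff] at hp1
        subst hp1
        rw [h1] at hpq
        simp at hpq
      · rintro rfl
        exact ⟨hh, Conn.rfl'⟩
    rw [this, sl_dead h2]

end Pool.Agent.Helper16.GM
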