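import Pool.Agent.Helper16.GMGeo
set_option autoImplicit false
set_option linter.unusedSectionVars false

namespace Pool.Agent.Helper16.GM

open Relation Filter Topology

section Abs

variable {N : Type*} [DecidableEq N] {nb : N → Finset N}

/-- The neighbourhood of a finite set. -/
def nbh (nb : N → Finset N) (F : Finset N) : Finset N := F ∪ F.biUnion nb

lemma subset_nbh (F : Finset N) : F ⊆ nbh nb F := Finset.subset_union_left

lemma notMem_of_nbh (hs : Sym nb) {F : Finset N} {u m : N} (hu : u ∉ nbh nb F) (hm : m ∈ nb u) :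
    m ∉ F := by
  intro h
  apply hu
  unfold nbh
  rw [Finset.mem_union, Finset.mem_biUnion]
  exact Or.inr ⟨m, h, hs _ _ hm⟩

lemma notMem_of_nbh' {F : Finset N} {u : N} (hu : u ∉ nbh nb F) : u ∉ F :=
  fun h => hu (subset_nbh F h)

/-- A path is contained in a finite set. -/
lemma Conn.exists_finset {Q : Set N} {a b : N} (hab : Conn nb Q a b) :
    ∃ P : Finset N, a ∈ P ∧ b ∈ P ∧ Conn nb ↑P a b := by
  induction hab with
  | refl => exact ⟨{a}, by simp, by simp, Conn.rfl'⟩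
  | tail h0 hc ih =>
    rename_i b c
    obtain ⟨P, h1, h2, h3⟩ := ih
    refine ⟨insert c P, by simp [h1], by simp, ?_⟩
    refine (h3.mono' (by simp)).trans' (Conn.single' ?_ ?_ hc.2.2)
    · simp [h2]
    · simp

lemma Conn.congr' {nb' : N → Finset N} {Q : Set N} (hQ : ∀ n ∈ Q, nb' n = nb n) {a b : N}
    (hab : Conn nb Q a b) : Conn nb' Q a b := by
  induction hab with
  | refl => exact Conn.rfl'
  | tail _ hc ih =>
    refine ih.trans' (Conn.single' hc.1 hc.2.1 ?_)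
    rw [hQ _ hc.1]
    exact hc.2.2

end Abs

variable {G : Type*} [Group G] [MulAction G ℝ] [DecidableEq G]
variable {κ : Type*} [Fintype κ]
variable {X A B : Set ℝ} {h : κ → G} {dom : κ → Set ℝ} {cl cr : κ → Bool} {Δ : Finset G}
variable {τ₁ τ₂ τη : G} {t₁ t₂ η α : ℝ}

section

variable (hP : Pre X A B h dom cl cr Δ)

include hP

/-- Two `Δ`-related alive names have a common neighbour. -/
lemma Pre.common {x : ℝ} (hx : x ∈ X) {γ δ : G} (hδ : δ ∈ Δ) (h1 : γ • x ∈ A)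
    (h2 : (δ * γ) • x ∈ A) : ∃ m, m ∈ gr A h dom Δ x (γ, true) ∧
      m ∈ gr A h dom Δ x (δ * γ, true) := by
  obtain ⟨k, ⟨hk1, hk2⟩, hk3⟩ := hP.D1 _ (hP.inv γ x hx) h1 true
  refine ⟨(h k * γ, false), ?_, ?_⟩
  · rw [hP.mem_gr hx]
    exact ⟨1, hP.one, k, h1, by rwa [one_mul], by rwa [one_mul], by rw [mul_one]⟩
  · rw [hP.mem_gr hx]
    exact ⟨δ⁻¹, hP.symm δ hδ, k, h2, by rwa [inv_mul_cancel_left],
      by rwa [inv_mul_cancel_left], by group⟩

/-- Two `Δ`-related alive names away from `Q` are connected outside `Q`. -/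
lemma Pre.conn_step {x : ℝ} (hx : x ∈ X) {γ δ : G} (hδ : δ ∈ Δ) (h1 : γ • x ∈ A)
    (h2 : (δ * γ) • x ∈ A) {Q : Finset (G × Bool)}
    (hq1 : ((γ, true) : G × Bool) ∉ nbh (gr A h dom Δ x) Q)
    (hq2 : ((δ * γ, true) : G × Bool) ∉ nbh (gr A h dom Δ x) Q) :
    Conn (gr A h dom Δ x) (↑Q)ᶜ (γ, true) (δ * γ, true) := by
  have hs := nbx_sym (Edge := Edg A h dom Δ) (S := Sg h Δ) x
  obtain ⟨m, hm1, hm2⟩ := hP.common hx hδ h1 h2
  have hmQ : m ∉ Q := notMem_of_nbh hs hq1 hm1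
  have a1 : ((γ, true) : G × Bool) ∈ ((↑Q : Set (G × Bool)))ᶜ := fun h' => notMem_of_nbh' hq1 h'
  have a2 : ((δ * γ, true) : G × Bool) ∈ ((↑Q : Set (G × Bool)))ᶜ :=
    fun h' => notMem_of_nbh' hq2 h'
  have a3 : m ∈ ((↑Q : Set (G × Bool)))ᶜ := fun h' => hmQ h'
  exact (Conn.single' a1 a3 hm1).trans' (Conn.single' a3 a2 (hs _ _ hm2))

end

section

variable (hP : Pre X A B h dom cl cr Δ) (hG : Geo X A Δ τ₁ τ₂ τη t₁ t₂ η α)

include hP hG

/-- Grid names outside a box are connected outside `Q`. -/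
lemma grid_box {x : ℝ} (hx : x ∈ X) (γ : G) (Q : Finset (G × Bool)) (M : ℤ)
    (hM : ∀ z ∈ Rg M, ((gg τ₁ τ₂ τη t₁ t₂ η α x γ z, true) : G × Bool) ∉
      nbh (gr A h dom Δ x) Q) {z z' : ℤ × ℤ} (hz : z ∈ Rg M) (hz' : z' ∈ Rg M) :
    Conn (gr A h dom Δ x) (↑Q)ᶜ (gg τ₁ τ₂ τη t₁ t₂ η α x γ z, true)
      (gg τ₁ τ₂ τη t₁ t₂ η α x γ z', true) := by
  have hs := nbx_sym (Edge := Edg A h dom Δ) (S := Sg h Δ) x
  have key : ∀ z z' : ℤ × ℤ, z ∈ Rg M → z' ∈ Rg M → Ps z z' →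
      Conn (gr A h dom Δ x) (↑Q)ᶜ (gg τ₁ τ₂ τη t₁ t₂ η α x γ z, true)
      (gg τ₁ τ₂ τη t₁ t₂ η α x γ z', true) := by
    intro z z' hz hz' hzz
    obtain ⟨δ, hδ, he⟩ := hG.gg_step hP.inv hP.free hx γ hzz
    have h1 := hG.I0 (hG.gg_mem hP.inv hx γ z)
    have h2 := hG.I0 (hG.gg_mem hP.inv hx γ z')
    have h3 := hM z' hz'
    rw [he] at h2 h3 ⊢
    exact hP.conn_step hx hδ h1 h2 (hM z hz) h3
  have h1 := outside_conn hz hz'
  clear hz'
  induction h1 with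
  | refl => exact Conn.rfl'
  | tail _ hst ih =>
    refine ih.trans' ?_
    rcases hst.2.2 with h2 | h2
    · exact key _ _ hst.1 hst.2.1 h2
    · exact (key _ _ hst.2.1 hst.1 h2).symm' hs

/-- Far grid names in the same grid are connected outside `Q`. -/
lemma grid_conn {x : ℝ} (hx : x ∈ X) (Q : Finset (G × Bool)) :
    ∃ F : Finset (G × Bool), ∀ γ γ' : G, γ • x ∈ Set.Ioo α (α + η) → γ' • x ∈ Set.Ioo α (α + η) →
      (∃ m n k : ℤ, γ' • x = γ • x + (m * t₁ + n * t₂ + k * η)) →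
      ((γ, true) : G × Bool) ∉ F → ((γ', true) : G × Bool) ∉ F →
      Conn (gr A h dom Δ x) (↑Q)ᶜ (γ, true) (γ', true) := by
  classical
  set Bad := nbh (gr A h dom Δ x) Q with hBad
  have hfin : ∀ γ₀ : G, {z : ℤ × ℤ | ((gg τ₁ τ₂ τη t₁ t₂ η α x γ₀ z, true) : G × Bool) ∈ Bad}.Finite := by
    intro γ₀
    have : {z : ℤ × ℤ | ((gg τ₁ τ₂ τη t₁ t₂ η α x γ₀ z, true) : G × Bool) ∈ Bad}
        = (fun z => ((gg τ₁ τ₂ τη t₁ t₂ η α x γ₀ z, true) : G × Bool)) ⁻¹' (↑Bad) := rfl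
    rw [this]
    apply Set.Finite.preimage _ Bad.finite_toSet
    intro z _ z' _ hzz
    exact hG.gg_inj x γ₀ (Prod.mk.inj hzz).1
  choose M hM using fun γ₀ => exists_box (hfin γ₀)
  refine ⟨Bad.biUnion (fun n => (finite_compl_Rg (M n.1)).toFinset.image
    (fun z => ((gg τ₁ τ₂ τη t₁ t₂ η α x n.1 z, true) : G × Bool))), ?_⟩
  rintro γ γ' hγ hγ' ⟨m, n, k, hmnk⟩ hF hF'
  by_cases hc : ∃ z, ((gg τ₁ τ₂ τη t₁ t₂ η α x γ z, true) : G × Bool) ∈ Bad
  · obtain ⟨z₀, hz₀⟩ := hc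
    set γ₀ := gg τ₁ τ₂ τη t₁ t₂ η α x γ z₀ with hγ₀
    have hact := hG.gg_act x γ z₀
    rw [← hγ₀] at hact
    have e1 : γ = gg τ₁ τ₂ τη t₁ t₂ η α x γ₀ (-z₀.1, -z₀.2) := by
      apply hG.gg_unique hP.inv hP.free hx hγ (k := -kk t₁ t₂ η α (γ • x) z₀)
      rw [hact]
      push_cast
      ring
    have e2 : γ' = gg τ₁ τ₂ τη t₁ t₂ η α x γ₀ (m - z₀.1, n - z₀.2) := by
      apply hG.gg_unique hP.inv hP.free hx hγ' (k := k - kk t₁ t₂ η α (γ • x) z₀)
      rw [hact, hmnk]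
      push_cast
      ring
    have hR : ∀ γ₁ : G, ∀ z, ((γ₁, true) : G × Bool) ∉ Bad.biUnion (fun n =>
        (finite_compl_Rg (M n.1)).toFinset.image
        (fun z => ((gg τ₁ τ₂ τη t₁ t₂ η α x n.1 z, true) : G × Bool))) →
        γ₁ = gg τ₁ τ₂ τη t₁ t₂ η α x γ₀ z → z ∈ Rg (M γ₀) := by
      intro γ₁ z hn he
      by_contra hcon
      apply hn
      rw [Finset.mem_biUnion]
      refine ⟨(γ₀, true), hz₀, ?_⟩
      rw [Finset.mem_image]
      refine ⟨z, ?_, by rw [he]⟩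
      rw [Set.Finite.mem_toFinset]
      exact hcon
    have r1 := hR γ _ hF e1
    have r2 := hR γ' _ hF' e2
    have := grid_box hP hG hx γ₀ Q (M γ₀) (fun z hz hzB => hM γ₀ z hzB hz) r1 r2
    rwa [← e1, ← e2] at this
  · push Not at hc
    have e1 : γ = gg τ₁ τ₂ τη t₁ t₂ η α x γ (0, 0) := by
      apply hG.gg_unique hP.inv hP.free hx hγ (k := 0)
      push_cast
      ring
    have e2 : γ' = gg τ₁ τ₂ τη t₁ t₂ η α x γ (m, n) :=
      hG.gg_unique hP.inv hP.free hx hγ' hmnk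
    have r : ∀ z, z ∈ Rg (-1) := fun z => Or.inl (by have := abs_nonneg z.1; omega)
    have := grid_box hP hG hx γ Q (-1) (fun z _ => hc z) (r (0, 0)) (r (m, n))
    rwa [← e1, ← e2] at this

/-- From an alive `A`-name one reaches the interval. -/
lemma reachA {x : ℝ} (hx : x ∈ X) {γ : G} (hγ : γ • x ∈ A) {F : Finset (G × Bool)}
    (hF : ((γ, true) : G × Bool) ∉ nbh (gr A h dom Δ x) (nbh (gr A h dom Δ x) F)) :
    ∃ γ' : G, γ' • x ∈ Set.Ioo α (α + η) ∧ ((γ', true) : G × Bool) ∉ F ∧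
      Conn (gr A h dom Δ x) (↑F)ᶜ (γ, true) (γ', true) := by
  have hs := nbx_sym (Edge := Edg A h dom Δ) (S := Sg h Δ) x
  obtain ⟨δ, hδ, hδI⟩ := hG.reach _ (hP.inv γ x hx) hγ
  rw [← mul_smul] at hδI
  have h2 := hG.I0 hδI
  obtain ⟨m, hm1, hm2⟩ := hP.common hx hδ hγ h2
  have q1 := notMem_of_nbh hs hF hm1
  have q2 := notMem_of_nbh hs q1 (hs _ _ hm2)
  have q0 : ((γ, true) : G × Bool) ∉ F := notMem_of_nbh' (notMem_of_nbh' hF)
  refine ⟨δ * γ, hδI, q2, ?_⟩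
  have a1 : ((γ, true) : G × Bool) ∈ ((↑F : Set (G × Bool)))ᶜ := fun h' => q0 h'
  have a2 : ((δ * γ, true) : G × Bool) ∈ ((↑F : Set (G × Bool)))ᶜ := fun h' => q2 h'
  have a3 : m ∈ ((↑F : Set (G × Bool)))ᶜ := fun h' => notMem_of_nbh' q1 h'
  exact (Conn.single' a1 a3 hm1).trans' (Conn.single' a3 a2 (hs _ _ hm2))

/-- From an alive name one reaches the interval. -/
lemma reachN {x : ℝ} (hx : x ∈ X) {u : G × Bool} (hu : u ∈ live A B x) {F : Finset (G × Bool)}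
    (hF : u ∉ nbh (gr A h dom Δ x) (nbh (gr A h dom Δ x) (nbh (gr A h dom Δ x) F))) :
    ∃ γ' : G, γ' • x ∈ Set.Ioo α (α + η) ∧ ((γ', true) : G × Bool) ∉ F ∧
      Conn (gr A h dom Δ x) (↑F)ᶜ u (γ', true) := by
  have hs := nbx_sym (Edge := Edg A h dom Δ) (S := Sg h Δ) x
  obtain ⟨γ, b⟩ := u
  cases b
  · obtain ⟨⟨γ₁, b₁⟩, hm⟩ := hP.gr_nonempty hx _ hu
    have hb := nbx_bip (Edge := Edg A h dom Δ) (S := Sg h Δ) x _ _ hm
    simp only [Bool.not_false] at hb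
    subst hb
    have hl := (hP.gr_live hx _ _ hm).2
    rw [mem_live_true] at hl
    have q1 := notMem_of_nbh hs hF hm
    obtain ⟨γ', h1, h2, h3⟩ := reachA hP hG hx hl q1
    refine ⟨γ', h1, h2, ?_⟩
    have a1 : ((γ, false) : G × Bool) ∈ ((↑F : Set (G × Bool)))ᶜ :=
      fun h' => notMem_of_nbh' (notMem_of_nbh' (notMem_of_nbh' hF)) h'
    have a2 : ((γ₁, true) : G × Bool) ∈ ((↑F : Set (G × Bool)))ᶜ :=
      fun h' => notMem_of_nbh' (notMem_of_nbh' q1) h'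
    exact (Conn.single' a1 a2 hm).trans' h3
  · rw [mem_live_true] at hu
    exact reachA hP hG hx hu (notMem_of_nbh' hF)

/-- An infinite component contains far grid names. -/
lemma inf_comp {x : ℝ} (hx : x ∈ X) {Q : Finset (G × Bool)} {v : G × Bool}
    (hv : (cmp (gr A h dom Δ x) (↑Q)ᶜ v).Infinite) (F : Finset (G × Bool)) :
    ∃ γ : G, γ • x ∈ Set.Ioo α (α + η) ∧ ((γ, true) : G × Bool) ∉ F ∧
      Conn (gr A h dom Δ x) (↑Q)ᶜ v (γ, true) := by
  classical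
  have hs := nbx_sym (Edge := Edg A h dom Δ) (S := Sg h Δ) x
  set F' := nbh (gr A h dom Δ x) (nbh (gr A h dom Δ x) (nbh (gr A h dom Δ x) (Q ∪ F))) with hF'
  obtain ⟨u, hu, huF⟩ := hv.exists_notMem_finset (insert v F')
  rw [Finset.mem_insert, not_or] at huF
  have hu' : Conn (gr A h dom Δ x) (↑Q)ᶜ v u := hu
  have hlive : u ∈ live A B x := by
    rcases ReflTransGen.cases_tail hu' with h1 | ⟨b, _, h2⟩
    · exact absurd h1 huF.1
    · exact (hP.gr_live hx _ _ h2.2.2).2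
  obtain ⟨γ, h1, h2, h3⟩ := reachN hP hG hx hlive huF.2
  refine ⟨γ, h1, fun h' => h2 (Finset.mem_union_right _ h'), hu'.trans' (h3.mono' ?_)⟩
  intro n hn hnQ
  exact hn (Finset.mem_coe.mpr (Finset.mem_union_left _ hnQ))

/-- Links persist under small translations. -/
lemma transport {x : ℝ} (hx : x ∈ X) {γ₁ γ₂ : G} (h1 : γ₁ • x ∈ Set.Ioo α (α + η))
    (h2 : γ₂ • x ∈ Set.Ioo α (α + η))
    (hconn : Conn (gr A h dom Δ x) Set.univ (γ₁, true) (γ₂, true)) (Q F : Finset (G × Bool)) :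
    ∃ l : G, (γ₁ * l) • x ∈ Set.Ioo α (α + η) ∧ (γ₂ * l) • x ∈ Set.Ioo α (α + η) ∧
      ((γ₁ * l, true) : G × Bool) ∉ F ∧ ((γ₂ * l, true) : G × Bool) ∉ F ∧
      (∃ m n k : ℤ, (γ₁ * l) • x = γ₁ • x + (m * t₁ + n * t₂ + k * η)) ∧
      (∃ m n k : ℤ, (γ₂ * l) • x = γ₂ • x + (m * t₁ + n * t₂ + k * η)) ∧
      Conn (gr A h dom Δ x) (↑Q)ᶜ (γ₁ * l, true) (γ₂ * l, true) := by
  classical
  obtain ⟨P, hP1, hP2, hPc⟩ := hconn.exists_finset
  -- local constancy of the graph on P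
  have hev : ∀ n : G × Bool, ∀ᶠ y in 𝓝[X] x, gr A h dom Δ y n = gr A h dom Δ x n := by
    intro n
    obtain ⟨γ, c⟩ := n
    cases c
    · have : ∀ᶠ y in 𝓝[X] x, ∀ g ∈ Sg h Δ, (Edg A h dom Δ ((g⁻¹ * γ) • y) (γ • y) ↔
          Edg A h dom Δ ((g⁻¹ * γ) • x) (γ • x)) := by
        rw [Filter.eventually_all_finset]
        intro g hg
        have h1 := (hP.tendsto' (g⁻¹ * γ) (x := x)).eventually
          (hP.tame g (hP.inv (g⁻¹ * γ) x hx))
        filter_upwards [h1] with y hy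
        simpa [smul_smul] using hy
      filter_upwards [this] with y hy
      ext m
      rw [gr, gr, mem_nbx_false, mem_nbx_false]
      constructor
      · rintro ⟨g, hg, he, rfl⟩
        exact ⟨g, hg, (hy g hg).mp he, rfl⟩
      · rintro ⟨g, hg, he, rfl⟩
        exact ⟨g, hg, (hy g hg).mpr he, rfl⟩
    · have : ∀ᶠ y in 𝓝[X] x, ∀ g ∈ Sg h Δ, (Edg A h dom Δ (γ • y) ((g * γ) • y) ↔
          Edg A h dom Δ (γ • x) ((g * γ) • x)) := by
        rw [Filter.eventually_all_finset]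
        intro g hg
        have h1 := (hP.tendsto' γ (x := x)).eventually (hP.tame g (hP.inv γ x hx))
        filter_upwards [h1] with y hy
        simpa [smul_smul] using hy
      filter_upwards [this] with y hy
      ext m
      rw [gr, gr, mem_nbx_true, mem_nbx_true]
      constructor
      · rintro ⟨g, hg, he, rfl⟩
        exact ⟨g, hg, (hy g hg).mp he, rfl⟩
      · rintro ⟨g, hg, he, rfl⟩
        exact ⟨g, hg, (hy g hg).mpr he, rfl⟩
  have hevP : ∀ᶠ y in 𝓝[X] x, ∀ n ∈ P, gr A h dom Δ y n = gr A h dom Δ x n := by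
    rw [Filter.eventually_all_finset]
    intro n _
    exact hev n
  have hev1 : ∀ᶠ y in 𝓝[X] x, γ₁ • y ∈ Set.Ioo α (α + η) :=
    ((hP.cont γ₁).tendsto x).mono_left nhdsWithin_le_nhds |>.eventually (isOpen_Ioo.mem_nhds h1)
  have hev2 : ∀ᶠ y in 𝓝[X] x, γ₂ • y ∈ Set.Ioo α (α + η) :=
    ((hP.cont γ₂).tendsto x).mono_left nhdsWithin_le_nhds |>.eventually (isOpen_Ioo.mem_nhds h2)
  -- excluded elements
  set E : Finset G := (P ×ˢ (Q ∪ F)).image (fun p => p.1.1⁻¹ * p.2.1) with hE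
  have hevE : ∀ᶠ y in 𝓝[X] x, ∀ e ∈ E, e ≠ 1 → y ≠ e • x := by
    rw [Filter.eventually_all_finset]
    intro e _
    by_cases he : e = 1
    · exact Filter.Eventually.of_forall fun y h' => absurd he h'
    · have hne : x ≠ e • x := fun h' => he (hP.free e x hx h'.symm)
      have := (isOpen_ne.mem_nhds hne)
      exact (eventually_nhdsWithin_of_eventually_nhds this).mono (fun y hy _ => hy)
  have hall := (hevP.and (hev1.and (hev2.and hevE)))
  obtain ⟨ε, hε, hall⟩ := Metric.mem_nhdsWithin_iff.mp hall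
  obtain ⟨j, k, hjk1, hjk2⟩ := hG.small hε
  set l : G := τ₁ ^ j * τ₂ ^ (0 : ℤ) * τη ^ k with hl
  have hlx : ∀ y : ℝ, l • y = y + ((j : ℝ) * t₁ + k * η) := by
    intro y
    rw [hl, hG.lam_act]
    push_cast
    ring
  have hlX : l • x ∈ X := hP.inv _ _ hx
  have hdist : dist (l • x) x < ε := by
    rw [hlx, Real.dist_eq]
    simpa using hjk1
  obtain ⟨g1, g2, g3, g4⟩ := hall ⟨hdist, hlX⟩
  have hl1 : l ≠ 1 := by
    intro h'
    have := hlx x
    rw [h', one_smul] at this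
    exact hjk2 (by linarith)
  have hnE : l ∉ E := fun h' => g4 l h' hl1 rfl
  have hnotin : ∀ p ∈ P, ∀ q ∈ Q ∪ F, ((p.1 * l, p.2) : G × Bool) ≠ q := by
    intro p hp q hq he
    apply hnE
    rw [hE, Finset.mem_image]
    refine ⟨(p, q), by simp only [Finset.mem_product]; exact ⟨hp, hq⟩, ?_⟩
    rw [← he]
    simp
  -- displacement
  have hdisp : ∀ γ : G, ∃ m n k' : ℤ, (γ * l) • x = γ • x + (m * t₁ + n * t₂ + k' * η) := by
    intro γ
    rw [mul_smul, hlx]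
    rcases hG.iso γ with ⟨c, hc⟩ | ⟨c, hc⟩
    · refine ⟨j, 0, k, ?_⟩
      rw [hc, hc]
      push_cast
      ring
    · refine ⟨-j, 0, -k, ?_⟩
      rw [hc, hc]
      push_cast
      ring
  refine ⟨l, ?_, ?_, ?_, ?_, hdisp γ₁, hdisp γ₂, ?_⟩
  · rw [mul_smul]
    exact g2
  · rw [mul_smul]
    exact g3
  · intro h'
    exact hnotin _ hP1 _ (Finset.mem_union_right _ h') rfl
  · intro h'
    exact hnotin _ hP2 _ (Finset.mem_union_right _ h') rfl
  · have hc1 : Conn (gr A h dom Δ (l • x)) ↑P (γ₁, true) (γ₂, true) :=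
      hPc.congr' (fun n hn => g1 n hn)
    have hiso := (nbx_iso (Edge := Edg A h dom Δ) (S := Sg h Δ) l x).symm'
    have hc2 := hiso.conn (Q := ↑P) (Q' := (↑Q)ᶜ) (by
      intro n hn hnQ
      rw [tr_symm_apply] at hnQ
      exact hnotin n hn _ (Finset.mem_union_left _ hnQ) rfl) hc1
    simpa using hc2

/-- One-endedness. -/
theorem oneEnded_gr {x : ℝ} (hx : x ∈ X) : OneEnded (gr A h dom Δ x) := by
  classical
  have hs := nbx_sym (Edge := Edg A h dom Δ) (S := Sg h Δ) x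
  intro Q v w hvw hvQ hwQ hv hw
  obtain ⟨F, hF⟩ := grid_conn hP hG hx Q
  obtain ⟨γ₁, h1, h2, h3⟩ := inf_comp hP hG hx hv F
  obtain ⟨γ₂, h1', h2', h3'⟩ := inf_comp hP hG hx hw F
  have hc : Conn (gr A h dom Δ x) Set.univ (γ₁, true) (γ₂, true) :=
    (((h3.mono' (Set.subset_univ _)).symm' hs).trans' hvw).trans' (h3'.mono' (Set.subset_univ _))
  obtain ⟨l, c1, c2, c3, c4, c5, c6, c7⟩ := transport hP hG hx h1 h1' hc Q F
  have d1 := hF γ₁ (γ₁ * l) h1 c1 c5 h2 c3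
  have d2 := hF γ₂ (γ₂ * l) h1' c2 c6 h2' c4
  exact ((h3.trans' d1).trans' c7).trans' ((d2.symm' hs).trans' (h3'.symm' hs))

/-- Nontrivial components are infinite. -/
theorem inf_gr {x : ℝ} (hx : x ∈ X) (n : G × Bool) (hn : (gr A h dom Δ x n).Nonempty) :
    (cmp (gr A h dom Δ x) Set.univ n).Infinite := by
  classical
  have hs := nbx_sym (Edge := Edg A h dom Δ) (S := Sg h Δ) x
  obtain ⟨m, hm⟩ := hn
  have hl := (hP.gr_live hx _ _ hm).1
  have hempty : ∀ k : ℕ, ((nbh (gr A h dom Δ x))^[k] ∅) = ∅ := by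
    intro k
    induction k with
    | zero => rfl
    | succ k ih =>
      rw [Function.iterate_succ_apply', ih]
      rfl
  obtain ⟨γ, h1, _, h3⟩ := reachN hP hG hx hl (F := ∅) (by
    have := hempty 3
    simp only [Function.iterate_succ, Function.iterate_zero, Function.comp_apply, id] at this
    rw [this]
    exact Finset.notMem_empty _)
  have hgrid : ∀ z, Conn (gr A h dom Δ x) Set.univ n
      (gg τ₁ τ₂ τη t₁ t₂ η α x γ z, true) := by
    intro z
    have r : ∀ z, z ∈ Rg (-1) := fun z => Or.inl (by have := abs_nonneg z.1; omega)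
    have := grid_box hP hG hx γ ∅ (-1) (fun z _ => by
      have := hempty 1
      simp only [Function.iterate_succ, Function.iterate_zero, Function.comp_apply, id] at this
      rw [this]
      exact Finset.notMem_empty _) (r (0, 0)) (r z)
    have e1 : γ = gg τ₁ τ₂ τη t₁ t₂ η α x γ (0, 0) := by
      apply hG.gg_unique hP.inv hP.free hx h1 (k := 0)
      push_cast
      ring
    rw [← e1] at this
    exact (h3.mono' (Set.subset_univ _)).trans' (this.mono' (Set.subset_univ _))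
  have hinj : Function.Injective
      (fun z : ℤ × ℤ => ((gg τ₁ τ₂ τη t₁ t₂ η α x γ z, true) : G × Bool)) := by
    intro z z' hzz
    exact hG.gg_inj x γ (Prod.mk.inj hzz).1
  exact (Set.infinite_range_of_injective hinj).mono (by
    rintro _ ⟨z, rfl⟩
    exact hgrid z)

/-- The standing assumptions hold. -/
theorem sys_gr : Sys X (Edg A h dom Δ) (Sg h Δ) :=
  ⟨hP.inv, hP.free, hP.cont, hP.irr, fun g _ x hx => hP.tame g hx,
    fun _ hx => oneEnded_gr hP hG hx, fun _ hx n hn => inf_gr hP hG hx n hn⟩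

end

end Pool.Agent.Helper16.GM
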