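import Pool.Agent.Helper16.GMLimit
import Pool.Agent.Helper16.GMOneEnd
set_option autoImplicit false
set_option linter.unusedSectionVars false

namespace Pool.Agent.Helper16.GM

open Relation Filter Topology

/-! ### Regular open sets -/

lemma disj_intcl {U V : Set ℝ} (hU : IsOpen U) (hV : IsOpen V) (h : Disjoint U V) :
    Disjoint (interior (closure U)) (interior (closure V)) := by
  have h1 : Disjoint (closure U) V := h.closure_left hV
  have h2 : Disjoint (interior (closure U)) V := h1.mono_left interior_subset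
  have h3 : Disjoint (interior (closure U)) (closure V) := h2.closure_right isOpen_interior
  exact h3.mono_right interior_subset

lemma regular_intcl {U : Set ℝ} (hU : IsOpen U) :
    interior (closure (interior (closure U))) = interior (closure U) := by
  have : closure (interior (closure U)) = closure U := by
    apply Set.Subset.antisymm
    · exact (closure_mono interior_subset).trans (by rw [closure_closure])
    · exact closure_mono (hU.subset_interior_iff.mpr subset_closure)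
  rw [this]

lemma join_eq {ι : Type*} {X A : Set ℝ} (hX : Dense X) (hA : IsOpen A)
    (hAr : interior (closure A) = A) (V : ι → Set ℝ) (hV : ∀ i, IsOpen (V i))
    (hsub : ∀ i, ∀ x ∈ X, x ∈ V i → x ∈ A)
    (hhit : ∀ p q : ℚ, (∃ x ∈ X, x ∈ A ∧ x ∈ Set.Ioo (p : ℝ) q) →
      ∃ i, ∃ x, x ∈ V i ∧ x ∈ Set.Ioo (p : ℝ) q) :
    interior (closure (⋃ i, interior (closure (V i)))) = A := by
  have h1 : closure (⋃ i, interior (closure (V i))) = closure A := by
    apply Set.Subset.antisymm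
    · apply closure_minimal _ isClosed_closure
      apply Set.iUnion_subset
      intro i
      have h2 : V i ⊆ closure (V i ∩ X) := hX.open_subset_closure_inter (hV i)
      have h3 : V i ∩ X ⊆ A := fun x hx => hsub i x hx.2 hx.1
      have h4 : V i ⊆ closure A := h2.trans (closure_mono h3)
      exact interior_subset.trans (closure_minimal h4 isClosed_closure)
    · apply closure_minimal _ isClosed_closure
      intro a ha
      rw [mem_closure_iff]
      intro U hU haU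
      obtain ⟨p, q, hpq, hsubU⟩ := exists_rat_Ioo (hU.inter hA) ⟨haU, ha⟩
      obtain ⟨x, hxI, hxX⟩ := hX.inter_open_nonempty _ isOpen_Ioo ⟨a, hpq⟩
      obtain ⟨i, y, hyV, hyI⟩ := hhit p q ⟨x, hxX, (hsubU hxI).2, hxI⟩
      refine ⟨y, (hsubU hyI).1, ?_⟩
      rw [Set.mem_iUnion]
      exact ⟨i, (hV i).subset_interior_iff.mpr subset_closure hyV⟩
  rw [h1, hAr]

section Act

variable {G : Type*} [Group G] [MulAction G ℝ]

/-- The homeomorphism given by a group element. -/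
def hmo (hc : ∀ g : G, Continuous (fun x : ℝ => g • x)) (g : G) : ℝ ≃ₜ ℝ where
  toFun x := g • x
  invFun x := g⁻¹ • x
  left_inv x := inv_smul_smul g x
  right_inv x := smul_inv_smul g x
  continuous_toFun := hc g
  continuous_invFun := hc g⁻¹

/-- The assembly of the pieces. -/
theorem assemble {X A B : Set ℝ} (hX : Dense X) (hinv : ∀ (g : G), ∀ x ∈ X, g • x ∈ X)
    (hc : ∀ g : G, Continuous (fun x : ℝ => g • x))
    (hA : IsOpen A) (hAr : interior (closure A) = A)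
    (hB : IsOpen B) (hBr : interior (closure B) = B) (S : Finset G) (J : ℕ → Set ℝ) (g : ℕ → G)
    (hJ : ∀ k, IsOpen (J k)) (hS : ∀ k, (J k).Nonempty → g k ∈ S)
    (hsub : ∀ k, ∀ x ∈ X, x ∈ J k → x ∈ A ∧ g k • x ∈ B)
    (hd1 : ∀ j k, j < k → ∀ x ∈ X, x ∈ J j → x ∉ J k)
    (hd2 : ∀ j k, j < k → ∀ x ∈ X, (g j)⁻¹ • x ∈ J j → (g k)⁻¹ • x ∉ J k)
    (hh1 : ∀ p q : ℚ, (∃ x ∈ X, x ∈ A ∧ x ∈ Set.Ioo (p : ℝ) q) →
        ∃ k, ∃ x ∈ X, x ∈ J k ∧ x ∈ Set.Ioo (p : ℝ) q)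
    (hh2 : ∀ p q : ℚ, (∃ x ∈ X, x ∈ B ∧ x ∈ Set.Ioo (p : ℝ) q) →
        ∃ k, ∃ x ∈ X, x ∈ J k ∧ g k • x ∈ Set.Ioo (p : ℝ) q) :
    ∃ P : S → Set ℝ, (∀ i, interior (closure (P i)) = P i ∧ P i ⊆ A) ∧
      Pairwise (fun i j => Disjoint (P i) (P j)) ∧
      Pairwise (fun i j : S => Disjoint ((fun x : ℝ => (i : G) • x) '' (P i))
        ((fun x : ℝ => (j : G) • x) '' (P j))) ∧
      interior (closure (⋃ i, P i)) = A ∧
      interior (closure (⋃ i : S, (fun x : ℝ => (i : G) • x) '' (P i))) = B := by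
  set V : S → Set ℝ := fun i => {x | ∃ k, g k = (i : G) ∧ x ∈ J k} with hV
  have hVo : ∀ i, IsOpen (V i) := by
    intro i
    have : V i = ⋃ k, ⋃ (_ : g k = (i : G)), J k := by
      ext x
      simp [hV]
    rw [this]
    exact isOpen_iUnion fun k => isOpen_iUnion fun _ => hJ k
  have himg : ∀ (i : S) (s : Set ℝ), (fun x : ℝ => (i : G) • x) '' s = hmo hc (i : G) '' s :=
    fun _ _ => rfl
  set W : S → Set ℝ := fun i => (fun x : ℝ => (i : G) • x) '' (V i) with hW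
  have hWo : ∀ i, IsOpen (W i) := by
    intro i
    rw [hW]
    simp only [himg]
    exact (hmo hc (i : G)).isOpenMap _ (hVo i)
  have hWmem : ∀ i x, x ∈ W i ↔ ∃ k, g k = (i : G) ∧ (g k)⁻¹ • x ∈ J k := by
    intro i x
    constructor
    · rintro ⟨y, ⟨k, hk, hy⟩, rfl⟩
      refine ⟨k, hk, ?_⟩
      simp only
      rw [hk, inv_smul_smul]
      exact hy
    · rintro ⟨k, hk, hy⟩
      refine ⟨(g k)⁻¹ • x, ⟨k, hk, hy⟩, ?_⟩
      simp only
      rw [← hk, smul_inv_smul]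
  have hWimg : ∀ i : S, (fun x : ℝ => (i : G) • x) '' (interior (closure (V i)))
      = interior (closure (W i)) := by
    intro i
    rw [himg, Homeomorph.image_interior, Homeomorph.image_closure]
    rfl
  -- disjointness from density
  have hdense : ∀ U U' : Set ℝ, IsOpen U → IsOpen U' → (∀ x ∈ X, x ∈ U → x ∉ U') →
      Disjoint U U' := by
    intro U U' hU hU' hdis
    rw [Set.disjoint_iff_inter_eq_empty]
    by_contra hne
    rw [← ne_eq, ← Set.nonempty_iff_ne_empty] at hne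
    obtain ⟨x, ⟨h1, h2⟩, hx⟩ := hX.inter_open_nonempty _ (hU.inter hU') hne
    exact hdis x hx h1 h2
  have hVd : ∀ i j : S, i ≠ j → Disjoint (V i) (V j) := by
    intro i j hij
    apply hdense _ _ (hVo i) (hVo j)
    rintro x hx ⟨k, hk, hxk⟩ ⟨l, hl, hxl⟩
    have hkl : k ≠ l := by
      rintro rfl
      exact hij (Subtype.ext (hk.symm.trans hl))
    rcases lt_or_gt_of_ne hkl with h | h
    · exact hd1 k l h x hx hxk hxl
    · exact hd1 l k h x hx hxl hxk
  have hWd : ∀ i j : S, i ≠ j → Disjoint (W i) (W j) := by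
    intro i j hij
    apply hdense _ _ (hWo i) (hWo j)
    intro x hx h1 h2
    obtain ⟨k, hk, hxk⟩ := (hWmem i x).mp h1
    obtain ⟨l, hl, hxl⟩ := (hWmem j x).mp h2
    have hkl : k ≠ l := by
      rintro rfl
      exact hij (Subtype.ext (hk.symm.trans hl))
    rcases lt_or_gt_of_ne hkl with h | h
    · exact hd2 k l h x hx hxk hxl
    · exact hd2 l k h x hx hxl hxk
  have hjA : interior (closure (⋃ i, interior (closure (V i)))) = A := by
    apply join_eq hX hA hAr V hVo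
    · rintro i x hx ⟨k, hk, hxk⟩
      exact (hsub k x hx hxk).1
    · intro p q hpq
      obtain ⟨k, x, hx, hxk, hxI⟩ := hh1 p q hpq
      exact ⟨⟨g k, hS k ⟨x, hxk⟩⟩, x, ⟨k, rfl, hxk⟩, hxI⟩
  have hjB : interior (closure (⋃ i, interior (closure (W i)))) = B := by
    apply join_eq hX hB hBr W hWo
    · intro i x hx hxW
      obtain ⟨k, hk, hxk⟩ := (hWmem i x).mp hxW
      have := (hsub k _ (hinv _ _ hx) hxk).2
      rwa [smul_inv_smul] at this
    · intro p q hpq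
      obtain ⟨k, x, hx, hxk, hxI⟩ := hh2 p q hpq
      refine ⟨⟨g k, hS k ⟨x, hxk⟩⟩, g k • x, ?_, hxI⟩
      rw [hWmem]
      refine ⟨k, rfl, ?_⟩
      rwa [inv_smul_smul]
  refine ⟨fun i => interior (closure (V i)), ?_, ?_, ?_, hjA, ?_⟩
  · intro i
    refine ⟨regular_intcl (hVo i), ?_⟩
    have h1 : interior (closure (V i)) ⊆ interior (closure (⋃ i, interior (closure (V i)))) := by
      apply isOpen_interior.subset_interior_iff.mpr
      exact (Set.subset_iUnion (fun i => interior (closure (V i))) i).trans subset_closure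
    rwa [hjA] at h1
  · intro i j hij
    exact disj_intcl (hVo i) (hVo j) (hVd i j hij)
  · intro i j hij
    simp only
    rw [hWimg, hWimg]
    exact disj_intcl (hWo i) (hWo j) (hWd i j hij)
  · simp only [hWimg]
    exact hjB

/-! ### The generic set -/

/-- The set of generic points. -/
def Xs (G : Type*) [Group G] [MulAction G ℝ] (C : Set (Set ℝ)) : Set ℝ :=
  {x | (∀ γ : G, ∀ c ∈ C, γ • x ∉ c) ∧ ∀ g : G, g ≠ 1 → g • x ≠ x}

lemma Xs_inv (C : Set (Set ℝ)) (γ : G) (x : ℝ) (hx : x ∈ Xs G C) : γ • x ∈ Xs G C := by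
  refine ⟨?_, ?_⟩
  · intro γ' c hc
    rw [← mul_smul]
    exact hx.1 _ c hc
  · intro g hg h
    refine hx.2 (γ⁻¹ * g * γ) ?_ ?_
    · intro h'
      apply hg
      have := congrArg (fun z => γ * z * γ⁻¹) h'
      simpa [mul_assoc] using this
    · rw [mul_smul, mul_smul, h, inv_smul_smul]

lemma Xs_free (C : Set (Set ℝ)) (g : G) (x : ℝ) (hx : x ∈ Xs G C) (h : g • x = x) : g = 1 := by
  by_contra hg
  exact hx.2 g hg h

lemma iso_fix (hiso : ∀ g : G, (∃ c : ℝ, ∀ x : ℝ, g • x = x + c) ∨ (∃ c : ℝ, ∀ x : ℝ, g • x = c - x))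
    (hf : ∀ g : G, (∀ x : ℝ, g • x = x) → g = 1) {g : G} (hg : g ≠ 1) :
    ∃ a : ℝ, ∀ x : ℝ, g • x = x → x = a := by
  rcases hiso g with ⟨c, hc⟩ | ⟨c, hc⟩
  · refine ⟨0, ?_⟩
    intro x hx
    exfalso
    apply hg
    apply hf
    intro y
    rw [hc] at hx ⊢
    linarith
  · refine ⟨c / 2, ?_⟩
    intro x hx
    rw [hc] at hx
    linarith

lemma iso_cont (hiso : ∀ g : G, (∃ c : ℝ, ∀ x : ℝ, g • x = x + c) ∨
    (∃ c : ℝ, ∀ x : ℝ, g • x = c - x)) (g : G) : Continuous (fun x : ℝ => g • x) := by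
  rcases hiso g with ⟨c, hc⟩ | ⟨c, hc⟩
  · simp only [hc]
    fun_prop
  · simp only [hc]
    fun_prop

lemma Xs_dense [Countable G] {C : Set (Set ℝ)} (hC : C.Countable)
    (hC2 : ∀ c ∈ C, IsClosed c ∧ interior c = ∅)
    (hiso : ∀ g : G, (∃ c : ℝ, ∀ x : ℝ, g • x = x + c) ∨ (∃ c : ℝ, ∀ x : ℝ, g • x = c - x))
    (hf : ∀ g : G, (∀ x : ℝ, g • x = x) → g = 1) : Dense (Xs G C) := by
  have : Countable C := hC.to_subtype
  set O : (G × C) ⊕ {g : G // g ≠ 1} → Set ℝ := fun i => match i with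
    | Sum.inl p => {x | p.1 • x ∉ (p.2 : Set ℝ)}
    | Sum.inr g => {x | (g : G) • x ≠ x} with hO
  have h1 : ∀ i, IsOpen (O i) := by
    rintro (⟨γ, c, hc⟩ | ⟨g, hg⟩)
    · exact ((hC2 c hc).1.isOpen_compl).preimage (iso_cont hiso γ)
    · exact isOpen_ne_fun (iso_cont hiso g) continuous_id
  have h2 : ∀ i, Dense (O i) := by
    rintro (⟨γ, c, hc⟩ | ⟨g, hg⟩)
    · have e : O (Sum.inl (γ, ⟨c, hc⟩)) = ((hmo (iso_cont hiso) γ) ⁻¹' c)ᶜ := rfl
      rw [e, ← interior_eq_empty_iff_dense_compl, ← Homeomorph.preimage_interior, (hC2 c hc).2]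
      rfl
    · obtain ⟨a, ha⟩ := iso_fix hiso hf hg
      have hsub : ({a}ᶜ : Set ℝ) ⊆ O (Sum.inr ⟨g, hg⟩) := by
        intro x hx hx'
        exact hx (ha x hx')
      exact (dense_compl_singleton a).mono hsub
  have h3 := dense_iInter_of_isOpen h1 h2
  apply h3.mono
  intro x hx
  rw [Set.mem_iInter] at hx
  exact ⟨fun γ c hc => hx (Sum.inl (γ, ⟨c, hc⟩)), fun g hg => hx (Sum.inr ⟨g, hg⟩)⟩

lemma Xs_tm {C : Set (Set ℝ)} {U : Set ℝ} (hU : frontier U ∈ C) : Tm (Xs G C) U := by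
  intro x hx
  have h1 := hx.1 1 _ hU
  rw [one_smul] at h1
  apply nhdsWithin_le_nhds
  by_cases hxU : x ∈ U
  · have : x ∈ interior U := by
      by_contra hn
      exact h1 ⟨subset_closure hxU, hn⟩
    filter_upwards [isOpen_interior.mem_nhds this] with y hy
    exact ⟨fun _ => hxU, fun _ => interior_subset hy⟩
  · have : x ∉ closure U := by
      intro hn
      exact h1 ⟨hn, fun h' => hxU (interior_subset h')⟩
    filter_upwards [isClosed_closure.isOpen_compl.mem_nhds this] with y hy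
    exact ⟨fun h' => absurd (subset_closure h') hy, fun h' => absurd h' hxU⟩

lemma Xs_mem {C : Set (Set ℝ)} {U V : Set ℝ} (hU : IsOpen U) (hV : IsOpen V)
    (hUV : interior (closure U) = interior (closure V)) (hC : frontier V ∈ C) {x : ℝ}
    (hx : x ∈ Xs G C) (hxU : x ∈ U) : x ∈ V := by
  have h1 := hx.1 1 _ hC
  rw [one_smul] at h1
  have h2 : x ∈ interior (closure V) := by
    rw [← hUV]
    exact hU.subset_interior_iff.mpr subset_closure hxU
  by_contra hn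
  exact h1 ⟨interior_subset h2, fun h' => hn (interior_subset h')⟩

end Act

/-! ### The combinatorial data -/

section Data

variable {G : Type*} [Group G] [MulAction G ℝ] [DecidableEq G]

lemma Tm.smul {X U : Set ℝ} (hinv : ∀ (g : G), ∀ x ∈ X, g • x ∈ X)
    (hc : ∀ g : G, Continuous (fun x : ℝ => g • x)) (hU : Tm X U) (g : G) :
    Tm X {x | g • x ∈ U} := by
  intro x hx
  have h1 : Tendsto (fun y : ℝ => g • y) (𝓝[X] x) (𝓝[X] (g • x)) := by
    refine tendsto_nhdsWithin_iff.mpr ⟨?_, ?_⟩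
    · exact ((hc g).tendsto x).mono_left nhdsWithin_le_nhds
    · filter_upwards [self_mem_nhdsWithin] with y hy
      exact hinv g y hy
  exact h1.eventually (hU _ (hinv g x hx))

lemma Tm.inter {X U V : Set ℝ} (hU : Tm X U) (hV : Tm X V) : Tm X (U ∩ V) := by
  intro x hx
  filter_upwards [hU x hx, hV x hx] with y h1 h2
  rw [Set.mem_inter_iff, Set.mem_inter_iff, h1, h2]

/-- The moves. -/
def hk {n : ℕ} (σs σt : Bool → G) (gi : Fin n → G) (k : Fin n × Bool × Bool) : G :=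
  (σt k.2.2)⁻¹ * gi k.1 * σs k.2.1

/-- The domains. -/
def domk {n : ℕ} (A B : Set ℝ) (P : Fin n → Set ℝ) (σs σt : Bool → G) (gi : Fin n → G)
    (k : Fin n × Bool × Bool) : Set ℝ :=
  {x | x ∈ A} ∩ ({x | σs k.2.1 • x ∈ P k.1} ∩ {x | hk σs σt gi k • x ∈ B})

theorem pre_of {X A B : Set ℝ} {n : ℕ} (P : Fin n → Set ℝ) (σs σt : Bool → G) (gi : Fin n → G)
    (Δ : Finset G)
    (inv : ∀ (g : G), ∀ x ∈ X, g • x ∈ X)
    (free : ∀ (g : G), ∀ x ∈ X, g • x = x → g = 1)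
    (cont : ∀ g : G, Continuous (fun x : ℝ => g • x))
    (irr : ∀ q : ℚ, (q : ℝ) ∉ X)
    (tA : Tm X A) (tB : Tm X B) (tP : ∀ i, Tm X (P i))
    (C1 : ∀ y ∈ X, (∃ c, (σs c)⁻¹ • y ∈ A) ↔ ∃ i, y ∈ P i)
    (C2 : ∀ y ∈ X, (∃ c, (σt c)⁻¹ • y ∈ B) ↔ ∃ i, (gi i)⁻¹ • y ∈ P i)
    (U1 : ∀ (y : ℝ) c c', (σs c)⁻¹ • y ∈ A → (σs c')⁻¹ • y ∈ A → c = c')
    (U2 : ∀ (y : ℝ) c c', (σt c)⁻¹ • y ∈ B → (σt c')⁻¹ • y ∈ B → c = c')
    (U3 : ∀ (y : ℝ) i j, y ∈ P i → y ∈ P j → i = j)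
    (U4 : ∀ (y : ℝ) i j, (gi i)⁻¹ • y ∈ P i → (gi j)⁻¹ • y ∈ P j → i = j)
    (one : (1 : G) ∈ Δ) (symm : ∀ δ ∈ Δ, δ⁻¹ ∈ Δ) :
    Pre X A B (hk σs σt gi) (domk A B P σs σt gi) (fun k => k.2.1) (fun k => k.2.2) Δ := by
  refine ⟨inv, free, cont, irr, tA, tB, ?_, ?_, ?_, ?_, one, symm⟩
  · intro k
    exact tA.inter (((tP k.1).smul inv cont _).inter (tB.smul inv cont _))
  · intro k x hx hxk
    exact ⟨hxk.1, hxk.2.2⟩
  · intro x hx hxA c
    have h1 : (σs c)⁻¹ • (σs c • x) ∈ A := by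
      rw [inv_smul_smul]
      exact hxA
    obtain ⟨i, hi⟩ := (C1 _ (inv (σs c) x hx)).mp ⟨c, h1⟩
    have h2 : (gi i)⁻¹ • (gi i • σs c • x) ∈ P i := by
      rw [inv_smul_smul]
      exact hi
    obtain ⟨c', hc'⟩ := (C2 _ (inv (gi i) _ (inv (σs c) x hx))).mpr ⟨i, h2⟩
    refine ⟨(i, c, c'), ⟨rfl, hxA, hi, ?_⟩, ?_⟩
    · simp only [Set.mem_ofPred_eq, hk]
      rw [mul_smul, mul_smul]
      exact hc'
    · rintro ⟨i₂, c₂, c₂'⟩ ⟨h3, h4, h5, h6⟩
      simp only at h3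
      subst h3
      have e1 : i₂ = i := U3 _ _ _ h5 hi
      subst e1
      simp only [Set.mem_ofPred_eq, hk] at h6
      rw [mul_smul, mul_smul] at h6
      have e2 : c₂' = c' := U2 _ _ _ h6 hc'
      subst e2
      rfl
  · intro x hx hxB c'
    have h1 : (σt c')⁻¹ • (σt c' • x) ∈ B := by
      rw [inv_smul_smul]
      exact hxB
    obtain ⟨i, hi⟩ := (C2 _ (inv (σt c') x hx)).mp ⟨c', h1⟩
    obtain ⟨c, hc⟩ := (C1 _ (inv (gi i)⁻¹ _ (inv (σt c') x hx))).mpr ⟨i, hi⟩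
    have hinvk : ∀ (i : Fin n) (c c' : Bool), (hk σs σt gi (i, c, c'))⁻¹ • x
        = (σs c)⁻¹ • (gi i)⁻¹ • σt c' • x := by
      intro i c c'
      simp only [hk]
      rw [mul_inv_rev, mul_inv_rev, inv_inv, mul_smul, mul_smul]
    refine ⟨(i, c, c'), ⟨rfl, ?_, ?_, ?_⟩, ?_⟩
    · rw [hinvk]
      exact hc
    · simp only [Set.mem_ofPred_eq]
      rw [hinvk, smul_inv_smul]
      exact hi
    · simp only [Set.mem_ofPred_eq]
      rw [smul_inv_smul]
      exact hxB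
    · rintro ⟨i₂, c₂, c₂'⟩ ⟨h3, h4, h5, h6⟩
      simp only at h3
      subst h3
      simp only [Set.mem_ofPred_eq] at h4 h5
      rw [hinvk] at h4 h5
      rw [smul_inv_smul] at h5
      have e1 : i₂ = i := U4 _ _ _ h5 hi
      subst e1
      have e2 : c₂ = c := U1 _ _ _ h4 hc
      subst e2
      rfl

end Data

end Pool.Agent.Helper16.GM
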