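import Mathlib
set_option autoImplicit false

namespace Pool.Agent.Helper16.GM

open Relation

/-- The outside of a box. -/
def Rg (M : ℤ) : Set (ℤ × ℤ) := {z | M < |z.1| ∨ M < |z.2|}

/-- Positive unit steps in the plane lattice. -/
def Ps (z z' : ℤ × ℤ) : Prop := z' = (z.1 + 1, z.2) ∨ z' = (z.1, z.2 + 1)

/-- Steps outside a box. -/
def Stp (M : ℤ) (z z' : ℤ × ℤ) : Prop := z ∈ Rg M ∧ z' ∈ Rg M ∧ (Ps z z' ∨ Ps z' z)

lemma Stp.symm {M : ℤ} {z z' : ℤ × ℤ} (h : Stp M z z') : Stp M z' z :=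
  ⟨h.2.1, h.1, h.2.2.symm⟩

lemma rtg_symm {M : ℤ} {z z' : ℤ × ℤ} (h : ReflTransGen (Stp M) z z') :
    ReflTransGen (Stp M) z' z := by
  induction h with
  | refl => exact ReflTransGen.refl
  | tail _ h2 ih => exact (ReflTransGen.single h2.symm).trans ih

lemma horiz {M : ℤ} {b : ℤ} (hb : M < |b|) (a : ℤ) (n : ℕ) :
    ReflTransGen (Stp M) (a, b) (a + n, b) := by
  induction n with
  | zero => simpa using ReflTransGen.refl
  | succ n ih =>
    refine ih.tail ⟨Or.inr hb, Or.inr hb, Or.inl (Or.inl ?_)⟩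
    push_cast
    simp [add_assoc]

lemma vert {M : ℤ} {a : ℤ} (ha : M < |a|) (b : ℤ) (n : ℕ) :
    ReflTransGen (Stp M) (a, b) (a, b + n) := by
  induction n with
  | zero => simpa using ReflTransGen.refl
  | succ n ih =>
    refine ih.tail ⟨Or.inl ha, Or.inl ha, Or.inl (Or.inr ?_)⟩
    push_cast
    simp [add_assoc]

lemma horiz' {M : ℤ} {b : ℤ} (hb : M < |b|) (a a' : ℤ) :
    ReflTransGen (Stp M) (a, b) (a', b) := by
  rcases le_total a a' with h | h
  · have := horiz hb a (a' - a).toNat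
    rwa [Int.toNat_of_nonneg (by omega), add_sub_cancel] at this
  · have := horiz hb a' (a - a').toNat
    rw [Int.toNat_of_nonneg (by omega), add_sub_cancel] at this
    exact rtg_symm this

lemma vert' {M : ℤ} {a : ℤ} (ha : M < |a|) (b b' : ℤ) :
    ReflTransGen (Stp M) (a, b) (a, b') := by
  rcases le_total b b' with h | h
  · have := vert ha b (b' - b).toNat
    rwa [Int.toNat_of_nonneg (by omega), add_sub_cancel] at this
  · have := vert ha b' (b - b').toNat
    rw [Int.toNat_of_nonneg (by omega), add_sub_cancel] at this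
    exact rtg_symm this

/-- The outside of a box is connected. -/
theorem outside_conn {M : ℤ} {z z' : ℤ × ℤ} (hz : z ∈ Rg M) (hz' : z' ∈ Rg M) :
    ReflTransGen (Stp M) z z' := by
  have hM : M < |M + 1| := by
    have := le_abs_self (M + 1)
    omega
  have key : ∀ z ∈ Rg M, ReflTransGen (Stp M) z (M + 1, M + 1) := by
    rintro ⟨a, b⟩ (h | h)
    · exact (vert' h b (M + 1)).trans (horiz' hM a (M + 1))
    · exact (horiz' h a (M + 1)).trans (vert' hM b (M + 1))
  exact (key z hz).trans (rtg_symm (key z' hz'))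

/-- A finite set of lattice points lies in a box. -/
theorem exists_box {Z : Set (ℤ × ℤ)} (hZ : Z.Finite) : ∃ M : ℤ, ∀ z ∈ Z, z ∉ Rg M := by
  classical
  obtain ⟨s, rfl⟩ := hZ.exists_finset_coe
  refine ⟨∑ z ∈ s, (|z.1| + |z.2|), ?_⟩
  intro z hz h
  have h1 : |z.1| + |z.2| ≤ ∑ z ∈ s, (|z.1| + |z.2|) :=
    Finset.single_le_sum (f := fun z : ℤ × ℤ => |z.1| + |z.2|) (fun _ _ => by positivity) hz
  have h2 := abs_nonneg z.1
  have h3 := abs_nonneg z.2
  rcases h with h | h <;> omega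

lemma finite_compl_Rg (M : ℤ) : (Rg M)ᶜ.Finite := by
  refine Set.Finite.subset (Set.finite_Icc ((-M, -M) : ℤ × ℤ) (M, M)) ?_
  rintro ⟨a, b⟩ h
  have h' : ¬ (M < |a| ∨ M < |b|) := h
  push Not at h'
  rw [abs_le, abs_le] at h'
  exact ⟨⟨h'.1.1, h'.2.1⟩, ⟨h'.1.2, h'.2.2⟩⟩

end Pool.Agent.Helper16.GM
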