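import Pool.Agent.Helper16.GMRemove
set_option autoImplicit false
set_option linter.unusedSectionVars false

namespace Pool.Agent.Helper16.GM

open Relation

variable {N : Type*} [DecidableEq N] {nb nb' : N → Finset N} {side : N → Bool} {L L' : Set N}

/-- Graph isomorphism. -/
def GIso (nb nb' : N → Finset N) (e : N ≃ N) : Prop := ∀ n, nb' (e n) = (nb n).image e

lemma GIso.mem {e : N ≃ N} (h : GIso nb nb' e) {n m : N} : e m ∈ nb' (e n) ↔ m ∈ nb n := by
  rw [h n, Finset.mem_image]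
  constructor
  · rintro ⟨a, ha, hae⟩
    rwa [← e.injective hae]
  · intro hm
    exact ⟨m, hm, rfl⟩

lemma GIso.symm' {e : N ≃ N} (h : GIso nb nb' e) : GIso nb' nb e.symm := by
  intro n
  ext m
  rw [Finset.mem_image]
  constructor
  · intro hm
    refine ⟨e m, ?_, by simp⟩
    have := (h.mem (n := e.symm n) (m := m)).mpr hm
    simpa using this
  · rintro ⟨a, ha, rfl⟩
    rw [← h.mem]
    simpa using ha

lemma GIso.conn {e : N ≃ N} (h : GIso nb nb' e) {Q Q' : Set N} (hQ : ∀ n ∈ Q, e n ∈ Q')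
    {a b : N} (hab : Conn nb Q a b) : Conn nb' Q' (e a) (e b) := by
  induction hab with
  | refl => exact Conn.rfl'
  | tail _ hc ih => exact ih.trans' (Conn.single' (hQ _ hc.1) (hQ _ hc.2.1) (h.mem.mpr hc.2.2))

lemma GIso.cc {e : N ≃ N} (h : GIso nb nb' e) {D : Finset N} (hD : CC nb D) :
    CC nb' (D.image e) := by
  refine ⟨hD.ne.image e, ?_, ?_⟩
  · intro a₀ ha₀ b₀ hb₀
    obtain ⟨a, ha, rfl⟩ := Finset.mem_image.mp ha₀
    obtain ⟨b, hb, rfl⟩ := Finset.mem_image.mp hb₀
    exact h.conn (fun n hn => Finset.mem_image_of_mem e hn) (hD.conn a ha b hb)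
  · intro d₀ hd₀ a₀ b₀ ha hb hda hdb
    obtain ⟨d, hd, rfl⟩ := Finset.mem_image.mp hd₀
    obtain ⟨a, rfl⟩ := e.surjective a₀
    obtain ⟨b, rfl⟩ := e.surjective b₀
    have hmem : ∀ n, e n ∈ D.image e → n ∈ D := by
      intro n hn
      obtain ⟨m, hm, hmn⟩ := Finset.mem_image.mp hn
      rwa [← e.injective hmn]
    have ha' : a ∉ D := fun h' => ha (Finset.mem_image_of_mem e h')
    have hb' : b ∉ D := fun h' => hb (Finset.mem_image_of_mem e h')
    have h1 := h.symm'.conn (Q' := Set.univ) (fun _ _ => trivial) hda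
    have h2 := h.symm'.conn (Q' := Set.univ) (fun _ _ => trivial) hdb
    simp only [Equiv.symm_apply_apply] at h1 h2
    have h3 := hD.coconn d hd a b ha' hb' h1 h2
    exact h.conn (Q := (↑D : Set N)ᶜ) (Q' := (↑(D.image e) : Set N)ᶜ)
      (fun n hn hn' => hn (hmem n hn')) h3

lemma GIso.bd {e : N ≃ N} (h : GIso nb nb' e) (D : Finset N) : bd nb' (D.image e) = bd nb D := by
  classical
  unfold GM.bd
  rw [Finset.sum_image (fun a _ b _ hab => e.injective hab)]
  refine Finset.sum_congr rfl fun n _ => ?_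
  rw [h n]
  symm
  rw [← Finset.card_image_of_injective _ e.injective]
  congr 1
  ext m
  rw [mem_filt, Finset.mem_image, Finset.mem_image]
  constructor
  · rintro ⟨a, ha, rfl⟩
    rw [mem_filt] at ha
    refine ⟨⟨a, ha.1, rfl⟩, ?_⟩
    intro h'
    obtain ⟨b, hb, hab⟩ := Finset.mem_image.mp h'
    rw [e.injective hab] at hb
    exact ha.2 hb
  · rintro ⟨⟨a, ha, rfl⟩, h2⟩
    refine ⟨a, ?_, rfl⟩
    rw [mem_filt]
    exact ⟨ha, fun h' => h2 (Finset.mem_image_of_mem e h')⟩

lemma GIso.sl {e : N ≃ N} (h : GIso nb nb' e) (hside : ∀ n, side (e n) = side n)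
    (hL : ∀ n, e n ∈ L' ↔ n ∈ L) (c : Bool) (D : Finset N) :
    sl nb' side L' c (D.image e) = sl nb side L c D := by
  classical
  unfold GM.sl
  rw [Finset.sum_image (fun a _ b _ hab => e.injective hab)]
  have h1 : ∀ n, tau side L' c (e n) = tau side L c n := by
    intro n
    unfold tau
    rw [hside]
    by_cases hn : n ∈ L
    · rw [if_pos hn, if_pos ((hL n).mpr hn)]
    · rw [if_neg hn, if_neg (fun h' => hn ((hL n).mp h'))]
  have h2 : ecount nb' side L' c (D.image e) (↑(D.image e) : Set N)ᶜ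
      = ecount nb side L c D (↑D)ᶜ := by
    unfold ecount
    rw [Finset.sum_image (fun a _ b _ hab => e.injective hab)]
    refine Finset.sum_congr rfl fun n _ => ?_
    rw [hside]
    by_cases hn : side n = c ∧ n ∈ L
    · rw [if_pos hn, if_pos ⟨hn.1, (hL n).mpr hn.2⟩, h n]
      symm
      rw [← Finset.card_image_of_injective _ e.injective]
      congr 1
      ext m
      rw [mem_filt, Finset.mem_image, Finset.mem_image]
      constructor
      · rintro ⟨a, ha, rfl⟩
        rw [mem_filt] at ha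
        refine ⟨⟨a, ha.1, rfl⟩, (hL a).mpr ha.2.1, ?_⟩
        intro h'
        obtain ⟨b, hb, hab⟩ := Finset.mem_image.mp h'
        rw [e.injective hab] at hb
        exact ha.2.2 hb
      · rintro ⟨⟨a, ha, rfl⟩, h2, h3⟩
        refine ⟨a, ?_, rfl⟩
        rw [mem_filt]
        exact ⟨ha, (hL a).mp h2, fun h' => h3 (Finset.mem_coe.mpr (Finset.mem_image_of_mem e h'))⟩
    · rw [if_neg hn, if_neg (fun h' => hn ⟨h'.1, (hL n).mp h'.2⟩)]
  rw [Finset.sum_congr rfl (fun n _ => h1 n), h2]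

lemma GIso.mem_bdSet {e : N ≃ N} (h : GIso nb nb' e) {D : Finset N} {x y : N} :
    (e x, e y) ∈ bdSet nb' (D.image e) ↔ (x, y) ∈ bdSet nb D := by
  rw [GM.mem_bdSet, GM.mem_bdSet]
  have hmem : ∀ n, e n ∈ D.image e ↔ n ∈ D := by
    intro n
    constructor
    · intro hn
      obtain ⟨m, hm, hmn⟩ := Finset.mem_image.mp hn
      rwa [← e.injective hmn]
    · exact fun hn => Finset.mem_image_of_mem e hn
  simp only [hmem, h.mem]

lemma GIso.match {e : N ≃ N} (h : GIso nb nb' e) (hL : ∀ n, e n ∈ L' ↔ n ∈ L) {M : N → N}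
    (hM : IsMatch nb L M) : IsMatch nb' L' (fun n => e (M (e.symm n))) := by
  have hL2 : ∀ n, n ∈ L' → e.symm n ∈ L := by
    intro n hn
    rw [← hL]
    simpa using hn
  refine ⟨?_, ?_, ?_⟩
  · intro n hn
    exact (hL _).mpr (hM.mem _ (hL2 n hn))
  · intro n hn
    have := h.mem.mpr (hM.adj _ (hL2 n hn))
    simpa using this
  · intro n hn
    simp only [Equiv.symm_apply_apply]
    rw [hM.inv _ (hL2 n hn)]
    simp

/-- The slack only depends on the graph near `D`. -/
lemma sl_congr {c : Bool} {D : Finset N} (hnb : ∀ n ∈ D, nb' n = nb n)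
    (hL : ∀ n ∈ D, (n ∈ L' ↔ n ∈ L)) (hL2 : ∀ n ∈ D, ∀ m ∈ nb n, (m ∈ L' ↔ m ∈ L)) :
    sl nb' side L' c D = sl nb side L c D := by
  classical
  unfold GM.sl
  have h1 : ∀ n ∈ D, tau side L' c n = tau side L c n := by
    intro n hn
    unfold tau
    by_cases hn' : n ∈ L
    · rw [if_pos hn', if_pos ((hL n hn).mpr hn')]
    · rw [if_neg hn', if_neg (fun h' => hn' ((hL n hn).mp h'))]
  have h2 : ecount nb' side L' c D (↑D)ᶜ = ecount nb side L c D (↑D)ᶜ := by
    unfold ecount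
    refine Finset.sum_congr rfl fun n hn => ?_
    by_cases hc : side n = c ∧ n ∈ L
    · rw [if_pos hc, if_pos ⟨hc.1, (hL n hn).mpr hc.2⟩, hnb n hn]
      congr 1
      ext m
      rw [mem_filt, mem_filt]
      constructor
      · rintro ⟨h1, h2, h3⟩
        exact ⟨h1, (hL2 n hn m h1).mp h2, h3⟩
      · rintro ⟨h1, h2, h3⟩
        exact ⟨h1, (hL2 n hn m h1).mpr h2, h3⟩
    · rw [if_neg hc, if_neg (fun h' => hc ⟨h'.1, (hL n hn).mp h'.2⟩)]
  rw [Finset.sum_congr rfl h1, h2]

end Pool.Agent.Helper16.GM
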