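import Pool.Agent.Helper16.GMPre
import Pool.Agent.Helper16.GMGrid
import Pool.Agent.Helper16.GMIso
set_option autoImplicit false
set_option linter.unusedSectionVars false

namespace Pool.Agent.Helper16.GM

open Relation Filter Topology

variable {G : Type*} [Group G] [MulAction G ℝ] [DecidableEq G]
variable {κ : Type*} [Fintype κ]

/-- The geometric data used for one-endedness. -/
structure Geo (X A : Set ℝ) (Δ : Finset G) (τ₁ τ₂ τη : G) (t₁ t₂ η α : ℝ) : Prop where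
  iso : ∀ g : G, (∃ c : ℝ, ∀ x : ℝ, g • x = x + c) ∨ (∃ c : ℝ, ∀ x : ℝ, g • x = c - x)
  a1 : ∀ x : ℝ, τ₁ • x = x + t₁
  a2 : ∀ x : ℝ, τ₂ • x = x + t₂
  a3 : ∀ x : ℝ, τη • x = x + η
  t1 : 0 < t₁ ∧ t₁ < η
  t2 : 0 < t₂ ∧ t₂ < η
  indep : ∀ m n k : ℤ, (m : ℝ) * t₁ + n * t₂ + k * η = 0 → m = 0 ∧ n = 0
  I0 : Set.Ioo α (α + η) ⊆ A
  endp : α ∉ X
  d1 : τ₁ ∈ Δ
  d1' : τ₁ * τη⁻¹ ∈ Δ
  d2 : τ₂ ∈ Δ
  d2' : τ₂ * τη⁻¹ ∈ Δ
  reach : ∀ x ∈ X, x ∈ A → ∃ δ ∈ Δ, δ • x ∈ Set.Ioo α (α + η)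

variable {X A B : Set ℝ} {h : κ → G} {dom : κ → Set ℝ} {cl cr : κ → Bool} {Δ : Finset G}
variable {τ₁ τ₂ τη : G} {t₁ t₂ η α : ℝ}

lemma inv_act {g : G} {t : ℝ} (hg : ∀ x : ℝ, g • x = x + t) (x : ℝ) : g⁻¹ • x = x - t := by
  rw [inv_smul_eq_iff, hg]
  ring

lemma zpow_act {g : G} {t : ℝ} (hg : ∀ x : ℝ, g • x = x + t) (m : ℤ) :
    ∀ x : ℝ, (g ^ m) • x = x + m * t := by
  induction m using Int.induction_on with
  | zero => intro x; simp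
  | succ i ih =>
    intro x
    rw [zpow_add_one, mul_smul, ih, hg]
    push_cast
    ring
  | pred i ih =>
    intro x
    rw [zpow_sub_one, mul_smul, ih, inv_act hg]
    push_cast
    ring

/-- The winding number. -/
noncomputable def kk (t₁ t₂ η α y : ℝ) (z : ℤ × ℤ) : ℤ :=
  -⌊(y + z.1 * t₁ + z.2 * t₂ - α) / η⌋

/-- The grid through a name. -/
noncomputable def gg (τ₁ τ₂ τη : G) (t₁ t₂ η α x : ℝ) (γ : G) (z : ℤ × ℤ) : G :=
  τ₁ ^ z.1 * τ₂ ^ z.2 * τη ^ (kk t₁ t₂ η α (γ • x) z) * γ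

namespace Geo

variable (hG : Geo X A Δ τ₁ τ₂ τη t₁ t₂ η α)

include hG

lemma lam_act (m n k : ℤ) (x : ℝ) :
    (τ₁ ^ m * τ₂ ^ n * τη ^ k) • x = x + (m * t₁ + n * t₂ + k * η) := by
  rw [mul_smul, mul_smul, zpow_act hG.a3, zpow_act hG.a2, zpow_act hG.a1]
  ring

lemma eta_pos : 0 < η := hG.t1.1.trans hG.t1.2

lemma gg_act (x : ℝ) (γ : G) (z : ℤ × ℤ) : gg τ₁ τ₂ τη t₁ t₂ η α x γ z • x
    = γ • x + (z.1 * t₁ + z.2 * t₂ + kk t₁ t₂ η α (γ • x) z * η) := by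
  unfold gg
  rw [mul_smul, hG.lam_act]

lemma gg_mem (hinv : ∀ (g : G), ∀ x ∈ X, g • x ∈ X) {x : ℝ} (hx : x ∈ X) (γ : G) (z : ℤ × ℤ) :
    gg τ₁ τ₂ τη t₁ t₂ η α x γ z • x ∈ Set.Ioo α (α + η) := by
  have hX : gg τ₁ τ₂ τη t₁ t₂ η α x γ z • x ∈ X := hinv _ _ hx
  have hne : gg τ₁ τ₂ τη t₁ t₂ η α x γ z • x ≠ α := by
    intro h
    rw [h] at hX
    exact hG.endp hX
  rw [hG.gg_act] at hne ⊢
  have hη := hG.eta_pos
  unfold kk at hne ⊢
  set u := (γ • x + z.1 * t₁ + z.2 * t₂ - α) / η with hu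
  have h1 : u * η = γ • x + z.1 * t₁ + z.2 * t₂ - α := by
    rw [hu]
    field_simp
  have h2 := Int.floor_le u
  have h3 := Int.lt_floor_add_one u
  have h4 : γ • x + (z.1 * t₁ + z.2 * t₂ + ((-⌊u⌋ : ℤ) : ℝ) * η) = α + (u - ⌊u⌋) * η := by
    push_cast
    linear_combination -h1
  rw [h4] at hne ⊢
  have h5 : 0 ≤ (u - ⌊u⌋) * η := mul_nonneg (by linarith) hη.le
  have h6 : (u - ⌊u⌋) * η < η := by
    have : (u - ⌊u⌋) < 1 := by linarith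
    nlinarith
  refine ⟨?_, by linarith⟩
  rcases h5.lt_or_eq with h | h
  · linarith
  · exact absurd (by linarith) hne

lemma int_zero {a : ℤ} (h1 : -η < a * η) (h2 : a * η < η) : a = 0 := by
  have hη := hG.eta_pos
  have h3 : (-1 : ℝ) < a := by
    by_contra hc
    push Not at hc
    nlinarith
  have h4 : (a : ℝ) < 1 := by
    by_contra hc
    push Not at hc
    nlinarith
  have h5 : (-1 : ℤ) < a := by exact_mod_cast h3
  have h6 : a < (1 : ℤ) := by exact_mod_cast h4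
  omega

lemma gg_unique (hinv : ∀ (g : G), ∀ x ∈ X, g • x ∈ X)
    (hfree : ∀ (g : G), ∀ x ∈ X, g • x = x → g = 1) {x : ℝ} (hx : x ∈ X) {γ γ' : G}
    (hγ' : γ' • x ∈ Set.Ioo α (α + η)) {m n k : ℤ}
    (he : γ' • x = γ • x + (m * t₁ + n * t₂ + k * η)) :
    γ' = gg τ₁ τ₂ τη t₁ t₂ η α x γ (m, n) := by
  have h1 := hG.gg_mem hinv hx γ (m, n)
  have h2 := hG.gg_act x γ (m, n)
  have h3 : k = kk t₁ t₂ η α (γ • x) (m, n) := by
    have h4 : (γ' • x) - gg τ₁ τ₂ τη t₁ t₂ η α x γ (m, n) • x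
        = ((k - kk t₁ t₂ η α (γ • x) (m, n) : ℤ) : ℝ) * η := by
      rw [h2, he]
      push_cast
      ring
    have h5 : k - kk t₁ t₂ η α (γ • x) (m, n) = 0 := by
      apply hG.int_zero
      · rw [← h4]
        linarith [hγ'.1, h1.2]
      · rw [← h4]
        linarith [hγ'.2, h1.1]
    omega
  have h4 : γ' • x = gg τ₁ τ₂ τη t₁ t₂ η α x γ (m, n) • x := by
    rw [h2, he, h3]
  have h5 : ((gg τ₁ τ₂ τη t₁ t₂ η α x γ (m, n))⁻¹ * γ') • x = x := by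
    rw [mul_smul, h4, inv_smul_smul]
  have h6 := hfree _ x hx h5
  rw [inv_mul_eq_one] at h6
  exact h6.symm

lemma gg_inj (x : ℝ) (γ : G) : Function.Injective (gg τ₁ τ₂ τη t₁ t₂ η α x γ) := by
  intro z z' hz
  have h1 := hG.gg_act x γ z
  have h2 := hG.gg_act x γ z'
  rw [hz, h2] at h1
  have h3 := hG.indep (z.1 - z'.1) (z.2 - z'.2)
    (kk t₁ t₂ η α (γ • x) z - kk t₁ t₂ η α (γ • x) z') (by
      push_cast
      linarith)
  exact Prod.ext (by omega) (by omega)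

lemma gg_step (hinv : ∀ (g : G), ∀ x ∈ X, g • x ∈ X)
    (hfree : ∀ (g : G), ∀ x ∈ X, g • x = x → g = 1) {x : ℝ} (hx : x ∈ X) (γ : G) {z z' : ℤ × ℤ}
    (hz : Ps z z') : ∃ δ ∈ Δ, gg τ₁ τ₂ τη t₁ t₂ η α x γ z' = δ * gg τ₁ τ₂ τη t₁ t₂ η α x γ z := by
  have heq : ∀ g g' : G, g • x = g' • x → g = g' := by
    intro g g' hgg
    have h1 : (g'⁻¹ * g) • x = x := by
      rw [mul_smul, hgg, inv_smul_smul]
    have h2 := hfree _ x hx h1
    rwa [inv_mul_eq_one, eq_comm] at h2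
  have h1 := hG.gg_mem hinv hx γ z
  have h2 := hG.gg_act x γ z
  have h1' := hG.gg_mem hinv hx γ z'
  have h2' := hG.gg_act x γ z'
  -- a general step
  have gen : ∀ (t : ℝ) (τ : G), (∀ y : ℝ, τ • y = y + t) → 0 < t → t < η → τ ∈ Δ →
      τ * τη⁻¹ ∈ Δ → (∃ a : ℤ, gg τ₁ τ₂ τη t₁ t₂ η α x γ z' • x
        = gg τ₁ τ₂ τη t₁ t₂ η α x γ z • x + t + a * η) →
      ∃ δ ∈ Δ, gg τ₁ τ₂ τη t₁ t₂ η α x γ z' = δ * gg τ₁ τ₂ τη t₁ t₂ η α x γ z := by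
    rintro t τ hτ ht0 htη hd hd' ⟨a, ha⟩
    have hη := hG.eta_pos
    have h3 : -1 ≤ a := by
      by_contra hc
      have hc' : a ≤ -2 := by omega
      have : (a : ℝ) ≤ -2 := by exact_mod_cast hc'
      have h4 := h1'.1
      rw [ha] at h4
      have h5 := h1.2
      nlinarith
    have h4 : a ≤ 0 := by
      by_contra hc
      have hc' : 1 ≤ a := by omega
      have : (1 : ℝ) ≤ a := by exact_mod_cast hc'
      have h4 := h1'.2
      rw [ha] at h4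
      have h5 := h1.1
      nlinarith
    have h5 : a = 0 ∨ a = -1 := by omega
    rcases h5 with rfl | rfl
    · refine ⟨τ, hd, heq _ _ ?_⟩
      rw [ha, mul_smul, hτ]
      simp
    · refine ⟨τ * τη⁻¹, hd', heq _ _ ?_⟩
      rw [ha, mul_smul, mul_smul, hτ, inv_act hG.a3]
      push_cast
      ring
  rcases hz with hz | hz
  · apply gen t₁ τ₁ hG.a1 hG.t1.1 hG.t1.2 hG.d1 hG.d1'
    refine ⟨kk t₁ t₂ η α (γ • x) z' - kk t₁ t₂ η α (γ • x) z, ?_⟩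
    rw [h2, h2', hz]
    push_cast
    ring
  · apply gen t₂ τ₂ hG.a2 hG.t2.1 hG.t2.2 hG.d2 hG.d2'
    refine ⟨kk t₁ t₂ η α (γ • x) z' - kk t₁ t₂ η α (γ • x) z, ?_⟩
    rw [h2, h2', hz]
    push_cast
    ring

/-- Small translations. -/
lemma small {ε : ℝ} (hε : 0 < ε) : ∃ j k : ℤ, |(j : ℝ) * t₁ + k * η| < ε ∧
    (j : ℝ) * t₁ + k * η ≠ 0 := by
  have hη := hG.eta_pos
  obtain ⟨n, hn⟩ := exists_nat_gt (η / ε)
  have hn0 : 0 < n := by
    rcases Nat.eq_zero_or_pos n with h | h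
    · subst h
      have : 0 < η / ε := div_pos hη hε
      simp at hn
      linarith
    · exact h
  obtain ⟨j, k, hk0, _, hjk⟩ := Real.exists_int_int_abs_mul_sub_le (t₁ / η) hn0
  refine ⟨k, -j, ?_, ?_⟩
  · have h1 : (k : ℝ) * t₁ + ((-j : ℤ) : ℝ) * η = (k * (t₁ / η) - j) * η := by
      push_cast
      field_simp
      ring
    rw [h1, abs_mul, abs_of_pos hη]
    have h2 : η < n * ε := by
      rwa [div_lt_iff₀ hε] at hn
    have hn0' : (0 : ℝ) < n := by exact_mod_cast hn0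
    calc |(k : ℝ) * (t₁ / η) - j| * η ≤ 1 / (n + 1) * η := by
          apply mul_le_mul_of_nonneg_right hjk hη.le
      _ < ε := by
          rw [div_mul_eq_mul_div, one_mul, div_lt_iff₀ (by positivity)]
          nlinarith
  · intro h0
    have := hG.indep k 0 (-j) (by push_cast at h0 ⊢; linarith)
    omega

end Geo

end Pool.Agent.Helper16.GM
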