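import Mathlib
set_option autoImplicit false
set_option linter.unusedSectionVars false

namespace Pool.Agent.Helper16.GM

open Relation

variable {N : Type*}

/-- Membership in a filter for an arbitrary decidability instance. -/
lemma mem_filt {α : Type*} {p : α → Prop} {inst : DecidablePred p} {s : Finset α} {a : α} :
    a ∈ @Finset.filter α p inst s ↔ a ∈ s ∧ p a := @Finset.mem_filter α p inst s a

/-- Symmetric neighbour function. -/
def Sym (nb : N → Finset N) : Prop := ∀ a b, b ∈ nb a → a ∈ nb b

/-- The bipartition. -/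
def Bip (nb : N → Finset N) (side : N → Bool) : Prop := ∀ a b, b ∈ nb a → side b = !side a

/-- Reachability inside `Q`. -/
def Conn (nb : N → Finset N) (Q : Set N) : N → N → Prop :=
  ReflTransGen (fun a b => a ∈ Q ∧ b ∈ Q ∧ b ∈ nb a)

lemma exists_crossing {r : N → N → Prop} {P : Set N} {u v : N} (h : ReflTransGen r u v)
    (hu : u ∈ P) (hv : v ∉ P) : ∃ p q, ReflTransGen r u p ∧ p ∈ P ∧ q ∉ P ∧ r p q := by
  induction h with
  | refl => exact absurd hu hv
  | tail hb hc ih =>
    rename_i b c
    by_cases hbP : b ∈ P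
    · exact ⟨b, c, hb, hbP, hv, hc⟩
    · exact ih hbP

namespace Conn

variable {nb : N → Finset N} {Q Q' : Set N} {a b c : N}

lemma rfl' : Conn nb Q a a := ReflTransGen.refl

lemma trans' (h : Conn nb Q a b) (h' : Conn nb Q b c) : Conn nb Q a c := ReflTransGen.trans h h'

lemma single' (ha : a ∈ Q) (hb : b ∈ Q) (h : b ∈ nb a) : Conn nb Q a b :=
  ReflTransGen.single ⟨ha, hb, h⟩

lemma symm' (hs : Sym nb) (h : Conn nb Q a b) : Conn nb Q b a := by
  induction h with
  | refl => exact rfl'
  | tail _ hc ih => exact (single' hc.2.1 hc.1 (hs _ _ hc.2.2)).trans' ih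

lemma mono' (hQ : Q ⊆ Q') (h : Conn nb Q a b) : Conn nb Q' a b := by
  induction h with
  | refl => exact rfl'
  | tail _ hc ih => exact ih.trans' (single' (hQ hc.1) (hQ hc.2.1) hc.2.2)

lemma mem_right (h : Conn nb Q a b) (ha : a ∈ Q) : b ∈ Q := by
  induction h with
  | refl => exact ha
  | tail _ hc _ => exact hc.2.1

lemma mem_left (hs : Sym nb) (h : Conn nb Q a b) (hb : b ∈ Q) : a ∈ Q :=
  (h.symm' hs).mem_right hb

/-- A path inside `Q` starting in the set `R` closed under steps in `Q` stays in `R`. -/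
lemma stay {R : Set N} (h : Conn nb Q a b) (ha : a ∈ R)
    (hR : ∀ x y, x ∈ R → x ∈ Q → y ∈ Q → y ∈ nb x → y ∈ R) : Conn nb (Q ∩ R) a b ∧ b ∈ R := by
  induction h with
  | refl => exact ⟨rfl', ha⟩
  | tail hb hc ih =>
    obtain ⟨h1, h2⟩ := ih
    have h3 := hR _ _ h2 hc.1 hc.2.1 hc.2.2
    exact ⟨h1.trans' (single' ⟨hc.1, h2⟩ ⟨hc.2.1, h3⟩ hc.2.2), h3⟩

end Conn

/-- The component of `v` in `Q`. -/
def cmp (nb : N → Finset N) (Q : Set N) (v : N) : Set N := {m | Conn nb Q v m}

/-- Infinite components of complements of finite sets are unique. -/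
def OneEnded (nb : N → Finset N) : Prop :=
  ∀ (Q : Finset N) (v w : N), Conn nb Set.univ v w → v ∉ Q → w ∉ Q →
    (cmp nb (↑Q)ᶜ v).Infinite → (cmp nb (↑Q)ᶜ w).Infinite → Conn nb (↑Q)ᶜ v w

/-- Connected and co-connected finite sets. -/
structure CC (nb : N → Finset N) (D : Finset N) : Prop where
  ne : D.Nonempty
  conn : ∀ a ∈ D, ∀ b ∈ D, Conn nb ↑D a b
  coconn : ∀ d ∈ D, ∀ a b, a ∉ D → b ∉ D → Conn nb Set.univ d a → Conn nb Set.univ d b →
    Conn nb (↑D)ᶜ a b

section Cut

variable [DecidableEq N] (nb : N → Finset N) (side : N → Bool) (L : Set N)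

open Classical in
/-- The vertex weight. -/
noncomputable def tau (c : Bool) (n : N) : ℤ :=
  if n ∈ L then (if side n = c then -1 else 1) else 0

open Classical in
/-- The number of edges from alive vertices of side `c` in `P` to alive vertices in `Q`. -/
noncomputable def ecount (c : Bool) (P : Finset N) (Q : Set N) : ℕ :=
  ∑ n ∈ P, if side n = c ∧ n ∈ L then ((nb n).filter (fun m => m ∈ L ∧ m ∈ Q)).card else 0

/-- The slack. -/
noncomputable def sl (c : Bool) (D : Finset N) : ℤ :=
  ∑ n ∈ D, tau side L c n + 2 * ecount nb side L c D (↑D)ᶜ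

open Classical in
/-- The number of boundary edges. -/
noncomputable def bd (D : Finset N) : ℕ :=
  ∑ n ∈ D, ((nb n).filter (fun m => m ∉ D)).card

variable {nb side L}

lemma tau_not (c : Bool) (n : N) : tau side L (!c) n = - tau side L c n := by
  unfold tau
  by_cases h : n ∈ L
  · rw [if_pos h, if_pos h]
    cases hs : side n <;> cases c <;> simp
  · simp [h]

lemma ecount_union_left {c : Bool} {P P' : Finset N} (h : Disjoint P P') (Q : Set N) :
    ecount nb side L c (P ∪ P') Q = ecount nb side L c P Q + ecount nb side L c P' Q := by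
  unfold ecount
  rw [Finset.sum_union h]

lemma ecount_union_right {c : Bool} (P : Finset N) {Q Q' : Set N} (h : Disjoint Q Q') :
    ecount nb side L c P (Q ∪ Q') = ecount nb side L c P Q + ecount nb side L c P Q' := by
  classical
  unfold ecount
  rw [← Finset.sum_add_distrib]
  refine Finset.sum_congr rfl fun n _ => ?_
  split_ifs
  · rw [← Finset.card_union_of_disjoint]
    · congr 1
      ext m
      simp only [Finset.mem_filter, Finset.mem_union, Set.mem_union]
      tauto
    · rw [Finset.disjoint_filter]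
      rintro m _ ⟨_, h1⟩ ⟨_, h2⟩
      exact Set.disjoint_left.mp h h1 h2
  · rfl

lemma ecount_congr {c : Bool} (P : Finset N) {Q Q' : Set N}
    (h : ∀ n ∈ P, ∀ m ∈ nb n, (m ∈ Q ↔ m ∈ Q')) :
    ecount nb side L c P Q = ecount nb side L c P Q' := by
  classical
  unfold ecount
  refine Finset.sum_congr rfl fun n hn => ?_
  split_ifs
  · congr 1
    ext m
    simp only [Finset.mem_filter]
    constructor
    · rintro ⟨hm, h1, h2⟩
      exact ⟨hm, h1, (h n hn m hm).mp h2⟩
    · rintro ⟨hm, h1, h2⟩
      exact ⟨hm, h1, (h n hn m hm).mpr h2⟩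
  · rfl

lemma ecount_empty {c : Bool} (P : Finset N) : ecount nb side L c P ∅ = 0 := by
  unfold ecount
  refine Finset.sum_eq_zero fun n _ => ?_
  split_ifs <;> simp

lemma ecount_symm (hs : Sym nb) (hb : Bip nb side) (c : Bool) (P P' : Finset N) :
    ecount nb side L c P ↑P' = ecount nb side L (!c) P' ↑P := by
  classical
  have key : ∀ (c : Bool) (P P' : Finset N), ecount nb side L c P ↑P'
      = ((P ×ˢ P').filter (fun x => side x.1 = c ∧ x.1 ∈ L ∧ x.2 ∈ L ∧ x.2 ∈ nb x.1)).card := by
    intro c P P'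
    unfold ecount
    rw [Finset.card_filter, Finset.sum_product]
    refine Finset.sum_congr rfl fun n hn => ?_
    split_ifs with h
    · rw [← Finset.card_filter]
      congr 1
      ext m
      simp only [Finset.mem_filter, Finset.mem_coe]
      tauto
    · symm
      refine Finset.sum_eq_zero fun m _ => ?_
      rw [if_neg]
      rintro ⟨h1, h2, _⟩
      exact h ⟨h1, h2⟩
  rw [key, key]
  refine Finset.card_bij (fun x _ => (x.2, x.1)) ?_ ?_ ?_
  · rintro ⟨a, b⟩ h
    simp only [Finset.mem_filter, Finset.mem_product] at h ⊢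
    obtain ⟨⟨h1, h2⟩, h3, h4, h5, h6⟩ := h
    refine ⟨⟨h2, h1⟩, ?_, h5, h4, hs _ _ h6⟩
    rw [hb _ _ h6, h3]
  · rintro ⟨a, b⟩ _ ⟨a', b'⟩ _ h
    simp only [Prod.mk.injEq] at h ⊢
    exact ⟨h.2, h.1⟩
  · rintro ⟨b, a⟩ h
    simp only [Finset.mem_filter, Finset.mem_product] at h
    obtain ⟨⟨h1, h2⟩, h3, h4, h5, h6⟩ := h
    refine ⟨(a, b), ?_, rfl⟩
    simp only [Finset.mem_filter, Finset.mem_product]
    refine ⟨⟨h2, h1⟩, ?_, h5, h4, hs _ _ h6⟩
    have := hb _ _ h6
    rw [this, h3, Bool.not_not]

/-- Additivity for unlinked sets. -/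
lemma sl_union {c : Bool} {D D' : Finset N} (hd : Disjoint D D')
    (hno : ∀ a ∈ D, ∀ b ∈ D', b ∉ nb a) (hno' : ∀ a ∈ D', ∀ b ∈ D, b ∉ nb a) :
    sl nb side L c (D ∪ D') = sl nb side L c D + sl nb side L c D' := by
  unfold sl
  rw [Finset.sum_union hd, ecount_union_left hd]
  have h1 : ecount nb side L c D (↑(D ∪ D') : Set N)ᶜ = ecount nb side L c D (↑D)ᶜ := by
    refine ecount_congr D fun n hn m hm => ?_
    simp only [Set.mem_compl_iff, Finset.coe_union, Set.mem_union, Finset.mem_coe, not_or]
    exact ⟨fun h => h.1, fun h => ⟨h, fun h' => hno n hn m h' hm⟩⟩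
  have h2 : ecount nb side L c D' (↑(D ∪ D') : Set N)ᶜ = ecount nb side L c D' (↑D')ᶜ := by
    refine ecount_congr D' fun n hn m hm => ?_
    simp only [Set.mem_compl_iff, Finset.coe_union, Set.mem_union, Finset.mem_coe, not_or]
    exact ⟨fun h => h.2, fun h => ⟨fun h' => hno' n hn m h' hm, h⟩⟩
  rw [h1, h2]
  push_cast
  ring

/-- Additivity for holes. -/
lemma sl_hole (hs : Sym nb) (hb : Bip nb side) {c : Bool} {D H : Finset N} (hd : Disjoint D H)
    (hno : ∀ a ∈ H, ∀ b ∈ nb a, b ∈ D ∪ H) :
    sl nb side L c D = sl nb side L c (D ∪ H) + sl nb side L (!c) H := by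
  unfold sl
  rw [Finset.sum_union hd, ecount_union_left hd]
  have h1 : ecount nb side L c H (↑(D ∪ H) : Set N)ᶜ = 0 := by
    rw [← ecount_empty (nb := nb) (side := side) (L := L) (c := c) H]
    refine ecount_congr H fun n hn m hm => ?_
    simp only [Set.mem_compl_iff, Finset.mem_coe, Set.mem_empty_iff_false, iff_false, not_not]
    exact hno n hn m hm
  have h2 : ecount nb side L (!c) H (↑H)ᶜ = ecount nb side L (!c) H ↑D := by
    refine ecount_congr H fun n hn m hm => ?_
    simp only [Set.mem_compl_iff, Finset.mem_coe]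
    have := hno n hn m hm
    rw [Finset.mem_union] at this
    constructor
    · intro h
      exact this.resolve_right h
    · intro h h'
      exact Finset.disjoint_left.mp hd h h'
  have h3 : ecount nb side L c D (↑D)ᶜ
      = ecount nb side L c D (↑(D ∪ H) : Set N)ᶜ + ecount nb side L c D ↑H := by
    rw [← ecount_union_right]
    · refine ecount_congr D fun n hn m hm => ?_
      simp only [Set.mem_compl_iff, Finset.coe_union, Set.mem_union, Finset.mem_coe, not_or]
      constructor
      · intro h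
        by_cases h' : m ∈ H
        · exact Or.inr h'
        · exact Or.inl ⟨h, h'⟩
      · rintro (h | h)
        · exact h.1
        · exact fun h' => Finset.disjoint_left.mp hd h' h
    · rw [Set.disjoint_left]
      intro m hm hm'
      apply hm
      simp only [Finset.coe_union, Set.mem_union]
      exact Or.inr hm'
  have h4 : ecount nb side L c D ↑H = ecount nb side L (!c) H ↑D := ecount_symm hs hb c D H
  have h5 : ∑ n ∈ H, tau side L (!c) n = - ∑ n ∈ H, tau side L c n := by
    rw [← Finset.sum_neg_distrib]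
    exact Finset.sum_congr rfl fun n _ => tau_not c n
  rw [h1, h2, h3, h4, h5]
  push_cast
  ring

end Cut

end Pool.Agent.Helper16.GM
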