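import Pool.Agent.Helper16.GMStep
set_option autoImplicit false
set_option linter.unusedSectionVars false

namespace Pool.Agent.Helper16.GM

open Relation Filter Topology Pointwise

variable {G : Type*} [Group G] [MulAction G ℝ] [DecidableEq G]
variable {Edge : ℝ → ℝ → Prop} {S : Finset G} {X : Set ℝ}

/-- What one step of the construction achieves. -/
structure Next (X : Set ℝ) (Edge : ℝ → ℝ → Prop) (S : Finset G) (LA LB : Set ℝ) (b : Bool)
    (p q : ℚ) (J : Set ℝ) (g : G) : Prop where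
  opn : IsOpen J
  memS : J.Nonempty → g ∈ S
  sub : ∀ x ∈ X, x ∈ J → x ∈ LA ∧ g • x ∈ LB
  inv : Inv X Edge S (LA \ J) (LB \ {y | g⁻¹ • y ∈ J})
  hitA : b = true → (∃ x ∈ X, x ∈ LA ∧ x ∈ Set.Ioo (p : ℝ) q) →
    ∃ x ∈ X, x ∈ J ∧ x ∈ Set.Ioo (p : ℝ) q
  hitB : b = false → (∃ x ∈ X, x ∈ LB ∧ x ∈ Set.Ioo (p : ℝ) q) →
    ∃ x ∈ X, x ∈ J ∧ g • x ∈ Set.Ioo (p : ℝ) q

lemma next_trivial {LA LB : Set ℝ} (hI : Inv X Edge S LA LB) {b : Bool} {p q : ℚ}
    (hA : b = true → ¬ ∃ x ∈ X, x ∈ LA ∧ x ∈ Set.Ioo (p : ℝ) q)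
    (hB : b = false → ¬ ∃ x ∈ X, x ∈ LB ∧ x ∈ Set.Ioo (p : ℝ) q) :
    Next X Edge S LA LB b p q ∅ 1 := by
  refine ⟨isOpen_empty, by simp, by simp, ?_, fun h h' => absurd h' (hA h),
    fun h h' => absurd h' (hB h)⟩
  have h1 : LB \ {y : ℝ | (1 : G)⁻¹ • y ∈ (∅ : Set ℝ)} = LB := by
    ext y
    simp
  rw [Set.sdiff_empty, h1]
  exact hI

lemma exists_next (hS : Sys X Edge S) {LA LB : Set ℝ} (hI : Inv X Edge S LA LB) (b : Bool)
    (p q : ℚ) : ∃ (J : Set ℝ) (g : G), Next X Edge S LA LB b p q J g := by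
  cases b
  · by_cases h : ∃ x ∈ X, x ∈ LB ∧ x ∈ Set.Ioo (p : ℝ) q
    · obtain ⟨y₀, hy₀X, hy₀B, hy₀I⟩ := h
      obtain ⟨M, hM⟩ := exists_match (nbx_sym y₀) (nbx_bip y₀) (hI.H y₀ hy₀X)
      have h1 : ((1 : G), false) ∈ live LA LB y₀ := by
        rw [mem_live_false, one_smul]
        exact hy₀B
      obtain ⟨g, hgS, hge, hMg⟩ := mem_nbx_false.mp (hM.adj _ h1)
      rw [mul_one] at hMg
      -- move to x₀ = g⁻¹ y₀
      have hx₀ : g⁻¹ • y₀ ∈ X := hS.inv _ _ hy₀X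
      have hM' := (nbx_iso (Edge := Edge) (S := S) g⁻¹ y₀).match
        (L := live LA LB y₀) (L' := live LA LB (g⁻¹ • y₀)) (fun n => tr_mem_live n) hM
      have h1' : ((1 : G), true) ∈ live LA LB (g⁻¹ • y₀) := by
        have h2 := hM.mem _ h1
        rw [hMg, mem_live_true] at h2
        rw [mem_live_true, one_smul]
        exact h2
      have hM2 : (fun n => (tr g⁻¹) (M ((tr g⁻¹).symm n))) ((1 : G), true) = (g, false) := by
        have h3 := hM.inv _ h1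
        rw [hMg] at h3
        simp only [tr_symm_apply, one_mul, tr_apply, inv_inv]
        rw [h3]
        simp
      obtain ⟨p', q', hxJ, hJO, hgS', hsub, hinv⟩ := step hS hI hx₀ hM' h1' hM2
        (O := (fun z : ℝ => g • z) ⁻¹' (Set.Ioo (p : ℝ) q))
        (isOpen_Ioo.preimage (hS.cont g)) (by
          rw [Set.mem_preimage, smul_inv_smul]
          exact hy₀I)
      refine ⟨Set.Ioo (p' : ℝ) q', g, isOpen_Ioo, fun _ => hgS', ?_, hinv, by simp, ?_⟩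
      · intro x hx hxJ
        exact ⟨(hsub x hx hxJ).1, (hsub x hx hxJ).2.1⟩
      · intro _ _
        refine ⟨g⁻¹ • y₀, hx₀, hxJ, ?_⟩
        rw [smul_inv_smul]
        exact hy₀I
    · exact ⟨∅, 1, next_trivial hI (by simp) (fun _ => h)⟩
  · by_cases h : ∃ x ∈ X, x ∈ LA ∧ x ∈ Set.Ioo (p : ℝ) q
    · obtain ⟨x₀, hx₀X, hx₀A, hx₀I⟩ := h
      obtain ⟨M, hM⟩ := exists_match (nbx_sym x₀) (nbx_bip x₀) (hI.H x₀ hx₀X)
      have h1 : ((1 : G), true) ∈ live LA LB x₀ := by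
        rw [mem_live_true, one_smul]
        exact hx₀A
      obtain ⟨g, hgS, hge, hMg⟩ := mem_nbx_true.mp (hM.adj _ h1)
      rw [mul_one] at hMg
      obtain ⟨p', q', hxJ, hJO, hgS', hsub, hinv⟩ := step hS hI hx₀X hM h1 hMg
        (O := Set.Ioo (p : ℝ) q) isOpen_Ioo hx₀I
      refine ⟨Set.Ioo (p' : ℝ) q', g, isOpen_Ioo, fun _ => hgS', ?_, hinv, ?_, by simp⟩
      · intro x hx hxJ
        exact ⟨(hsub x hx hxJ).1, (hsub x hx hxJ).2.1⟩
      · intro _ _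
        exact ⟨x₀, hx₀X, hxJ, hx₀I⟩
    · exact ⟨∅, 1, next_trivial hI (fun _ => h) (by simp)⟩

/-- The states of the construction. -/
structure St (X : Set ℝ) (Edge : ℝ → ℝ → Prop) (S : Finset G) where
  LA : Set ℝ
  LB : Set ℝ
  inv : Inv X Edge S LA LB

/-- The requirement number `k`. -/
def req (k : ℕ) : Bool × ℚ × ℚ := (Encodable.decode (α := Bool × ℚ × ℚ) k).getD (true, 0, 0)

lemma req_surj (r : Bool × ℚ × ℚ) : ∃ k, req k = r :=
  ⟨Encodable.encode r, by simp [req]⟩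

/-- The chosen step. -/
noncomputable def chJ (hS : Sys X Edge S) (s : St X Edge S) (k : ℕ) : Set ℝ :=
  (exists_next hS s.inv (req k).1 (req k).2.1 (req k).2.2).choose

noncomputable def chg (hS : Sys X Edge S) (s : St X Edge S) (k : ℕ) : G :=
  (exists_next hS s.inv (req k).1 (req k).2.1 (req k).2.2).choose_spec.choose

lemma ch_spec (hS : Sys X Edge S) (s : St X Edge S) (k : ℕ) :
    Next X Edge S s.LA s.LB (req k).1 (req k).2.1 (req k).2.2 (chJ hS s k) (chg hS s k) :=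
  (exists_next hS s.inv (req k).1 (req k).2.1 (req k).2.2).choose_spec.choose_spec

/-- The sequence of states. -/
noncomputable def sts (hS : Sys X Edge S) (s₀ : St X Edge S) : ℕ → St X Edge S
  | 0 => s₀
  | k + 1 => ⟨_, _, (ch_spec hS (sts hS s₀ k) k).inv⟩

theorem limit (hS : Sys X Edge S) {A B : Set ℝ} (hI : Inv X Edge S A B) :
    ∃ (J : ℕ → Set ℝ) (g : ℕ → G), (∀ k, IsOpen (J k)) ∧ (∀ k, (J k).Nonempty → g k ∈ S) ∧
      (∀ k, ∀ x ∈ X, x ∈ J k → x ∈ A ∧ g k • x ∈ B) ∧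
      (∀ j k, j < k → ∀ x ∈ X, x ∈ J j → x ∉ J k) ∧
      (∀ j k, j < k → ∀ x ∈ X, (g j)⁻¹ • x ∈ J j → (g k)⁻¹ • x ∉ J k) ∧
      (∀ p q : ℚ, (∃ x ∈ X, x ∈ A ∧ x ∈ Set.Ioo (p : ℝ) q) →
        ∃ k, ∃ x ∈ X, x ∈ J k ∧ x ∈ Set.Ioo (p : ℝ) q) ∧
      (∀ p q : ℚ, (∃ x ∈ X, x ∈ B ∧ x ∈ Set.Ioo (p : ℝ) q) →
        ∃ k, ∃ x ∈ X, x ∈ J k ∧ g k • x ∈ Set.Ioo (p : ℝ) q) := by
  set s := sts hS ⟨A, B, hI⟩ with hs
  set J : ℕ → Set ℝ := fun k => chJ hS (s k) k with hJ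
  set g : ℕ → G := fun k => chg hS (s k) k with hg
  have hsp : ∀ k, Next X Edge S (s k).LA (s k).LB (req k).1 (req k).2.1 (req k).2.2 (J k) (g k) :=
    fun k => ch_spec hS (s k) k
  have hsA : ∀ k, (s (k + 1)).LA = (s k).LA \ J k := fun k => rfl
  have hsB : ∀ k, (s (k + 1)).LB = (s k).LB \ {y | (g k)⁻¹ • y ∈ J k} := fun k => rfl
  have h0A : (s 0).LA = A := rfl
  have h0B : (s 0).LB = B := rfl
  -- explicit alive sets
  have hLA : ∀ k, ∀ x, x ∈ (s k).LA ↔ x ∈ A ∧ ∀ j < k, x ∉ J j := by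
    intro k
    induction k with
    | zero => intro x; rw [h0A]; simp
    | succ k ih =>
      intro x
      rw [hsA, Set.mem_sdiff, ih]
      constructor
      · rintro ⟨⟨h1, h2⟩, h3⟩
        refine ⟨h1, fun j hj => ?_⟩
        rcases Nat.lt_succ_iff_lt_or_eq.mp hj with h | rfl
        · exact h2 j h
        · exact h3
      · rintro ⟨h1, h2⟩
        exact ⟨⟨h1, fun j hj => h2 j (by omega)⟩, h2 k (by omega)⟩
  have hLB : ∀ k, ∀ x, x ∈ (s k).LB ↔ x ∈ B ∧ ∀ j < k, (g j)⁻¹ • x ∉ J j := by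
    intro k
    induction k with
    | zero => intro x; rw [h0B]; simp
    | succ k ih =>
      intro x
      rw [hsB, Set.mem_sdiff, ih]
      constructor
      · rintro ⟨⟨h1, h2⟩, h3⟩
        refine ⟨h1, fun j hj => ?_⟩
        rcases Nat.lt_succ_iff_lt_or_eq.mp hj with h | rfl
        · exact h2 j h
        · exact h3
      · rintro ⟨h1, h2⟩
        exact ⟨⟨h1, fun j hj => h2 j (by omega)⟩, h2 k (by omega)⟩
  refine ⟨J, g, fun k => (hsp k).opn, fun k => (hsp k).memS, ?_, ?_, ?_, ?_, ?_⟩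
  · intro k x hx hxJ
    obtain ⟨h1, h2⟩ := (hsp k).sub x hx hxJ
    exact ⟨((hLA k x).mp h1).1, ((hLB k _).mp h2).1⟩
  · intro j k hjk x hx hxj hxk
    exact ((hLA k x).mp ((hsp k).sub x hx hxk).1).2 j hjk hxj
  · intro j k hjk x hx hxj hxk
    have h1 := ((hsp k).sub _ (hS.inv _ _ hx) hxk).2
    rw [smul_inv_smul] at h1
    exact ((hLB k x).mp h1).2 j hjk hxj
  · rintro p q ⟨x, hx, hxA, hxI⟩
    obtain ⟨k, hk⟩ := req_surj (true, p, q)
    by_cases h : ∃ x ∈ X, x ∈ (s k).LA ∧ x ∈ Set.Ioo (p : ℝ) q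
    · have h1 := (hsp k).hitA (by rw [hk])
      rw [hk] at h1
      exact ⟨k, h1 h⟩
    · push Not at h
      have h2 : x ∉ (s k).LA := fun h' => h x hx h' hxI
      rw [hLA] at h2
      push Not at h2
      obtain ⟨j, _, hj⟩ := h2 hxA
      exact ⟨j, x, hx, hj, hxI⟩
  · rintro p q ⟨x, hx, hxB, hxI⟩
    obtain ⟨k, hk⟩ := req_surj (false, p, q)
    by_cases h : ∃ x ∈ X, x ∈ (s k).LB ∧ x ∈ Set.Ioo (p : ℝ) q
    · have h1 := (hsp k).hitB (by rw [hk])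
      rw [hk] at h1
      exact ⟨k, h1 h⟩
    · push Not at h
      have h2 : x ∉ (s k).LB := fun h' => h x hx h' hxI
      rw [hLB] at h2
      push Not at h2
      obtain ⟨j, _, hj⟩ := h2 hxB
      refine ⟨j, (g j)⁻¹ • x, hS.inv _ _ hx, hj, ?_⟩
      rw [smul_inv_smul]
      exact hxI

end Pool.Agent.Helper16.GM
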