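import Pool.Agent.Helper16.GMFinal
set_option autoImplicit false
set_option linter.unusedSectionVars false

namespace Pool.Agent.Helper16.GM

open Relation Filter Topology

section

variable {G : Type*} [Group G] [MulAction G ℝ] [DecidableEq G]

lemma memU {σ : Bool → G} {s : ℝ} (h0 : σ false = 1) (h1 : ∀ x : ℝ, σ true • x = x + s)
    (A : Set ℝ) (y : ℝ) : (∃ c, (σ c)⁻¹ • y ∈ A) ↔ y ∈ A ∪ (fun x => x + s) '' A := by
  constructor
  · rintro ⟨c, hc⟩
    cases c
    · rw [h0, inv_one, one_smul] at hc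
      exact Or.inl hc
    · rw [inv_act h1] at hc
      exact Or.inr ⟨y - s, hc, by simp⟩
  · rintro (h | ⟨x, hx, rfl⟩)
    · refine ⟨false, ?_⟩
      rw [h0, inv_one, one_smul]
      exact h
    · refine ⟨true, ?_⟩
      rw [inv_act h1]
      simpa using hx

lemma uniqU {σ : Bool → G} {s : ℝ} (h0 : σ false = 1) (h1 : ∀ x : ℝ, σ true • x = x + s)
    {A : Set ℝ} (hd : Disjoint A ((fun x => x + s) '' A)) (y : ℝ) (c c' : Bool)
    (hc : (σ c)⁻¹ • y ∈ A) (hc' : (σ c')⁻¹ • y ∈ A) : c = c' := by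
  rw [Set.disjoint_left] at hd
  cases c <;> cases c'
  · rfl
  · rw [h0, inv_one, one_smul] at hc
    rw [inv_act h1] at hc'
    exact absurd ⟨y - s, hc', by simp⟩ (hd hc)
  · rw [h0, inv_one, one_smul] at hc'
    rw [inv_act h1] at hc
    exact absurd ⟨y - s, hc, by simp⟩ (hd hc')
  · rfl

lemma open_of_reg {U : Set ℝ} (h : interior (closure U) = U) : IsOpen U := by
  rw [← h]
  exact isOpen_interior

lemma frontier_ok {U : Set ℝ} (h : IsOpen U) :
    IsClosed (frontier U) ∧ interior (frontier U) = ∅ := by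
  refine ⟨isClosed_frontier, ?_⟩
  rw [← frontier_compl]
  exact interior_frontier h.isClosed_compl

end

section

variable {G : Type*} [Group G] [MulAction G ℝ] [DecidableEq G]

theorem main_G [Countable G] {A B : Set ℝ} {n : ℕ} (P : Fin n → Set ℝ) (σs σt : Bool → G)
    (gi : Fin n → G) (τ₁ τ₂ τη : G) (s t t₁ t₂ η α : ℝ)
    (hiso : ∀ g : G, (∃ c : ℝ, ∀ x : ℝ, g • x = x + c) ∨ (∃ c : ℝ, ∀ x : ℝ, g • x = c - x))
    (hf : ∀ g : G, (∀ x : ℝ, g • x = x) → g = 1)
    (hA : interior (closure A) = A) (hAb : Bornology.IsBounded A)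
    (hB : interior (closure B) = B)
    (hP : ∀ i, interior (closure (P i)) = P i)
    (hPd : Pairwise (fun i j => Disjoint (P i) (P j)))
    (hQd : Pairwise (fun i j => Disjoint ((fun x : ℝ => gi i • x) '' P i)
      ((fun x : ℝ => gi j • x) '' P j)))
    (hs : Disjoint A ((fun x => x + s) '' A)) (ht : Disjoint B ((fun x => x + t) '' B))
    (h1 : interior (closure (⋃ i, P i)) = interior (closure (A ∪ (fun x => x + s) '' A)))
    (h2 : interior (closure (⋃ i, (fun x : ℝ => gi i • x) '' P i))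
      = interior (closure (B ∪ (fun x => x + t) '' B)))
    (hσs0 : σs false = 1) (hσs1 : ∀ x : ℝ, σs true • x = x + s)
    (hσt0 : σt false = 1) (hσt1 : ∀ x : ℝ, σt true • x = x + t)
    (a1 : ∀ x : ℝ, τ₁ • x = x + t₁) (a2 : ∀ x : ℝ, τ₂ • x = x + t₂)
    (a3 : ∀ x : ℝ, τη • x = x + η) (ht1 : 0 < t₁ ∧ t₁ < η) (ht2 : 0 < t₂ ∧ t₂ < η)
    (indep : ∀ m n k : ℤ, (m : ℝ) * t₁ + n * t₂ + k * η = 0 → m = 0 ∧ n = 0)
    (hI0 : Set.Ioo α (α + η) ⊆ A) :
    ∃ (S : Finset G) (Q : S → Set ℝ), (∀ i, interior (closure (Q i)) = Q i ∧ Q i ⊆ A) ∧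
      Pairwise (fun i j => Disjoint (Q i) (Q j)) ∧
      Pairwise (fun i j : S => Disjoint ((fun x : ℝ => (i : G) • x) '' (Q i))
        ((fun x : ℝ => (j : G) • x) '' (Q j))) ∧
      interior (closure (⋃ i, Q i)) = A ∧
      interior (closure (⋃ i : S, (fun x : ℝ => (i : G) • x) '' (Q i))) = B := by
  classical
  have hcont := iso_cont hiso
  have hAo := open_of_reg hA
  have hBo := open_of_reg hB
  have hPo : ∀ i, IsOpen (P i) := fun i => open_of_reg (hP i)
  have hU1 : IsOpen (⋃ i, P i) := isOpen_iUnion hPo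
  have hU2 : IsOpen (A ∪ (fun x => x + s) '' A) :=
    hAo.union ((Homeomorph.addRight s).isOpenMap _ hAo)
  have hU3 : IsOpen (⋃ i, (fun x : ℝ => gi i • x) '' P i) :=
    isOpen_iUnion fun i => (hmo hcont (gi i)).isOpenMap _ (hPo i)
  have hU4 : IsOpen (B ∪ (fun x => x + t) '' B) :=
    hBo.union ((Homeomorph.addRight t).isOpenMap _ hBo)
  set C : Set (Set ℝ) := {frontier A, frontier B, frontier (⋃ i, P i),
      frontier (A ∪ (fun x => x + s) '' A), frontier (⋃ i, (fun x : ℝ => gi i • x) '' P i),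
      frontier (B ∪ (fun x => x + t) '' B), {α}} ∪
    (Set.range (fun i => frontier (P i)) ∪ Set.range (fun q : ℚ => ({(q : ℝ)} : Set ℝ))) with hC
  have hCc : C.Countable := by
    rw [hC]
    apply Set.Countable.union
    · exact Set.Finite.countable (Set.toFinite _)
    · exact (Set.countable_range _).union (Set.countable_range _)
  have hsing : ∀ a : ℝ, IsClosed ({a} : Set ℝ) ∧ interior ({a} : Set ℝ) = ∅ :=
    fun a => ⟨isClosed_singleton, interior_singleton a⟩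
  have hC2 : ∀ c ∈ C, IsClosed c ∧ interior c = ∅ := by
    intro c hc
    rw [hC] at hc
    rcases hc with hc | ⟨i, rfl⟩ | ⟨q, rfl⟩
    · simp only [Set.mem_insert_iff, Set.mem_singleton_iff] at hc
      rcases hc with rfl | rfl | rfl | rfl | rfl | rfl | rfl
      · exact frontier_ok hAo
      · exact frontier_ok hBo
      · exact frontier_ok hU1
      · exact frontier_ok hU2
      · exact frontier_ok hU3
      · exact frontier_ok hU4
      · exact hsing _
    · exact frontier_ok (hPo i)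
    · exact hsing _
  have hXd : Dense (Xs G C) := Xs_dense hCc hC2 hiso hf
  have hinv : ∀ (g : G), ∀ x ∈ Xs G C, g • x ∈ Xs G C := fun g x hx => Xs_inv C g x hx
  -- Δ
  obtain ⟨R, hR⟩ := hAb.subset_closedBall (0 : ℝ)
  set K0 : ℤ := ⌈(|α| + R) / t₁ + 1⌉ with hK0
  set Δ0 : Finset G := (Finset.Icc (-K0) K0).image (fun k : ℤ => τ₁ ^ k) ∪
    {1, τ₁, τ₁ * τη⁻¹, τ₂, τ₂ * τη⁻¹} with hΔ0
  set Δ : Finset G := Δ0 ∪ Δ0.image (fun δ => δ⁻¹) with hΔ
  have hΔsub : ∀ δ ∈ Δ0, δ ∈ Δ := fun δ hδ => Finset.mem_union_left _ hδ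
  have hΔsymm : ∀ δ ∈ Δ, δ⁻¹ ∈ Δ := by
    intro δ hδ
    rw [hΔ, Finset.mem_union, Finset.mem_image] at hδ ⊢
    rcases hδ with hδ | ⟨ε, hε, rfl⟩
    · exact Or.inr ⟨δ, hδ, rfl⟩
    · left
      rwa [inv_inv]
  have hΔ1 : (1 : G) ∈ Δ := hΔsub _ (by rw [hΔ0]; simp)
  have hmemC : ∀ c ∈ C, ∀ x ∈ Xs G C, x ∉ c := by
    intro c hc x hx
    have := hx.1 1 c hc
    rwa [one_smul] at this
  have mA : frontier A ∈ C := by rw [hC]; left; simp
  have mB : frontier B ∈ C := by rw [hC]; left; simp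
  have m1 : frontier (⋃ i, P i) ∈ C := by rw [hC]; left; simp
  have m2 : frontier (A ∪ (fun x => x + s) '' A) ∈ C := by
    rw [hC]; left; simp only [Set.mem_insert_iff]; tauto
  have m3 : frontier (⋃ i, (fun x : ℝ => gi i • x) '' P i) ∈ C := by
    rw [hC]; left; simp only [Set.mem_insert_iff]; tauto
  have m4 : frontier (B ∪ (fun x => x + t) '' B) ∈ C := by
    rw [hC]; left; simp only [Set.mem_insert_iff]; tauto
  have m5 : ({α} : Set ℝ) ∈ C := by
    rw [hC]; left; simp only [Set.mem_insert_iff, Set.mem_singleton_iff]; tauto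
  have mP : ∀ i, frontier (P i) ∈ C := by
    intro i
    rw [hC]
    right; left
    exact ⟨i, rfl⟩
  have mq : ∀ q : ℚ, ({(q : ℝ)} : Set ℝ) ∈ C := by
    intro q
    rw [hC]
    right; right
    exact ⟨q, rfl⟩
  have himg : ∀ (i : Fin n) (y : ℝ), y ∈ (fun x : ℝ => gi i • x) '' P i ↔ (gi i)⁻¹ • y ∈ P i := by
    intro i y
    constructor
    · rintro ⟨x, hx, rfl⟩
      simp only
      rwa [inv_smul_smul]
    · intro h
      exact ⟨_, h, smul_inv_smul _ _⟩
  have hPre : Pre (Xs G C) A B (hk σs σt gi) (domk A B P σs σt gi) (fun k => k.2.1)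
      (fun k => k.2.2) Δ := by
    apply pre_of P σs σt gi Δ hinv (fun g x hx => Xs_free C g x hx) hcont
      (fun q hq => hmemC _ (mq q) _ hq rfl) (Xs_tm mA) (Xs_tm mB) (fun i => Xs_tm (mP i))
      ?_ ?_ (uniqU hσs0 hσs1 hs) (uniqU hσt0 hσt1 ht) ?_ ?_ hΔ1 hΔsymm
    · intro y hy
      rw [memU hσs0 hσs1, ← Set.mem_iUnion]
      exact ⟨Xs_mem hU2 hU1 h1.symm m1 hy, Xs_mem hU1 hU2 h1 m2 hy⟩
    · intro y hy
      rw [memU hσt0 hσt1]
      have : (∃ i, (gi i)⁻¹ • y ∈ P i) ↔ y ∈ ⋃ i, (fun x : ℝ => gi i • x) '' P i := by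
        rw [Set.mem_iUnion]
        exact exists_congr fun i => (himg i y).symm
      rw [this]
      exact ⟨Xs_mem hU4 hU3 h2.symm m3 hy, Xs_mem hU3 hU4 h2 m4 hy⟩
    · intro y i j hi hj
      by_contra hij
      exact Set.disjoint_left.mp (hPd hij) hi hj
    · intro y i j hi hj
      by_contra hij
      exact Set.disjoint_left.mp (hQd hij) ((himg i y).mpr hi) ((himg j y).mpr hj)
  have hGeo : Geo (Xs G C) A Δ τ₁ τ₂ τη t₁ t₂ η α := by
    refine ⟨hiso, a1, a2, a3, ht1, ht2, indep, hI0, fun h => hmemC _ m5 _ h rfl,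
      hΔsub _ (by rw [hΔ0]; simp), hΔsub _ (by rw [hΔ0]; simp), hΔsub _ (by rw [hΔ0]; simp),
      hΔsub _ (by rw [hΔ0]; simp), ?_⟩
    intro x _ hxA
    have hxR : |x| ≤ R := by
      have := hR hxA
      rwa [mem_closedBall_zero_iff, Real.norm_eq_abs] at this
    set u := (α - x) / t₁ with hu
    have hu1 : u * t₁ = α - x := by
      rw [hu]
      field_simp [ht1.1.ne']
    have hf1 := Int.floor_le u
    have hf2 := Int.lt_floor_add_one u
    have hub : |u| ≤ (|α| + R) / t₁ := by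
      rw [hu, abs_div, abs_of_pos ht1.1]
      apply div_le_div_of_nonneg_right _ ht1.1.le
      calc |α - x| ≤ |α| + |x| := abs_sub _ _
        _ ≤ |α| + R := by linarith
    have hK0' : (|α| + R) / t₁ + 1 ≤ (K0 : ℝ) := Int.le_ceil _
    refine ⟨τ₁ ^ (⌊u⌋ + 1), hΔsub _ ?_, ?_⟩
    · rw [hΔ0, Finset.mem_union, Finset.mem_image]
      left
      refine ⟨⌊u⌋ + 1, ?_, rfl⟩
      rw [Finset.mem_Icc]
      have hub' := abs_le.mp hub
      constructor
      · have : -(K0 : ℝ) ≤ (⌊u⌋ : ℝ) + 1 := by linarith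
        exact_mod_cast this
      · have : (⌊u⌋ : ℝ) + 1 ≤ K0 := by linarith
        exact_mod_cast this
    · rw [zpow_act a1]
      push_cast
      constructor
      · nlinarith [ht1.1]
      · nlinarith [ht1.1, ht1.2]
  have hSys := sys_gr hPre hGeo
  obtain ⟨J, g, b1, b2, b3, b4, b5, b6, b7⟩ := limit hSys hPre.inv0
  obtain ⟨Q, hQ⟩ := assemble hXd hinv hcont hAo hA hBo hB (Sg (hk σs σt gi) Δ) J g b1 b2 b3 b4 b5
    b6 b7
  exact ⟨_, Q, hQ⟩

end

end Pool.Agent.Helper16.GM
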