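import Pool.Agent.Helper16.GMDecomp
set_option autoImplicit false
set_option linter.unusedSectionVars false

namespace Pool.Agent.Helper16.GM

open Relation

variable {N : Type*} [DecidableEq N] {nb : N → Finset N} {side : N → Bool} {L : Set N}

open Classical in
lemma sum_tau (c : Bool) (D : Finset N) :
    ∑ n ∈ D, tau side L c n = ((D.filter (fun n => n ∈ L ∧ side n = !c)).card : ℤ)
      - ((D.filter (fun n => n ∈ L ∧ side n = c)).card : ℤ) := by
  rw [Finset.card_filter, Finset.card_filter]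
  push_cast
  rw [← Finset.sum_sub_distrib]
  refine Finset.sum_congr rfl fun n _ => ?_
  unfold tau
  by_cases h : n ∈ L
  · cases hs : side n <;> cases c <;> simp [h]
  · simp [h]

/-- A matching of the alive set. -/
structure IsMatch (nb : N → Finset N) (L : Set N) (M : N → N) : Prop where
  mem : ∀ n ∈ L, M n ∈ L
  adj : ∀ n ∈ L, M n ∈ nb n
  inv : ∀ n ∈ L, M (M n) = n

lemma sl_nonneg_of_match (hb : Bip nb side) {M : N → N} (hM : IsMatch nb L M) (c : Bool)
    (D : Finset N) : 0 ≤ sl nb side L c D := by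
  classical
  unfold sl
  rw [sum_tau]
  set P := D.filter (fun n => n ∈ L ∧ side n = c) with hP
  set R := D.filter (fun n => n ∈ L ∧ side n = !c) with hR
  have h1 : (P.filter (fun n => M n ∈ D)).card ≤ R.card := by
    apply Finset.card_le_card_of_injOn M
    · intro n hn
      simp only [P, R, Finset.coe_filter, Finset.mem_filter, Set.mem_ofPred_eq] at hn ⊢
      obtain ⟨⟨h1, h2, h3⟩, h4⟩ := hn
      refine ⟨h4, hM.mem n h2, ?_⟩
      rw [hb _ _ (hM.adj n h2), h3]
    · intro a ha b hb' hab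
      simp only [P, Finset.coe_filter, Finset.mem_filter, Set.mem_ofPred_eq] at ha hb'
      rw [← hM.inv a ha.1.2.1, hab, hM.inv b hb'.1.2.1]
  have h2 : (P.filter (fun n => ¬ M n ∈ D)).card ≤ ecount nb side L c D (↑D)ᶜ := by
    unfold ecount
    rw [Finset.card_eq_sum_ones]
    have hsub : P.filter (fun n => ¬ M n ∈ D) ⊆ D := fun x hx =>
      (Finset.mem_filter.mp (Finset.mem_filter.mp hx).1).1
    refine le_trans ?_ (Finset.sum_le_sum_of_subset hsub)
    refine Finset.sum_le_sum fun n hn => ?_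
    simp only [P, Finset.mem_filter] at hn
    obtain ⟨⟨h1, h2, h3⟩, h4⟩ := hn
    rw [if_pos ⟨h3, h2⟩]
    rw [Nat.succ_le_iff, Finset.card_pos]
    refine ⟨M n, ?_⟩
    rw [mem_filt]
    exact ⟨hM.adj n h2, hM.mem n h2, h4⟩
  have h3 : (P.filter (fun n => M n ∈ D)).card + (P.filter (fun n => ¬ M n ∈ D)).card = P.card :=
    Finset.card_filter_add_card_filter_not _
  have h4 : (P.card : ℤ) ≤ R.card + ecount nb side L c D (↑D)ᶜ := by
    rw [← h3]
    push_cast
    exact_mod_cast add_le_add h1 h2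
  have h5 : (0:ℤ) ≤ ecount nb side L c D (↑D)ᶜ := Int.natCast_nonneg _
  linarith

open Classical in
lemma exists_inj (hb : Bip nb side)
    (hnn : ∀ D c, 0 ≤ sl nb side L c D) (c : Bool) :
    ∃ f : {n : N // n ∈ L ∧ side n = c} → N, Function.Injective f ∧
      ∀ x, f x ∈ (nb x.1).filter (fun m => m ∈ L) := by
  rw [← Finset.all_card_le_biUnion_card_iff_exists_injective]
  intro s
  set F : Finset N := s.map ⟨Subtype.val, Subtype.val_injective⟩ with hF
  set Y : Finset N := s.biUnion (fun x => (nb x.1).filter (fun m => m ∈ L)) with hY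
  have hFm : ∀ n, n ∈ F ↔ ∃ h : n ∈ L ∧ side n = c, (⟨n, h⟩ : {n : N // n ∈ L ∧ side n = c}) ∈ s := by
    intro n
    simp only [F, Finset.mem_map, Function.Embedding.coeFn_mk, Subtype.exists, exists_and_right,
      exists_eq_right]
  have hYm : ∀ m, m ∈ Y ↔ ∃ n ∈ F, m ∈ nb n ∧ m ∈ L := by
    intro m
    simp only [Y, Finset.mem_biUnion, Finset.mem_filter, Subtype.exists]
    constructor
    · rintro ⟨a, h, h1, h2⟩
      exact ⟨a, (hFm a).mpr ⟨h, h1⟩, h2⟩
    · rintro ⟨a, h, h2⟩
      obtain ⟨h3, h4⟩ := (hFm a).mp h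
      exact ⟨a, h3, h4, h2⟩
  have hYs : ∀ m ∈ Y, side m = !c := by
    intro m hm
    obtain ⟨n, hn, h1, _⟩ := (hYm m).mp hm
    obtain ⟨h2, _⟩ := (hFm n).mp hn
    rw [hb _ _ h1, h2.2]
  have h0 := hnn (F ∪ Y) c
  unfold sl at h0
  rw [sum_tau] at h0
  have h1 : (F ∪ Y).filter (fun n => n ∈ L ∧ side n = c) = F := by
    ext n
    simp only [Finset.mem_filter, Finset.mem_union]
    constructor
    · rintro ⟨h | h, h2, h3⟩
      · exact h
      · have := hYs n h
        rw [h3] at this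
        cases c <;> simp at this
    · intro h
      obtain ⟨h2, _⟩ := (hFm n).mp h
      exact ⟨Or.inl h, h2⟩
  have h2 : (F ∪ Y).filter (fun n => n ∈ L ∧ side n = !c) = Y := by
    ext n
    simp only [Finset.mem_filter, Finset.mem_union]
    constructor
    · rintro ⟨h | h, h2, h3⟩
      · obtain ⟨h4, _⟩ := (hFm n).mp h
        rw [h4.2] at h3
        cases c <;> simp at h3
      · exact h
    · intro h
      obtain ⟨_, _, _, h4⟩ := (hYm n).mp h
      exact ⟨Or.inr h, h4, hYs n h⟩
  have h3 : ecount nb side L c (F ∪ Y) (↑(F ∪ Y) : Set N)ᶜ = 0 := by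
    unfold ecount
    refine Finset.sum_eq_zero fun n hn => ?_
    split_ifs with h
    · rw [Finset.card_eq_zero, Finset.eq_empty_iff_forall_notMem]
      intro m hm
      rw [mem_filt] at hm
      obtain ⟨hm, h4, h5⟩ := hm
      apply h5
      have hnF : n ∈ F := by
        rw [← h1, Finset.mem_filter]
        exact ⟨hn, h.2, h.1⟩
      exact Finset.mem_coe.mpr (Finset.mem_union_right _ ((hYm m).mpr ⟨n, hnF, hm, h4⟩))
    · rfl
  rw [h1, h2, h3] at h0
  have h4 : F.card = s.card := by rw [hF, Finset.card_map]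
  rw [← h4]
  have : (F.card : ℤ) ≤ Y.card := by
    push_cast at h0
    linarith
  exact_mod_cast this

theorem exists_match (hs : Sym nb) (hb : Bip nb side) (hnn : ∀ D c, 0 ≤ sl nb side L c D) :
    ∃ M : N → N, IsMatch nb L M := by
  classical
  obtain ⟨f, hf, hf'⟩ := exists_inj hb hnn true
  obtain ⟨g, hg, hg'⟩ := exists_inj hb hnn false
  have hfm : ∀ x, f x ∈ L ∧ side (f x) = false := by
    intro x
    have := Finset.mem_filter.mp (hf' x)
    refine ⟨this.2, ?_⟩
    rw [hb _ _ this.1, x.2.2]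
    rfl
  have hgm : ∀ x, g x ∈ L ∧ side (g x) = true := by
    intro x
    have := Finset.mem_filter.mp (hg' x)
    refine ⟨this.2, ?_⟩
    rw [hb _ _ this.1, x.2.2]
    rfl
  obtain ⟨h, hbij, hR⟩ := Function.Embedding.schroeder_bernstein_of_rel
    (f := fun x => (⟨f x, hfm x⟩ : {n : N // n ∈ L ∧ side n = false}))
    (g := fun x => (⟨g x, hgm x⟩ : {n : N // n ∈ L ∧ side n = true}))
    (fun a b hab => hf (by simpa using hab)) (fun a b hab => hg (by simpa using hab))
    (fun a b => b.1 ∈ nb a.1)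
    (fun a => (Finset.mem_filter.mp (hf' a)).1)
    (fun b => hs _ _ (Finset.mem_filter.mp (hg' b)).1)
  set e := Equiv.ofBijective h hbij with he
  set M : N → N := fun n => if hn : n ∈ L ∧ side n = true then (e ⟨n, hn⟩).1 else
    if hn' : n ∈ L ∧ side n = false then (e.symm ⟨n, hn'⟩).1 else n with hM
  have hM1 : ∀ n (hn : n ∈ L ∧ side n = true), M n = (e ⟨n, hn⟩).1 := fun n hn => dif_pos hn
  have hM2 : ∀ n (hn : n ∈ L ∧ side n = false), M n = (e.symm ⟨n, hn⟩).1 := by
    intro n hn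
    have : ¬ (n ∈ L ∧ side n = true) := by
      rw [hn.2]
      simp
    simp only [hM]
    rw [dif_neg this, dif_pos hn]
  have hcase : ∀ n ∈ L, (n ∈ L ∧ side n = true) ∨ (n ∈ L ∧ side n = false) := by
    intro n hn
    cases side n <;> simp [hn]
  refine ⟨M, ?_, ?_, ?_⟩
  · intro n hn
    rcases hcase n hn with h1 | h1
    · rw [hM1 n h1]
      exact (e ⟨n, h1⟩).2.1
    · rw [hM2 n h1]
      exact (e.symm ⟨n, h1⟩).2.1
  · intro n hn
    rcases hcase n hn with h1 | h1
    · rw [hM1 n h1]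
      exact hR ⟨n, h1⟩
    · rw [hM2 n h1]
      have := hR (e.symm ⟨n, h1⟩)
      have h2 : h (e.symm ⟨n, h1⟩) = ⟨n, h1⟩ := e.apply_symm_apply _
      rw [h2] at this
      exact hs _ _ this
  · intro n hn
    rcases hcase n hn with h1 | h1
    · rw [hM1 n h1, hM2 _ (e ⟨n, h1⟩).2]
      simp
    · rw [hM2 n h1, hM1 _ (e.symm ⟨n, h1⟩).2]
      simp

end Pool.Agent.Helper16.GM
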