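import Pool.Agent.Helper16.GMGraph
set_option autoImplicit false
set_option linter.unusedSectionVars false

namespace Pool.Agent.Helper16.GM

open Relation

variable {N : Type*} [DecidableEq N]

/-- Outgoing boundary edges from side `c`. -/
def Eo (nb : N → Finset N) (side : N → Bool) (D : Finset N) (c : Bool) : Finset (N × N) :=
  (D.filter (fun n => side n = c)).biUnion
    (fun n => ((nb n).filter (fun m => m ∉ D)).image (fun m => (n, m)))

lemma mem_Eo {nb : N → Finset N} {side : N → Bool} {D : Finset N} {c : Bool} {e : N × N} :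
    e ∈ Eo nb side D c ↔ e.1 ∈ D ∧ side e.1 = c ∧ e.2 ∈ nb e.1 ∧ e.2 ∉ D := by
  unfold Eo
  simp only [Finset.mem_biUnion, Finset.mem_filter, Finset.mem_image]
  constructor
  · rintro ⟨n, ⟨h1, h2⟩, m, ⟨h3, h4⟩, rfl⟩
    exact ⟨h1, h2, h3, h4⟩
  · rintro ⟨h1, h2, h3, h4⟩
    exact ⟨e.1, ⟨h1, h2⟩, e.2, ⟨h3, h4⟩, rfl⟩

lemma card_Eo (nb : N → Finset N) (side : N → Bool) (D : Finset N) (c : Bool) :
    (Eo nb side D c).card
      = ∑ n ∈ D.filter (fun n => side n = c), ((nb n).filter (fun m => m ∉ D)).card := by
  unfold Eo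
  rw [Finset.card_biUnion]
  · refine Finset.sum_congr rfl fun n _ => ?_
    exact Finset.card_image_of_injective _ (fun a b h => (Prod.mk.inj h).2)
  · intro a _ b _ hab
    rw [Function.onFun, Finset.disjoint_left]
    intro e h1 h2
    obtain ⟨m, _, rfl⟩ := Finset.mem_image.mp h1
    obtain ⟨m', _, h⟩ := Finset.mem_image.mp h2
    exact hab (Prod.mk.inj h).1.symm

lemma bd_eq (nb : N → Finset N) (side : N → Bool) (D : Finset N) :
    bd nb D = (Eo nb side D true).card + (Eo nb side D false).card := by
  rw [card_Eo, card_Eo]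
  unfold bd
  have h := Finset.sum_filter_add_sum_filter_not D (fun n => side n = true)
    (fun n => ((nb n).filter (fun m => m ∉ D)).card)
  have h2 : D.filter (fun n => ¬ side n = true) = D.filter (fun n => side n = false) := by
    apply Finset.filter_congr
    intro n _
    simp
  rw [h2] at h
  rw [h]

lemma bd_eq' (nb : N → Finset N) (side : N → Bool) (D : Finset N) (c : Bool) :
    bd nb D = (Eo nb side D c).card + (Eo nb side D (!c)).card := by
  rw [bd_eq nb side]
  cases c
  · simp [add_comm]
  · simp

lemma ecount_eq {nb : N → Finset N} {side : N → Bool} {L : Set N}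
    (hL : ∀ n, ∀ m ∈ nb n, n ∈ L ∧ m ∈ L) (D : Finset N) (c : Bool) :
    ecount nb side L c D (↑D)ᶜ = (Eo nb side D c).card := by
  classical
  rw [card_Eo]
  unfold ecount
  rw [Finset.sum_filter]
  refine Finset.sum_congr rfl fun n _ => ?_
  by_cases h : side n = c
  · rw [if_pos h]
    by_cases hn : n ∈ L
    · rw [if_pos ⟨h, hn⟩]
      congr 1
      ext m
      simp only [Finset.mem_filter, Set.mem_compl_iff, Finset.mem_coe]
      constructor
      · rintro ⟨h1, h2, h3⟩
        exact ⟨h1, h3⟩
      · rintro ⟨h1, h3⟩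
        exact ⟨h1, (hL n m h1).2, h3⟩
    · rw [if_neg (fun h' => hn h'.2)]
      symm
      rw [Finset.card_eq_zero]
      ext m
      simp only [Finset.mem_filter, Finset.notMem_empty, iff_false]
      rintro ⟨h1, _⟩
      exact hn (hL n m h1).1
  · rw [if_neg h, if_neg (fun h' => h h'.1)]

open Classical in
/-- The slack inequality. -/
theorem slack {nb : N → Finset N} {side : N → Bool} {L : Set N} (hs : Sym nb) (hb : Bip nb side)
    (hL : ∀ n, ∀ m ∈ nb n, n ∈ L ∧ m ∈ L)
    (θ : N × Bool → N × Bool)
    (hθ : ∀ p : N × Bool, p.1 ∈ L → (θ p).1 ∈ nb p.1)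
    (hθθ : ∀ p : N × Bool, p.1 ∈ L → θ (θ p) = p)
    (W : N → Finset N) (w d : ℕ) (hW : ∀ n, (W n).card ≤ w) (hd : ∀ n, (nb n).card ≤ d)
    (hWW : ∀ a, a ∈ L → side a = true → a ∈ W a)
    (key : ∀ a b, side a = true → b ∈ nb a → ∃ a', a' ∈ L ∧ a ∈ W a' ∧
      (∃ c, (θ (a', c)).1 = b) ∧ (θ (a, false)).1 ∈ nb a')
    (D : Finset N) (c : Bool) :
    (bd nb D : ℤ) ≤ ((2 * (1 + w * d) : ℕ) : ℤ) * sl nb side L c D := by
  -- theta edges and theta darts
  set Go : Bool → Finset (N × N) := fun c =>
    (Eo nb side D c).filter (fun e => ∃ c', (θ (e.1, c')).1 = e.2) with hGo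
  set Dc : Bool → Finset N := fun c => D.filter (fun n => side n = c ∧ n ∈ L) with hDc
  set Mo : Bool → Finset (N × Bool) := fun c =>
    ((Dc c) ×ˢ Finset.univ).filter (fun p => (θ p).1 ∉ D) with hMo
  set Mi : Bool → Finset (N × Bool) := fun c =>
    ((Dc c) ×ˢ Finset.univ).filter (fun p => (θ p).1 ∈ D) with hMi
  have h1 : ∀ c, (Go c).card ≤ (Mo c).card := by
    intro c
    have hsub : Go c ⊆ (Mo c).image (fun p => (p.1, (θ p).1)) := by
      intro e he
      simp only [hGo, Finset.mem_filter] at he
      obtain ⟨he1, c', hc'⟩ := he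
      rw [mem_Eo] at he1
      rw [Finset.mem_image]
      refine ⟨(e.1, c'), ?_, ?_⟩
      · simp only [hMo, hDc, Finset.mem_filter, Finset.mem_product, Finset.mem_univ, and_true]
        refine ⟨⟨he1.1, he1.2.1, (hL _ _ he1.2.2.1).1⟩, ?_⟩
        rw [hc']
        exact he1.2.2.2
      · simp only
        rw [hc']
    exact (Finset.card_le_card hsub).trans Finset.card_image_le
  have h2 : ∀ c, (Mo c).card ≤ (Eo nb side D c).card * 2 := by
    intro c
    have hsub : Mo c ⊆ ((Eo nb side D c) ×ˢ (Finset.univ : Finset Bool)).image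
        (fun q => (q.1.1, q.2)) := by
      intro p hp
      simp only [hMo, hDc, Finset.mem_filter, Finset.mem_product, Finset.mem_univ, and_true] at hp
      obtain ⟨⟨h1, h2, h3⟩, h4⟩ := hp
      rw [Finset.mem_image]
      refine ⟨((p.1, (θ p).1), p.2), ?_, rfl⟩
      rw [Finset.mem_product]
      refine ⟨?_, Finset.mem_univ _⟩
      rw [mem_Eo]
      exact ⟨h1, h2, hθ p h3, h4⟩
    refine (Finset.card_le_card hsub).trans (Finset.card_image_le.trans ?_)
    rw [Finset.card_product]
    simp
  have h3 : ∀ c, (Dc c).card * 2 = (Mo c).card + (Mi c).card := by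
    intro c
    have := Finset.card_filter_add_card_filter_not (s := (Dc c) ×ˢ (Finset.univ : Finset Bool))
      (fun p => (θ p).1 ∈ D)
    rw [Finset.card_product] at this
    have e2 : (Finset.univ : Finset Bool).card = 2 := by simp
    rw [e2] at this
    rw [← this]
    simp only [hMo, hMi]
    rw [add_comm]
  have h4 : ∀ c, (Mi c).card ≤ (Mi (!c)).card := by
    intro c
    refine Finset.card_le_card_of_injOn θ ?_ ?_
    · intro p hp
      simp only [hMi, hDc, Finset.coe_filter, Finset.mem_product, Finset.mem_univ, and_true,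
        Set.mem_ofPred_eq, Finset.mem_filter] at hp ⊢
      obtain ⟨⟨h1, h2, h3⟩, h4⟩ := hp
      have h5 := hθ p h3
      refine ⟨⟨h4, ?_, (hL _ _ h5).2⟩, ?_⟩
      · rw [hb _ _ h5, h2]
      · rw [hθθ p h3]
        exact h1
    · intro p hp q hq hpq
      simp only [hMi, hDc, Finset.coe_filter, Finset.mem_product, Finset.mem_univ, and_true,
        Set.mem_ofPred_eq, Finset.mem_filter] at hp hq
      rw [← hθθ p hp.1.2.2, ← hθθ q hq.1.2.2, hpq]
  have h4' : ∀ c, (Mi c).card = (Mi (!c)).card := by
    intro c
    apply le_antisymm (h4 c)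
    have := h4 (!c)
    rwa [Bool.not_not] at this
  -- the sum of the weights
  have h5 : ∀ c, ∑ n ∈ D, tau side L c n = ((Dc (!c)).card : ℤ) - (Dc c).card := by
    intro c
    simp only [hDc]
    rw [Finset.card_filter, Finset.card_filter]
    push_cast
    rw [← Finset.sum_sub_distrib]
    refine Finset.sum_congr rfl fun n _ => ?_
    unfold tau
    by_cases h : n ∈ L
    · cases hsn : side n <;> cases c <;> simp [h]
    · simp [h]
  have h6 : 2 * sl nb side L c D ≥ (Go (!c)).card + 2 * (Eo nb side D c).card := by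
    unfold sl
    rw [ecount_eq hL, h5 c]
    have e1 := h3 c
    have e2 := h3 (!c)
    have e3 := h4' c
    have e4 := h1 (!c)
    have e5 := h2 c
    omega
  -- the charging
  have h7 : (Eo nb side D (!c)).card ≤ (w * d) * ((Go (!c)).card + (Eo nb side D c).card) := by
    -- targets
    set T : Finset N := ((Go (!c)).image (fun e => if c then e.2 else e.1)) ∪
      ((Eo nb side D c).image (fun e => if c then e.1 else e.2)) with hT
    set F : N → Finset (N × N) := fun α => (W α).biUnion
      (fun a => (nb a).image (fun b => if c then (b, a) else (a, b))) with hF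
    have hTc : T.card ≤ (Go (!c)).card + (Eo nb side D c).card :=
      (Finset.card_union_le _ _).trans (add_le_add Finset.card_image_le Finset.card_image_le)
    have hFc : ∀ α, (F α).card ≤ w * d := by
      intro α
      refine (Finset.card_biUnion_le_card_mul _ _ d ?_).trans (Nat.mul_le_mul_right _ (hW α))
      intro a _
      exact Finset.card_image_le.trans (hd a)
    have hsub : Eo nb side D (!c) ⊆ T.biUnion F := by
      intro e he
      rw [mem_Eo] at he
      obtain ⟨he1, he2, he3, he4⟩ := he
      have hθdart : ∀ a c₁, a ∈ L → (θ (a, c₁)).1 ∈ nb a ∧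
          ∃ c₂, (θ ((θ (a, c₁)).1, c₂)).1 = a := by
        intro a c₁ ha
        refine ⟨hθ (a, c₁) ha, (θ (a, c₁)).2, ?_⟩
        rw [Prod.mk.eta, hθθ (a, c₁) ha]
      cases c with
      | true =>
        simp only [Bool.not_true] at he2 hT
        have hsa : side e.2 = true := by
          rw [hb _ _ he3, he2]
          rfl
        have hbnb : e.1 ∈ nb e.2 := hs _ _ he3
        have haL : e.2 ∈ L := (hL _ _ he3).2
        obtain ⟨a', ha'L, haW, ⟨c₁, hc₁⟩, hb'⟩ := key e.2 e.1 hsa hbnb
        have hd1 := hθdart a' c₁ ha'L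
        rw [hc₁] at hd1
        obtain ⟨hd1, c₂, hc₂⟩ := hd1
        have hsa' : side a' = true := by
          have := hb _ _ hd1
          rw [he2] at this
          cases hh : side a'
          · rw [hh] at this
            simp at this
          · rfl
        have hd2 := hθdart e.2 false haL
        set b' := (θ (e.2, false)).1 with hb'def
        have hsb' : side b' = false := by
          rw [hb _ _ hb', hsa']
          rfl
        rw [Finset.mem_biUnion]
        have goal2 : ∀ α, e.2 ∈ W α → e ∈ F α := by
          intro α hα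
          rw [hF, Finset.mem_biUnion]
          refine ⟨e.2, hα, ?_⟩
          rw [Finset.mem_image]
          exact ⟨e.1, hbnb, by simp⟩
        by_cases ha' : a' ∈ D
        · by_cases hb'D : b' ∈ D
          · refine ⟨e.2, ?_, goal2 _ (hWW _ haL hsa)⟩
            rw [hT, Finset.mem_union, Finset.mem_image]
            left
            refine ⟨(b', e.2), ?_, by simp⟩
            simp only [hGo, Finset.mem_filter, mem_Eo]
            exact ⟨⟨hb'D, hsb', hs _ _ hd2.1, he4⟩, hd2.2⟩
          · refine ⟨a', ?_, goal2 _ haW⟩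
            rw [hT, Finset.mem_union, Finset.mem_image, Finset.mem_image]
            right
            refine ⟨(a', b'), ?_, by simp⟩
            rw [mem_Eo]
            exact ⟨ha', hsa', hb', hb'D⟩
        · refine ⟨a', ?_, goal2 _ haW⟩
          rw [hT, Finset.mem_union, Finset.mem_image]
          left
          refine ⟨(e.1, a'), ?_, by simp⟩
          simp only [hGo, Finset.mem_filter, mem_Eo]
          exact ⟨⟨he1, he2, hs _ _ hd1, ha'⟩, ⟨c₂, hc₂⟩⟩
      | false =>
        simp only [Bool.not_false] at he2 hT
        have haL : e.1 ∈ L := (hL _ _ he3).1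
        obtain ⟨a', ha'L, haW, ⟨c₁, hc₁⟩, hb'⟩ := key e.1 e.2 he2 he3
        have hd1 := hθdart a' c₁ ha'L
        rw [hc₁] at hd1
        obtain ⟨hd1, c₂, hc₂⟩ := hd1
        have hsb : side e.2 = false := by
          rw [hb _ _ he3, he2]
          rfl
        have hsa' : side a' = true := by
          have := hb _ _ hd1
          rw [hsb] at this
          cases hh : side a'
          · rw [hh] at this
            simp at this
          · rfl
        have hd2 := hθdart e.1 false haL
        set b' := (θ (e.1, false)).1 with hb'def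
        have hsb' : side b' = false := by
          rw [hb _ _ hb', hsa']
          rfl
        rw [Finset.mem_biUnion]
        have goal2 : ∀ α, e.1 ∈ W α → e ∈ F α := by
          intro α hα
          rw [hF, Finset.mem_biUnion]
          refine ⟨e.1, hα, ?_⟩
          rw [Finset.mem_image]
          exact ⟨e.2, he3, by simp⟩
        by_cases ha' : a' ∈ D
        · refine ⟨a', ?_, goal2 _ haW⟩
          rw [hT, Finset.mem_union, Finset.mem_image]
          left
          refine ⟨(a', e.2), ?_, by simp⟩
          simp only [hGo, Finset.mem_filter, mem_Eo]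
          exact ⟨⟨ha', hsa', hd1, he4⟩, ⟨c₁, hc₁⟩⟩
        · by_cases hb'D : b' ∈ D
          · refine ⟨a', ?_, goal2 _ haW⟩
            rw [hT, Finset.mem_union, Finset.mem_image, Finset.mem_image]
            right
            refine ⟨(b', a'), ?_, by simp⟩
            rw [mem_Eo]
            exact ⟨hb'D, hsb', hs _ _ hb', ha'⟩
          · refine ⟨e.1, ?_, goal2 _ (hWW _ haL he2)⟩
            rw [hT, Finset.mem_union, Finset.mem_image]
            left
            refine ⟨(e.1, b'), ?_, by simp⟩
            simp only [hGo, Finset.mem_filter, mem_Eo]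
            exact ⟨⟨he1, he2, hd2.1, hb'D⟩, ⟨false, rfl⟩⟩
    calc (Eo nb side D (!c)).card ≤ (T.biUnion F).card := Finset.card_le_card hsub
      _ ≤ T.card * (w * d) := Finset.card_biUnion_le_card_mul _ _ _ (fun α _ => hFc α)
      _ ≤ ((Go (!c)).card + (Eo nb side D c).card) * (w * d) := Nat.mul_le_mul_right _ hTc
      _ = (w * d) * ((Go (!c)).card + (Eo nb side D c).card) := mul_comm _ _
  have h8 := bd_eq' nb side D c
  have h9 : bd nb D ≤ (1 + w * d) * ((Go (!c)).card + 2 * (Eo nb side D c).card) := by
    rw [h8]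
    calc (Eo nb side D c).card + (Eo nb side D (!c)).card
        ≤ (Eo nb side D c).card + (w * d) * ((Go (!c)).card + (Eo nb side D c).card) := by omega
      _ ≤ ((Go (!c)).card + 2 * (Eo nb side D c).card)
          + (w * d) * ((Go (!c)).card + 2 * (Eo nb side D c).card) := by
          apply add_le_add
          · omega
          · apply Nat.mul_le_mul_left
            omega
      _ = (1 + w * d) * ((Go (!c)).card + 2 * (Eo nb side D c).card) := by ring
  have h10 : (bd nb D : ℤ) ≤ ((1 + w * d : ℕ) : ℤ) * (((Go (!c)).card + 2 * (Eo nb side D c).card : ℕ) : ℤ) := by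
    exact_mod_cast h9
  calc (bd nb D : ℤ) ≤ ((1 + w * d : ℕ) : ℤ) * (((Go (!c)).card + 2 * (Eo nb side D c).card : ℕ) : ℤ) := h10
    _ ≤ ((1 + w * d : ℕ) : ℤ) * (2 * sl nb side L c D) := by
        apply mul_le_mul_of_nonneg_left
        · push_cast
          linarith
        · positivity
    _ = ((2 * (1 + w * d) : ℕ) : ℤ) * sl nb side L c D := by
        push_cast
        ring

end Pool.Agent.Helper16.GM
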