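import Pool.Agent.Helper16.GMSys
import Pool.Agent.Helper16.GMSlack
set_option autoImplicit false
set_option linter.unusedSectionVars false

namespace Pool.Agent.Helper16.GM

open Relation Filter Topology

variable {G : Type*} [Group G] [MulAction G ℝ] [DecidableEq G]
variable {κ : Type*} [Fintype κ]

/-- Sets whose membership is locally constant on `X`. -/
def Tm (X U : Set ℝ) : Prop := ∀ x ∈ X, ∀ᶠ y in 𝓝[X] x, (y ∈ U ↔ x ∈ U)

/-- The combinatorial data of a double equidecomposition. -/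
structure Pre (X A B : Set ℝ) (h : κ → G) (dom : κ → Set ℝ) (cl cr : κ → Bool)
    (Δ : Finset G) : Prop where
  inv : ∀ (g : G), ∀ x ∈ X, g • x ∈ X
  free : ∀ (g : G), ∀ x ∈ X, g • x = x → g = 1
  cont : ∀ g : G, Continuous (fun x : ℝ => g • x)
  irr : ∀ q : ℚ, (q : ℝ) ∉ X
  tA : Tm X A
  tB : Tm X B
  tdom : ∀ k, Tm X (dom k)
  dA : ∀ k, ∀ x ∈ X, x ∈ dom k → x ∈ A ∧ h k • x ∈ B
  D1 : ∀ x ∈ X, x ∈ A → ∀ c, ∃! k, cl k = c ∧ x ∈ dom k
  D3 : ∀ x ∈ X, x ∈ B → ∀ c, ∃! k, cr k = c ∧ (h k)⁻¹ • x ∈ dom k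
  one : (1 : G) ∈ Δ
  symm : ∀ δ ∈ Δ, δ⁻¹ ∈ Δ

/-- The edge relation. -/
def Edg (A : Set ℝ) (h : κ → G) (dom : κ → Set ℝ) (Δ : Finset G) (a b : ℝ) : Prop :=
  ∃ δ ∈ Δ, ∃ k, a ∈ A ∧ δ • a ∈ A ∧ δ • a ∈ dom k ∧ b = (h k * δ) • a

/-- The set of possible moves. -/
def Sg (h : κ → G) (Δ : Finset G) : Finset G :=
  (Finset.univ ×ˢ Δ).image (fun p => h p.1 * p.2)

variable {X A B : Set ℝ} {h : κ → G} {dom : κ → Set ℝ} {cl cr : κ → Bool} {Δ : Finset G}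

/-- The graph at `x`. -/
noncomputable abbrev gr (A : Set ℝ) (h : κ → G) (dom : κ → Set ℝ) (Δ : Finset G) (x : ℝ) :
    G × Bool → Finset (G × Bool) := nbx (Edg A h dom Δ) (Sg h Δ) x

lemma mem_Sg {g : G} : g ∈ Sg h Δ ↔ ∃ k, ∃ δ ∈ Δ, g = h k * δ := by
  unfold Sg
  simp only [Finset.mem_image, Finset.mem_product, Finset.mem_univ, true_and, Prod.exists]
  constructor
  · rintro ⟨k, δ, hδ, rfl⟩
    exact ⟨k, δ, hδ, rfl⟩
  · rintro ⟨k, δ, hδ, rfl⟩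
    exact ⟨k, δ, hδ, rfl⟩

namespace Pre

variable (hP : Pre X A B h dom cl cr Δ)

include hP

lemma eq_of_smul {x : ℝ} (hx : x ∈ X) {g g' : G} (hgg : g • x = g' • x) : g = g' := by
  have h1 : (g'⁻¹ * g) • x = x := by
    rw [mul_smul, hgg, inv_smul_smul]
  have h2 := hP.free _ x hx h1
  rwa [inv_mul_eq_one, eq_comm] at h2

lemma mem_gr {x : ℝ} (hx : x ∈ X) {γ γ' : G} :
    (γ', false) ∈ gr A h dom Δ x (γ, true) ↔
      ∃ δ ∈ Δ, ∃ k, γ • x ∈ A ∧ (δ * γ) • x ∈ A ∧ (δ * γ) • x ∈ dom k ∧ γ' = h k * δ * γ := by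
  rw [gr, mem_nbx_true]
  constructor
  · rintro ⟨g, hg, ⟨δ, hδ, k, h1, h2, h3, h4⟩, h5⟩
    refine ⟨δ, hδ, k, h1, by rwa [mul_smul], by rwa [mul_smul], ?_⟩
    have h6 : γ' = g * γ := (Prod.mk.inj h5).1
    have h7 : (g * γ) • x = (h k * δ * γ) • x := by
      rw [h4, mul_smul (h k * δ) γ x]
    rw [h6]
    exact hP.eq_of_smul hx h7
  · rintro ⟨δ, hδ, k, h1, h2, h3, h4⟩
    refine ⟨h k * δ, mem_Sg.mpr ⟨k, δ, hδ, rfl⟩, ⟨δ, hδ, k, h1, by rwa [← mul_smul],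
      by rwa [← mul_smul], ?_⟩, by rw [h4]⟩
    rw [mul_smul (h k * δ) γ x]

lemma gr_live {x : ℝ} (hx : x ∈ X) (n : G × Bool) : ∀ m ∈ gr A h dom Δ x n,
    n ∈ live A B x ∧ m ∈ live A B x := by
  have key : ∀ γ γ' : G, (γ', false) ∈ gr A h dom Δ x (γ, true) →
      ((γ, true) : G × Bool) ∈ live A B x ∧ ((γ', false) : G × Bool) ∈ live A B x := by
    intro γ γ' hm
    obtain ⟨δ, hδ, k, h1, h2, h3, h4⟩ := (hP.mem_gr hx).mp hm
    rw [mem_live_true, mem_live_false]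
    refine ⟨h1, ?_⟩
    have h5 := (hP.dA k _ (hP.inv _ _ hx) h3).2
    rw [← mul_smul, ← mul_assoc] at h5
    rwa [h4]
  intro m hm
  have h1 := nbx_bip (Edge := Edg A h dom Δ) (S := Sg h Δ) x n m hm
  have h2 := nbx_sym (Edge := Edg A h dom Δ) (S := Sg h Δ) x n m hm
  obtain ⟨γ, c⟩ := n
  obtain ⟨γ', c'⟩ := m
  cases c
  · simp only [Bool.not_false] at h1
    subst h1
    exact (key _ _ h2).symm
  · simp only [Bool.not_true] at h1
    subst h1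
    exact key _ _ hm

lemma exists_theta {x : ℝ} (hx : x ∈ X) : ∃ θ : (G × Bool) × Bool → (G × Bool) × Bool,
    (∀ γ c k, γ • x ∈ dom k → cl k = c → θ ((γ, true), c) = ((h k * γ, false), cr k)) ∧
    (∀ γ c k, ((h k)⁻¹ * γ) • x ∈ dom k → cr k = c →
      θ ((γ, false), c) = (((h k)⁻¹ * γ, true), cl k)) := by
  classical
  have hex : ∀ p : (G × Bool) × Bool, ∃ q : (G × Bool) × Bool,
      (∀ γ c k, p = ((γ, true), c) → γ • x ∈ dom k → cl k = c → q = ((h k * γ, false), cr k)) ∧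
      (∀ γ c k, p = ((γ, false), c) → ((h k)⁻¹ * γ) • x ∈ dom k → cr k = c →
        q = (((h k)⁻¹ * γ, true), cl k)) := by
    rintro ⟨⟨γ, b⟩, c⟩
    cases b
    · by_cases hB : γ • x ∈ B
      · obtain ⟨k, ⟨hk1, hk2⟩, hk3⟩ := hP.D3 _ (hP.inv γ x hx) hB c
        refine ⟨(((h k)⁻¹ * γ, true), cl k), ?_, ?_⟩
        · intro γ' c' k' he
          simp at he
        · intro γ' c' k' he h1 h2
          simp only [Prod.mk.injEq, and_true] at he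
          obtain ⟨rfl, rfl⟩ := he
          have := hk3 k' ⟨h2, by rwa [← mul_smul]⟩
          rw [this]
      · refine ⟨((γ, false), c), ?_, ?_⟩
        · intro γ' c' k' he
          simp at he
        · intro γ' c' k' he h1 h2
          simp only [Prod.mk.injEq, and_true] at he
          obtain ⟨rfl, rfl⟩ := he
          have := (hP.dA k' _ (hP.inv _ x hx) h1).2
          rw [← mul_smul, mul_inv_cancel_left] at this
          exact absurd this hB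
    · by_cases hA : γ • x ∈ A
      · obtain ⟨k, ⟨hk1, hk2⟩, hk3⟩ := hP.D1 _ (hP.inv γ x hx) hA c
        refine ⟨((h k * γ, false), cr k), ?_, ?_⟩
        · intro γ' c' k' he h1 h2
          simp only [Prod.mk.injEq, and_true] at he
          obtain ⟨rfl, rfl⟩ := he
          have := hk3 k' ⟨h2, h1⟩
          rw [this]
        · intro γ' c' k' he
          simp at he
      · refine ⟨((γ, false), c), ?_, ?_⟩
        · intro γ' c' k' he h1 h2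
          simp only [Prod.mk.injEq, and_true] at he
          obtain ⟨rfl, rfl⟩ := he
          exact absurd (hP.dA k' _ (hP.inv _ x hx) h1).1 hA
        · intro γ' c' k' he
          simp at he
  choose θ hθ using hex
  exact ⟨θ, fun γ c k h1 h2 => (hθ _).1 γ c k rfl h1 h2, fun γ c k h1 h2 => (hθ _).2 γ c k rfl h1 h2⟩

/-- Uniform slack. -/
theorem slack_gr : ∃ K : ℕ, 1 ≤ K ∧ ∀ x ∈ X, ∀ (D : Finset (G × Bool)) (c : Bool),
    (bd (gr A h dom Δ x) D : ℤ) ≤ (K : ℤ) * sl (gr A h dom Δ x) Prod.snd (live A B x) c D := by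
  classical
  refine ⟨2 * (1 + Δ.card * (Sg h Δ).card), by omega, ?_⟩
  intro x hx D c
  obtain ⟨θ, hθ1, hθ2⟩ := hP.exists_theta hx
  have hex1 : ∀ γ : G, γ • x ∈ A → ∀ c, ∃ k, γ • x ∈ dom k ∧ cl k = c ∧
      θ ((γ, true), c) = ((h k * γ, false), cr k) := by
    intro γ hA c
    obtain ⟨k, ⟨hk1, hk2⟩, hk3⟩ := hP.D1 _ (hP.inv γ x hx) hA c
    exact ⟨k, hk2, hk1, hθ1 γ c k hk2 hk1⟩
  have hex2 : ∀ γ : G, γ • x ∈ B → ∀ c, ∃ k, ((h k)⁻¹ * γ) • x ∈ dom k ∧ cr k = c ∧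
      θ ((γ, false), c) = (((h k)⁻¹ * γ, true), cl k) := by
    intro γ hB c
    obtain ⟨k, ⟨hk1, hk2⟩, hk3⟩ := hP.D3 _ (hP.inv γ x hx) hB c
    rw [← mul_smul] at hk2
    exact ⟨k, hk2, hk1, hθ2 γ c k hk2 hk1⟩
  have hs := nbx_sym (Edge := Edg A h dom Δ) (S := Sg h Δ) x
  have hnb1 : ∀ γ : G, ∀ k, γ • x ∈ dom k →
      (h k * γ, false) ∈ gr A h dom Δ x (γ, true) := by
    intro γ k hk
    have hA := (hP.dA k _ (hP.inv _ x hx) hk).1
    rw [hP.mem_gr hx]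
    exact ⟨1, hP.one, k, hA, by rwa [one_mul], by rwa [one_mul], by rw [mul_one]⟩
  apply slack hs (nbx_bip x) (hP.gr_live hx) θ
    (W := fun n => Δ.image (fun δ => (δ * n.1, n.2)))
  · rintro ⟨⟨γ, b⟩, c⟩ hp
    cases b
    · rw [mem_live_false] at hp
      obtain ⟨k, hk1, hk2, hk3⟩ := hex2 γ hp c
      rw [hk3]
      apply hs
      have := hnb1 _ k hk1
      rwa [mul_inv_cancel_left] at this
    · rw [mem_live_true] at hp
      obtain ⟨k, hk1, hk2, hk3⟩ := hex1 γ hp c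
      rw [hk3]
      exact hnb1 _ k hk1
  · rintro ⟨⟨γ, b⟩, c⟩ hp
    cases b
    · rw [mem_live_false] at hp
      obtain ⟨k, hk1, hk2, hk3⟩ := hex2 γ hp c
      rw [hk3, hθ1 _ _ k hk1 rfl, hk2, mul_inv_cancel_left]
    · rw [mem_live_true] at hp
      obtain ⟨k, hk1, hk2, hk3⟩ := hex1 γ hp c
      rw [hk3, hθ2 _ _ k (by rwa [inv_mul_cancel_left]) rfl, hk2, inv_mul_cancel_left]
  · intro n
    exact Finset.card_image_le
  · intro n
    exact nbx_card x n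
  · intro a _ _
    rw [Finset.mem_image]
    exact ⟨1, hP.one, by simp⟩
  · rintro ⟨γ, b⟩ ⟨γ', b'⟩ ha hb
    simp only at ha
    subst ha
    have hb' := nbx_bip (Edge := Edg A h dom Δ) (S := Sg h Δ) x _ _ hb
    simp only [Bool.not_true] at hb'
    subst hb'
    obtain ⟨δ, hδ, k, h1, h2, h3, h4⟩ := (hP.mem_gr hx).mp hb
    refine ⟨(δ * γ, true), ?_, ?_, ⟨cl k, ?_⟩, ?_⟩
    · rw [mem_live_true]
      exact h2
    · rw [Finset.mem_image]
      exact ⟨δ⁻¹, hP.symm δ hδ, by simp⟩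
    · rw [hθ1 _ _ k h3 rfl, h4, mul_assoc]
    · obtain ⟨k', hk1, hk2, hk3⟩ := hex1 γ h1 false
      rw [hk3, hP.mem_gr hx]
      exact ⟨δ⁻¹, hP.symm δ hδ, k', h2, by rwa [inv_mul_cancel_left], by rwa [inv_mul_cancel_left],
        by group⟩

/-- Alive names have neighbours. -/
lemma gr_nonempty {x : ℝ} (hx : x ∈ X) (n : G × Bool) (hn : n ∈ live A B x) :
    (gr A h dom Δ x n).Nonempty := by
  have hnb1 : ∀ γ : G, ∀ k, γ • x ∈ dom k →
      (h k * γ, false) ∈ gr A h dom Δ x (γ, true) := by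
    intro γ k hk
    have hA := (hP.dA k _ (hP.inv _ x hx) hk).1
    rw [hP.mem_gr hx]
    exact ⟨1, hP.one, k, hA, by rwa [one_mul], by rwa [one_mul], by rw [mul_one]⟩
  obtain ⟨γ, b⟩ := n
  cases b
  · rw [mem_live_false] at hn
    obtain ⟨k, ⟨hk1, hk2⟩, hk3⟩ := hP.D3 _ (hP.inv γ x hx) hn true
    refine ⟨((h k)⁻¹ * γ, true), nbx_sym _ _ _ ?_⟩
    rw [← mul_smul] at hk2
    have := hnb1 _ k hk2
    rwa [mul_inv_cancel_left] at this
  · rw [mem_live_true] at hn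
    obtain ⟨k, ⟨hk1, hk2⟩, hk3⟩ := hP.D1 _ (hP.inv γ x hx) hn true
    exact ⟨_, hnb1 _ k hk2⟩

/-- The initial invariant. -/
theorem inv0 : Inv X (Edg A h dom Δ) (Sg h Δ) A B := by
  obtain ⟨K, hK1, hK⟩ := hP.slack_gr
  refine ⟨hP.tA, hP.tB, fun x hx n hn => hP.gr_nonempty hx n hn, ?_, ⟨K, hK1, ∅, ?_⟩⟩
  · intro x hx D c
    have h1 := hK x hx D c
    have h2 : (0 : ℤ) ≤ (K : ℤ) * sl (gr A h dom Δ x) Prod.snd (live A B x) c D :=
      le_trans (by positivity) h1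
    have h3 : (0 : ℤ) < K := by exact_mod_cast hK1
    exact nonneg_of_mul_nonneg_right h2 h3
  · intro x hx D _
    right
    intro c
    exact hK x hx D c

lemma tendsto' (g : G) {x : ℝ} :
    Tendsto (fun y : ℝ => g • y) (𝓝[X] x) (𝓝[X] (g • x)) := by
  refine tendsto_nhdsWithin_iff.mpr ⟨?_, ?_⟩
  · exact ((hP.cont g).tendsto x).mono_left nhdsWithin_le_nhds
  · filter_upwards [self_mem_nhdsWithin] with y hy
    exact hP.inv g y hy

/-- Tameness of the edges. -/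
theorem tame (g : G) {x : ℝ} (hx : x ∈ X) :
    ∀ᶠ y in 𝓝[X] x, (Edg A h dom Δ y (g • y) ↔ Edg A h dom Δ x (g • x)) := by
  have hch : ∀ y ∈ X, (Edg A h dom Δ y (g • y) ↔
      ∃ δ ∈ Δ, ∃ k, y ∈ A ∧ δ • y ∈ A ∧ δ • y ∈ dom k ∧ g = h k * δ) := by
    intro y hy
    constructor
    · rintro ⟨δ, hδ, k, h1, h2, h3, h4⟩
      exact ⟨δ, hδ, k, h1, h2, h3, hP.eq_of_smul hy h4⟩
    · rintro ⟨δ, hδ, k, h1, h2, h3, h4⟩
      exact ⟨δ, hδ, k, h1, h2, h3, by rw [h4]⟩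
  have e1 := hP.tA x hx
  have e2 : ∀ᶠ y in 𝓝[X] x, ∀ δ ∈ Δ, (δ • y ∈ A ↔ δ • x ∈ A) := by
    rw [Filter.eventually_all_finset]
    intro δ _
    exact (hP.tendsto' δ).eventually (hP.tA _ (hP.inv δ x hx))
  have e3 : ∀ᶠ y in 𝓝[X] x, ∀ δ ∈ Δ, ∀ k, (δ • y ∈ dom k ↔ δ • x ∈ dom k) := by
    rw [Filter.eventually_all_finset]
    intro δ _
    rw [Filter.eventually_all]
    intro k
    exact (hP.tendsto' δ).eventually (hP.tdom k _ (hP.inv δ x hx))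
  filter_upwards [e1, e2, e3, self_mem_nhdsWithin] with y h1 h2 h3 hy
  rw [hch y hy, hch x hx]
  constructor
  · rintro ⟨δ, hδ, k, h4, h5, h6, h7⟩
    exact ⟨δ, hδ, k, h1.mp h4, (h2 δ hδ).mp h5, (h3 δ hδ k).mp h6, h7⟩
  · rintro ⟨δ, hδ, k, h4, h5, h6, h7⟩
    exact ⟨δ, hδ, k, h1.mpr h4, (h2 δ hδ).mpr h5, (h3 δ hδ k).mpr h6, h7⟩

end Pre

end Pool.Agent.Helper16.GM
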