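import Pool.Agent.Helper16.GMMatch
set_option autoImplicit false
set_option linter.unusedSectionVars false

namespace Pool.Agent.Helper16.GM

open Relation

variable {N : Type*} [DecidableEq N] {nb : N → Finset N} {side : N → Bool}

open Classical in
/-- The number of boundary edges of `D` that touch `R`. -/
noncomputable def bdR (nb : N → Finset N) (R : Set N) (D : Finset N) : ℕ :=
  ∑ n ∈ D, ((nb n).filter (fun m => m ∉ D ∧ (n ∈ R ∨ m ∈ R))).card

lemma sl_remove (hb : Bip nb side) {L L' : Set N} (hL : L' ⊆ L) {ρ : N → N}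
    (hρ : ∀ n ∈ L \ L', ρ n ∈ L \ L' ∧ ρ n ∈ nb n ∧ ρ (ρ n) = n) (c : Bool) (D : Finset N) :
    sl nb side L c D ≤ sl nb side L' c D + 3 * bdR nb (L \ L') D := by
  classical
  set R := L \ L' with hR
  have hLR : ∀ n, n ∈ L ↔ n ∈ L' ∨ n ∈ R := by
    intro n
    rw [hR, Set.mem_sdiff]
    constructor
    · intro h
      by_cases h' : n ∈ L'
      · exact Or.inl h'
      · exact Or.inr ⟨h, h'⟩
    · rintro (h | h)
      · exact hL h
      · exact h.1
  have hdis : ∀ n, n ∈ L' → n ∈ R → False := fun n h1 h2 => h2.2 h1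
  -- weights
  have hcard : ∀ c' : Bool, (D.filter (fun n => n ∈ L ∧ side n = c')).card
      = (D.filter (fun n => n ∈ L' ∧ side n = c')).card
        + (D.filter (fun n => n ∈ R ∧ side n = c')).card := by
    intro c'
    rw [← Finset.card_union_of_disjoint]
    · congr 1
      ext n
      simp only [Finset.mem_filter, Finset.mem_union, hLR]
      tauto
    · rw [Finset.disjoint_filter]
      rintro n _ ⟨h1, _⟩ ⟨h2, _⟩
      exact hdis n h1 h2
  have h1 : (D.filter (fun n => n ∈ R ∧ side n = !c)).card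
      ≤ (D.filter (fun n => n ∈ R ∧ side n = c)).card + bdR nb R D := by
    set P := D.filter (fun n => n ∈ R ∧ side n = !c) with hP
    have h2 : (P.filter (fun n => ρ n ∈ D)).card
        ≤ (D.filter (fun n => n ∈ R ∧ side n = c)).card := by
      apply Finset.card_le_card_of_injOn ρ
      · intro n hn
        simp only [P, Finset.coe_filter, Finset.mem_filter, Set.mem_ofPred_eq] at hn ⊢
        obtain ⟨⟨h1, h2, h3⟩, h4⟩ := hn
        refine ⟨h4, (hρ n h2).1, ?_⟩
        rw [hb _ _ (hρ n h2).2.1, h3, Bool.not_not]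
      · intro a ha b hb' hab
        simp only [P, Finset.coe_filter, Finset.mem_filter, Set.mem_ofPred_eq] at ha hb'
        rw [← (hρ a ha.1.2.1).2.2, hab, (hρ b hb'.1.2.1).2.2]
    have h3 : (P.filter (fun n => ¬ ρ n ∈ D)).card ≤ bdR nb R D := by
      unfold bdR
      rw [Finset.card_eq_sum_ones]
      have hsub : P.filter (fun n => ¬ ρ n ∈ D) ⊆ D := fun x hx =>
        (Finset.mem_filter.mp (Finset.mem_filter.mp hx).1).1
      refine le_trans ?_ (Finset.sum_le_sum_of_subset hsub)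
      refine Finset.sum_le_sum fun n hn => ?_
      simp only [P, Finset.mem_filter] at hn
      obtain ⟨⟨h1, h2, h3⟩, h4⟩ := hn
      rw [Nat.succ_le_iff, Finset.card_pos]
      refine ⟨ρ n, ?_⟩
      rw [mem_filt]
      exact ⟨(hρ n h2).2.1, h4, Or.inl h2⟩
    have h4 : (P.filter (fun n => ρ n ∈ D)).card + (P.filter (fun n => ¬ ρ n ∈ D)).card
        = P.card := Finset.card_filter_add_card_filter_not _
    omega
  -- edges
  have h5 : ecount nb side L c D (↑D)ᶜ ≤ ecount nb side L' c D (↑D)ᶜ + bdR nb R D := by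
    unfold ecount bdR
    rw [← Finset.sum_add_distrib]
    refine Finset.sum_le_sum fun n hn => ?_
    by_cases hc : side n = c
    · by_cases hn' : n ∈ L'
      · rw [if_pos ⟨hc, hL hn'⟩, if_pos ⟨hc, hn'⟩]
        refine le_trans (Finset.card_le_card ?_) (Finset.card_union_le _ _)
        intro m hm
        rw [mem_filt] at hm
        rw [Finset.mem_union, mem_filt, mem_filt]
        rcases (hLR m).mp hm.2.1 with h | h
        · exact Or.inl ⟨hm.1, h, hm.2.2⟩
        · exact Or.inr ⟨hm.1, hm.2.2, Or.inr h⟩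
      · by_cases hnL : n ∈ L
        · rw [if_pos ⟨hc, hnL⟩]
          refine le_trans (Finset.card_le_card ?_) (Nat.le_add_left _ _)
          intro m hm
          rw [mem_filt] at hm ⊢
          exact ⟨hm.1, hm.2.2, Or.inl ⟨hnL, hn'⟩⟩
        · rw [if_neg (fun h => hnL h.2)]
          exact Nat.zero_le _
    · rw [if_neg (fun h => hc h.1)]
      exact Nat.zero_le _
  unfold sl
  rw [sum_tau, sum_tau, hcard, hcard]
  have h1' : (((D.filter (fun n => n ∈ R ∧ side n = !c)).card : ℕ) : ℤ)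
      ≤ (D.filter (fun n => n ∈ R ∧ side n = c)).card + bdR nb R D := by exact_mod_cast h1
  have h5' : ((ecount nb side L c D (↑D)ᶜ : ℕ) : ℤ)
      ≤ ecount nb side L' c D (↑D)ᶜ + bdR nb R D := by exact_mod_cast h5
  push_cast
  linarith

open Classical in
/-- The boundary edges as a finite set. -/
noncomputable def bdSet (nb : N → Finset N) (D : Finset N) : Finset (N × N) :=
  (D ×ˢ D.biUnion nb).filter (fun e => e.2 ∈ nb e.1 ∧ e.2 ∉ D)

lemma mem_bdSet {D : Finset N} {e : N × N} :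
    e ∈ bdSet nb D ↔ e.1 ∈ D ∧ e.2 ∈ nb e.1 ∧ e.2 ∉ D := by
  unfold bdSet
  rw [mem_filt, Finset.mem_product, Finset.mem_biUnion]
  constructor
  · rintro ⟨⟨h1, _⟩, h2, h3⟩
    exact ⟨h1, h2, h3⟩
  · rintro ⟨h1, h2, h3⟩
    exact ⟨⟨h1, e.1, h1, h2⟩, h2, h3⟩

open Classical in
lemma card_bdSet_filter (D : Finset N) (P : N × N → Prop) :
    ((bdSet nb D).filter P).card
      = ∑ n ∈ D, ((nb n).filter (fun m => m ∉ D ∧ P (n, m))).card := by
  have : (bdSet nb D).filter P
      = D.biUnion (fun n => ((nb n).filter (fun m => m ∉ D ∧ P (n, m))).map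
          ⟨fun m => (n, m), fun a b h => by simpa using h⟩) := by
    ext ⟨a, b⟩
    simp only [Finset.mem_filter, mem_bdSet, Finset.mem_biUnion, Finset.mem_map,
      Function.Embedding.coeFn_mk, Prod.mk.injEq]
    constructor
    · rintro ⟨⟨h1, h2, h3⟩, h4⟩
      exact ⟨a, h1, b, ⟨h2, h3, h4⟩, rfl, rfl⟩
    · rintro ⟨a', h1, b', ⟨h2, h3, h4⟩, rfl, rfl⟩
      exact ⟨⟨h1, h2, h3⟩, h4⟩
  rw [this, Finset.card_biUnion]
  · refine Finset.sum_congr rfl fun n _ => ?_
    rw [Finset.card_map]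
  · intro a _ b _ hab
    rw [Function.onFun, Finset.disjoint_left]
    rintro ⟨x, y⟩ hx hy
    simp only [Finset.mem_map, Finset.mem_filter, Function.Embedding.coeFn_mk,
      Prod.mk.injEq] at hx hy
    obtain ⟨_, _, rfl, _⟩ := hx
    obtain ⟨_, _, h, _⟩ := hy
    exact hab h.symm

lemma card_bdSet (D : Finset N) : (bdSet nb D).card = bd nb D := by
  classical
  have h := card_bdSet_filter (nb := nb) D (fun _ => True)
  have h' : (bdSet nb D).filter (fun _ => True) = bdSet nb D := by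
    ext e
    simp
  have h2 : (bdSet nb D).card = ((bdSet nb D).filter (fun _ => True)).card := by rw [h']
  rw [h2]
  refine Eq.trans ?_ (h.trans ?_)
  · congr
  unfold bd
  refine Finset.sum_congr rfl fun n _ => ?_
  congr 1
  ext m
  rw [mem_filt, mem_filt]
  simp

open Classical in
lemma card_bdSetR (D : Finset N) (R : Set N) :
    ((bdSet nb D).filter (fun e => e.1 ∈ R ∨ e.2 ∈ R)).card = bdR nb R D := by
  have h := card_bdSet_filter (nb := nb) D (fun e => e.1 ∈ R ∨ e.2 ∈ R)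
  unfold bdR
  refine Eq.trans ?_ (h.trans ?_)
  · congr
  · refine Finset.sum_congr rfl fun n _ => ?_
    congr 1
    ext m
    rw [mem_filt, mem_filt]

/-- Counting the sites near the boundary. -/
lemma count_sites {ι : Type*} [Nonempty ι] (I : Set ι) (p q : ι → N) (R : Set N)
    (hs : Sym nb)
    (hR : ∀ n ∈ R, ∃ i ∈ I, n = p i ∨ n = q i) (Δ : ℕ) (hΔ : ∀ n, (nb n).card ≤ Δ)
    (Ψ : ι → Finset N) (hΨ : ∀ i ∈ I, ∀ j ∈ I, i ≠ j → Disjoint (Ψ i) (Ψ j))
    (D : Finset N) (k : ℕ)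
    (hT : ∀ i ∈ I, (∃ e ∈ bdSet nb D, e.1 = p i ∨ e.1 = q i ∨ e.2 = p i ∨ e.2 = q i) →
      ∃ T : Finset (N × N), T.card = k ∧ ∀ e ∈ T, (e.1 ∈ Ψ i ∧ e.2 ∈ Ψ i) ∧ e.1 ∈ D ∧ e.2 ∉ D ∧
        e.2 ∈ nb e.1) :
    k * bdR nb R D ≤ 4 * Δ * bd nb D := by
  classical
  set B := (bdSet nb D).filter (fun e => e.1 ∈ R ∨ e.2 ∈ R) with hB
  have hBcard : B.card = bdR nb R D := by
    rw [← card_bdSetR]
  have hsite : ∀ e : N × N, ∃ i, e ∈ B →
      i ∈ I ∧ (e.1 = p i ∨ e.1 = q i ∨ e.2 = p i ∨ e.2 = q i) := by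
    intro e
    by_cases he : e ∈ B
    · rcases (Finset.mem_filter.mp he).2 with h | h
      · obtain ⟨i, hi, h1⟩ := hR _ h
        exact ⟨i, fun _ => ⟨hi, by tauto⟩⟩
      · obtain ⟨i, hi, h1⟩ := hR _ h
        exact ⟨i, fun _ => ⟨hi, by tauto⟩⟩
    · exact ⟨Classical.arbitrary ι, fun h => absurd h he⟩
  choose f hf using hsite
  set Z := B.image f with hZ
  have hZI : ∀ i ∈ Z, i ∈ I ∧ ∃ e ∈ bdSet nb D,
      e.1 = p i ∨ e.1 = q i ∨ e.2 = p i ∨ e.2 = q i := by
    intro i hi
    obtain ⟨e, he, rfl⟩ := Finset.mem_image.mp hi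
    exact ⟨(hf e he).1, e, (Finset.mem_filter.mp he).1, (hf e he).2⟩
  have hTex : ∀ i, ∃ T : Finset (N × N), i ∈ Z → T.card = k ∧ ∀ e ∈ T,
      (e.1 ∈ Ψ i ∧ e.2 ∈ Ψ i) ∧ e.1 ∈ D ∧ e.2 ∉ D ∧ e.2 ∈ nb e.1 := by
    intro i
    by_cases hi : i ∈ Z
    · obtain ⟨T, h1, h2⟩ := hT i (hZI i hi).1 (hZI i hi).2
      exact ⟨T, fun _ => ⟨h1, h2⟩⟩
    · exact ⟨∅, fun h => absurd h hi⟩
  choose T hTT using hTex
  have h1 : Z.card * k ≤ bd nb D := by
    rw [← card_bdSet]
    have hsub : Z.biUnion T ⊆ bdSet nb D := by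
      intro e he
      obtain ⟨i, hi, hei⟩ := Finset.mem_biUnion.mp he
      obtain ⟨_, h3, h4, h5⟩ := (hTT i hi).2 e hei
      exact mem_bdSet.mpr ⟨h3, h5, h4⟩
    refine le_trans (le_of_eq ?_) (Finset.card_le_card hsub)
    rw [Finset.card_biUnion]
    · rw [Finset.sum_congr rfl (fun i hi => (hTT i hi).1), Finset.sum_const, smul_eq_mul]
    · intro i hi j hj hij
      rw [Function.onFun, Finset.disjoint_left]
      intro e he he'
      have h3 := ((hTT i hi).2 e he).1.1
      have h4 := ((hTT j hj).2 e he').1.1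
      exact Finset.disjoint_left.mp (hΨ i (hZI i hi).1 j (hZI j hj).1 hij) h3 h4
  have h2 : B.card ≤ Z.card * (4 * Δ) := by
    rw [mul_comm]
    refine Finset.card_le_mul_card_image_of_maps_to (fun e he => Finset.mem_image_of_mem f he)
      (4 * Δ) ?_
    intro i hi
    set W : N → Finset (N × N) := fun a =>
      (nb a).image (fun m => (a, m)) ∪ (nb a).image (fun m => (m, a)) with hW
    have hWc : ∀ a, (W a).card ≤ 2 * Δ := by
      intro a
      refine (Finset.card_union_le _ _).trans ?_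
      have h3 : ((nb a).image (fun m => (a, m))).card ≤ Δ := Finset.card_image_le.trans (hΔ a)
      have h4 : ((nb a).image (fun m => (m, a))).card ≤ Δ := Finset.card_image_le.trans (hΔ a)
      omega
    have hsub : B.filter (fun e => f e = i) ⊆ W (p i) ∪ W (q i) := by
      intro e he
      obtain ⟨he1, rfl⟩ := Finset.mem_filter.mp he
      have h3 := (hf e he1).2
      have h4 := (mem_bdSet.mp (Finset.mem_filter.mp he1).1).2.1
      rw [Finset.mem_union]
      simp only [hW, Finset.mem_union, Finset.mem_image]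
      rcases h3 with h | h | h | h
      · left; left
        exact ⟨e.2, by rw [← h]; exact h4, by rw [← h]⟩
      · right; left
        exact ⟨e.2, by rw [← h]; exact h4, by rw [← h]⟩
      · left; right
        exact ⟨e.1, by rw [← h]; exact hs _ _ h4, by rw [← h]⟩
      · right; right
        exact ⟨e.1, by rw [← h]; exact hs _ _ h4, by rw [← h]⟩
    refine (Finset.card_le_card hsub).trans ((Finset.card_union_le _ _).trans ?_)
    have := hWc (p i)
    have := hWc (q i)
    omega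
  rw [← hBcard]
  calc k * B.card ≤ k * (Z.card * (4 * Δ)) := Nat.mul_le_mul_left k h2
    _ = 4 * Δ * (Z.card * k) := by ring
    _ ≤ 4 * Δ * bd nb D := Nat.mul_le_mul_left _ h1

end Pool.Agent.Helper16.GM
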