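import Pool.Agent.Helper16.GMSys
set_option autoImplicit false
set_option linter.unusedSectionVars false

namespace Pool.Agent.Helper16.GM

open Relation Filter Topology Pointwise

variable {G : Type*} [Group G] [MulAction G ℝ] [DecidableEq G]
variable {Edge : ℝ → ℝ → Prop} {S : Finset G} {X : Set ℝ}

/-- rational intervals inside neighbourhoods -/
lemma exists_rat_Ioo {U : Set ℝ} (hU : IsOpen U) {x : ℝ} (hx : x ∈ U) :
    ∃ p q : ℚ, x ∈ Set.Ioo (p : ℝ) q ∧ Set.Ioo (p : ℝ) q ⊆ U := by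
  obtain ⟨ε, hε, hεU⟩ := Metric.isOpen_iff.mp hU x hx
  obtain ⟨p, hp1, hp2⟩ := exists_rat_btwn (show x - ε < x by linarith)
  obtain ⟨q, hq1, hq2⟩ := exists_rat_btwn (show x < x + ε by linarith)
  refine ⟨p, q, ⟨hp2, hq1⟩, ?_⟩
  rintro y ⟨hy1, hy2⟩
  apply hεU
  rw [Metric.mem_ball, Real.dist_eq, abs_lt]
  constructor <;> linarith

/-- Membership in a rational interval is locally constant on `X`. -/
lemma Sys.ev_Ioo (hS : Sys X Edge S) (p q : ℚ) {x : ℝ} (hx : x ∈ X) :
    ∀ᶠ y in 𝓝[X] x, (y ∈ Set.Ioo (p : ℝ) q ↔ x ∈ Set.Ioo (p : ℝ) q) := by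
  have hp : x ≠ p := fun h => hS.irr p (h ▸ hx)
  have hq : x ≠ q := fun h => hS.irr q (h ▸ hx)
  have h1 : ∀ᶠ y in 𝓝[X] x, ((p : ℝ) < y ↔ (p : ℝ) < x) := by
    apply nhdsWithin_le_nhds
    rcases lt_or_gt_of_ne hp with h | h
    · filter_upwards [eventually_lt_nhds h] with y hy
      constructor
      · intro h'; linarith
      · intro h'; linarith
    · filter_upwards [eventually_gt_nhds h] with y hy
      exact ⟨fun _ => h, fun _ => hy⟩
  have h2 : ∀ᶠ y in 𝓝[X] x, (y < (q : ℝ) ↔ x < (q : ℝ)) := by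
    apply nhdsWithin_le_nhds
    rcases lt_or_gt_of_ne hq with h | h
    · filter_upwards [eventually_lt_nhds h] with y hy
      exact ⟨fun _ => h, fun _ => hy⟩
    · filter_upwards [eventually_gt_nhds h] with y hy
      constructor
      · intro h'; linarith
      · intro h'; linarith
  filter_upwards [h1, h2] with y hy1 hy2
  rw [Set.mem_Ioo, Set.mem_Ioo, hy1, hy2]

/-- A free point can be separated from its images. -/
lemma Sys.sep (hS : Sys X Edge S) (W : Finset G) {x : ℝ} (hx : x ∈ X) :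
    ∃ U : Set ℝ, IsOpen U ∧ x ∈ U ∧ ∀ γ ∈ W, γ ≠ 1 → ∀ y ∈ U, γ • y ∉ U := by
  induction W using Finset.induction_on with
  | empty => exact ⟨Set.univ, isOpen_univ, trivial, by simp⟩
  | insert a W ha ih =>
    obtain ⟨U, hU, hxU, h⟩ := ih
    by_cases ha1 : a = 1
    · refine ⟨U, hU, hxU, ?_⟩
      intro γ hγ hγ1
      rcases Finset.mem_insert.mp hγ with rfl | h'
      · exact absurd ha1 hγ1
      · exact h γ h' hγ1
    · have hne : a • x ≠ x := fun h' => ha1 (hS.free a x hx h')
      obtain ⟨V₁, V₂, hV₁, hV₂, h1, h2, hd⟩ := t2_separation hne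
      refine ⟨U ∩ V₂ ∩ (fun y : ℝ => a • y) ⁻¹' V₁, (hU.inter hV₂).inter (hV₁.preimage (hS.cont a)),
        ⟨⟨hxU, h2⟩, h1⟩, ?_⟩
      intro γ hγ hγ1 y hy hy'
      rcases Finset.mem_insert.mp hγ with rfl | h'
      · exact Set.disjoint_left.mp hd hy.2 hy'.1.2
      · exact h γ h' hγ1 y hy.1.1 hy'.1.1

theorem step (hS : Sys X Edge S) {LA LB : Set ℝ} (hI : Inv X Edge S LA LB) {x₀ : ℝ} (hx₀ : x₀ ∈ X)
    {g : G} {M : G × Bool → G × Bool} (hM : IsMatch (nbx Edge S x₀) (live LA LB x₀) M)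
    (h1 : ((1 : G), true) ∈ live LA LB x₀) (hMg : M (1, true) = (g, false))
    {O : Set ℝ} (hO : IsOpen O) (hxO : x₀ ∈ O) :
    ∃ p q : ℚ, x₀ ∈ Set.Ioo (p : ℝ) q ∧ Set.Ioo (p : ℝ) q ⊆ O ∧ g ∈ S ∧
      (∀ x ∈ X, x ∈ Set.Ioo (p : ℝ) q → x ∈ LA ∧ g • x ∈ LB ∧ Edge x (g • x)) ∧
      Inv X Edge S (LA \ Set.Ioo (p : ℝ) q) (LB \ {y | g⁻¹ • y ∈ Set.Ioo (p : ℝ) q}) := by
  classical
  obtain ⟨K, hK1, Φ, hSl⟩ := hI.S
  set nb₀ := nbx Edge S x₀ with hnb₀
  have hadj : ((g, false) : G × Bool) ∈ nb₀ (1, true) := by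
    rw [← hMg]
    exact hM.adj _ h1
  obtain ⟨g', hgS, hge, hg'⟩ := mem_nbx_true.mp hadj
  have hgg' : g = g' := by simpa using congrArg Prod.fst hg'
  subst hgg'
  rw [one_smul, mul_one] at hge
  have hgL : ((g, false) : G × Bool) ∈ live LA LB x₀ := by
    rw [← hMg]
    exact hM.mem _ h1
  have hx₀A : x₀ ∈ LA := by simpa using mem_live_true.mp h1
  have hx₀B : g • x₀ ∈ LB := mem_live_false.mp hgL
  set Δ := S.card with hΔ
  set k := 24 * K * Δ with hk
  have hΔ1 : 1 ≤ Δ := Finset.card_pos.mpr ⟨g, hgS⟩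
  obtain ⟨Ψ₁, hpΨ, hΨ₁⟩ := tight_vertex (nbx_sym x₀) (hS.oe x₀ hx₀) ((1 : G), true) k
  obtain ⟨Ψ₂, hqΨ, hΨ₂⟩ := tight_vertex (nbx_sym x₀) (hS.oe x₀ hx₀) (g, false) k
  set Ψ := Ψ₁ ∪ Ψ₂ with hΨdef
  set ΨG := Ψ.image Prod.fst with hΨG
  set E₁ : Finset G := {1, g} ∪ S ∪ S.image (fun s => s⁻¹ * g) with hE₁
  set Ω₂ : Finset G := ΨG ∪ Finset.image₂ (· * ·) Φ E₁ with hΩ₂
  set Ω₃ : Finset G := Ω₂ ∪ Finset.image₂ (· * ·) S Ω₂ ∪ Finset.image₂ (fun s ω => s⁻¹ * ω) S Ω₂
    with hΩ₃
  set W : Finset G := Ω₃ ∪ Ω₃.image (fun ω => g⁻¹ * ω) ∪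
    Finset.image₂ (fun a b => a⁻¹ * b) ΨG ΨG with hW
  have hΨΩ : ∀ n ∈ Ψ, n.1 ∈ Ω₂ := fun n hn =>
    Finset.mem_union_left _ (Finset.mem_image_of_mem _ hn)
  -- the eventual conditions
  have hev : ∀ᶠ y in 𝓝[X] x₀, (∀ n ∈ Ω₂ ×ˢ (Finset.univ : Finset Bool), nbx Edge S y n = nb₀ n) ∧
      (∀ γ ∈ Ω₃, (γ • y ∈ LA ↔ γ • x₀ ∈ LA) ∧ (γ • y ∈ LB ↔ γ • x₀ ∈ LB)) ∧
      (y ∈ LA ∧ g • y ∈ LB ∧ Edge y (g • y)) := by
    refine Filter.Eventually.and ?_ (Filter.Eventually.and ?_ ?_)
    · rw [Filter.eventually_all_finset]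
      intro n _
      exact hS.ev_nbx hx₀ n
    · rw [Filter.eventually_all_finset]
      intro γ _
      have h2 := (hS.tendsto γ (x := x₀)).eventually (hI.tA _ (hS.inv γ x₀ hx₀))
      have h3 := (hS.tendsto γ (x := x₀)).eventually (hI.tB _ (hS.inv γ x₀ hx₀))
      filter_upwards [h2, h3] with y hy2 hy3
      exact ⟨hy2, hy3⟩
    · have h2 := hI.tA x₀ hx₀
      have h3 := (hS.tendsto g (x := x₀)).eventually (hI.tB _ (hS.inv g x₀ hx₀))
      have h4 := hS.tame g hgS x₀ hx₀
      filter_upwards [h2, h3, h4] with y hy2 hy3 hy4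
      exact ⟨hy2.mpr hx₀A, hy3.mpr hx₀B, hy4.mpr hge⟩
  obtain ⟨U₁, hU₁, hxU₁, hU₁'⟩ := mem_nhdsWithin.mp hev
  obtain ⟨U₂, hU₂, hxU₂, hU₂'⟩ := hS.sep W hx₀
  obtain ⟨p, q, hxJ, hJ⟩ := exists_rat_Ioo ((hU₁.inter hU₂).inter hO) ⟨⟨hxU₁, hxU₂⟩, hxO⟩
  set J := Set.Ioo (p : ℝ) q with hJdef
  have hJsep : ∀ γ ∈ W, ∀ y ∈ J, γ • y ∈ J → γ = 1 := by
    intro γ hγ y hy hy'
    by_contra hne
    exact hU₂' γ hγ hne y (hJ hy).1.2 (hJ hy').1.2
  have hJev : ∀ y ∈ X, y ∈ J → (∀ n, n.1 ∈ Ω₂ → nbx Edge S y n = nb₀ n) ∧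
      (∀ γ ∈ Ω₃, (γ • y ∈ LA ↔ γ • x₀ ∈ LA) ∧ (γ • y ∈ LB ↔ γ • x₀ ∈ LB)) ∧
      (y ∈ LA ∧ g • y ∈ LB ∧ Edge y (g • y)) := by
    intro y hyX hyJ
    have := hU₁' ⟨(hJ hyJ).1.1, hyX⟩
    refine ⟨fun n hn => this.1 n ?_, this.2⟩
    rw [Finset.mem_product]
    exact ⟨hn, Finset.mem_univ _⟩
  set LA' := LA \ J with hLA'
  set LB' := LB \ {y | g⁻¹ • y ∈ J} with hLB'
  refine ⟨p, q, hxJ, fun y hy => (hJ hy).2, hgS, fun x hx hxJ => (hJev x hx hxJ).2.2, ?_⟩
  -- the new alive sets
  have hlive : ∀ x : ℝ, live (G := G) LA' LB' x ⊆ live LA LB x := by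
    rintro x ⟨γ, c⟩ h
    cases c
    · rw [mem_live_false] at h ⊢
      exact h.1
    · rw [mem_live_true] at h ⊢
      exact h.1
  -- nonnegativity at x₀ after removal
  set L₀ : Set (G × Bool) := live LA LB x₀ \ {((1 : G), true), (g, false)} with hL₀
  have hMinv : M (g, false) = (1, true) := by
    rw [← hMg]
    exact hM.inv _ h1
  have hM' : IsMatch nb₀ L₀ M := by
    refine ⟨?_, fun n hn => hM.adj n hn.1, fun n hn => hM.inv n hn.1⟩
    intro n hn
    refine ⟨hM.mem n hn.1, ?_⟩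
    intro h
    apply hn.2
    rcases h with h | h
    · right
      rw [Set.mem_singleton_iff, ← hM.inv n hn.1, h, hMg]
    · left
      rw [Set.mem_singleton_iff] at h
      rw [← hM.inv n hn.1, h, hMinv]
  have hnn₀ : ∀ D c, 0 ≤ sl nb₀ Prod.snd L₀ c D := fun D c =>
    sl_nonneg_of_match (nbx_bip x₀) hM' c D
  -- comparison of windows
  have hwin : ∀ y ∈ X, y ∈ J → ∀ D : Finset (G × Bool), (∀ n ∈ D, n.1 ∈ Ω₂) → ∀ c,
      0 ≤ sl (nbx Edge S y) Prod.snd (live LA' LB' y) c D := by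
    intro y hyX hyJ D hD c
    obtain ⟨hy1, hy2, _⟩ := hJev y hyX hyJ
    have hal : ∀ n : G × Bool, n.1 ∈ Ω₃ → (n ∈ live LA' LB' y ↔ n ∈ L₀) := by
      rintro ⟨γ, c⟩ hγ
      have hγW : γ ∈ W := Finset.mem_union_left _ (Finset.mem_union_left _ hγ)
      have hγW' : g⁻¹ * γ ∈ W := Finset.mem_union_left _ (Finset.mem_union_right _
        (Finset.mem_image_of_mem _ hγ))
      obtain ⟨h3, h4⟩ := hy2 γ hγ
      cases c
      · have e1 : ((γ, false) : G × Bool) ∈ live LA' LB' y ↔ (γ • y ∈ LB ∧ ¬ g⁻¹ • γ • y ∈ J) := by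
          rw [mem_live_false]
          rfl
        have e2 : ((γ, false) : G × Bool) ∈ L₀ ↔ (γ • x₀ ∈ LB ∧
            ¬ ((γ, false) : G × Bool) ∈ ({((1 : G), true), (g, false)} : Set (G × Bool))) := by
          rw [hL₀, Set.mem_sdiff, mem_live_false]
        rw [e1, e2, h4]
        refine and_congr_right fun _ => not_congr ?_
        simp only [Set.mem_insert_iff, Prod.mk.injEq, Bool.false_eq_true,
          and_false, Set.mem_singleton_iff, and_true, false_or]
        rw [smul_smul]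
        constructor
        · intro h5
          have := hJsep _ hγW' y hyJ h5
          rw [inv_mul_eq_one] at this
          exact this.symm
        · rintro rfl
          rwa [inv_mul_cancel, one_smul]
      · have e1 : ((γ, true) : G × Bool) ∈ live LA' LB' y ↔ (γ • y ∈ LA ∧ ¬ γ • y ∈ J) := by
          rw [mem_live_true]
          rfl
        have e2 : ((γ, true) : G × Bool) ∈ L₀ ↔ (γ • x₀ ∈ LA ∧
            ¬ ((γ, true) : G × Bool) ∈ ({((1 : G), true), (g, false)} : Set (G × Bool))) := by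
          rw [hL₀, Set.mem_sdiff, mem_live_true]
        rw [e1, e2, h3]
        refine and_congr_right fun _ => not_congr ?_
        simp only [Set.mem_insert_iff, Prod.mk.injEq, and_true, Set.mem_singleton_iff,
          Bool.true_eq_false, and_false, or_false]
        constructor
        · intro h5
          exact hJsep _ hγW y hyJ h5
        · rintro rfl
          rwa [one_smul]
    rw [sl_congr (nb := nb₀) (L := L₀) (fun n hn => hy1 n (hD n hn))]
    · exact hnn₀ D c
    · intro n hn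
      exact hal n (Finset.mem_union_left _ (Finset.mem_union_left _ (hD n hn)))
    · rintro ⟨γ, b⟩ hn m hm
      apply hal
      have hγ := hD _ hn
      cases b
      · obtain ⟨s, hs, _, rfl⟩ := mem_nbx_false.mp hm
        exact Finset.mem_union_right _ (Finset.mem_image₂_of_mem hs hγ)
      · obtain ⟨s, hs, _, rfl⟩ := mem_nbx_true.mp hm
        exact Finset.mem_union_left _ (Finset.mem_union_right _ (Finset.mem_image₂_of_mem hs hγ))
  -- the tight cut lemma at the sites
  have hsite₀ : ∀ y ∈ X, y ∈ J → ∀ D : Finset (G × Bool), CC (nbx Edge S y) D →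
      (∃ e ∈ bdSet (nbx Edge S y) D, e.1 = ((1 : G), true) ∨ e.1 = (g, false) ∨
        e.2 = ((1 : G), true) ∨ e.2 = (g, false)) →
      D ⊆ Ψ ∨ ∃ T : Finset ((G × Bool) × (G × Bool)), T.card = k ∧
          ∀ e ∈ T, (e.1 ∈ Ψ ∧ e.2 ∈ Ψ) ∧ e.1 ∈ D ∧ e.2 ∉ D ∧ e.2 ∈ nbx Edge S y e.1 := by
    intro y hyX hyJ D hD ⟨e, he, hew⟩
    obtain ⟨hy1, hy2, hyA, hyB, hyE⟩ := hJev y hyX hyJ
    have hne1 : (nbx Edge S y ((1 : G), true)).Nonempty :=
      ⟨(g * 1, false), mem_nbx_true.mpr ⟨g, hgS, by simpa using hyE, rfl⟩⟩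
    have hne2 : (nbx Edge S y (g, false)).Nonempty :=
      ⟨(g⁻¹ * g, true), mem_nbx_false.mpr ⟨g, hgS, by simpa using hyE, rfl⟩⟩
    have hcase : (e.1 = ((1 : G), true) ∨ e.2 = ((1 : G), true)) ∨
        (e.1 = (g, false) ∨ e.2 = (g, false)) := by tauto
    rcases hcase with h | h
    · rcases hΨ₁ _ (nbx_sym y) (fun n hn => hy1 n (hΨΩ n (Finset.mem_union_left _ hn)))
        (hS.inf y hyX _ hne1) D hD ⟨e, he, h⟩ with h' | ⟨T, hT1, hT2⟩
      · exact Or.inl (h'.trans Finset.subset_union_left)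
      · exact Or.inr ⟨T, hT1, fun e he => ⟨⟨Finset.mem_union_left _ (hT2 e he).1.1,
          Finset.mem_union_left _ (hT2 e he).1.2⟩, (hT2 e he).2⟩⟩
    · rcases hΨ₂ _ (nbx_sym y) (fun n hn => hy1 n (hΨΩ n (Finset.mem_union_right _ hn)))
        (hS.inf y hyX _ hne2) D hD ⟨e, he, h⟩ with h' | ⟨T, hT1, hT2⟩
      · exact Or.inl (h'.trans Finset.subset_union_right)
      · exact Or.inr ⟨T, hT1, fun e he => ⟨⟨Finset.mem_union_right _ (hT2 e he).1.1,
          Finset.mem_union_right _ (hT2 e he).1.2⟩, (hT2 e he).2⟩⟩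
  -- transport to an arbitrary point
  have hsite : ∀ x ∈ X, ∀ i : G, i • x ∈ J → ∀ D : Finset (G × Bool), CC (nbx Edge S x) D →
      (∃ e ∈ bdSet (nbx Edge S x) D, e.1 = (i, true) ∨ e.1 = (g * i, false) ∨
        e.2 = (i, true) ∨ e.2 = (g * i, false)) →
      D ⊆ Ψ.image (tr i).symm ∨ ∃ T : Finset ((G × Bool) × (G × Bool)), T.card = k ∧
          ∀ e ∈ T, (e.1 ∈ Ψ.image (tr i).symm ∧ e.2 ∈ Ψ.image (tr i).symm) ∧
            e.1 ∈ D ∧ e.2 ∉ D ∧ e.2 ∈ nbx Edge S x e.1 := by
    intro x hx i hi D hD ⟨e, he, hew⟩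
    have hiso := nbx_iso (Edge := Edge) (S := S) i x
    have hmemD : ∀ n, tr i n ∈ D.image (tr i) ↔ n ∈ D := by
      intro n
      constructor
      · intro hn
        obtain ⟨m, hm, hmn⟩ := Finset.mem_image.mp hn
        rwa [← (tr i).injective hmn]
      · exact fun hn => Finset.mem_image_of_mem _ hn
    have he' : (tr i e.1, tr i e.2) ∈ bdSet (nbx Edge S (i • x)) (D.image (tr i)) :=
      hiso.mem_bdSet.mpr he
    have hew' : tr i e.1 = ((1 : G), true) ∨ tr i e.1 = (g, false) ∨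
        tr i e.2 = ((1 : G), true) ∨ tr i e.2 = (g, false) := by
      rcases hew with h | h | h | h
      · left; rw [h]; simp
      · right; left; rw [h]; simp
      · right; right; left; rw [h]; simp
      · right; right; right; rw [h]; simp
    rcases hsite₀ (i • x) (hS.inv i x hx) hi _ (hiso.cc hD) ⟨_, he', hew'⟩ with h | ⟨T, hT1, hT2⟩
    · left
      intro n hn
      rw [Finset.mem_image]
      exact ⟨tr i n, h (Finset.mem_image_of_mem _ hn), Equiv.symm_apply_apply _ _⟩
    · right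
      refine ⟨T.image (fun e => ((tr i).symm e.1, (tr i).symm e.2)), ?_, ?_⟩
      · rw [Finset.card_image_of_injective _ ?_, hT1]
        rintro ⟨a, b⟩ ⟨a', b'⟩ hab
        simp only [Prod.mk.injEq, EmbeddingLike.apply_eq_iff_eq] at hab
        rw [hab.1, hab.2]
      · intro e he
        obtain ⟨⟨a, b⟩, hab, rfl⟩ := Finset.mem_image.mp he
        obtain ⟨⟨h2, h3⟩, h4, h5, h6⟩ := hT2 _ hab
        refine ⟨⟨Finset.mem_image_of_mem _ h2, Finset.mem_image_of_mem _ h3⟩, ?_, ?_, ?_⟩
        · rw [← hmemD]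
          simpa using h4
        · rw [← hmemD]
          simpa using h5
        · rw [← hiso.mem]
          simpa using h6
  -- the main dichotomy
  have hmain : ∀ x ∈ X, ∀ D : Finset (G × Bool), CC (nbx Edge S x) D →
      (∃ i : G, i • x ∈ J ∧ D ⊆ Ψ.image (tr i).symm) ∨
      24 * K * Δ * bdR (nbx Edge S x) (live LA LB x \ live LA' LB' x) D
        ≤ 4 * Δ * bd (nbx Edge S x) D := by
    intro x hx D hD
    by_cases hex : ∃ i : G, i • x ∈ J ∧ D ⊆ Ψ.image (tr i).symm
    · exact Or.inl hex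
    right
    push Not at hex
    refine count_sites {i : G | i • x ∈ J} (fun i => (i, true)) (fun i => (g * i, false)) _
      (nbx_sym x) ?_ Δ (nbx_card x) (fun i => Ψ.image (tr i).symm) ?_ D k ?_
    · rintro ⟨γ, c⟩ ⟨hn1, hn2⟩
      cases c
      · rw [mem_live_false] at hn1 hn2
        have : g⁻¹ • γ • x ∈ J := by
          by_contra h
          exact hn2 ⟨hn1, h⟩
        refine ⟨g⁻¹ * γ, ?_, Or.inr ?_⟩
        · rw [Set.mem_ofPred_eq, mul_smul]
          exact this
        · simp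
      · rw [mem_live_true] at hn1 hn2
        have : γ • x ∈ J := by
          by_contra h
          exact hn2 ⟨hn1, h⟩
        exact ⟨γ, this, Or.inl rfl⟩
    · intro i hi j hj hij
      rw [Finset.disjoint_left]
      intro n hn hn'
      obtain ⟨a, ha, rfl⟩ := Finset.mem_image.mp hn
      obtain ⟨b, hb, hab⟩ := Finset.mem_image.mp hn'
      simp only [tr_symm_apply, Prod.mk.injEq] at hab
      have h2 : (b.1⁻¹ * a.1) • (i • x) = j • x := by
        rw [smul_smul, mul_assoc, ← hab.1, inv_mul_cancel_left]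
      have h3 : b.1⁻¹ * a.1 ∈ W := Finset.mem_union_right _ (Finset.mem_image₂_of_mem
        (Finset.mem_image_of_mem _ hb) (Finset.mem_image_of_mem _ ha))
      have h4 := hJsep _ h3 (i • x) hi (by rw [h2]; exact hj)
      apply hij
      rw [inv_mul_eq_one] at h4
      have := hab.1
      rw [h4] at this
      exact (mul_left_cancel this).symm
    · intro i hi hex'
      rcases hsite x hx i hi D hD hex' with h | h
      · exact absurd h (hex i hi)
      · exact h
  -- comparison with the old slack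
  have hcmp : ∀ x ∈ X, ∀ (D : Finset (G × Bool)) (c : Bool),
      sl (nbx Edge S x) Prod.snd (live LA LB x) c D
        ≤ sl (nbx Edge S x) Prod.snd (live LA' LB' x) c D
          + 3 * bdR (nbx Edge S x) (live LA LB x \ live LA' LB' x) D := by
    intro x hx D c
    refine sl_remove (nbx_bip x) (hlive x)
      (ρ := fun n => if n.2 then (g * n.1, false) else (g⁻¹ * n.1, true)) ?_ c D
    rintro ⟨γ, b⟩ ⟨hn1, hn2⟩
    cases b
    · rw [mem_live_false] at hn1 hn2
      have hJ' : g⁻¹ • γ • x ∈ J := by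
        by_contra h
        exact hn2 ⟨hn1, h⟩
      have hXX : g⁻¹ • γ • x ∈ X := hS.inv _ _ (hS.inv _ _ hx)
      obtain ⟨_, _, h2, h3, h4⟩ := hJev _ hXX hJ'
      simp only [Bool.false_eq_true, if_false]
      refine ⟨⟨?_, ?_⟩, ?_, by simp⟩
      · rw [mem_live_true, mul_smul]
        exact h2
      · rw [mem_live_true, mul_smul]
        exact fun h => h.2 hJ'
      · rw [mem_nbx_false]
        refine ⟨g, hgS, ?_, rfl⟩
        rw [mul_smul]
        simpa using h4
    · rw [mem_live_true] at hn1 hn2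
      have hJ' : γ • x ∈ J := by
        by_contra h
        exact hn2 ⟨hn1, h⟩
      have hXX : γ • x ∈ X := hS.inv _ _ hx
      obtain ⟨_, _, h2, h3, h4⟩ := hJev _ hXX hJ'
      simp only [if_true]
      refine ⟨⟨?_, ?_⟩, ?_, by simp⟩
      · rw [mem_live_false, mul_smul]
        exact h3
      · rw [mem_live_false, mul_smul]
        intro h
        apply h.2
        rw [Set.mem_ofPred_eq, inv_smul_smul]
        exact hJ'
      · rw [mem_nbx_true]
        refine ⟨g, hgS, ?_, rfl⟩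
        rw [mul_smul]
        exact h4
  -- from the counting to the new slack
  have hnew : ∀ x ∈ X, ∀ (D : Finset (G × Bool)),
      24 * K * Δ * bdR (nbx Edge S x) (live LA LB x \ live LA' LB' x) D
        ≤ 4 * Δ * bd (nbx Edge S x) D →
      ∀ c, (bd (nbx Edge S x) D : ℤ)
        ≤ K * sl (nbx Edge S x) Prod.snd (live LA LB x) c D →
      (bd (nbx Edge S x) D : ℤ)
        ≤ ((2 * K : ℕ) : ℤ) * sl (nbx Edge S x) Prod.snd (live LA' LB' x) c D := by
    intro x hx D hc c hold
    have h2 : 6 * K * bdR (nbx Edge S x) (live LA LB x \ live LA' LB' x) D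
        ≤ bd (nbx Edge S x) D := by
      have h3 : (4 * Δ) * (6 * K * bdR (nbx Edge S x) (live LA LB x \ live LA' LB' x) D)
          ≤ (4 * Δ) * bd (nbx Edge S x) D := by
        calc (4 * Δ) * (6 * K * bdR (nbx Edge S x) (live LA LB x \ live LA' LB' x) D)
            = 24 * K * Δ * bdR (nbx Edge S x) (live LA LB x \ live LA' LB' x) D := by ring
          _ ≤ _ := hc
      exact Nat.le_of_mul_le_mul_left h3 (by omega)
    have h4 := hcmp x hx D c
    have h2' : 6 * (K : ℤ) * (bdR (nbx Edge S x) (live LA LB x \ live LA' LB' x) D : ℤ)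
        ≤ (bd (nbx Edge S x) D : ℤ) := by exact_mod_cast h2
    have h5 : (K : ℤ) * sl (nbx Edge S x) Prod.snd (live LA LB x) c D
        ≤ K * (sl (nbx Edge S x) Prod.snd (live LA' LB' x) c D
          + 3 * bdR (nbx Edge S x) (live LA LB x \ live LA' LB' x) D) :=
      mul_le_mul_of_nonneg_left h4 (Int.natCast_nonneg _)
    push_cast
    nlinarith
  -- the new invariant
  refine ⟨?_, ?_, ?_, ?_, ?_⟩
  · intro x hx
    filter_upwards [hI.tA x hx, hS.ev_Ioo p q hx] with y hy1 hy2
    rw [Set.mem_sdiff, Set.mem_sdiff, hy1, hy2]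
  · intro x hx
    have h2 := (hS.tendsto g⁻¹ (x := x)).eventually (hS.ev_Ioo p q (hS.inv g⁻¹ x hx))
    filter_upwards [hI.tB x hx, h2] with y hy1 hy2
    rw [Set.mem_sdiff, Set.mem_sdiff, hy1, Set.mem_ofPred_eq, Set.mem_ofPred_eq, hy2]
  · intro x hx n hn
    exact hI.ne x hx n (hlive x hn)
  · intro x hx
    refine sl_nonneg_of_cc (nbx_sym x) (nbx_bip x) {n | (nbx Edge S x n).Nonempty} ?_ ?_
      (hS.oe x hx) ?_
    · intro n hn
      refine ⟨Finset.not_nonempty_iff_eq_empty.mp hn, fun h => hn (hI.ne x hx n (hlive x h))⟩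
    · intro v hv
      exact hS.inf x hx v hv
    · intro D hD c
      by_cases htouch : ∃ i : G, i • x ∈ J ∧ ∃ e ∈ bdSet (nbx Edge S x) D, e.1 = (i, true) ∨
          e.1 = (g * i, false) ∨ e.2 = (i, true) ∨ e.2 = (g * i, false)
      · obtain ⟨i, hi, htouch⟩ := htouch
        by_cases hsmall : ∃ j : G, j • x ∈ J ∧ ∀ n ∈ D.image (tr j), n.1 ∈ Ω₂
        · obtain ⟨j, hj, hj2⟩ := hsmall
          have h2 := hwin (j • x) (hS.inv j x hx) hj (D.image (tr j)) hj2 c
          rwa [GIso.sl (nbx_iso j x) (fun n => rfl) (fun n => tr_mem_live n)] at h2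
        · push Not at hsmall
          rcases hmain x hx D hD with ⟨j, hj, hj2⟩ | hc
          · exfalso
            obtain ⟨n, hn, hn2⟩ := hsmall j hj
            apply hn2
            obtain ⟨m, hm, rfl⟩ := Finset.mem_image.mp hn
            obtain ⟨a, ha, rfl⟩ := Finset.mem_image.mp (hj2 hm)
            rw [Equiv.apply_symm_apply]
            exact hΨΩ a ha
          · rcases hSl x hx D hD with hΦ | hold
            · exfalso
              obtain ⟨n, hn, hn2⟩ := hsmall i hi
              apply hn2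
              obtain ⟨m, hm, rfl⟩ := Finset.mem_image.mp hn
              obtain ⟨e, he, hew⟩ := htouch
              rw [mem_bdSet] at he
              have hd : e.1.1 * i⁻¹ ∈ E₁ := by
                rcases hew with h | h | h | h
                · rw [h]; simp [hE₁]
                · rw [h]; simp [hE₁]
                · have h3 := nbx_sym x _ _ he.2.1
                  rw [h] at h3
                  obtain ⟨s, hs, _, hs2⟩ := mem_nbx_true.mp h3
                  rw [hs2]
                  simp only [mul_inv_cancel_right, hE₁, Finset.mem_union]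
                  exact Or.inl (Or.inr hs)
                · have h3 := nbx_sym x _ _ he.2.1
                  rw [h] at h3
                  obtain ⟨s, hs, _, hs2⟩ := mem_nbx_false.mp h3
                  rw [hs2]
                  simp only [hE₁, Finset.mem_union]
                  right
                  rw [Finset.mem_image]
                  exact ⟨s, hs, by group⟩
              have h4 := hΦ m hm e.1 he.1
              simp only [tr_apply]
              have h5 : m.1 * i⁻¹ = (m.1 * e.1.1⁻¹) * (e.1.1 * i⁻¹) := by group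
              rw [h5]
              exact Finset.mem_union_right _ (Finset.mem_image₂_of_mem h4 hd)
            · have h3 := hnew x hx D hc c (hold c)
              have h4 : (0 : ℤ) ≤ ((2 * K : ℕ) : ℤ)
                  * sl (nbx Edge S x) Prod.snd (live LA' LB' x) c D :=
                le_trans (Int.natCast_nonneg _) h3
              have h5 : (0 : ℤ) < ((2 * K : ℕ) : ℤ) := by
                have : 0 < 2 * K := by omega
                exact_mod_cast this
              exact nonneg_of_mul_nonneg_right h4 h5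
      · -- untouched sets
        push Not at htouch
        have h0 : bdR (nbx Edge S x) (live LA LB x \ live LA' LB' x) D = 0 := by
          rw [← card_bdSetR, Finset.card_eq_zero, Finset.eq_empty_iff_forall_notMem]
          intro e he
          rw [mem_filt] at he
          obtain ⟨he, hR⟩ := he
          have hRsite : ∀ n ∈ live LA LB x \ live LA' LB' x,
              ∃ i : G, i • x ∈ J ∧ (n = (i, true) ∨ n = (g * i, false)) := by
            rintro ⟨γ, c⟩ ⟨hn1, hn2⟩
            cases c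
            · rw [mem_live_false] at hn1 hn2
              have : g⁻¹ • γ • x ∈ J := by
                by_contra h
                exact hn2 ⟨hn1, h⟩
              refine ⟨g⁻¹ * γ, ?_, Or.inr ?_⟩
              · rw [mul_smul]
                exact this
              · simp
            · rw [mem_live_true] at hn1 hn2
              have : γ • x ∈ J := by
                by_contra h
                exact hn2 ⟨hn1, h⟩
              exact ⟨γ, this, Or.inl rfl⟩
          rcases hR with h | h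
          · obtain ⟨i, hi, h2⟩ := hRsite _ h
            have := htouch i hi e he
            tauto
          · obtain ⟨i, hi, h2⟩ := hRsite _ h
            have := htouch i hi e he
            tauto
        have h2 := hcmp x hx D c
        have h3 := hI.H x hx D c
        rw [h0] at h2
        push_cast at h2
        linarith
  · refine ⟨2 * K, by omega, Φ ∪ Finset.image₂ (fun a b => a * b⁻¹) ΨG ΨG, ?_⟩
    intro x hx D hD
    rcases hmain x hx D hD with ⟨i, hi, hi2⟩ | hc
    · left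
      intro n hn m hm
      obtain ⟨a, ha, rfl⟩ := Finset.mem_image.mp (hi2 hn)
      obtain ⟨b, hb, rfl⟩ := Finset.mem_image.mp (hi2 hm)
      apply Finset.mem_union_right
      rw [Finset.mem_image₂]
      refine ⟨a.1, Finset.mem_image_of_mem _ ha, b.1, Finset.mem_image_of_mem _ hb, ?_⟩
      simp only [tr_symm_apply]
      group
    · rcases hSl x hx D hD with hΦ | hold
      · left
        intro n hn m hm
        exact Finset.mem_union_left _ (hΦ n hn m hm)
      · right
        intro c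
        exact hnew x hx D hc c (hold c)

end Pool.Agent.Helper16.GM
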