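import Pool.Agent.Helper16.GMGraph
set_option autoImplicit false
set_option linter.unusedSectionVars false

namespace Pool.Agent.Helper16.GM

open Relation

variable {N : Type*} [DecidableEq N]

lemma rtg_mono {r s : N → N → Prop} (hrs : ∀ a b, r a b → s a b) {u v : N}
    (h : ReflTransGen r u v) : ReflTransGen s u v := by
  induction h with
  | refl => exact ReflTransGen.refl
  | tail _ hc ih => exact ih.tail (hrs _ _ hc)

lemma finite_path {r : N → N → Prop} {u v : N} (h : ReflTransGen r u v) :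
    ∃ Pi0 : Finset N, u ∈ Pi0 ∧ ReflTransGen (fun a b => a ∈ Pi0 ∧ b ∈ Pi0 ∧ r a b) u v := by
  induction h with
  | refl => exact ⟨{u}, by simp, ReflTransGen.refl⟩
  | tail hb hc ih =>
    rename_i b c
    obtain ⟨Pi0, h1, h2⟩ := ih
    refine ⟨insert b (insert c Pi0), by simp [h1], ?_⟩
    refine (rtg_mono ?_ h2).tail ⟨by simp, by simp, hc⟩
    rintro x y ⟨h3, h4, h5⟩
    exact ⟨by simp [h3], by simp [h4], h5⟩

/-- The relation of the graph without the edges in `T`. -/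
def rem (nb : N → Finset N) (T : Finset (N × N)) (a b : N) : Prop :=
  b ∈ nb a ∧ (a, b) ∉ T ∧ (b, a) ∉ T

lemma rem_symm {nb : N → Finset N} (hs : Sym nb) {T : Finset (N × N)} {a b : N}
    (h : ReflTransGen (rem nb T) a b) : ReflTransGen (rem nb T) b a := by
  induction h with
  | refl => exact ReflTransGen.refl
  | tail _ hc ih => exact (ReflTransGen.single ⟨hs _ _ hc.1, hc.2.2, hc.2.1⟩).trans ih

lemma exists_inf_part {nb : N → Finset N} (T : Finset (N × N)) (Q : Finset N) (u : N)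
    (hinf : {m | ReflTransGen (rem nb T) u m}.Infinite) :
    ∃ p, p ∉ Q ∧ ReflTransGen (rem nb T) u p ∧ (cmp nb (↑Q)ᶜ p).Infinite := by
  by_contra hcon
  push Not at hcon
  apply hinf
  have hsub : {m | ReflTransGen (rem nb T) u m} ⊆ ↑Q ∪
      ⋃ p ∈ {p | p ∈ insert u (Q.biUnion nb) ∧ (cmp nb (↑Q)ᶜ p).Finite}, cmp nb (↑Q)ᶜ p := by
    intro m hm
    by_cases hmQ : m ∈ Q
    · exact Or.inl hmQ
    right
    rw [Set.mem_iUnion₂]
    -- claim
    have key : ∀ m, ReflTransGen (rem nb T) u m → m ∉ Q →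
        ∃ p ∈ insert u (Q.biUnion nb), p ∉ Q ∧ ReflTransGen (rem nb T) u p ∧
          m ∈ cmp nb (↑Q)ᶜ p := by
      intro m hm
      induction hm with
      | refl =>
        intro h
        exact ⟨u, by simp, h, ReflTransGen.refl, Conn.rfl'⟩
      | tail hb hc ih =>
        rename_i b c
        intro hcQ
        by_cases hbQ : b ∈ Q
        · refine ⟨c, ?_, hcQ, hb.tail hc, Conn.rfl'⟩
          rw [Finset.mem_insert, Finset.mem_biUnion]
          exact Or.inr ⟨b, hbQ, hc.1⟩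
        · obtain ⟨p, hp, hpQ, hup, hpb⟩ := ih hbQ
          exact ⟨p, hp, hpQ, hup, Conn.trans' hpb (Conn.single' hbQ hcQ hc.1)⟩
    obtain ⟨p, hp, hpQ, hup, hpm⟩ := key m hm hmQ
    refine ⟨p, ⟨hp, ?_⟩, hpm⟩
    by_contra hinf'
    exact hinf' (hcon p hpQ hup)
  refine Set.Finite.subset ?_ hsub
  refine (Finset.finite_toSet Q).union (Set.Finite.biUnion ?_ ?_)
  · exact (Finset.finite_toSet (insert u (Q.biUnion nb))).subset fun p hp => hp.1
  · rintro p ⟨_, hp⟩
    exact hp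

lemma conn_to_rem {nb : N → Finset N} {T : Finset (N × N)} {Q : Finset N}
    (hQ : ∀ e ∈ T, e.1 ∈ Q ∧ e.2 ∈ Q) {a b : N} (h : Conn nb (↑Q)ᶜ a b) :
    ReflTransGen (rem nb T) a b := by
  induction h with
  | refl => exact ReflTransGen.refl
  | tail _ hc ih =>
    refine ih.tail ⟨hc.2.2, fun h => hc.1 (hQ _ h).1, fun h => hc.2.1 (hQ _ h).1⟩

/-- The finite certificate for a set of removed edges. -/
lemma exists_cert {nb : N → Finset N} (hs : Sym nb) (hOE : OneEnded nb) (u v : N)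
    (huv : v ∈ nb u) (T : Finset (N × N)) :
    ∃ Pi0 : Finset N, u ∈ Pi0 ∧ ReflTransGen (fun a b => a ∈ Pi0 ∧ b ∈ Pi0 ∧ rem nb T a b) u v ∨
      (∀ m, m ∈ Pi0 ↔ ReflTransGen (rem nb T) u m) ∨
      (∀ m, m ∈ Pi0 ↔ ReflTransGen (rem nb T) v m) := by
  classical
  by_cases h : ReflTransGen (rem nb T) u v
  · obtain ⟨Pi0, h1, h2⟩ := finite_path h
    exact ⟨Pi0, Or.inl ⟨h1, h2⟩⟩
  by_cases hu : {m | ReflTransGen (rem nb T) u m}.Finite
  · refine ⟨hu.toFinset, Or.inr (Or.inl fun m => ?_)⟩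
    rw [Set.Finite.mem_toFinset]
    rfl
  by_cases hv : {m | ReflTransGen (rem nb T) v m}.Finite
  · refine ⟨hv.toFinset, Or.inr (Or.inr fun m => ?_)⟩
    rw [Set.Finite.mem_toFinset]
    rfl
  exfalso
  apply h
  set Q : Finset N := T.image Prod.fst ∪ T.image Prod.snd with hQdef
  have hQ : ∀ e ∈ T, e.1 ∈ Q ∧ e.2 ∈ Q := by
    intro e he
    constructor
    · exact Finset.mem_union_left _ (Finset.mem_image_of_mem _ he)
    · exact Finset.mem_union_right _ (Finset.mem_image_of_mem _ he)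
  obtain ⟨p, hpQ, hup, hpinf⟩ := exists_inf_part T Q u hu
  obtain ⟨q, hqQ, hvq, hqinf⟩ := exists_inf_part T Q v hv
  have hrem : ∀ a b, ReflTransGen (rem nb T) a b → Conn nb Set.univ a b := by
    intro a b hab
    induction hab with
    | refl => exact Conn.rfl'
    | tail _ hc ih => exact ih.trans' (Conn.single' trivial trivial hc.1)
  have hpq : Conn nb Set.univ p q := by
    refine ((hrem _ _ hup).symm' hs).trans' ?_
    have huv' : Conn nb Set.univ u v := Conn.single' trivial trivial huv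
    exact huv'.trans' (hrem _ _ hvq)
  have := hOE Q p q hpq hpQ hqQ hpinf hqinf
  exact hup.trans ((conn_to_rem hQ this).trans (rem_symm hs hvq))

lemma closed_aux {nb : N → Finset N} {T : Finset (N × N)} {D Pi0 : Finset N}
    (hD : CC nb D) (hT : ∀ e ∈ T, e.1 ∈ D ∧ e.2 ∉ D)
    (hcl : ∀ a ∈ Pi0, ∀ b ∈ nb a, b ∉ Pi0 → (a, b) ∈ T ∨ (b, a) ∈ T) {w : N} (hw : w ∈ Pi0) :
    (w ∈ D → D ⊆ Pi0) ∧
    (w ∉ D → ∀ d ∈ D, Conn nb Set.univ d w → ∀ m, Conn nb Set.univ d m → m ∈ D ∪ Pi0) := by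
  constructor
  · intro hwD d hd
    by_contra hdPi0
    obtain ⟨a, b, _, ha, hb, haD, hbD, hab⟩ := exists_crossing (P := (↑Pi0 : Set N))
      (hD.conn w hwD d hd) hw hdPi0
    rcases hcl a ha b hab hb with h | h
    · exact (hT _ h).2 hbD
    · exact (hT _ h).2 haD
  · intro hwD d hd hdw m hdm
    rw [Finset.mem_union]
    by_contra hcon
    rw [not_or] at hcon
    obtain ⟨a, b, _, ha, hb, haD, hbD, hab⟩ := exists_crossing (P := (↑Pi0 : Set N))
      (hD.coconn d hd w m hwD hcon.1 hdw hdm) hw hcon.2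
    rcases hcl a ha b hab hb with h | h
    · exact haD (hT _ h).1
    · exact hbD (hT _ h).1

theorem tight_cut {nb₀ : N → Finset N} (hs₀ : Sym nb₀) (hOE : OneEnded nb₀) (u v : N)
    (huv : v ∈ nb₀ u) (k : ℕ) :
    ∃ Ψ : Finset N, u ∈ Ψ ∧ ∀ nb : N → Finset N, Sym nb → (∀ n ∈ Ψ, nb n = nb₀ n) →
      (cmp nb Set.univ u).Infinite → ∀ D : Finset N, CC nb D →
        ((u ∈ D ∧ v ∉ D) ∨ (v ∈ D ∧ u ∉ D)) →
        D ⊆ Ψ ∨ ∃ T : Finset (N × N), T.card = k ∧
          ∀ e ∈ T, (e.1 ∈ Ψ ∧ e.2 ∈ Ψ) ∧ e.1 ∈ D ∧ e.2 ∉ D ∧ e.2 ∈ nb e.1 := by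
  classical
  induction k with
  | zero =>
    refine ⟨{u}, by simp, ?_⟩
    intro nb _ _ _ D _ _
    exact Or.inr ⟨∅, by simp, by simp⟩
  | succ k ih =>
    obtain ⟨Ψ, huΨ, hΨ⟩ := ih
    choose Pi0 hPi0 using exists_cert hs₀ hOE u v huv
    set Ψ' : Finset N := Ψ ∪ ((Ψ ×ˢ Ψ).powerset).biUnion Pi0 with hΨ'
    have hsub : Ψ ⊆ Ψ' := Finset.subset_union_left
    refine ⟨Ψ', hsub huΨ, ?_⟩
    intro nb hs hag hinf D hD hcut
    rcases hΨ nb hs (fun n hn => hag n (hsub hn)) hinf D hD hcut with h | ⟨T, hTc, hT⟩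
    · exact Or.inl (h.trans hsub)
    have hTsub : T ∈ (Ψ ×ˢ Ψ).powerset := by
      rw [Finset.mem_powerset]
      intro e he
      rw [Finset.mem_product]
      exact (hT e he).1
    have hPsub : Pi0 T ⊆ Ψ' := fun x hx =>
      Finset.mem_union_right _ (Finset.mem_biUnion.mpr ⟨T, hTsub, hx⟩)
    have hT' : ∀ e ∈ T, e.1 ∈ D ∧ e.2 ∉ D := fun e he => ⟨(hT e he).2.1, (hT e he).2.2.1⟩
    have hvu : v ∈ nb u := by
      rw [hag u (hsub huΨ)]
      exact huv
    have huvc : Conn nb Set.univ u v := Conn.single' trivial trivial hvu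
    rcases hPi0 T with ⟨_, h⟩ | h | h
    · -- path case
      right
      have hex : ∃ p q, p ∈ Pi0 T ∧ q ∈ Pi0 T ∧ p ∈ D ∧ q ∉ D ∧ q ∈ nb p ∧ (p, q) ∉ T := by
        rcases hcut with ⟨h1, h2⟩ | ⟨h1, h2⟩
        · obtain ⟨p, q, _, hp, hq, hpPi0, hqPi0, hpq⟩ := exists_crossing (P := (↑D : Set N)) h h1 h2
          refine ⟨p, q, hpPi0, hqPi0, hp, hq, ?_, hpq.2.1⟩
          rw [hag p (hPsub hpPi0)]
          exact hpq.1
        · obtain ⟨p, q, _, hp, hq, hpPi0, hqPi0, hpq⟩ := exists_crossing (P := (↑D : Set N)ᶜ) h h2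
            (by simpa using h1)
          refine ⟨q, p, hqPi0, hpPi0, by simpa using hq, hp, ?_, hpq.2.2⟩
          rw [hag q (hPsub hqPi0)]
          exact hs₀ _ _ hpq.1
      obtain ⟨p, q, hpPi0, hqPi0, hp, hq, hpq, hnT⟩ := hex
      refine ⟨insert (p, q) T, ?_, ?_⟩
      · rw [Finset.card_insert_of_notMem hnT, hTc]
      · intro e he
        rw [Finset.mem_insert] at he
        rcases he with rfl | he
        · exact ⟨⟨hPsub hpPi0, hPsub hqPi0⟩, hp, hq, hpq⟩
        · obtain ⟨⟨h1, h2⟩, h3⟩ := hT e he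
          exact ⟨⟨hsub h1, hsub h2⟩, h3⟩
    · -- finite component of u
      have huPi0 : u ∈ Pi0 T := (h u).mpr ReflTransGen.refl
      have hcl : ∀ a ∈ Pi0 T, ∀ b ∈ nb a, b ∉ Pi0 T → (a, b) ∈ T ∨ (b, a) ∈ T := by
        intro a ha b hab hb
        by_contra hcon
        rw [not_or] at hcon
        apply hb
        rw [h]
        refine ((h a).mp ha).tail ⟨?_, hcon.1, hcon.2⟩
        rw [← hag a (hPsub ha)]
        exact hab
      obtain ⟨h1, h2⟩ := closed_aux hD hT' hcl huPi0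
      rcases hcut with ⟨hu, _⟩ | ⟨hv, hu⟩
      · exact Or.inl ((h1 hu).trans hPsub)
      · exfalso
        apply hinf
        refine (Finset.finite_toSet (D ∪ Pi0 T)).subset ?_
        intro m hm
        exact h2 hu v hv (huvc.symm' hs) m ((huvc.symm' hs).trans' hm)
    · -- finite component of v
      have hvPi0 : v ∈ Pi0 T := (h v).mpr ReflTransGen.refl
      have hcl : ∀ a ∈ Pi0 T, ∀ b ∈ nb a, b ∉ Pi0 T → (a, b) ∈ T ∨ (b, a) ∈ T := by
        intro a ha b hab hb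
        by_contra hcon
        rw [not_or] at hcon
        apply hb
        rw [h]
        refine ((h a).mp ha).tail ⟨?_, hcon.1, hcon.2⟩
        rw [← hag a (hPsub ha)]
        exact hab
      obtain ⟨h1, h2⟩ := closed_aux hD hT' hcl hvPi0
      rcases hcut with ⟨hu, hv⟩ | ⟨hv, _⟩
      · exfalso
        apply hinf
        refine (Finset.finite_toSet (D ∪ Pi0 T)).subset ?_
        intro m hm
        exact h2 hv u hu huvc m hm
      · exact Or.inl ((h1 hv).trans hPsub)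

end Pool.Agent.Helper16.GM
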