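import Pool.Agent.Helper16.GMIso
import Pool.Agent.Helper16.GMTight
set_option autoImplicit false
set_option linter.unusedSectionVars false

namespace Pool.Agent.Helper16.GM

open Relation Filter Topology

variable {G : Type*} [Group G] [MulAction G ℝ] [DecidableEq G]

open Classical in
/-- The graph of names at the point `x`. -/
noncomputable def nbx (Edge : ℝ → ℝ → Prop) (S : Finset G) (x : ℝ) :
    G × Bool → Finset (G × Bool)
  | (γ, true) => (S.filter (fun g => Edge (γ • x) ((g * γ) • x))).image (fun g => (g * γ, false))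
  | (γ, false) => (S.filter (fun g => Edge ((g⁻¹ * γ) • x) (γ • x))).image
      (fun g => (g⁻¹ * γ, true))

variable {Edge : ℝ → ℝ → Prop} {S : Finset G}

lemma mem_nbx_true {x : ℝ} {γ : G} {m : G × Bool} :
    m ∈ nbx Edge S x (γ, true) ↔ ∃ g ∈ S, Edge (γ • x) ((g * γ) • x) ∧ m = (g * γ, false) := by
  unfold nbx
  simp only [Finset.mem_image, Finset.mem_filter]
  constructor
  · rintro ⟨g, ⟨h1, h2⟩, h3⟩
    exact ⟨g, h1, h2, h3.symm⟩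
  · rintro ⟨g, h1, h2, h3⟩
    exact ⟨g, ⟨h1, h2⟩, h3.symm⟩

lemma mem_nbx_false {x : ℝ} {γ : G} {m : G × Bool} :
    m ∈ nbx Edge S x (γ, false) ↔ ∃ g ∈ S, Edge ((g⁻¹ * γ) • x) (γ • x) ∧ m = (g⁻¹ * γ, true) := by
  unfold nbx
  simp only [Finset.mem_image, Finset.mem_filter]
  constructor
  · rintro ⟨g, ⟨h1, h2⟩, h3⟩
    exact ⟨g, h1, h2, h3.symm⟩
  · rintro ⟨g, h1, h2, h3⟩
    exact ⟨g, ⟨h1, h2⟩, h3.symm⟩

lemma nbx_sym (x : ℝ) : Sym (nbx Edge S x) := by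
  rintro ⟨γ, c⟩ m h
  cases c
  · obtain ⟨g, hg, he, rfl⟩ := mem_nbx_false.mp h
    rw [mem_nbx_true]
    exact ⟨g, hg, by simpa using he, by simp⟩
  · obtain ⟨g, hg, he, rfl⟩ := mem_nbx_true.mp h
    rw [mem_nbx_false]
    refine ⟨g, hg, ?_, by simp⟩
    rw [inv_mul_cancel_left]
    exact he

lemma nbx_bip (x : ℝ) : Bip (nbx Edge S x) Prod.snd := by
  rintro ⟨γ, c⟩ m h
  cases c
  · obtain ⟨g, hg, he, rfl⟩ := mem_nbx_false.mp h
    rfl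
  · obtain ⟨g, hg, he, rfl⟩ := mem_nbx_true.mp h
    rfl

lemma nbx_card (x : ℝ) (n : G × Bool) : (nbx Edge S x n).card ≤ S.card := by
  classical
  obtain ⟨γ, c⟩ := n
  cases c
  · exact Finset.card_image_le.trans (Finset.card_filter_le _ _)
  · exact Finset.card_image_le.trans (Finset.card_filter_le _ _)

/-- Translation of names. -/
def tr (h : G) : G × Bool ≃ G × Bool := (Equiv.mulRight h⁻¹).prodCongr (Equiv.refl _)

@[simp] lemma tr_apply (h : G) (n : G × Bool) : tr h n = (n.1 * h⁻¹, n.2) := rfl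

@[simp] lemma tr_symm_apply (h : G) (n : G × Bool) : (tr h).symm n = (n.1 * h, n.2) := by
  rw [Equiv.symm_apply_eq]
  simp

lemma nbx_iso (h : G) (x : ℝ) : GIso (nbx Edge S x) (nbx Edge S (h • x)) (tr h) := by
  rintro ⟨γ, c⟩
  ext m
  rw [Finset.mem_image]
  have key : ∀ k : G, (k * h⁻¹) • h • x = k • x := by
    intro k
    rw [smul_smul, inv_mul_cancel_right]
  cases c
  · simp only [tr_apply]
    rw [mem_nbx_false]
    constructor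
    · rintro ⟨g, hg, he, rfl⟩
      refine ⟨(g⁻¹ * γ, true), ?_, by simp [mul_assoc]⟩
      rw [mem_nbx_false]
      refine ⟨g, hg, ?_, rfl⟩
      rw [← mul_assoc, key, key] at he
      exact he
    · rintro ⟨a, ha, rfl⟩
      obtain ⟨g, hg, he, rfl⟩ := mem_nbx_false.mp ha
      refine ⟨g, hg, ?_, by simp [mul_assoc]⟩
      rw [← mul_assoc, key, key]
      exact he
  · simp only [tr_apply]
    rw [mem_nbx_true]
    constructor
    · rintro ⟨g, hg, he, rfl⟩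
      refine ⟨(g * γ, false), ?_, by simp [mul_assoc]⟩
      rw [mem_nbx_true]
      refine ⟨g, hg, ?_, rfl⟩
      rw [← mul_assoc, key, key] at he
      exact he
    · rintro ⟨a, ha, rfl⟩
      obtain ⟨g, hg, he, rfl⟩ := mem_nbx_true.mp ha
      refine ⟨g, hg, ?_, by simp [mul_assoc]⟩
      rw [← mul_assoc, key, key]
      exact he

/-- The alive names at `x`. -/
def live (LA LB : Set ℝ) (x : ℝ) : Set (G × Bool) :=
  {n | (n.2 = true ∧ n.1 • x ∈ LA) ∨ (n.2 = false ∧ n.1 • x ∈ LB)}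

lemma mem_live_true {LA LB : Set ℝ} {x : ℝ} {γ : G} :
    (γ, true) ∈ live LA LB x ↔ γ • x ∈ LA := by
  simp [live]

lemma mem_live_false {LA LB : Set ℝ} {x : ℝ} {γ : G} :
    (γ, false) ∈ live LA LB x ↔ γ • x ∈ LB := by
  simp [live]

lemma tr_mem_live {LA LB : Set ℝ} {x : ℝ} {h : G} (n : G × Bool) :
    tr h n ∈ live LA LB (h • x) ↔ n ∈ live LA LB x := by
  have key : ∀ k : G, (k * h⁻¹) • h • x = k • x := by
    intro k
    rw [smul_smul, inv_mul_cancel_right]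
  simp only [live, Set.mem_ofPred_eq, tr_apply, key]

/-- The standing assumptions. -/
structure Sys (X : Set ℝ) (Edge : ℝ → ℝ → Prop) (S : Finset G) : Prop where
  inv : ∀ (g : G), ∀ x ∈ X, g • x ∈ X
  free : ∀ (g : G), ∀ x ∈ X, g • x = x → g = 1
  cont : ∀ g : G, Continuous (fun x : ℝ => g • x)
  irr : ∀ q : ℚ, (q : ℝ) ∉ X
  tame : ∀ g ∈ S, ∀ x ∈ X, ∀ᶠ y in 𝓝[X] x, (Edge y (g • y) ↔ Edge x (g • x))
  oe : ∀ x ∈ X, OneEnded (nbx Edge S x)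
  inf : ∀ x ∈ X, ∀ n, (nbx Edge S x n).Nonempty → (cmp (nbx Edge S x) Set.univ n).Infinite

/-- The invariant of the construction. -/
structure Inv (X : Set ℝ) (Edge : ℝ → ℝ → Prop) (S : Finset G) (LA LB : Set ℝ) : Prop where
  tA : ∀ x ∈ X, ∀ᶠ y in 𝓝[X] x, (y ∈ LA ↔ x ∈ LA)
  tB : ∀ x ∈ X, ∀ᶠ y in 𝓝[X] x, (y ∈ LB ↔ x ∈ LB)
  ne : ∀ x ∈ X, ∀ n ∈ live (G := G) LA LB x, (nbx Edge S x n).Nonempty
  H : ∀ x ∈ X, ∀ D c, 0 ≤ sl (nbx Edge S x) Prod.snd (live LA LB x) c D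
  S : ∃ K : ℕ, 1 ≤ K ∧ ∃ Φ : Finset G, ∀ x ∈ X, ∀ D, CC (nbx Edge S x) D →
    (∀ n ∈ D, ∀ m ∈ D, n.1 * m.1⁻¹ ∈ Φ) ∨
      ∀ c, (bd (nbx Edge S x) D : ℤ) ≤ K * sl (nbx Edge S x) Prod.snd (live LA LB x) c D

lemma Sys.tendsto {X : Set ℝ} (hS : Sys X Edge S) (g : G) {x : ℝ} :
    Tendsto (fun y : ℝ => g • y) (𝓝[X] x) (𝓝[X] (g • x)) := by
  refine tendsto_nhdsWithin_iff.mpr ⟨?_, ?_⟩
  · exact ((hS.cont g).tendsto x).mono_left nhdsWithin_le_nhds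
  · filter_upwards [self_mem_nhdsWithin] with y hy
    exact hS.inv g y hy

/-- Local constancy of the graph. -/
lemma Sys.ev_nbx {X : Set ℝ} (hS : Sys X Edge S) {x : ℝ} (hx : x ∈ X) (n : G × Bool) :
    ∀ᶠ y in 𝓝[X] x, nbx Edge S y n = nbx Edge S x n := by
  obtain ⟨γ, c⟩ := n
  cases c
  · have : ∀ᶠ y in 𝓝[X] x, ∀ g ∈ S, (Edge ((g⁻¹ * γ) • y) (γ • y) ↔ Edge ((g⁻¹ * γ) • x) (γ • x)) := by
      rw [Filter.eventually_all_finset]
      intro g hg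
      have h1 := (hS.tendsto (g⁻¹ * γ) (x := x)).eventually (hS.tame g hg _ (hS.inv (g⁻¹ * γ) x hx))
      filter_upwards [h1] with y hy
      simpa [smul_smul] using hy
    filter_upwards [this] with y hy
    ext m
    rw [mem_nbx_false, mem_nbx_false]
    constructor
    · rintro ⟨g, hg, he, rfl⟩
      exact ⟨g, hg, (hy g hg).mp he, rfl⟩
    · rintro ⟨g, hg, he, rfl⟩
      exact ⟨g, hg, (hy g hg).mpr he, rfl⟩
  · have : ∀ᶠ y in 𝓝[X] x, ∀ g ∈ S, (Edge (γ • y) ((g * γ) • y) ↔ Edge (γ • x) ((g * γ) • x)) := by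
      rw [Filter.eventually_all_finset]
      intro g hg
      have h1 := (hS.tendsto γ (x := x)).eventually (hS.tame g hg _ (hS.inv γ x hx))
      filter_upwards [h1] with y hy
      simpa [smul_smul] using hy
    filter_upwards [this] with y hy
    ext m
    rw [mem_nbx_true, mem_nbx_true]
    constructor
    · rintro ⟨g, hg, he, rfl⟩
      exact ⟨g, hg, (hy g hg).mp he, rfl⟩
    · rintro ⟨g, hg, he, rfl⟩
      exact ⟨g, hg, (hy g hg).mpr he, rfl⟩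

/-- The tight cut lemma at a vertex. -/
lemma tight_vertex {N : Type*} [DecidableEq N] {nb₀ : N → Finset N} (hs₀ : Sym nb₀)
    (hOE : OneEnded nb₀) (w : N) (k : ℕ) :
    ∃ Ψ : Finset N, w ∈ Ψ ∧ ∀ nb : N → Finset N, Sym nb → (∀ n ∈ Ψ, nb n = nb₀ n) →
      (cmp nb Set.univ w).Infinite → ∀ D : Finset N, CC nb D →
        (∃ e ∈ bdSet nb D, e.1 = w ∨ e.2 = w) →
        D ⊆ Ψ ∨ ∃ T : Finset (N × N), T.card = k ∧
          ∀ e ∈ T, (e.1 ∈ Ψ ∧ e.2 ∈ Ψ) ∧ e.1 ∈ D ∧ e.2 ∉ D ∧ e.2 ∈ nb e.1 := by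
  classical
  have hex : ∀ m : N, ∃ Ψ : Finset N, m ∈ nb₀ w → ∀ nb : N → Finset N, Sym nb →
      (∀ n ∈ Ψ, nb n = nb₀ n) →
      (cmp nb Set.univ w).Infinite → ∀ D : Finset N, CC nb D →
        ((w ∈ D ∧ m ∉ D) ∨ (m ∈ D ∧ w ∉ D)) →
        D ⊆ Ψ ∨ ∃ T : Finset (N × N), T.card = k ∧
          ∀ e ∈ T, (e.1 ∈ Ψ ∧ e.2 ∈ Ψ) ∧ e.1 ∈ D ∧ e.2 ∉ D ∧ e.2 ∈ nb e.1 := by
    intro m
    by_cases hm : m ∈ nb₀ w
    · obtain ⟨Ψ, _, h⟩ := tight_cut hs₀ hOE w m hm k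
      exact ⟨Ψ, fun _ => h⟩
    · exact ⟨∅, fun h => absurd h hm⟩
  choose Ψ hΨ using hex
  refine ⟨insert w ((nb₀ w).biUnion Ψ), by simp, ?_⟩
  intro nb hs hag hinf D hD ⟨e, he, hew⟩
  rw [mem_bdSet] at he
  have hag' : ∀ m ∈ nb₀ w, ∀ n ∈ Ψ m, nb n = nb₀ n := by
    intro m hm n hn
    exact hag n (Finset.mem_insert_of_mem (Finset.mem_biUnion.mpr ⟨m, hm, hn⟩))
  have hw : nb w = nb₀ w := hag w (by simp)
  have main : ∀ m ∈ nb₀ w, ((w ∈ D ∧ m ∉ D) ∨ (m ∈ D ∧ w ∉ D)) →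
      D ⊆ insert w ((nb₀ w).biUnion Ψ) ∨ ∃ T : Finset (N × N), T.card = k ∧
          ∀ e ∈ T, (e.1 ∈ insert w ((nb₀ w).biUnion Ψ) ∧ e.2 ∈ insert w ((nb₀ w).biUnion Ψ)) ∧
            e.1 ∈ D ∧ e.2 ∉ D ∧ e.2 ∈ nb e.1 := by
    intro m hm hcut
    have hsub : Ψ m ⊆ insert w ((nb₀ w).biUnion Ψ) := fun n hn =>
      Finset.mem_insert_of_mem (Finset.mem_biUnion.mpr ⟨m, hm, hn⟩)
    rcases hΨ m hm nb hs (hag' m hm) hinf D hD hcut with h | ⟨T, hT1, hT2⟩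
    · exact Or.inl (h.trans hsub)
    · exact Or.inr ⟨T, hT1, fun e he => ⟨⟨hsub (hT2 e he).1.1, hsub (hT2 e he).1.2⟩, (hT2 e he).2⟩⟩
  rcases hew with h | h
  · apply main e.2
    · rw [← hw, ← h]
      exact he.2.1
    · left
      rw [← h]
      exact ⟨he.1, he.2.2⟩
  · apply main e.1
    · rw [← hw, ← h]
      exact hs _ _ he.2.1
    · right
      rw [← h]
      exact ⟨he.1, he.2.2⟩

end Pool.Agent.Helper16.GM
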