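import Pool.Agent.Helper16.GMMain
set_option autoImplicit false
set_option linter.unusedSectionVars false

namespace Pool.Agent.Helper16.GM

/-- The action of the isometry group on the line. -/
instance isoAct : MulAction (ℝ ≃ᵢ ℝ) ℝ where
  smul g x := g x
  one_smul _ := rfl
  mul_smul _ _ _ := rfl

lemma iso_smul (g : ℝ ≃ᵢ ℝ) (x : ℝ) : g • x = g x := rfl

/-- Isometries of the line are translations or reflections. -/
lemma real_iso (g : ℝ ≃ᵢ ℝ) : (∃ c : ℝ, ∀ x : ℝ, g x = x + c) ∨ (∃ c : ℝ, ∀ x : ℝ, g x = c - x) := by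
  have hd : ∀ x y : ℝ, |g x - g y| = |x - y| := by
    intro x y
    have := g.isometry.dist_eq x y
    rwa [Real.dist_eq, Real.dist_eq] at this
  have hsq : ∀ x y : ℝ, (g x - g y) ^ 2 = (x - y) ^ 2 := by
    intro x y
    rw [← sq_abs (g x - g y), hd, sq_abs]
  have h10 := hsq 1 0
  have h1 : (g 1 - g 0 - 1) * (g 1 - g 0 + 1) = 0 := by linarith
  have hx0 : ∀ x, (g x - g 0) ^ 2 = x ^ 2 := fun x => by simpa using hsq x 0
  have hx1 : ∀ x, (g x - g 1) ^ 2 = (x - 1) ^ 2 := fun x => hsq x 1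
  rcases mul_eq_zero.mp h1 with h | h
  · left
    refine ⟨g 0, ?_⟩
    intro x
    have e1 := hx0 x
    have e2 := hx1 x
    have e3 : g 1 = g 0 + 1 := by linarith
    rw [e3] at e2
    linarith
  · right
    refine ⟨g 0, ?_⟩
    intro x
    have e1 := hx0 x
    have e2 := hx1 x
    have e3 : g 1 = g 0 - 1 := by linarith
    rw [e3] at e2
    linarith

lemma exists_avoid {E : Set ℝ} (hE : E.Countable) {η : ℝ} (hη : 0 < η) :
    ∃ t : ℝ, 0 < t ∧ t < η ∧ t ∉ E := by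
  obtain ⟨t, ht, htE⟩ := (hE.dense_compl ℝ).inter_open_nonempty _ isOpen_Ioo
    (Set.nonempty_Ioo.mpr hη)
  exact ⟨t, ht.1, ht.2, htE⟩

lemma exists_indep {η : ℝ} (hη : 0 < η) : ∃ t₁ t₂ : ℝ, (0 < t₁ ∧ t₁ < η) ∧ (0 < t₂ ∧ t₂ < η) ∧
    ∀ m n k : ℤ, (m : ℝ) * t₁ + n * t₂ + k * η = 0 → m = 0 ∧ n = 0 := by
  obtain ⟨t₁, h1, h2, h3⟩ := exists_avoid
    (Set.countable_range (fun p : ℤ × ℤ => -((p.2 : ℝ) * η) / p.1)) hη
  obtain ⟨t₂, h4, h5, h6⟩ := exists_avoid
    (Set.countable_range (fun p : ℤ × ℤ × ℤ => -((p.1 : ℝ) * t₁ + p.2.2 * η) / p.2.1)) hη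
  refine ⟨t₁, t₂, ⟨h1, h2⟩, ⟨h4, h5⟩, ?_⟩
  intro m n k h
  have hn : n = 0 := by
    by_contra hn
    apply h6
    refine ⟨(m, n, k), ?_⟩
    have hn' : (n : ℝ) ≠ 0 := by exact_mod_cast hn
    simp only
    rw [div_eq_iff hn']
    linarith
  refine ⟨?_, hn⟩
  by_contra hm
  apply h3
  refine ⟨(m, k), ?_⟩
  have hm' : (m : ℝ) ≠ 0 := by exact_mod_cast hm
  rw [hn] at h
  simp only
  rw [div_eq_iff hm']
  push_cast at h
  linarith

/-- The main case. -/
theorem top {A B : Set ℝ} {n : ℕ} (P : Fin n → Set ℝ) (g : Fin n → (ℝ ≃ᵢ ℝ)) (s t : ℝ)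
    (hA : interior (closure A) = A) (hAb : Bornology.IsBounded A)
    (hB : interior (closure B) = B)
    (hP : ∀ i, interior (closure (P i)) = P i)
    (hPd : Pairwise (fun i j => Disjoint (P i) (P j)))
    (hQd : Pairwise (fun i j => Disjoint ((g i) '' (P i)) ((g j) '' (P j))))
    (hs : Disjoint A ((fun x => x + s) '' A)) (ht : Disjoint B ((fun x => x + t) '' B))
    (h1 : interior (closure (⋃ i, P i)) = interior (closure (A ∪ (fun x => x + s) '' A)))
    (h2 : interior (closure (⋃ i, (g i) '' (P i)))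
      = interior (closure (B ∪ (fun x => x + t) '' B)))
    (hne : A.Nonempty) :
    ∃ n : ℕ, ∃ P : Fin n → Set ℝ, ∃ g : Fin n → (ℝ ≃ᵢ ℝ),
          (∀ i, interior (closure (P i)) = P i ∧ Bornology.IsBounded (P i)) ∧
          Pairwise (fun i j => Disjoint (P i) (P j)) ∧
          Pairwise (fun i j => Disjoint ((g i) '' (P i)) ((g j) '' (P j))) ∧
          interior (closure (⋃ i, P i)) = A ∧
          interior (closure (⋃ i, (g i) '' (P i))) = B := by
  classical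
  obtain ⟨a, ha⟩ := hne
  obtain ⟨ε, hε, hεA⟩ := Metric.isOpen_iff.mp (open_of_reg hA) a ha
  have hη : 0 < 2 * ε := by linarith
  obtain ⟨t₁, t₂, ht1, ht2, hindep⟩ := exists_indep hη
  have hI0 : Set.Ioo (a - ε) (a - ε + 2 * ε) ⊆ A := by
    intro x hx
    apply hεA
    rw [Metric.mem_ball, Real.dist_eq, abs_lt]
    constructor
    · linarith [hx.1]
    · linarith [hx.2]
  -- the group
  set f : Fin n ⊕ Fin 5 → (ℝ ≃ᵢ ℝ) := Sum.elim g
    ![IsometryEquiv.addRight s, IsometryEquiv.addRight t, IsometryEquiv.addRight t₁,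
      IsometryEquiv.addRight t₂, IsometryEquiv.addRight (2 * ε)] with hf
  set H : Subgroup (ℝ ≃ᵢ ℝ) := (FreeGroup.lift f).range with hH
  have hcount : Countable H := (FreeGroup.lift f).rangeRestrict_surjective.countable
  have hmem : ∀ i, f i ∈ H := by
    intro i
    rw [hH]
    exact ⟨FreeGroup.of i, by simp⟩
  set e : Fin n ⊕ Fin 5 → H := fun i => ⟨f i, hmem i⟩ with he
  have hact : ∀ (k : H) (x : ℝ), k • x = (k : ℝ ≃ᵢ ℝ) x := fun _ _ => rfl
  obtain ⟨S, Q, q1, q2, q3, q4, q5⟩ := main_G (G := H) (A := A) (B := B) P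
    (fun b => if b then e (Sum.inr 0) else 1) (fun b => if b then e (Sum.inr 1) else 1)
    (fun i => e (Sum.inl i)) (e (Sum.inr 2)) (e (Sum.inr 3)) (e (Sum.inr 4)) s t t₁ t₂ (2 * ε)
    (a - ε) (fun k => real_iso (k : ℝ ≃ᵢ ℝ))
    (fun k hk => Subtype.ext (IsometryEquiv.ext fun x => hk x))
    hA hAb hB hP hPd hQd hs ht h1 h2 rfl (fun x => rfl) rfl (fun x => rfl) (fun x => rfl)
    (fun x => rfl) (fun x => rfl) ht1 ht2 hindep hI0
  refine ⟨S.card, fun i => Q (S.equivFin.symm i), fun i => ((S.equivFin.symm i : S) : H), ?_, ?_,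
    ?_, ?_, ?_⟩
  · intro i
    exact ⟨(q1 _).1, hAb.subset (q1 _).2⟩
  · intro i j hij
    exact q2 (fun h => hij (S.equivFin.symm.injective h))
  · intro i j hij
    exact q3 (fun h => hij (S.equivFin.symm.injective h))
  · rw [← q4]
    congr 2
    exact S.equivFin.symm.surjective.iUnion_comp (fun i => Q i)
  · rw [← q5]
    congr 2
    exact S.equivFin.symm.surjective.iUnion_comp (fun i : S => (fun x : ℝ => (i : H) • x) '' (Q i))

end Pool.Agent.Helper16.GM
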