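import Mathlib

/-!
# The power trick for configurations of squares of forms

`Conf x y`: the points `y k` and the linear forms `x i` of a real vector space `V`, such that every
linear combination of the rows `((x i (y l)) ^ 2)_i` that vanishes on the forms through `y k` is a
multiple of the row of `k`, and the forms through `y k` have the line of `y k` as common zeros.

A bound `card κ ≤ C * a ^ dim V`, valid for all configurations, improves itself to
`card κ ≤ a ^ (n - 1) + ... + a + 1`.
-/

namespace Pool.Agent.Helper16.PsdPower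

open Finset

/-- Configurations of points and forms. -/
structure Conf {ι κ V : Type} [Fintype κ] [AddCommGroup V] [Module ℝ V]
    (x : ι → Module.Dual ℝ V) (y : κ → V) : Prop where
  fac : ∀ (k : κ) (c : κ → ℝ), (∀ i, x i (y k) = 0 → ∑ l, c l * (x i (y l)) ^ 2 = 0) →
    ∃ s : ℝ, ∀ i, ∑ l, c l * (x i (y l)) ^ 2 = s * (x i (y k)) ^ 2
  inj : ∀ k l, (∀ i, x i (y k) = 0 ↔ x i (y l) = 0) → k = l
  ne : ∀ k, ∃ i, x i (y k) ≠ 0
  pt : ∀ k z, (∀ i, x i (y k) = 0 → x i z = 0) → ∃ c : ℝ, z = c • y k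
  sep : ∀ z, (∀ i, x i z = 0) → z = 0

/-- The bound for all configurations. -/
def Bound (a C : ℝ) : Prop :=
  ∀ (n : ℕ) (ι κ : Type) [Fintype ι] [Fintype κ] (x : ι → Module.Dual ℝ (Fin n → ℝ))
    (y : κ → Fin n → ℝ), Conf x y → (Fintype.card κ : ℝ) ≤ C * a ^ n

section basic

variable {ι κ V : Type} [Fintype ι] [Fintype κ] [AddCommGroup V] [Module ℝ V]

/-- Transport along a linear equivalence. -/
theorem Conf.map {x : ι → Module.Dual ℝ V} {y : κ → V} (h : Conf x y) {W : Type}
    [AddCommGroup W] [Module ℝ W] (e : V ≃ₗ[ℝ] W) :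
    Conf (fun i => (x i).comp e.symm.toLinearMap) (fun k => e (y k)) := by
  have h1 : ∀ i k, ((x i).comp e.symm.toLinearMap) (e (y k)) = x i (y k) := by
    intro i k
    simp
  refine ⟨?_, ?_, ?_, ?_, ?_⟩
  · intro k c hc
    simp only [h1] at hc ⊢
    exact h.fac k c hc
  · intro k l hkl
    simp only [h1] at hkl
    exact h.inj k l hkl
  · intro k
    simp only [h1]
    exact h.ne k
  · intro k z hz
    simp only [h1] at hz
    obtain ⟨c, hc⟩ := h.pt k (e.symm z) hz
    refine ⟨c, ?_⟩
    rw [← map_smul, ← hc, LinearEquiv.apply_symm_apply]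
  · intro z hz
    have h2 := h.sep (e.symm z) hz
    rwa [LinearEquiv.map_eq_zero_iff] at h2

theorem Conf.card_le {a C : ℝ} (hB : Bound a C) [FiniteDimensional ℝ V]
    {x : ι → Module.Dual ℝ V} {y : κ → V} (h : Conf x y) :
    (Fintype.card κ : ℝ) ≤ C * a ^ Module.finrank ℝ V := by
  let e : V ≃ₗ[ℝ] (Fin (Module.finrank ℝ V) → ℝ) := (Module.finBasis ℝ V).equivFun
  exact hB _ _ _ _ _ (h.map e)

/-- Sub-configuration on the kernel of a form. -/
theorem Conf.ker {x : ι → Module.Dual ℝ V} {y : κ → V} (h : Conf x y) (i0 : ι)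
    [DecidablePred fun k => x i0 (y k) = 0] :
    Conf (V := LinearMap.ker (x i0)) (κ := {k // x i0 (y k) = 0})
      (fun i => (x i).comp (LinearMap.ker (x i0)).subtype) (fun k => ⟨y k, k.2⟩) := by
  classical
  refine ⟨?_, ?_, ?_, ?_, ?_⟩
  · intro k c hc
    simp only [LinearMap.comp_apply, Submodule.subtype_apply] at hc ⊢
    let c' : κ → ℝ := fun l => if hl : x i0 (y l) = 0 then c ⟨l, hl⟩ else 0
    have h1 : ∀ i, ∑ l, c' l * (x i (y l)) ^ 2 =
        ∑ l : {k // x i0 (y k) = 0}, c l * (x i (y l)) ^ 2 := by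
      intro i
      rw [← Finset.sum_filter_add_sum_filter_not univ (fun k => x i0 (y k) = 0)]
      rw [Finset.sum_eq_zero (s := univ.filter fun k => ¬ x i0 (y k) = 0), add_zero]
      · rw [Finset.sum_subtype (univ.filter fun k => x i0 (y k) = 0) (p := fun k => x i0 (y k) = 0)
          (by simp)]
        refine Finset.sum_congr rfl fun l _ => ?_
        simp only [c']
        rw [dif_pos l.2]
      · intro l hl
        simp only [c']
        rw [dif_neg (Finset.mem_filter.1 hl).2, zero_mul]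
    obtain ⟨s, hs⟩ := h.fac k c' (by
      intro i hi
      rw [h1]
      exact hc i hi)
    exact ⟨s, fun i => by rw [← h1]; exact hs i⟩
  · intro k l hkl
    exact Subtype.ext (h.inj k l hkl)
  · intro k
    exact h.ne k
  · rintro k ⟨z, hz⟩ hz'
    obtain ⟨c, hc⟩ := h.pt k z hz'
    exact ⟨c, Subtype.ext hc⟩
  · rintro ⟨z, hz⟩ hz'
    exact Subtype.ext (h.sep z hz')

end basic

section power

variable {ι κ V : Type} [Fintype ι] [Fintype κ] [AddCommGroup V] [Module ℝ V]

/-- The point of `V` belonging to the `j`-th factor. -/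
def comp {m : ℕ} (φ : Module.Dual ℝ V) (u : V) (j : Fin m) :
    ((Fin m → LinearMap.ker φ) × ℝ) →ₗ[ℝ] V :=
  ((LinearMap.ker φ).subtype.comp (LinearMap.proj j)).comp (LinearMap.fst ℝ _ _) +
    (LinearMap.toSpanSingleton ℝ V u).comp (LinearMap.snd ℝ _ _)

theorem comp_apply {m : ℕ} (φ : Module.Dual ℝ V) (u : V) (j : Fin m)
    (z : (Fin m → LinearMap.ker φ) × ℝ) : comp φ u j z = (z.1 j : V) + z.2 • u := by
  simp [comp]

theorem Conf.power {x : ι → Module.Dual ℝ V} {y : κ → V} (h : Conf x y) (i0 : ι) (u : V)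
    (hu : x i0 u = 1) (m : ℕ) (hm : 0 < m) [DecidablePred fun k => x i0 (y k) ≠ 0] :
    ∃ p : (Fin m → {k // x i0 (y k) ≠ 0}) → (Fin m → LinearMap.ker (x i0)) × ℝ,
      Conf (fun q : Fin m × ι => (x q.2).comp (comp (x i0) u q.1)) p := by
  classical
  -- normalised points
  let Y : κ → V := fun k => (x i0 (y k))⁻¹ • y k
  have hY0 : ∀ k, x i0 (y k) ≠ 0 → x i0 (Y k) = 1 := by
    intro k hk
    simp only [Y, map_smul, smul_eq_mul]
    exact inv_mul_cancel₀ hk
  have hYx : ∀ i k, x i (Y k) = (x i0 (y k))⁻¹ * x i (y k) := by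
    intro i k
    simp only [Y, map_smul, smul_eq_mul]
  have hYz : ∀ i k, x i0 (y k) ≠ 0 → (x i (Y k) = 0 ↔ x i (y k) = 0) := by
    intro i k hk
    rw [hYx]
    constructor
    · intro h1
      rcases mul_eq_zero.1 h1 with h2 | h2
      · exact absurd h2 (inv_ne_zero hk)
      · exact h2
    · intro h1
      rw [h1, mul_zero]
  let p : (Fin m → {k // x i0 (y k) ≠ 0}) → (Fin m → LinearMap.ker (x i0)) × ℝ := fun f =>
    (fun j => ⟨Y (f j) - u, by
      rw [LinearMap.mem_ker, map_sub, hY0 _ (f j).2, hu, sub_self]⟩, 1)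
  have hp : ∀ f j, comp (x i0) u j (p f) = Y (f j) := by
    intro f j
    rw [comp_apply]
    simp [p]
  refine ⟨p, ?_, ?_, ?_, ?_, ?_⟩
  · intro f c hc
    have hval : ∀ (q : Fin m × ι) g, ((x q.2).comp (comp (x i0) u q.1)) (p g) =
        x q.2 (Y (g q.1)) := by
      intro q g
      rw [LinearMap.comp_apply, hp]
    simp only [hval] at hc ⊢
    refine ⟨∑ g, c g, ?_⟩
    rintro ⟨j, i⟩
    -- apply `fac` in the `j`-th factor
    let c' : κ → ℝ := fun l => if hl : x i0 (y l) ≠ 0 then
      (∑ g ∈ univ.filter (fun g : Fin m → {k // x i0 (y k) ≠ 0} => g j = ⟨l, hl⟩), c g) *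
        ((x i0 (y l))⁻¹) ^ 2 else 0
    have h1 : ∀ i, ∑ l, c' l * (x i (y l)) ^ 2 = ∑ g, c g * (x i (Y (g j))) ^ 2 := by
      intro i
      rw [← Finset.sum_filter_add_sum_filter_not univ (fun k => x i0 (y k) ≠ 0)]
      rw [Finset.sum_eq_zero (s := univ.filter fun k => ¬ x i0 (y k) ≠ 0), add_zero]
      · rw [Finset.sum_subtype (univ.filter fun k => x i0 (y k) ≠ 0)
          (p := fun k => x i0 (y k) ≠ 0) (by simp)]
        rw [← Finset.sum_fiberwise (univ : Finset (Fin m → {k // x i0 (y k) ≠ 0}))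
          (fun g => g j) (fun g => c g * (x i (Y (g j))) ^ 2)]
        refine Finset.sum_congr rfl fun l _ => ?_
        simp only [c']
        rw [dif_pos l.2, Finset.sum_mul, Finset.sum_mul]
        refine Finset.sum_congr rfl fun g hg => ?_
        have hg' : g j = l := (Finset.mem_filter.1 hg).2
        rw [hg', hYx]
        ring
      · intro l hl
        simp only [c']
        rw [dif_neg (Finset.mem_filter.1 hl).2, zero_mul]
    obtain ⟨s, hs⟩ := h.fac (f j) c' (by
      intro i hi
      rw [h1]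
      exact hc (j, i) ((hYz i _ (f j).2).2 hi))
    have h2 : ∀ i, ∑ g, c g * (x i (Y (g j))) ^ 2 = s * (x i (y (f j))) ^ 2 := fun i => by
      rw [← h1]; exact hs i
    have h3 := h2 i0
    have h4 : ∑ g, c g * (x i0 (Y (g j))) ^ 2 = ∑ g, c g := by
      refine Finset.sum_congr rfl fun g _ => ?_
      rw [hY0 _ (g j).2]; ring
    rw [h4] at h3
    show ∑ g, c g * (x i (Y (g j))) ^ 2 = (∑ g, c g) * (x i (Y (f j))) ^ 2
    rw [h2 i, h3, hYx]
    have h5 : x i0 (y (f j)) ≠ 0 := (f j).2
    field_simp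
  · intro f g hfg
    funext j
    apply Subtype.ext
    apply h.inj
    intro i
    have h1 := hfg (j, i)
    simp only [LinearMap.comp_apply, hp] at h1
    rw [hYz i _ (f j).2, hYz i _ (g j).2] at h1
    exact h1
  · intro f
    refine ⟨(⟨0, hm⟩, i0), ?_⟩
    simp only [LinearMap.comp_apply, hp]
    rw [hY0 _ (f _).2]
    exact one_ne_zero
  · intro f z hz
    refine ⟨z.2, ?_⟩
    have hj : ∀ j, comp (x i0) u j z = z.2 • Y (f j) := by
      intro j
      obtain ⟨c, hc⟩ := h.pt (f j) (comp (x i0) u j z) (by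
        intro i hi
        have h1 := hz (j, i)
        simp only [LinearMap.comp_apply, hp] at h1
        exact h1 ((hYz i _ (f j).2).2 hi))
      have h2 : x i0 (comp (x i0) u j z) = z.2 := by
        rw [comp_apply, map_add, map_smul, hu, smul_eq_mul, mul_one]
        have h3 : x i0 ((z.1 j : V)) = 0 := (z.1 j).2
        rw [h3, zero_add]
      rw [hc, map_smul, smul_eq_mul] at h2
      rw [hc, ← h2]
      simp only [Y]
      rw [smul_smul, mul_assoc, mul_inv_cancel₀ (f j).2, mul_one]
    ext j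
    · have h1 := hj j
      rw [comp_apply] at h1
      simp only [p, Prod.smul_mk, Pi.smul_apply, Submodule.coe_smul]
      rw [smul_sub, ← h1, add_sub_cancel_right]
    · simp [p]
  · intro z hz
    have hj : ∀ j, comp (x i0) u j z = 0 := by
      intro j
      apply h.sep
      intro i
      exact hz (j, i)
    have h2 : z.2 = 0 := by
      have h1 := congrArg (x i0) (hj ⟨0, hm⟩)
      rw [comp_apply, map_add, map_smul, hu, smul_eq_mul, mul_one, map_zero] at h1
      have h3 : x i0 ((z.1 ⟨0, hm⟩ : V)) = 0 := (z.1 _).2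
      rwa [h3, zero_add] at h1
    ext j
    · have h1 := hj j
      rw [comp_apply, h2, zero_smul, add_zero] at h1
      rw [h1]; rfl
    · exact h2

/-- The points off one form. -/
theorem Conf.card_off_le {a C : ℝ} (ha : 0 < a) (hB : Bound a C) [FiniteDimensional ℝ V]
    {x : ι → Module.Dual ℝ V} {y : κ → V} (h : Conf x y) (i0 : ι) (hi0 : x i0 ≠ 0)
    [DecidablePred fun k => x i0 (y k) ≠ 0] {n : ℕ} (hn : Module.finrank ℝ V = n + 1) :
    (Fintype.card {k // x i0 (y k) ≠ 0} : ℝ) ≤ a ^ n := by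
  classical
  obtain ⟨u, hu⟩ : ∃ u, x i0 u = 1 := by
    obtain ⟨w, hw⟩ : ∃ w, x i0 w ≠ 0 := by
      by_contra hcon
      push Not at hcon
      exact hi0 (LinearMap.ext hcon)
    exact ⟨(x i0 w)⁻¹ • w, by rw [map_smul, smul_eq_mul, inv_mul_cancel₀ hw]⟩
  have hker : Module.finrank ℝ (LinearMap.ker (x i0)) = n := by
    have h1 := LinearMap.finrank_range_add_finrank_ker (x i0)
    have h2 : LinearMap.range (x i0) = ⊤ := LinearMap.range_eq_top.2 (by
      intro r
      exact ⟨r • u, by rw [map_smul, hu, smul_eq_mul, mul_one]⟩)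
    rw [h2, finrank_top, Module.finrank_self] at h1
    omega
  set N : ℕ := Fintype.card {k // x i0 (y k) ≠ 0} with hN
  have key : ∀ m : ℕ, 0 < m → (N : ℝ) ^ m ≤ C * a * (a ^ n) ^ m := by
    intro m hm
    obtain ⟨p, hp⟩ := h.power i0 u hu m hm
    have h1 := hp.card_le hB
    have h2 : Module.finrank ℝ ((Fin m → LinearMap.ker (x i0)) × ℝ) = m * n + 1 := by
      rw [Module.finrank_prod, Module.finrank_pi_fintype, Module.finrank_self]
      simp [hker]
    rw [h2, Fintype.card_fun, Fintype.card_fin] at h1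
    push_cast at h1
    calc (N : ℝ) ^ m ≤ C * a ^ (m * n + 1) := h1
      _ = C * a * (a ^ n) ^ m := by rw [pow_succ, ← pow_mul, mul_comm n m]; ring
  by_contra hcon
  push Not at hcon
  have hpos : 0 < a ^ n := pow_pos ha n
  have hr : 1 < (N : ℝ) / a ^ n := by rwa [lt_div_iff₀ hpos, one_mul]
  obtain ⟨m, hm⟩ := pow_unbounded_of_one_lt (C * a) hr
  have hm' : C * a < ((N : ℝ) / a ^ n) ^ (m + 1) :=
    hm.trans_le (pow_le_pow_right₀ hr.le (Nat.le_succ m))
  have h1 := key (m + 1) (Nat.succ_pos m)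
  rw [div_pow, lt_div_iff₀ (pow_pos hpos _)] at hm'
  linarith

/-- **The power trick.** -/
theorem card_mul_le {a C : ℝ} (ha : 1 < a) (hB : Bound a C) : ∀ (n : ℕ) (ι κ V : Type)
    [Fintype ι] [Fintype κ] [AddCommGroup V] [Module ℝ V] [FiniteDimensional ℝ V]
    (x : ι → Module.Dual ℝ V) (y : κ → V), Conf x y → Module.finrank ℝ V = n →
    (Fintype.card κ : ℝ) * (a - 1) ≤ a ^ n - 1 := by
  classical
  intro n
  induction n with
  | zero =>
    intro ι κ V _ _ _ _ _ x y h hn
    have hempty : IsEmpty κ := by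
      refine ⟨fun k => ?_⟩
      obtain ⟨i, hi⟩ := h.ne k
      apply hi
      have h1 : y k = 0 := by
        have : Subsingleton V := Module.finrank_zero_iff.1 hn
        exact Subsingleton.elim _ _
      rw [h1, map_zero]
    rw [Fintype.card_eq_zero]
    simp
  | succ n ih =>
    intro ι κ V _ _ _ _ _ x y h hn
    obtain ⟨i0, hi0⟩ : ∃ i0, x i0 ≠ 0 := by
      by_contra hcon
      push Not at hcon
      have : Subsingleton V := by
        refine ⟨fun z w => ?_⟩
        have h1 : ∀ z, z = (0 : V) := fun z => h.sep z fun i => by rw [hcon i]; rfl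
        rw [h1 z, h1 w]
      have h1 := Module.finrank_zero_of_subsingleton (R := ℝ) (M := V)
      omega
    have h1 := h.card_off_le (by linarith) hB i0 hi0 hn
    have hker : Module.finrank ℝ (LinearMap.ker (x i0)) = n := by
      have h1 := LinearMap.finrank_range_add_finrank_ker (x i0)
      have h2 : LinearMap.range (x i0) = ⊤ := by
        refine LinearMap.range_eq_top.2 ?_
        obtain ⟨w, hw⟩ : ∃ w, x i0 w ≠ 0 := by
          by_contra hcon
          push Not at hcon
          exact hi0 (LinearMap.ext hcon)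
        intro r
        exact ⟨(r / x i0 w) • w, by rw [map_smul, smul_eq_mul, div_mul_cancel₀ _ hw]⟩
      rw [h2, finrank_top, Module.finrank_self] at h1
      omega
    have h2 := ih ι _ _ _ _ (h.ker i0) hker
    have h3 : Fintype.card κ = Fintype.card {k // x i0 (y k) = 0} +
        Fintype.card {k // x i0 (y k) ≠ 0} := by
      rw [← Fintype.card_sum]
      exact (Fintype.card_congr (Equiv.sumCompl fun k => x i0 (y k) = 0)).symm
    rw [h3, pow_succ]
    push_cast
    nlinarith [pow_pos (show (0 : ℝ) < a by linarith) n]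

end power

end Pool.Agent.Helper16.PsdPower
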