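import Mathlib
import Pool.Agent.Helper16.PsdPower

/-!
# Adapters for the power trick
-/

namespace Pool.Agent.Helper16.PsdPower

open Finset Matrix

/-- The form of a vector. -/
def dual {n : ℕ} (w : Fin n → ℝ) : Module.Dual ℝ (Fin n → ℝ) where
  toFun z := w ⬝ᵥ z
  map_add' z z' := dotProduct_add _ _ _
  map_smul' c z := by rw [dotProduct_smul]; rfl

theorem dual_apply {n : ℕ} (w z : Fin n → ℝ) : dual w z = w ⬝ᵥ z := rfl

theorem exists_dual {n : ℕ} (f : Module.Dual ℝ (Fin n → ℝ)) :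
    ∃ w : Fin n → ℝ, ∀ z, f z = z ⬝ᵥ w := by
  refine ⟨fun l => f (Pi.single l 1), fun z => ?_⟩
  conv_lhs => rw [← Finset.univ_sum_single z]
  rw [map_sum]
  refine Finset.sum_congr rfl fun l _ => ?_
  have h1 : (Pi.single l (z l) : Fin n → ℝ) = z l • Pi.single l 1 := by
    rw [← Pi.single_smul, smul_eq_mul, mul_one]
  rw [h1, map_smul, smul_eq_mul]

/-- A configuration in coordinates gives a `Conf`. -/
theorem conf_of {ι κ E : Type} [Fintype ι] [Fintype κ] {n : ℕ} [AddCommGroup E] [Module ℝ E]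
    (v : ι → E) (h : κ → Module.Dual ℝ E)
    (hfac : ∀ k (g : Module.Dual ℝ E), (∀ i, h k (v i) = 0 → g (v i) = 0) →
      ∃ c : ℝ, ∀ i, g (v i) = c * h k (v i))
    (hinj : ∀ k l, (∀ i, h k (v i) = 0 ↔ h l (v i) = 0) → k = l)
    (hne : ∀ k, ∃ i, h k (v i) ≠ 0)
    (x : ι → Fin n → ℝ) (y : κ → Fin n → ℝ)
    (hS : ∀ i k, h k (v i) = (x i ⬝ᵥ y k) ^ 2)
    (hspan : Submodule.span ℝ (Set.range x) = ⊤)
    (hF1 : ∀ k z, (∀ i, x i ⬝ᵥ y k = 0 → x i ⬝ᵥ z = 0) → ∃ c : ℝ, z = c • y k) :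
    Conf (fun i => dual (x i)) y := by
  have hz : ∀ i k, h k (v i) = 0 ↔ x i ⬝ᵥ y k = 0 := by
    intro i k
    rw [hS, pow_eq_zero_iff two_ne_zero]
  refine ⟨?_, ?_, ?_, ?_, ?_⟩
  · intro k c hc
    simp only [dual_apply] at hc ⊢
    have hg : ∀ i, (∑ l, c l • h l) (v i) = ∑ l, c l * (x i ⬝ᵥ y l) ^ 2 := by
      intro i
      rw [LinearMap.sum_apply]
      refine Finset.sum_congr rfl fun l _ => ?_
      rw [LinearMap.smul_apply, smul_eq_mul, hS]
    obtain ⟨s, hs⟩ := hfac k (∑ l, c l • h l) (by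
      intro i hi
      rw [hg]
      exact hc i ((hz i k).1 hi))
    refine ⟨s, fun i => ?_⟩
    rw [← hg, hs, hS]
  · intro k l hkl
    apply hinj
    intro i
    rw [hz, hz]
    exact hkl i
  · intro k
    obtain ⟨i, hi⟩ := hne k
    exact ⟨i, fun hcon => hi ((hz i k).2 hcon)⟩
  · intro k z hz'
    exact hF1 k z hz'
  · intro z hz'
    have h1 : ∀ w ∈ Submodule.span ℝ (Set.range x), w ⬝ᵥ z = 0 := by
      intro w hw
      induction hw using Submodule.span_induction with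
      | mem w hw => obtain ⟨i, rfl⟩ := hw; exact hz' i
      | zero => exact zero_dotProduct _
      | add w w' _ _ h1 h2 => rw [add_dotProduct, h1, h2, add_zero]
      | smul c w _ h1 => rw [smul_dotProduct, h1, smul_zero]
    rw [hspan] at h1
    exact dotProduct_self_eq_zero.1 (h1 z Submodule.mem_top)

/-- A bound for configurations in coordinates gives `Bound`. -/
theorem bound_of_coord {a C : ℝ}
    (hf : ∀ (ι κ : Type) [Fintype ι] [Fintype κ] (n : ℕ) (E : Type) [AddCommGroup E] [Module ℝ E]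
      (v : ι → E) (h : κ → Module.Dual ℝ E),
      (∀ k (g : Module.Dual ℝ E), (∀ i, h k (v i) = 0 → g (v i) = 0) →
        ∃ c : ℝ, ∀ i, g (v i) = c * h k (v i)) →
      (∀ k l, (∀ i, h k (v i) = 0 ↔ h l (v i) = 0) → k = l) →
      (∀ k, ∃ i, h k (v i) ≠ 0) →
      ∀ (x : ι → Fin n → ℝ) (y : κ → Fin n → ℝ),
      (∀ i k, h k (v i) = (x i ⬝ᵥ y k) ^ 2) →
      Submodule.span ℝ (Set.range x) = ⊤ →
      (∀ k z, (∀ i, x i ⬝ᵥ y k = 0 → x i ⬝ᵥ z = 0) → ∃ c : ℝ, z = c • y k) →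
      (Fintype.card κ : ℝ) ≤ C * a ^ n) : Bound a C := by
  intro n ι κ _ _ x y hC
  classical
  let row : κ → ι → ℝ := fun k i => (x i (y k)) ^ 2
  let R : Submodule ℝ (ι → ℝ) := Submodule.span ℝ (Set.range row)
  have hrow : ∀ k, row k ∈ R := fun k => Submodule.subset_span ⟨k, rfl⟩
  let v : ι → Module.Dual ℝ R := fun i => (LinearMap.proj i).comp R.subtype
  let h : κ → Module.Dual ℝ (Module.Dual ℝ R) := fun k => Module.Dual.eval ℝ R ⟨row k, hrow k⟩
  have hv : ∀ (r : R) i, Module.Dual.eval ℝ R r (v i) = (r : ι → ℝ) i := fun r i => rfl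
  have hh : ∀ k i, h k (v i) = (x i (y k)) ^ 2 := fun k i => rfl
  have hx : ∀ i, ∃ w : Fin n → ℝ, ∀ z, x i z = w ⬝ᵥ z := by
    intro i
    obtain ⟨w, hw⟩ := exists_dual (x i)
    exact ⟨w, fun z => by rw [hw, dotProduct_comm]⟩
  choose x' hx' using hx
  refine hf ι κ n (Module.Dual ℝ R) v h ?_ ?_ ?_ x' y ?_ ?_ ?_
  · intro k g hg
    obtain ⟨r, rfl⟩ := (Module.evalEquiv ℝ R).surjective g
    have hr : ∀ i, (Module.evalEquiv ℝ R r) (v i) = (r : ι → ℝ) i := fun i => rfl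
    simp only [hr, hh] at hg ⊢
    obtain ⟨c, hc⟩ := (Submodule.mem_span_range_iff_exists_fun ℝ).1 r.2
    have hc' : ∀ i, (r : ι → ℝ) i = ∑ l, c l * (x i (y l)) ^ 2 := by
      intro i
      rw [← hc, Finset.sum_apply]
      rfl
    obtain ⟨s, hs⟩ := hC.fac k c (by
      intro i hi
      rw [← hc']
      exact hg i (by rw [hi]; ring))
    exact ⟨s, fun i => by rw [hc', hs]⟩
  · intro k l hkl
    simp only [hh, pow_eq_zero_iff two_ne_zero] at hkl
    exact hC.inj k l hkl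
  · intro k
    obtain ⟨i, hi⟩ := hC.ne k
    exact ⟨i, by rw [hh]; exact pow_ne_zero _ hi⟩
  · intro i k
    rw [hh, hx']
  · by_contra hcon
    have hlt : Submodule.span ℝ (Set.range x') < ⊤ := lt_top_iff_ne_top.2 hcon
    obtain ⟨f, hf0, hf⟩ := Submodule.exists_le_ker_of_lt_top _ hlt
    obtain ⟨w, hw⟩ := exists_dual f
    have h1 : w = 0 := by
      apply hC.sep
      intro i
      rw [hx', ← hw]
      exact hf (Submodule.subset_span ⟨i, rfl⟩)
    apply hf0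
    ext z
    simp [hw, h1]
  · intro k z hz
    apply hC.pt k z
    intro i hi
    rw [hx'] at hi ⊢
    exact hz i hi

/-- **The power trick in coordinates.** -/
theorem card_mul_le_coord {a C : ℝ} (ha : 1 < a) (hB : Bound a C) {ι κ E : Type} [Fintype ι]
    [Fintype κ] {n : ℕ} [AddCommGroup E] [Module ℝ E]
    (v : ι → E) (h : κ → Module.Dual ℝ E)
    (hfac : ∀ k (g : Module.Dual ℝ E), (∀ i, h k (v i) = 0 → g (v i) = 0) →
      ∃ c : ℝ, ∀ i, g (v i) = c * h k (v i))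
    (hinj : ∀ k l, (∀ i, h k (v i) = 0 ↔ h l (v i) = 0) → k = l)
    (hne : ∀ k, ∃ i, h k (v i) ≠ 0)
    (x : ι → Fin n → ℝ) (y : κ → Fin n → ℝ)
    (hS : ∀ i k, h k (v i) = (x i ⬝ᵥ y k) ^ 2)
    (hspan : Submodule.span ℝ (Set.range x) = ⊤)
    (hF1 : ∀ k z, (∀ i, x i ⬝ᵥ y k = 0 → x i ⬝ᵥ z = 0) → ∃ c : ℝ, z = c • y k) :
    (Fintype.card κ : ℝ) ≤ (a ^ n - 1) / (a - 1) := by
  rw [le_div_iff₀ (by linarith)]
  exact card_mul_le ha hB n ι κ (Fin n → ℝ) _ y
    (conf_of v h hfac hinj hne x y hS hspan hF1) (by simp)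

end Pool.Agent.Helper16.PsdPower
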